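import Pool.Agent.KS6_29.LD.Pd
import Pool.Graph.R_seed8.TH321.GF.AQ

set_option autoImplicit false

/-! Averages of the elements of the complex algebra: plain, with the square of zeta, with zeta. -/

namespace Pool.Agent.KS6_29.LD

open Finset MeasureTheory Complex MonoidAlgebra
open Pool.Agent.W184.NZ
open Pool.Agent.H306R2.SM (om cl Yf)
open Pool.Agent.H262R4.TM (Rng Ck)

lemma mh_exp (t : ℝ) {m n : ℕ} (hm : m ≠ 0) (hn : n ≠ 0) :
    mh t (m, n) = ((((m:ℝ) * n) ^ (-(1 / 2 : ℝ)) : ℝ) : ℂ) *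
      Complex.exp ((((Real.log n - Real.log m : ℝ) : ℂ) * I) * t) := by
  have m0 : (0:ℝ) < m := by exact_mod_cast Nat.pos_of_ne_zero hm
  have n0 : (0:ℝ) < n := by exact_mod_cast Nat.pos_of_ne_zero hn
  have e0 : mh t (m, n) = (m : ℂ) ^ (-(1 / 2 + t * Complex.I)) * (n : ℂ) ^ (-(1 / 2 - t * Complex.I)) := rfl
  have mc : (m:ℂ) ≠ 0 := by exact_mod_cast hm
  have nc : (n:ℂ) ≠ 0 := by exact_mod_cast hn
  have e1 : ((m:ℝ) * n) ^ (-(1 / 2 : ℝ)) = Real.exp (-(Real.log m + Real.log n) / 2) := by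
    rw [Real.rpow_def_of_pos (by positivity), Real.log_mul m0.ne' n0.ne']
    congr 1; ring
  rw [e1, e0, Complex.cpow_def_of_ne_zero mc, Complex.cpow_def_of_ne_zero nc, ← Complex.exp_add,
      Complex.ofReal_exp, ← Complex.exp_add, ← Complex.natCast_log, ← Complex.natCast_log]
  congr 1
  push_cast
  ring

lemma mh_conj (t : ℝ) {x : ℕ × ℕ} (h1 : x.1 ≠ 0) (h2 : x.2 ≠ 0) : mh t x.swap = starRingEnd ℂ (mh t x) := by
  obtain ⟨m, n⟩ := x
  simp only at h1 h2
  rw [Prod.swap_prod_mk, mh_exp t h1 h2, mh_exp t h2 h1, map_mul, Complex.conj_ofReal, ← Complex.exp_conj, mul_comm (n:ℝ)]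
  congr 2
  rw [map_mul, map_mul, Complex.conj_ofReal, Complex.conj_ofReal, Complex.conj_I]
  push_cast
  ring

lemma int_mhC {m n : ℕ} (hm : m ≠ 0) (hn : n ≠ 0) (hne : m ≠ n) (A B : ℝ) :
    ‖∫ t in A..B, mh t (m, n)‖ ≤ ((m:ℝ) * n) ^ (-(1 / 2 : ℝ)) * (2 / |Real.log n - Real.log m|) := by
  have m0 : (0:ℝ) < m := by exact_mod_cast Nat.pos_of_ne_zero hm
  have n0 : (0:ℝ) < n := by exact_mod_cast Nat.pos_of_ne_zero hn
  have hθ : Real.log n - Real.log m ≠ 0 := by
    intro h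
    have h1 : Real.log n = Real.log m := by linarith
    have h2 := Real.log_injOn_pos (Set.mem_Ioi.mpr n0) (Set.mem_Ioi.mpr m0) h1
    exact hne (by exact_mod_cast h2.symm)
  set θ := Real.log n - Real.log m with hθd
  have hc : ((θ:ℂ) * I) ≠ 0 := mul_ne_zero (by exact_mod_cast hθ) I_ne_zero
  simp_rw [mh_exp _ hm hn]
  rw [intervalIntegral.integral_const_mul, integral_exp_mul_complex hc, norm_mul, Complex.norm_real,
    Real.norm_of_nonneg (by positivity)]
  refine mul_le_mul_of_nonneg_left ?_ (by positivity)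
  rw [norm_div]
  have e1 : ‖((θ:ℂ) * I)‖ = |θ| := by rw [norm_mul, Complex.norm_I, mul_one, Complex.norm_real, Real.norm_eq_abs]
  rw [e1]
  refine div_le_div_of_nonneg_right ?_ (abs_nonneg _)
  refine (norm_sub_le _ _).trans ?_
  have e2 : ∀ x : ℝ, ‖Complex.exp ((θ:ℂ) * I * x)‖ = 1 := by
    intro x
    rw [show (θ:ℂ) * I * x = ((θ * x : ℝ) : ℂ) * I by push_cast; ring, Complex.norm_exp_ofReal_mul_I]
  rw [e2, e2]; norm_num

lemma log_ge {N : ℝ} {m n : ℕ} (hm : m ≠ 0) (hn : n ≠ 0) (hmN : (m:ℝ) ≤ N) (hnN : (n:ℝ) ≤ N) (hne : m ≠ n) :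
    1 / N ≤ |Real.log n - Real.log m| := by
  have m0 : (0:ℝ) < m := by exact_mod_cast Nat.pos_of_ne_zero hm
  have hN1 : 0 < N := m0.trans_le hmN
  have key : ∀ a b : ℕ, a ≠ 0 → a < b → (b:ℝ) ≤ N → 1 / N ≤ Real.log b - Real.log a := by
    intro a b ha hab hb
    have h2 := Pool.Agent.W184.log_gap (Nat.pos_of_ne_zero ha) hab
    refine le_trans ?_ h2
    have b0 : (0:ℝ) < b := by exact_mod_cast (by omega : 0 < b)
    have h3 : (1:ℝ) ≤ (b:ℝ) - a := by
      have : (a:ℝ) + 1 ≤ b := by exact_mod_cast hab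
      linarith
    exact div_le_div₀ (by linarith) h3 b0 hb
  rcases lt_or_gt_of_ne hne with h5 | h5
  · exact (key m n hm h5 hnN).trans (le_abs_self _)
  · rw [abs_sub_comm]
    exact (key n m hn h5 hmN).trans (le_abs_self _)

lemma rpow_le1 {m n : ℕ} (hm : m ≠ 0) (hn : n ≠ 0) : ((m:ℝ) * n) ^ (-(1 / 2 : ℝ)) ≤ 1 := by
  refine Real.rpow_le_one_of_one_le_of_nonpos ?_ (by norm_num)
  have a1 : (1:ℝ) ≤ m := by exact_mod_cast Nat.pos_of_ne_zero hm
  have a2 : (1:ℝ) ≤ n := by exact_mod_cast Nat.pos_of_ne_zero hn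
  nlinarith

lemma mh_diag (t : ℝ) {m : ℕ} (hm : m ≠ 0) : mh t (m, m) = ((1 / (m:ℝ) : ℝ) : ℂ) := by
  have m0 : (0:ℝ) < m := by exact_mod_cast Nat.pos_of_ne_zero hm
  rw [mh_exp t hm hm, sub_self]
  simp only [Complex.ofReal_zero, zero_mul, Complex.exp_zero, mul_one]
  congr 1
  rw [← pow_two, ← Real.rpow_natCast, ← Real.rpow_mul m0.le]
  norm_num
  rw [Real.rpow_neg_one]

/-- the plain average of a monomial -/
lemma int_mh0 {N : ℝ} {m n : ℕ} (hm : m ≠ 0) (hn : n ≠ 0) (hmN : (m:ℝ) ≤ N) (hnN : (n:ℝ) ≤ N) (A B : ℝ) :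
    ‖(∫ t in A..B, mh t (m, n)) - ((B - A : ℝ) : ℂ) * w0 (m, n)‖ ≤ 2 * N := by
  have m0 : (0:ℝ) < m := by exact_mod_cast Nat.pos_of_ne_zero hm
  have hN : 0 < N := m0.trans_le hmN
  by_cases h : m = n
  · subst h
    simp_rw [mh_diag _ hm]
    unfold w0
    simp only [intervalIntegral.integral_const, if_true]
    rw [Complex.real_smul, sub_self, norm_zero]
    positivity
  · unfold w0
    simp only [h, if_false, Complex.ofReal_zero, mul_zero, sub_zero]
    refine (int_mhC hm hn h A B).trans ?_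
    have h4 := log_ge hm hn hmN hnN h
    have h0 : 0 < |Real.log n - Real.log m| := lt_of_lt_of_le (by positivity) h4
    have h7 : 2 / |Real.log n - Real.log m| ≤ 2 * N := by
      rw [div_le_iff₀ h0]
      calc (2:ℝ) = 2 * N * (1 / N) := by field_simp
        _ ≤ _ := mul_le_mul_of_nonneg_left h4 (by positivity)
    calc _ ≤ 1 * (2 * N) := mul_le_mul (rpow_le1 hm hn) h7 (by positivity) zero_le_one
      _ = _ := one_mul _

lemma evC_cont {N : ℝ} {F : DC} {f : DA} (hF : Dm F f) (hf : Bd N f) : Continuous fun t => evC t F := by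
  simp_rw [evC_eq _ hF.supp]
  refine continuous_finsetSum _ fun x hx => ?_
  exact continuous_const.mul (mh_cont (hf x hx).1.1 (hf x hx).1.2)

lemma evC_le {N : ℝ} {F : DC} {f : DA} (hF : Dm F f) (hf : Bd N f) (t : ℝ) : ‖evC t F‖ ≤ l1 f := by
  rw [evC_eq t hF.supp]
  refine (norm_sum_le _ _).trans (sum_le_sum fun x hx => ?_)
  rw [norm_mul]
  calc ‖F.coeff x‖ * ‖mh t x‖ ≤ |f.coeff x| * 1 :=
        mul_le_mul ((hF x).trans (le_abs_self _)) (mh_norm_le (hf x hx).1.1 (hf x hx).1.2) (norm_nonneg _) (abs_nonneg _)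
    _ = _ := mul_one _

/-- the plain average -/
theorem avg0C {N : ℝ} (hN : 0 ≤ N) {F : DC} {f : DA} (hF : Dm F f) (hf : Bd N f) (A B : ℝ) :
    ‖(∫ t in A..B, evC t F) - ((B - A : ℝ) : ℂ) * lamC w0 F‖ ≤ 2 * N * l1 f := by
  have h1 : ∫ t in A..B, evC t F = ∑ x ∈ f.coeff.support, F.coeff x * ∫ t in A..B, mh t x := by
    simp_rw [evC_eq _ hF.supp]
    rw [intervalIntegral.integral_finsetSum]
    · refine sum_congr rfl fun x _ => ?_
      rw [intervalIntegral.integral_const_mul]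
    · intro x hx
      exact (continuous_const.mul (mh_cont (hf x hx).1.1 (hf x hx).1.2)).intervalIntegrable _ _
  have h2 : ((B - A : ℝ) : ℂ) * lamC w0 F = lamC (fun x => (B - A) * w0 x) F := by
    rw [lamC_apply, lamC_apply, Finsupp.sum, Finsupp.sum, mul_sum]
    exact sum_congr rfl fun x _ => by push_cast; ring
  rw [h1, h2]
  refine hF.sub_le (by positivity) fun x hx => ?_
  obtain ⟨m, n⟩ := x
  have := int_mh0 (hf _ hx).1.1 (hf _ hx).1.2 (hf _ hx).2.1 (hf _ hx).2.2 A B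
  push_cast at this ⊢
  exact this

/-- symmetric elements -/
lemma evC_symm {N : ℝ} {F : DC} {f : DA} (hF : Dm F f) (hf : Bd N f) (hs : swp F = F) (t : ℝ) :
    evC t F = ∑ x ∈ f.coeff.support, F.coeff x * (((mh t x).re : ℝ) : ℂ) := by
  have h1 := evC_eq t hF.supp
  have h2 : evC t (swp F) = ∑ x ∈ f.coeff.support, F.coeff x * starRingEnd ℂ (mh t x) := by
    have e1 : F = ∑ x ∈ f.coeff.support, single x (F.coeff x) := by
      have := MonoidAlgebra.sum_coeff_single F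
      conv_lhs => rw [← this]
      rw [Finsupp.sum]
      refine sum_subset hF.supp fun x _ hx => ?_
      rw [Finsupp.notMem_support_iff.mp hx, single_zero]
    conv_lhs => rw [e1]
    rw [map_sum, map_sum]
    refine sum_congr rfl fun x hx => ?_
    rw [swp_single, evC_single, mh_conj t (hf x hx).1.1 (hf x hx).1.2]
  rw [hs] at h2
  have h3 : evC t F = (evC t F + evC t F) / 2 := by ring
  rw [h3]
  nth_rewrite 1 [h1]
  rw [h2, ← sum_add_distrib, sum_div]
  refine sum_congr rfl fun x _ => ?_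
  rw [← mul_add, Complex.add_conj]
  push_cast
  ring

/-- the smooth average with the square of zeta -/
theorem avg1C {k : ℕ} {Y : ℝ} {e N : ℝ} (hY : 0 < Y) (hk : 1 ≤ k) (he : 0 ≤ e)
    (hm : ∀ x : ℕ × ℕ, x.1 ≠ 0 → x.2 ≠ 0 → (x.1 : ℝ) ≤ N → (x.2 : ℝ) ≤ N → |Zm k Y x - Mn k Y x| ≤ e)
    {F : DC} {f : DA} (hF : Dm F f) (hf : Bd N f) (hs : swp F = F) :
    ‖(∫ t in Set.Ioi (0:ℝ), (wz k Y t : ℂ) * evC t F) -
      (((Real.log (Yf k Y) + Ck k : ℝ) : ℂ) * lamC w1 F - lamC wl F)‖ ≤ e * l1 f := by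
  have hk0 : (0:ℝ) < (k:ℝ) / Y := by
    have : (0:ℝ) < k := by exact_mod_cast hk
    positivity
  have h1 : ∫ t in Set.Ioi (0:ℝ), (wz k Y t : ℂ) * evC t F = ∑ x ∈ f.coeff.support, F.coeff x * ((Zm k Y x : ℝ) : ℂ) := by
    simp_rw [evC_symm hF hf hs, mul_sum]
    rw [integral_finsetSum]
    · refine sum_congr rfl fun x _ => ?_
      unfold Zm
      rw [← integral_complex_ofReal, ← integral_const_mul]
      refine integral_congr_ae (Filter.Eventually.of_forall fun t => ?_)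
      simp only
      push_cast
      ring
    · intro x hx
      have h3 := wz_int k hk0 (f := fun t => (mh t x).re) (C := 1)
        (Complex.continuous_re.comp (mh_cont (hf x hx).1.1 (hf x hx).1.2))
        (fun t => (Complex.abs_re_le_norm _).trans (mh_norm_le (hf x hx).1.1 (hf x hx).1.2))
      have h4 := (h3.ofReal (𝕜 := ℂ)).const_mul (F.coeff x)
      refine h4.congr (Filter.Eventually.of_forall fun t => ?_)
      show F.coeff x * ((wz k Y t * (mh t x).re : ℝ) : ℂ) = _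
      push_cast
      ring
  have h2 : ((Real.log (Yf k Y) + Ck k : ℝ) : ℂ) * lamC w1 F - lamC wl F = lamC (Mn k Y) F := by
    rw [lamC_apply, lamC_apply, lamC_apply, Finsupp.sum, Finsupp.sum, Finsupp.sum, mul_sum, ← sum_sub_distrib]
    refine sum_congr rfl fun x _ => ?_
    unfold Mn; push_cast; ring
  rw [h1, h2]
  refine hF.sub_le he fun x hx => ?_
  rw [← Complex.ofReal_sub, Complex.norm_real, Real.norm_eq_abs]
  exact hm x (hf x hx).1.1 (hf x hx).1.2 (hf x hx).2.1 (hf x hx).2.2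

end Pool.Agent.KS6_29.LD
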