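import Pool.Agent.KS6_29.LD.Av1

set_option autoImplicit false

/-! The average with zeta. -/

namespace Pool.Agent.KS6_29.LD

open Finset MeasureTheory Complex MonoidAlgebra
open Pool.Agent.W184.NZ
open Pool.Agent.H306R2.SM (om cl Yf)
open Pool.Agent.H262R4.TM (Rng Ck)

lemma cl_mh (t : ℝ) (n : ℕ) (x : ℕ × ℕ) : (n:ℂ) ^ (-(cl t)) * mh t x = mh t ((n, 1) * x) := by
  rw [map_mul]
  congr 1
  show _ = (n : ℂ) ^ (-(1 / 2 + t * Complex.I)) * ((1:ℕ) : ℂ) ^ (-(1 / 2 - t * Complex.I))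
  rw [Nat.cast_one, Complex.one_cpow, mul_one]
  rfl

lemma zeta_apx {T : ℝ} (hT : 1 ≤ T) {X : ℕ} (hX1 : T ≤ X) (hX2 : (X:ℝ) ≤ T + 1) {t : ℝ} (ht1 : T / 2 ≤ t) (ht2 : t ≤ T) :
    ‖riemannZeta (cl t) - ∑ n ∈ Icc 1 X, (n:ℂ) ^ (-(cl t))‖ ≤ 12 / Real.sqrt T := by
  have hT0 : 0 < T := by linarith
  have hX0 : (0:ℝ) < X := by linarith
  have hX : 1 ≤ X := by
    have : 0 < X := by exact_mod_cast hX0
    omega
  have h1 := Pool.Agent.TH321.GF.AQ_pw t X hX (by linarith) (by linarith)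
  have e1 : cl t = 1 / 2 + I * (t:ℂ) := by unfold cl; ring
  have e2 : Pool.Agent.TH612.GS.z t - Pool.Agent.TH612.GS.PN X t = riemannZeta (cl t) - ∑ n ∈ Icc 1 X, (n:ℂ) ^ (-(cl t)) := by
    rw [e1]; rfl
  rw [e2] at h1
  refine h1.trans ?_
  set q := Real.sqrt T with hq
  have hq0 : 0 < q := Real.sqrt_pos.mpr hT0
  have hq2 : q ^ 2 = T := Real.sq_sqrt hT0.le
  have hXq : Real.sqrt X ≤ 3 / 2 * q := by
    apply Real.sqrt_le_iff.2
    refine ⟨by positivity, ?_⟩
    rw [mul_pow, hq2]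
    linarith
  have hqX : q ≤ Real.sqrt X := Real.sqrt_le_sqrt hX1
  have g1 : 3 * Real.sqrt X / (1 + t) ≤ 9 / q := by
    rw [div_le_div_iff₀ (by linarith) hq0]
    nlinarith
  have g2 : 3 / (2 * Real.sqrt X) ≤ 3 / q := by
    rw [div_le_div_iff₀ (by linarith) hq0]
    nlinarith
  calc _ ≤ 9 / q + 3 / q := add_le_add g1 g2
    _ = 12 / q := by ring

lemma sum_rsqrt (X : ℕ) : ∑ n ∈ Icc 1 X, (1:ℝ) / Real.sqrt n ≤ 2 * Real.sqrt X := by
  induction X with
  | zero => simp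
  | succ X ih =>
    rw [sum_Icc_succ_top (by omega)]
    have h0 : (0:ℝ) ≤ X := Nat.cast_nonneg X
    have h1 : 0 < Real.sqrt ((X + 1 : ℕ) : ℝ) := Real.sqrt_pos.mpr (by positivity)
    have h2 : Real.sqrt ((X + 1 : ℕ) : ℝ) ^ 2 = X + 1 := by
      rw [Real.sq_sqrt (by positivity)]; push_cast; ring
    have h3 : Real.sqrt X ^ 2 = X := Real.sq_sqrt h0
    have h4 : 0 ≤ Real.sqrt X := Real.sqrt_nonneg _
    have h5 : 1 / Real.sqrt ((X + 1 : ℕ) : ℝ) ≤ 2 * (Real.sqrt ((X + 1 : ℕ) : ℝ) - Real.sqrt X) := by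
      rw [div_le_iff₀ h1]
      nlinarith [sq_nonneg (Real.sqrt ((X + 1 : ℕ) : ℝ) - Real.sqrt X)]
    linarith

/-- the average of a monomial with zeta -/
lemma int_mhf {T N : ℝ} (hT : 1 ≤ T) (hN1 : 1 ≤ N) (hNT : N ≤ T) {x : ℕ × ℕ} (h1 : x.1 ≠ 0) (h2 : x.2 ≠ 0)
    (h1N : (x.1:ℝ) ≤ N) (h2N : (x.2:ℝ) ≤ N) :
    ‖(∫ t in (T / 2)..T, riemannZeta (cl t) * mh t x) - ((T / 2 : ℝ) : ℂ) * wf x‖ ≤ 30 * Real.sqrt T + 8 * N ^ 3 := by
  have hT0 : 0 < T := by linarith
  set X : ℕ := ⌈T⌉₊ with hX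
  have hX1 : T ≤ X := Nat.le_ceil T
  have hX2 : (X:ℝ) ≤ T + 1 := (Nat.ceil_lt_add_one hT0.le).le
  have hzc : Continuous fun t : ℝ => riemannZeta (cl t) := Pool.Agent.H262R4.TM.TTW.zeta_cont
  have hmc : Continuous fun t : ℝ => mh t x := mh_cont h1 h2
  have hn0 : ∀ n ∈ Icc 1 X, ((n, 1) * x).1 ≠ 0 ∧ ((n, 1) * x).2 ≠ 0 := by
    intro n hn
    rw [mem_Icc] at hn
    exact ⟨mul_ne_zero (by simp only; omega) h1, mul_ne_zero (by simp) h2⟩
  have hsc : Continuous fun t : ℝ => ∑ n ∈ Icc 1 X, mh t ((n, 1) * x) :=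
    continuous_finsetSum _ fun n hn => mh_cont (hn0 n hn).1 (hn0 n hn).2
  -- replace zeta by the sum
  have e1 : ∀ t : ℝ, (∑ n ∈ Icc 1 X, (n:ℂ) ^ (-(cl t))) * mh t x = ∑ n ∈ Icc 1 X, mh t ((n, 1) * x) := by
    intro t
    rw [sum_mul]
    exact sum_congr rfl fun n _ => cl_mh t n x
  have hA : ‖(∫ t in (T / 2)..T, riemannZeta (cl t) * mh t x) - ∫ t in (T / 2)..T, ∑ n ∈ Icc 1 X, mh t ((n, 1) * x)‖ ≤
      6 * Real.sqrt T := by
    have hzmc : Continuous fun t : ℝ => riemannZeta (cl t) * mh t x := hzc.mul hmc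
    rw [← intervalIntegral.integral_sub (hzmc.intervalIntegrable _ _) (hsc.intervalIntegrable _ _)]
    have g1 : ‖∫ t in (T / 2)..T, (riemannZeta (cl t) * mh t x - ∑ n ∈ Icc 1 X, mh t ((n, 1) * x))‖ ≤
        (12 / Real.sqrt T) * |T - T / 2| := by
      refine intervalIntegral.norm_integral_le_of_norm_le_const fun t ht => ?_
      rw [Set.uIoc_of_le (by linarith)] at ht
      rw [← e1, ← sub_mul, norm_mul]
      calc _ ≤ (12 / Real.sqrt T) * 1 := by
            refine mul_le_mul (zeta_apx hT hX1 hX2 ht.1.le ht.2) (mh_norm_le h1 h2) (norm_nonneg _) (by positivity)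
        _ = _ := mul_one _
    refine g1.trans (le_of_eq ?_)
    have hq : Real.sqrt T ≠ 0 := (Real.sqrt_pos.mpr hT0).ne'
    have hq2 : Real.sqrt T ^ 2 = T := Real.sq_sqrt hT0.le
    rw [abs_of_nonneg (by linarith), show T - T / 2 = T / 2 by ring]
    nth_rewrite 2 [← hq2]
    field_simp
    ring
  -- the sum of the averages
  have hI : ∫ t in (T / 2)..T, ∑ n ∈ Icc 1 X, mh t ((n, 1) * x) = ∑ n ∈ Icc 1 X, ∫ t in (T / 2)..T, mh t ((n, 1) * x) :=
    intervalIntegral.integral_finsetSum fun n hn => (mh_cont (hn0 n hn).1 (hn0 n hn).2).intervalIntegrable _ _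
  have hsum : ∑ n ∈ Icc 1 X, ((T / 2 : ℝ) : ℂ) * ((w0 ((n, 1) * x) : ℝ) : ℂ) = ((T / 2 : ℝ) : ℂ) * wf x := by
    rw [← mul_sum]
    congr 1
    rw [← Complex.ofReal_sum]
    congr 1
    unfold w0 wf
    simp only [Prod.fst_mul, Prod.snd_mul, one_mul]
    by_cases hd : x.1 ∣ x.2
    · obtain ⟨d, hd⟩ := hd
      have hd0 : d ≠ 0 := by rintro rfl; rw [mul_zero] at hd; exact h2 hd
      rw [if_pos ⟨d, hd⟩, sum_eq_single d]
      · rw [if_pos (by rw [hd]; ring), hd]; push_cast; ring_nf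
      · intro n _ hn
        rw [if_neg]
        intro h
        rw [hd, mul_comm] at h
        exact hn (Nat.eq_of_mul_eq_mul_left (Nat.pos_of_ne_zero h1) h)
      · intro hd'
        exfalso
        apply hd'
        rw [mem_Icc]
        refine ⟨Nat.pos_of_ne_zero hd0, ?_⟩
        have : (d:ℝ) ≤ X := by
          have g1 : d ≤ x.2 := Nat.le_of_dvd (Nat.pos_of_ne_zero h2) ⟨x.1, by rw [hd]; ring⟩
          have g2 : (d:ℝ) ≤ x.2 := by exact_mod_cast g1
          linarith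
        exact_mod_cast this
    · rw [if_neg hd]
      refine sum_eq_zero fun n _ => ?_
      rw [if_neg]
      intro h
      exact hd ⟨n, by rw [← h]; ring⟩
  have hB : ‖(∑ n ∈ Icc 1 X, ∫ t in (T / 2)..T, mh t ((n, 1) * x)) - ((T / 2 : ℝ) : ℂ) * wf x‖ ≤
      12 * Real.sqrt T + 8 * N ^ 3 := by
    rw [← hsum, ← sum_sub_distrib]
    refine (norm_sum_le _ _).trans ?_
    have x1 : (1:ℝ) ≤ x.1 := by exact_mod_cast Nat.pos_of_ne_zero h1
    have x2 : (1:ℝ) ≤ x.2 := by exact_mod_cast Nat.pos_of_ne_zero h2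
    have key : ∀ n ∈ Icc 1 X, ‖(∫ t in (T / 2)..T, mh t ((n, 1) * x)) - ((T / 2 : ℝ) : ℂ) * ((w0 ((n, 1) * x) : ℝ) : ℂ)‖ ≤
        (if (n:ℝ) ≤ 2 * N then 4 * N ^ 2 else 0) + 4 * (1 / Real.sqrt n) := by
      intro n hn
      have hn1 := (mem_Icc.mp hn).1
      have hn' : (1:ℝ) ≤ n := by exact_mod_cast hn1
      have hne := hn0 n hn
      split_ifs with h
      · have g1 := int_mh0 (N := 2 * N * N) hne.1 hne.2 (by
          rw [Prod.fst_mul]; push_cast
          exact mul_le_mul h h1N (by positivity) (by positivity)) (by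
          rw [Prod.snd_mul]; push_cast
          nlinarith) (T / 2) T
        rw [show T - T / 2 = T / 2 by ring] at g1
        have g2 : (0:ℝ) ≤ 4 * (1 / Real.sqrt n) := by positivity
        calc _ ≤ 2 * (2 * N * N) := g1
          _ ≤ _ := by nlinarith
      · push Not at h
        rw [zero_add]
        have hlt : (x.2:ℝ) < n * x.1 := by nlinarith
        have hneq : ((n, 1) * x).1 ≠ ((n, 1) * x).2 := by
          rw [Prod.fst_mul, Prod.snd_mul]
          simp only [one_mul]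
          intro h5
          have : ((n * x.1 : ℕ) : ℝ) = x.2 := by exact_mod_cast h5
          push_cast at this
          linarith
        have hw : w0 ((n, 1) * x) = 0 := by unfold w0; rw [if_neg hneq]
        rw [hw, Complex.ofReal_zero, mul_zero, sub_zero]
        refine (int_mhC hne.1 hne.2 hneq _ _).trans ?_
        rw [Prod.fst_mul, Prod.snd_mul]
        simp only [one_mul]
        have g1 : 1 / 2 ≤ |Real.log x.2 - Real.log ((n * x.1 : ℕ) : ℝ)| := by
          rw [abs_sub_comm]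
          refine le_trans ?_ (le_abs_self _)
          push_cast
          have h6 : 2 * (x.2:ℝ) ≤ n * x.1 := by nlinarith
          have h7 : Real.log (2 * x.2) ≤ Real.log (n * x.1) := Real.log_le_log (by positivity) h6
          rw [Real.log_mul (by norm_num) (by positivity)] at h7
          have := Real.log_two_gt_d9
          linarith
        have g2 : ((((n * x.1 : ℕ) : ℝ)) * x.2) ^ (-(1 / 2 : ℝ)) ≤ 1 / Real.sqrt n := by
          push_cast
          have h8 : (n:ℝ) ≤ n * x.1 * x.2 := by nlinarith [mul_le_mul x1 x2 zero_le_one (by linarith : (0:ℝ) ≤ x.1)]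
          calc ((n:ℝ) * x.1 * x.2) ^ (-(1 / 2 : ℝ)) ≤ (n:ℝ) ^ (-(1 / 2 : ℝ)) :=
                Real.rpow_le_rpow_of_nonpos (by positivity) h8 (by norm_num)
            _ = 1 / Real.sqrt n := by
                rw [Real.rpow_neg (by positivity), Real.sqrt_eq_rpow, ← one_div]
        have g3 : 2 / |Real.log x.2 - Real.log ((n * x.1 : ℕ) : ℝ)| ≤ 4 := by
          rw [div_le_iff₀ (by linarith)]; linarith
        calc _ ≤ 1 / Real.sqrt n * 4 := mul_le_mul g2 g3 (by positivity) (by positivity)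
          _ = _ := by ring
    refine (sum_le_sum key).trans ?_
    rw [sum_add_distrib, ← mul_sum]
    have g1 := sum_rsqrt X
    have g2 : ∑ n ∈ Icc 1 X, (if (n:ℝ) ≤ 2 * N then 4 * N ^ 2 else 0) ≤ 8 * N ^ 3 := by
      rw [← sum_filter, sum_const, nsmul_eq_mul]
      have g3 : (((Icc 1 X).filter fun n : ℕ => (n:ℝ) ≤ 2 * N).card : ℝ) ≤ 2 * N := by
        have g4 : (Icc 1 X).filter (fun n : ℕ => (n:ℝ) ≤ 2 * N) ⊆ Icc 1 ⌊2 * N⌋₊ := by
          intro n hn
          rw [mem_filter, mem_Icc] at hn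
          rw [mem_Icc]
          exact ⟨hn.1.1, Nat.le_floor hn.2⟩
        have g5 := Finset.card_le_card g4
        rw [Nat.card_Icc, Nat.add_sub_cancel] at g5
        have g6 : (((Icc 1 X).filter fun n : ℕ => (n:ℝ) ≤ 2 * N).card : ℝ) ≤ (⌊2 * N⌋₊ : ℝ) := by exact_mod_cast g5
        exact g6.trans (Nat.floor_le (by linarith))
      calc _ ≤ (2 * N) * (4 * N ^ 2) := mul_le_mul_of_nonneg_right g3 (by positivity)
        _ = _ := by ring
    have g7 : Real.sqrt X ≤ 3 / 2 * Real.sqrt T := by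
      apply Real.sqrt_le_iff.2
      refine ⟨by positivity, ?_⟩
      rw [mul_pow, Real.sq_sqrt hT0.le]
      linarith
    have g8 : 0 ≤ Real.sqrt T := Real.sqrt_nonneg _
    linarith
  rw [← hI] at hB
  have hfin := norm_add_le ((∫ t in (T / 2)..T, riemannZeta (cl t) * mh t x) - ∫ t in (T / 2)..T, ∑ n ∈ Icc 1 X, mh t ((n, 1) * x))
    ((∫ t in (T / 2)..T, ∑ n ∈ Icc 1 X, mh t ((n, 1) * x)) - ((T / 2 : ℝ) : ℂ) * wf x)
  rw [sub_add_sub_cancel] at hfin
  have g8 : 0 ≤ Real.sqrt T := Real.sqrt_nonneg _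
  linarith

/-- the average with zeta -/
theorem avgF {T N : ℝ} (hT : 1 ≤ T) (hN1 : 1 ≤ N) (hNT : N ≤ T) {F : DC} {f : DA} (hF : Dm F f) (hf : Bd N f) :
    ‖(∫ t in (T / 2)..T, riemannZeta (cl t) * evC t F) - ((T / 2 : ℝ) : ℂ) * lamC wf F‖ ≤
      (30 * Real.sqrt T + 8 * N ^ 3) * l1 f := by
  have hzc : Continuous fun t : ℝ => riemannZeta (cl t) := Pool.Agent.H262R4.TM.TTW.zeta_cont
  have h1 : ∫ t in (T / 2)..T, riemannZeta (cl t) * evC t F =
      ∑ x ∈ f.coeff.support, F.coeff x * ∫ t in (T / 2)..T, riemannZeta (cl t) * mh t x := by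
    simp_rw [evC_eq _ hF.supp, mul_sum]
    rw [intervalIntegral.integral_finsetSum]
    · refine sum_congr rfl fun x _ => ?_
      rw [← intervalIntegral.integral_const_mul]
      refine intervalIntegral.integral_congr fun t _ => ?_
      ring
    · intro x hx
      exact (hzc.mul (continuous_const.mul (mh_cont (hf x hx).1.1 (hf x hx).1.2))).intervalIntegrable _ _
  have h2 : ((T / 2 : ℝ) : ℂ) * lamC wf F = lamC (fun x => (T / 2) * wf x) F := by
    rw [lamC_apply, lamC_apply, Finsupp.sum, Finsupp.sum, mul_sum]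
    exact sum_congr rfl fun x _ => by push_cast; ring
  rw [h1, h2]
  refine hF.sub_le (by positivity) fun x hx => ?_
  have := int_mhf hT hN1 hNT (hf x hx).1.1 (hf x hx).1.2 (hf x hx).2.1 (hf x hx).2.2
  push_cast at this ⊢
  exact this

end Pool.Agent.KS6_29.LD
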