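import Pool.Agent.KS6_29.LD.Cl3

set_option autoImplicit false

/-! Truncated exponentials with complex parameters, and their averages over one block. -/

namespace Pool.Agent.KS6_29.LD

open Finset MeasureTheory Complex MonoidAlgebra
open Pool.Agent.W184.NZ

/-- the truncated exponential of `a f` -/
noncomputable def EC {A : Type*} [CommRing A] [Algebra ℂ A] (K : ℕ) (a : ℂ) (f : A) : A :=
  ∑ k ∈ range (K + 1), (a ^ k / (k.factorial : ℂ)) • f ^ k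

lemma EC_map {A C : Type*} [CommRing A] [Algebra ℂ A] [CommRing C] [Algebra ℂ C] (φ : A →ₐ[ℂ] C)
    (K : ℕ) (a : ℂ) (f : A) : φ (EC K a f) = EC K a (φ f) := by
  unfold EC
  rw [map_sum]
  exact sum_congr rfl fun k _ => by rw [map_smul, map_pow]

lemma EC_eq (K : ℕ) (a z : ℂ) : EC K a z = ∑ m ∈ range (K + 1), (a * z) ^ m / (m.factorial : ℂ) := by
  unfold EC
  refine sum_congr rfl fun k _ => ?_
  rw [smul_eq_mul, mul_pow]; ring

lemma EC_conj (K : ℕ) (a z : ℂ) : starRingEnd ℂ (EC K a z) = EC K (starRingEnd ℂ a) (starRingEnd ℂ z) := by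
  rw [EC_eq, EC_eq, map_sum]
  refine sum_congr rfl fun k _ => ?_
  rw [map_div₀, map_pow, map_mul, map_natCast]

lemma EC_cont (K : ℕ) (a : ℂ) : Continuous fun z : ℂ => EC K a z := by
  simp_rw [EC_eq]; fun_prop

lemma EC_norm_le (K : ℕ) (a z : ℂ) : ‖EC K a z‖ ≤ Real.exp (‖a‖ * ‖z‖) := by
  rw [EC_eq]
  refine (norm_sum_le _ _).trans ?_
  refine le_trans ?_ (Real.sum_le_exp_of_nonneg (by positivity) (K + 1))
  refine sum_le_sum fun m _ => ?_
  rw [norm_div, norm_pow, norm_mul, Complex.norm_natCast]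

lemma real_tail {r : ℝ} (hr : 0 ≤ r) (n : ℕ) : Real.exp r - ∑ m ∈ range n, r ^ m / (m.factorial : ℝ) ≤
    Real.exp (-(n:ℝ)) * Real.exp (3 * r) := by
  have h0 : HasSum (fun m : ℕ => r ^ m / (m.factorial : ℝ)) (Real.exp r) := by
    have := NormedSpace.expSeries_div_hasSum_exp r
    rwa [← Real.exp_eq_exp_ℝ] at this
  have h1 : ∀ N : ℕ, n ≤ N → ∑ m ∈ range N, r ^ m / (m.factorial : ℝ) ≤
      ∑ m ∈ range n, r ^ m / (m.factorial : ℝ) + Real.exp (-(n:ℝ)) * Real.exp (3 * r) := by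
    intro N hN
    rw [← sum_range_add_sum_Ico _ hN]
    refine add_le_add le_rfl ?_
    have h2 : ∀ m ∈ Ico n N, r ^ m / (m.factorial : ℝ) ≤ Real.exp (-(n:ℝ)) * ((3 * r) ^ m / (m.factorial : ℝ)) := by
      intro m hm
      rw [mem_Ico] at hm
      have h3 : Real.exp n ≤ 3 ^ m := by
        have h4 : Real.exp 1 ≤ 3 := by have := Real.exp_one_lt_d9; linarith
        calc Real.exp n = Real.exp 1 ^ n := by rw [← Real.exp_nat_mul, mul_one]
          _ ≤ Real.exp 1 ^ m := pow_le_pow_right₀ (Real.one_le_exp zero_le_one) hm.1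
          _ ≤ 3 ^ m := pow_le_pow_left₀ (Real.exp_pos 1).le h4 m
      have h5 : 1 ≤ Real.exp (-(n:ℝ)) * 3 ^ m := by
        rw [Real.exp_neg, ← div_eq_inv_mul, one_le_div (Real.exp_pos _)]
        exact h3
      rw [mul_pow]
      have h6 : 0 ≤ r ^ m / (m.factorial : ℝ) := by positivity
      calc r ^ m / (m.factorial : ℝ) = 1 * (r ^ m / (m.factorial : ℝ)) := (one_mul _).symm
        _ ≤ (Real.exp (-(n:ℝ)) * 3 ^ m) * (r ^ m / (m.factorial : ℝ)) := mul_le_mul_of_nonneg_right h5 h6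
        _ = _ := by ring
    refine (sum_le_sum h2).trans ?_
    rw [← mul_sum]
    refine mul_le_mul_of_nonneg_left ?_ (Real.exp_pos _).le
    refine le_trans ?_ (Real.sum_le_exp_of_nonneg (by positivity) N)
    refine sum_le_sum_of_subset_of_nonneg ?_ fun m _ _ => by positivity
    intro m hm
    rw [mem_Ico] at hm
    exact mem_range.mpr hm.2
  have h2 := h0.tendsto_sum_nat
  have h3 : Real.exp r ≤ ∑ m ∈ range n, r ^ m / (m.factorial : ℝ) + Real.exp (-(n:ℝ)) * Real.exp (3 * r) :=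
    le_of_tendsto h2 (by filter_upwards [Filter.eventually_ge_atTop n] with N hN using h1 N hN)
  linarith

lemma EC_tail (K : ℕ) (a z : ℂ) : ‖EC K a z - Complex.exp (a * z)‖ ≤
    Real.exp (-(K:ℝ)) * Real.exp (3 * (‖a‖ * ‖z‖)) := by
  rw [norm_sub_rev, EC_eq]
  refine (Complex.norm_exp_sub_sum_le_exp_norm_sub_sum (a * z) (K + 1)).trans ?_
  refine (real_tail (norm_nonneg _) (K + 1)).trans ?_
  rw [norm_mul]
  refine mul_le_mul_of_nonneg_right ?_ (Real.exp_pos _).le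
  refine Real.exp_le_exp.mpr ?_
  push_cast
  linarith

/-- four truncated exponentials -/
noncomputable def XV (K : ℕ) (a b s s' z : ℂ) : ℂ :=
  EC K a z * EC K b (starRingEnd ℂ z) * EC K s ((z.re : ℝ) : ℂ) * EC K s' ((z.re : ℝ) : ℂ)

/-- the exact exponential -/
noncomputable def XE (a b s s' z : ℂ) : ℂ :=
  Complex.exp (a * z) * Complex.exp (b * starRingEnd ℂ z) * Complex.exp (s * ((z.re : ℝ) : ℂ)) *
    Complex.exp (s' * ((z.re : ℝ) : ℂ))

lemma XV_cont (K : ℕ) (a b s s' : ℂ) : Continuous fun z : ℂ => XV K a b s s' z := by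
  unfold XV
  have h1 := EC_cont K a
  have h2 : Continuous fun z : ℂ => EC K b (starRingEnd ℂ z) := (EC_cont K b).comp Complex.continuous_conj
  have h3 : ∀ c : ℂ, Continuous fun z : ℂ => EC K c ((z.re : ℝ) : ℂ) := fun c =>
    (EC_cont K c).comp (by fun_prop)
  exact ((h1.mul h2).mul (h3 s)).mul (h3 s')

lemma XE_cont (a b s s' : ℂ) : Continuous fun z : ℂ => XE a b s s' z := by
  unfold XE; fun_prop

lemma XE_eq (a b s s' z : ℂ) : XE a b s s' z =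
    Complex.exp ((a + (s + s') / 2) * z + (b + (s + s') / 2) * starRingEnd ℂ z) := by
  unfold XE
  rw [← Complex.exp_add, ← Complex.exp_add, ← Complex.exp_add]
  congr 1
  have : ((z.re : ℝ) : ℂ) = (z + starRingEnd ℂ z) / 2 := by
    rw [Complex.add_conj]; push_cast; ring
  rw [this]; ring

lemma re_norm_le (z : ℂ) : ‖((z.re : ℝ) : ℂ)‖ ≤ ‖z‖ := by
  rw [Complex.norm_real]; exact Complex.abs_re_le_norm z

section
variable {B0 : ℝ} {a b s s' : ℂ}

lemma e_le (hB0 : 0 ≤ B0) {c : ℂ} (hc : ‖c‖ ≤ B0) {x z : ℂ} (hx : ‖x‖ ≤ ‖z‖) : ‖Complex.exp (c * x)‖ ≤ Real.exp (B0 * ‖z‖) := by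
  rw [Complex.norm_exp]
  refine Real.exp_le_exp.mpr ((Complex.re_le_norm _).trans ?_)
  rw [norm_mul]
  exact mul_le_mul hc hx (norm_nonneg _) hB0

lemma ec_le (hB0 : 0 ≤ B0) (K : ℕ) {c : ℂ} (hc : ‖c‖ ≤ B0) {x z : ℂ} (hx : ‖x‖ ≤ ‖z‖) : ‖EC K c x‖ ≤ Real.exp (B0 * ‖z‖) := by
  refine (EC_norm_le K c x).trans (Real.exp_le_exp.mpr ?_)
  exact mul_le_mul hc hx (norm_nonneg _) hB0

lemma et_le (hB0 : 0 ≤ B0) (K : ℕ) {c : ℂ} (hc : ‖c‖ ≤ B0) {x z : ℂ} (hx : ‖x‖ ≤ ‖z‖) :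
    ‖EC K c x - Complex.exp (c * x)‖ ≤ Real.exp (-(K:ℝ)) * Real.exp (3 * (B0 * ‖z‖)) := by
  refine (EC_tail K c x).trans (mul_le_mul_of_nonneg_left (Real.exp_le_exp.mpr ?_) (Real.exp_pos _).le)
  have := mul_le_mul hc hx (norm_nonneg _) hB0
  linarith

lemma XV_norm_le (hB0 : 0 ≤ B0) (K : ℕ) (ha : ‖a‖ ≤ B0) (hb : ‖b‖ ≤ B0) (hs : ‖s‖ ≤ B0) (hs' : ‖s'‖ ≤ B0) (z : ℂ) :
    ‖XV K a b s s' z‖ ≤ Real.exp (4 * B0 * ‖z‖) := by
  unfold XV
  rw [norm_mul, norm_mul, norm_mul]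
  have h1 := ec_le hB0 K ha (le_refl ‖z‖)
  have h2 := ec_le hB0 K hb (Complex.norm_conj z).le
  have h3 := ec_le hB0 K hs (re_norm_le z)
  have h4 := ec_le hB0 K hs' (re_norm_le z)
  calc _ ≤ Real.exp (B0 * ‖z‖) * Real.exp (B0 * ‖z‖) * Real.exp (B0 * ‖z‖) * Real.exp (B0 * ‖z‖) := by
        gcongr
    _ = _ := by rw [← Real.exp_add, ← Real.exp_add, ← Real.exp_add]; congr 1; ring

lemma XV_sub_le (hB0 : 0 ≤ B0) (K : ℕ) (ha : ‖a‖ ≤ B0) (hb : ‖b‖ ≤ B0) (hs : ‖s‖ ≤ B0) (hs' : ‖s'‖ ≤ B0) (z : ℂ) :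
    ‖XV K a b s s' z - XE a b s s' z‖ ≤ 4 * Real.exp (-(K:ℝ)) * Real.exp (6 * B0 * ‖z‖) := by
  have h1 := ec_le hB0 K ha (le_refl ‖z‖)
  have h2 := ec_le hB0 K hb (Complex.norm_conj z).le
  have h3 := ec_le hB0 K hs (re_norm_le z)
  have g2 := e_le hB0 hb (Complex.norm_conj z).le
  have g3 := e_le hB0 hs (re_norm_le z)
  have g4 := e_le hB0 hs' (re_norm_le z)
  have t1 := et_le hB0 K ha (le_refl ‖z‖)
  have t2 := et_le hB0 K hb (Complex.norm_conj z).le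
  have t3 := et_le hB0 K hs (re_norm_le z)
  have t4 := et_le hB0 K hs' (re_norm_le z)
  set x1 := EC K a z
  set x2 := EC K b (starRingEnd ℂ z)
  set x3 := EC K s ((z.re : ℝ) : ℂ)
  set x4 := EC K s' ((z.re : ℝ) : ℂ)
  set y1 := Complex.exp (a * z)
  set y2 := Complex.exp (b * starRingEnd ℂ z)
  set y3 := Complex.exp (s * ((z.re : ℝ) : ℂ))
  set y4 := Complex.exp (s' * ((z.re : ℝ) : ℂ))
  set E := Real.exp (B0 * ‖z‖) with hE
  set D := Real.exp (-(K:ℝ)) * Real.exp (3 * (B0 * ‖z‖)) with hD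
  have e1 : XV K a b s s' z - XE a b s s' z =
      (x1 - y1) * y2 * y3 * y4 + x1 * (x2 - y2) * y3 * y4 + x1 * x2 * (x3 - y3) * y4 + x1 * x2 * x3 * (x4 - y4) := by
    show x1 * x2 * x3 * x4 - y1 * y2 * y3 * y4 = _
    ring
  rw [e1]
  have n1 : ‖(x1 - y1) * y2 * y3 * y4‖ ≤ D * E * E * E := by
    rw [norm_mul, norm_mul, norm_mul]; gcongr
  have n2 : ‖x1 * (x2 - y2) * y3 * y4‖ ≤ E * D * E * E := by
    rw [norm_mul, norm_mul, norm_mul]; gcongr
  have n3 : ‖x1 * x2 * (x3 - y3) * y4‖ ≤ E * E * D * E := by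
    rw [norm_mul, norm_mul, norm_mul]; gcongr
  have n4 : ‖x1 * x2 * x3 * (x4 - y4)‖ ≤ E * E * E * D := by
    rw [norm_mul, norm_mul, norm_mul]; gcongr
  have e2 : Real.exp (6 * B0 * ‖z‖) = E * E * E * Real.exp (3 * (B0 * ‖z‖)) := by
    rw [hE, ← Real.exp_add, ← Real.exp_add, ← Real.exp_add]; congr 1; ring
  calc _ ≤ D * E * E * E + E * D * E * E + E * E * D * E + E * E * E * D := by
        refine (norm_add_le _ _).trans (add_le_add ?_ n4)
        refine (norm_add_le _ _).trans (add_le_add ?_ n3)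
        exact (norm_add_le _ _).trans (add_le_add n1 n2)
    _ = _ := by rw [e2, hD]; ring

end

/-- the norm of the exponential -/
lemma norm_exp_le4 {c : ℝ} (hc : 0 ≤ c) (z : ℂ) : Real.exp (c * ‖z‖) ≤
    Real.exp ((((c:ℂ) - c * I) * z).re) + Real.exp ((((c:ℂ) + c * I) * z).re) +
    Real.exp ((((-c:ℂ) - c * I) * z).re) + Real.exp ((((-c:ℂ) + c * I) * z).re) := by
  have h0 := Complex.norm_le_abs_re_add_abs_im z
  have e1 : (((c:ℂ) - c * I) * z).re = c * z.re + c * z.im := by simp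
  have e2 : (((c:ℂ) + c * I) * z).re = c * z.re - c * z.im := by simp
  have e3 : (((-c:ℂ) - c * I) * z).re = -c * z.re + c * z.im := by simp
  have e4 : (((-c:ℂ) + c * I) * z).re = -c * z.re - c * z.im := by simp
  rw [e1, e2, e3, e4]
  have p1 := Real.exp_pos (c * z.re + c * z.im)
  have p2 := Real.exp_pos (c * z.re - c * z.im)
  have p3 := Real.exp_pos (-c * z.re + c * z.im)
  have p4 := Real.exp_pos (-c * z.re - c * z.im)
  have h1 : Real.exp (c * ‖z‖) ≤ Real.exp (c * |z.re| + c * |z.im|) :=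
    Real.exp_le_exp.mpr (by nlinarith)
  refine h1.trans ?_
  rcases abs_cases z.re with ⟨ha, _⟩ | ⟨ha, _⟩ <;> rcases abs_cases z.im with ⟨hb, _⟩ | ⟨hb, _⟩ <;>
    rw [ha, hb]
  · linarith
  · rw [show c * z.re + c * -z.im = c * z.re - c * z.im by ring]; linarith
  · rw [show c * -z.re + c * z.im = -c * z.re + c * z.im by ring]; linarith
  · rw [show c * -z.re + c * -z.im = -c * z.re - c * z.im by ring]; linarith

section
variable {w : ℕ × ℕ → ℝ} {wa wb B : ℝ} {P : Finset ℕ} {ν : Measure (ℂ × ℂ)}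

lemma GLw.normexp (h : GLw w wa wb B P ν) {c : ℝ} (hc : 0 ≤ c) (hcB : 2 * c ≤ B) :
    ∫ q, Real.exp (c * ‖q.1‖) * ‖q.2‖ ∂ν ≤ 4 * Real.exp (CB B * vI P) := by
  have := h.prob
  obtain ⟨M, hM⟩ := h.bdd
  have hi : ∀ d : ℂ, Integrable (fun q : ℂ × ℂ => Real.exp ((d * q.1).re) * ‖q.2‖) ν :=
    fun d => integrable_of_bdd2 hM (by fun_prop)
  have hn : ∀ x y : ℝ, |x| = c → |y| = c → ‖((x:ℂ) + y * I)‖ ≤ B := by
    intro x y hx hy
    refine (norm_add_le _ _).trans ?_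
    rw [norm_mul, Complex.norm_I, mul_one, Complex.norm_real, Complex.norm_real, Real.norm_eq_abs,
      Real.norm_eq_abs, hx, hy]
    linarith
  have c1 := abs_of_nonneg hc
  have c2 : |-c| = c := by rw [abs_neg, c1]
  have k1 := h.expb ((c:ℂ) - c * I) (by
    have := hn c (-c) c1 c2; rwa [show ((c:ℝ):ℂ) + ((-c:ℝ):ℂ) * I = (c:ℂ) - c * I by push_cast; ring] at this)
  have k2 := h.expb ((c:ℂ) + c * I) (hn c c c1 c1)
  have k3 := h.expb ((-c:ℂ) - c * I) (by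
    have := hn (-c) (-c) c2 c2; rwa [show ((-c:ℝ):ℂ) + ((-c:ℝ):ℂ) * I = (-c:ℂ) - c * I by push_cast; ring] at this)
  have k4 := h.expb ((-c:ℂ) + c * I) (by
    have := hn (-c) c c2 c1; rwa [show ((-c:ℝ):ℂ) + ((c:ℝ):ℂ) * I = (-c:ℂ) + c * I by push_cast; ring] at this)
  have i1 := hi ((c:ℂ) - c * I)
  have i2 := hi ((c:ℂ) + c * I)
  have i3 := hi ((-c:ℂ) - c * I)
  have i4 := hi ((-c:ℂ) + c * I)
  have j2 : Integrable (fun q : ℂ × ℂ => Real.exp ((((c:ℂ) - c * I) * q.1).re) * ‖q.2‖ +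
      Real.exp ((((c:ℂ) + c * I) * q.1).re) * ‖q.2‖) ν := i1.add i2
  have j3 : Integrable (fun q : ℂ × ℂ => Real.exp ((((c:ℂ) - c * I) * q.1).re) * ‖q.2‖ +
      Real.exp ((((c:ℂ) + c * I) * q.1).re) * ‖q.2‖ + Real.exp ((((-c:ℂ) - c * I) * q.1).re) * ‖q.2‖) ν := j2.add i3
  have h1 : ∫ q, Real.exp (c * ‖q.1‖) * ‖q.2‖ ∂ν ≤
      ∫ q : ℂ × ℂ, (Real.exp ((((c:ℂ) - c * I) * q.1).re) * ‖q.2‖ + Real.exp ((((c:ℂ) + c * I) * q.1).re) * ‖q.2‖ +
    Real.exp ((((-c:ℂ) - c * I) * q.1).re) * ‖q.2‖ + Real.exp ((((-c:ℂ) + c * I) * q.1).re) * ‖q.2‖) ∂ν := by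
    refine integral_mono (integrable_of_bdd2 hM (by fun_prop)) (j3.add i4) fun q => ?_
    have := mul_le_mul_of_nonneg_right (norm_exp_le4 hc q.1) (norm_nonneg q.2)
    simp only [Pi.add_apply]
    linarith
  rw [integral_add j3 i4, integral_add j2 i3, integral_add i1 i2] at h1
  linarith

end

end Pool.Agent.KS6_29.LD
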