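import Pool.Agent.KS6_29.LD.Bk1

set_option autoImplicit false

/-! The elements of the algebra belonging to one block, and their averages. -/

namespace Pool.Agent.KS6_29.LD

open Finset MeasureTheory Complex MonoidAlgebra
open Pool.Agent.W184.NZ

/-- the embedding of the real algebra -/
noncomputable def io : DA →ₐ[ℝ] DC := MonoidAlgebra.lift ℝ DC (ℕ × ℕ)
  { toFun := fun x => single x (1:ℂ)
    map_one' := rfl
    map_mul' := fun x y => by rw [single_mul_single, one_mul] }

lemma io_single (x : ℕ × ℕ) (c : ℝ) : io (single x c) = single x (c:ℂ) := by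
  unfold io
  rw [MonoidAlgebra.lift_single]
  show c • single x (1:ℂ) = _
  rw [MonoidAlgebra.smul_single]
  simp

lemma lamC_io (w : ℕ × ℕ → ℝ) (f : DA) : lamC w (io f) = ((lam w f : ℝ) : ℂ) := by
  have h1 : f = ∑ x ∈ f.coeff.support, single x (f.coeff x) := by
    have := MonoidAlgebra.sum_coeff_single f
    exact this.symm
  rw [h1, map_sum, map_sum, map_sum]
  push_cast
  refine sum_congr rfl fun x _ => ?_
  rw [io_single, lamC_single, lam_single]
  push_cast; rfl

/-- the sum of `p^{-s}` -/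
noncomputable def xC (P : Finset ℕ) : DC := ∑ p ∈ P, single (p, 1) 1

/-- its conjugate -/
noncomputable def yC (P : Finset ℕ) : DC := ∑ p ∈ P, single (1, p) 1

/-- its real part -/
noncomputable def pC (P : Finset ℕ) : DC := (1 / 2 : ℂ) • (xC P + yC P)

lemma io_xI (P : Finset ℕ) : io (xI P) = xC P := by
  unfold xI xC
  rw [map_sum]
  exact sum_congr rfl fun p _ => by rw [io_single]; push_cast; rfl

lemma io_yI (P : Finset ℕ) : io (yI P) = yC P := by
  unfold yI yC
  rw [map_sum]
  exact sum_congr rfl fun p _ => by rw [io_single]; push_cast; rfl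

/-- the element of the block -/
noncomputable def XB (K : ℕ) (a b s s' : ℂ) (P : Finset ℕ) : DC :=
  EC K a (xC P) * EC K b (yC P) * EC K s (pC P) * EC K s' (pC P)

/-- the detector of large values -/
noncomputable def QC (R : ℕ) (P : Finset ℕ) : DC := ((1 / (R:ℂ)) ^ (2 * R)) • (xC P ^ R * yC P ^ R)

lemma prod_two {A : Type*} [CommRing A] (u : Fin 2 →₀ ℕ) (f : Fin 2 → A) :
    (u.prod fun i k => f i ^ k) = f 0 ^ u 0 * f 1 ^ u 1 := by
  rw [Finsupp.prod_fintype _ _ (by intro i; simp), Fin.prod_univ_two]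

section
variable {w : ℕ × ℕ → ℝ} {wa wb B : ℝ} {P : Finset ℕ} {ν : Measure (ℂ × ℂ)}

lemma aev_cont (q : MvPolynomial (Fin 2) ℂ) :
    Continuous fun z : ℂ => MvPolynomial.aeval ![z, starRingEnd ℂ z] q := by
  induction q using MvPolynomial.induction_on with
  | C a => simp only [MvPolynomial.aeval_C]; fun_prop
  | add p q hp hq => simp only [map_add]; exact hp.add hq
  | mul_X p i hp =>
    simp only [map_mul, MvPolynomial.aeval_X]
    refine hp.mul ?_
    fin_cases i
    · exact continuous_id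
    · exact Complex.continuous_conj

lemma GLw.poly (h : GLw w wa wb B P ν) (q : MvPolynomial (Fin 2) ℂ) :
    lamC w (MvPolynomial.aeval ![xC P, yC P] q) =
      ∫ z, MvPolynomial.aeval ![z.1, starRingEnd ℂ z.1] q * z.2 ∂ν := by
  have := h.prob
  obtain ⟨M, hM⟩ := h.bdd
  induction q using MvPolynomial.induction_on' with
  | monomial u a =>
    rw [MvPolynomial.aeval_monomial, prod_two]
    simp_rw [MvPolynomial.aeval_monomial, prod_two]
    simp only [Matrix.cons_val_zero, Matrix.cons_val_one]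
    have e1 : ∀ z : ℂ × ℂ, (algebraMap ℂ ℂ) a * (z.1 ^ u 0 * (starRingEnd ℂ) z.1 ^ u 1) * z.2 =
        a * (z.1 ^ u 0 * (starRingEnd ℂ) z.1 ^ u 1 * z.2) := by
      intro z; simp only [Algebra.algebraMap_self, RingHom.id_apply]; ring
    simp_rw [e1]
    have e2 : io (xI P ^ u 0 * yI P ^ u 1) = xC P ^ u 0 * yC P ^ u 1 := by
      rw [map_mul, map_pow, map_pow, io_xI, io_yI]
    rw [integral_const_mul, h.mom, ← Algebra.smul_def, map_smul, ← lamC_io, e2, smul_eq_mul]
  | add p q hp hq =>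
    simp only [map_add, add_mul]
    rw [integral_add, hp, hq]
    · exact integrable_of_bdd2 hM (((aev_cont p).comp continuous_fst).mul continuous_snd)
    · exact integrable_of_bdd2 hM (((aev_cont q).comp continuous_fst).mul continuous_snd)

lemma GLw.XB_eq (h : GLw w wa wb B P ν) (K : ℕ) (a b s s' : ℂ) :
    lamC w (XB K a b s s' P) = ∫ z, XV K a b s s' z.1 * z.2 ∂ν := by
  have h1 := h.poly (EC K a (MvPolynomial.X 0) * EC K b (MvPolynomial.X 1) *
    EC K s ((1 / 2 : ℂ) • (MvPolynomial.X 0 + MvPolynomial.X 1)) *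
    EC K s' ((1 / 2 : ℂ) • (MvPolynomial.X 0 + MvPolynomial.X 1)))
  simp only [map_mul, EC_map, map_smul, map_add, MvPolynomial.aeval_X, Matrix.cons_val_zero,
    Matrix.cons_val_one] at h1
  unfold XB pC
  rw [h1]
  refine integral_congr_ae (Filter.Eventually.of_forall fun z => ?_)
  simp only
  unfold XV
  have : (1 / 2 : ℂ) • (z.1 + starRingEnd ℂ z.1) = ((z.1.re : ℝ) : ℂ) := by
    rw [Complex.add_conj, smul_eq_mul]; push_cast; ring
  rw [this]

lemma GLw.XQ_eq (h : GLw w wa wb B P ν) (K R : ℕ) (a b s s' : ℂ) :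
    lamC w (XB K a b s s' P * QC R P) = ∫ z, XV K a b s s' z.1 * (((‖z.1‖ / R) ^ (2 * R) : ℝ) : ℂ) * z.2 ∂ν := by
  have h1 := h.poly (EC K a (MvPolynomial.X 0) * EC K b (MvPolynomial.X 1) *
    EC K s ((1 / 2 : ℂ) • (MvPolynomial.X 0 + MvPolynomial.X 1)) *
    EC K s' ((1 / 2 : ℂ) • (MvPolynomial.X 0 + MvPolynomial.X 1)) *
    (((1 / (R:ℂ)) ^ (2 * R)) • (MvPolynomial.X 0 ^ R * MvPolynomial.X 1 ^ R)))
  simp only [map_mul, EC_map, map_smul, map_add, map_pow, MvPolynomial.aeval_X, Matrix.cons_val_zero,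
    Matrix.cons_val_one] at h1
  unfold XB pC QC
  rw [h1]
  refine integral_congr_ae (Filter.Eventually.of_forall fun z => ?_)
  simp only
  unfold XV
  have e1 : (1 / 2 : ℂ) • (z.1 + starRingEnd ℂ z.1) = ((z.1.re : ℝ) : ℂ) := by
    rw [Complex.add_conj, smul_eq_mul]; push_cast; ring
  have e2 : ((1 / (R:ℂ)) ^ (2 * R)) • (z.1 ^ R * starRingEnd ℂ z.1 ^ R) = (((‖z.1‖ / R) ^ (2 * R) : ℝ) : ℂ) := by
    rw [← mul_pow, Complex.mul_conj, Complex.normSq_eq_norm_sq, smul_eq_mul, div_pow, div_pow, one_pow]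
    push_cast
    rw [← pow_mul]
    ring
  rw [e1, e2]

end

end Pool.Agent.KS6_29.LD
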