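import Pool.Agent.KS6_29.LD.Bk2

set_option autoImplicit false

/-! Estimates for one block. -/

namespace Pool.Agent.KS6_29.LD

open Finset MeasureTheory Complex MonoidAlgebra
open Pool.Agent.W184.NZ

/-- the element of the block, with the detector of large values if `q` -/
noncomputable def XQ (q : Bool) (K R : ℕ) (a b s s' : ℂ) (P : Finset ℕ) : DC :=
  XB K a b s s' P * (if q then QC R P else 1)

/-- the saving -/
noncomputable def dq (q : Bool) (R : ℕ) : ℝ := if q then Real.exp (-(2 * (R:ℝ))) else 1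

lemma dq_pos (q : Bool) (R : ℕ) : 0 < dq q R := by unfold dq; split_ifs <;> positivity

lemma dq_le (q : Bool) (R : ℕ) : dq q R ≤ 1 := by
  unfold dq; split_ifs
  · exact Real.exp_le_one_iff.mpr (by have : (0:ℝ) ≤ R := Nat.cast_nonneg R; linarith)
  · exact le_rfl

lemma ball_le {R : ℕ} (hR : 1 ≤ R) {x : ℝ} (hx : 0 ≤ x) :
    (x / R) ^ (2 * R) ≤ Real.exp (-(2 * (R:ℝ))) * Real.exp (2 * x) := by
  have hR0 : (0:ℝ) < R := by exact_mod_cast hR
  have h1 : x / R ≤ Real.exp (x / R - 1) := by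
    have := Real.add_one_le_exp (x / R - 1)
    linarith
  calc (x / R) ^ (2 * R) ≤ Real.exp (x / R - 1) ^ (2 * R) := pow_le_pow_left₀ (by positivity) h1 _
    _ = _ := by
      rw [← Real.exp_nat_mul, ← Real.exp_add]
      congr 1
      push_cast
      field_simp
      ring

/-- values with detector -/
noncomputable def XW (q : Bool) (K R : ℕ) (a b s s' z : ℂ) : ℂ :=
  XV K a b s s' z * (if q then (((‖z‖ / R) ^ (2 * R) : ℝ) : ℂ) else 1)

lemma XW_cont (q : Bool) (K R : ℕ) (a b s s' : ℂ) : Continuous fun z : ℂ => XW q K R a b s s' z := by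
  unfold XW
  refine (XV_cont K a b s s').mul ?_
  split_ifs
  · exact Complex.continuous_ofReal.comp (by fun_prop)
  · exact continuous_const

lemma XW_norm_le {B0 : ℝ} (hB0 : 1 ≤ B0) (q : Bool) (K : ℕ) {R : ℕ} (hR : 1 ≤ R) {a b s s' : ℂ}
    (ha : ‖a‖ ≤ B0) (hb : ‖b‖ ≤ B0) (hs : ‖s‖ ≤ B0) (hs' : ‖s'‖ ≤ B0) (z : ℂ) :
    ‖XW q K R a b s s' z‖ ≤ dq q R * Real.exp (6 * B0 * ‖z‖) := by
  have h1 := XV_norm_le (by linarith) K ha hb hs hs' z
  have hz := norm_nonneg z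
  unfold XW dq
  rw [norm_mul]
  split_ifs
  · rw [Complex.norm_real, Real.norm_of_nonneg (by positivity)]
    have h2 := ball_le hR hz
    calc _ ≤ Real.exp (4 * B0 * ‖z‖) * (Real.exp (-(2 * (R:ℝ))) * Real.exp (2 * ‖z‖)) :=
          mul_le_mul h1 h2 (by positivity) (Real.exp_pos _).le
      _ = Real.exp (-(2 * (R:ℝ))) * Real.exp (4 * B0 * ‖z‖ + 2 * ‖z‖) := by rw [Real.exp_add]; ring
      _ ≤ _ := by
        refine mul_le_mul_of_nonneg_left (Real.exp_le_exp.mpr ?_) (Real.exp_pos _).le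
        nlinarith
  · rw [norm_one, mul_one, one_mul]
    exact h1.trans (Real.exp_le_exp.mpr (by nlinarith))

section
variable {w : ℕ × ℕ → ℝ} {wa wb B0 c : ℝ} {P : Finset ℕ}

/-- the conditions on a block -/
structure BP (B0 c : ℝ) (P : Finset ℕ) : Prop where
  pr : ∀ p ∈ P, p.Prime ∧ 144 ≤ p ∧ 40 * (30 * B0) ^ 3 * rp p ≤ 1
  v : vI P ≤ c

lemma lamC_XQ {ν : Measure (ℂ × ℂ)} {B : ℝ} (h : GLw w wa wb B P ν) (q : Bool) (K R : ℕ) (a b s s' : ℂ) :
    lamC w (XQ q K R a b s s' P) = ∫ z, XW q K R a b s s' z.1 * z.2 ∂ν := by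
  unfold XQ XW
  cases q with
  | false => simpa using h.XB_eq K a b s s'
  | true => simpa using h.XQ_eq K R a b s s'

lemma XQ_crude (hw : PW w wa wb) (hB0 : 1 ≤ B0) (hP : BP B0 c P) (q : Bool) (K : ℕ) {R : ℕ} (hR : 1 ≤ R)
    {a b s s' : ℂ} (ha : ‖a‖ ≤ B0) (hb : ‖b‖ ≤ B0) (hs : ‖s‖ ≤ B0) (hs' : ‖s'‖ ≤ B0) :
    ‖lamC w (XQ q K R a b s s' P)‖ ≤ 4 * dq q R * Real.exp (CB (30 * B0) * c) := by
  have hB : 1 ≤ 30 * B0 := by linarith
  obtain ⟨ν, hν⟩ := gl_exists hw hB P hP.pr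
  have := hν.prob
  obtain ⟨M, hM⟩ := hν.bdd
  rw [lamC_XQ hν]
  refine (norm_integral_le_integral_norm _).trans ?_
  have h1 : ∫ z, ‖XW q K R a b s s' z.1 * z.2‖ ∂ν ≤ ∫ z : ℂ × ℂ, dq q R * (Real.exp (6 * B0 * ‖z.1‖) * ‖z.2‖) ∂ν := by
    refine integral_mono ?_ ?_ fun z => ?_
    · exact (integrable_of_bdd2 hM (((XW_cont q K R a b s s').comp continuous_fst).mul continuous_snd)).norm
    · exact (integrable_of_bdd2 hM (by fun_prop)).const_mul _
    · simp only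
      rw [norm_mul]
      have := mul_le_mul_of_nonneg_right (XW_norm_le hB0 q K hR ha hb hs hs' z.1) (norm_nonneg z.2)
      linarith
  refine h1.trans ?_
  rw [integral_const_mul]
  have h2 := hν.normexp (c := 6 * B0) (by positivity) (by linarith)
  have h3 : Real.exp (CB (30 * B0) * vI P) ≤ Real.exp (CB (30 * B0) * c) :=
    Real.exp_le_exp.mpr (mul_le_mul_of_nonneg_left hP.v (CB_pos hB).le)
  calc _ ≤ dq q R * (4 * Real.exp (CB (30 * B0) * c)) :=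
        mul_le_mul_of_nonneg_left (h2.trans (by linarith)) (dq_pos q R).le
    _ = _ := by ring

/-- the constant of the block -/
noncomputable def C1 (B0 c : ℝ) : ℝ := 32 * Real.exp (2 * CB (30 * B0) * c + 8 * B0 ^ 2 * c)

lemma C1_pos (B0 c : ℝ) : 0 < C1 B0 c := by unfold C1; positivity

/-- the exponent -/
noncomputable def QQ (wa wb : ℝ) (a b s s' : ℂ) : ℂ :=
  (a + (s + s') / 2) * (b + (s + s') / 2) + wa * (a + (s + s') / 2) + wb * (b + (s + s') / 2)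

lemma half_norm {s s' : ℂ} {a : ℂ} (ha : ‖a‖ ≤ B0) (hs : ‖s‖ ≤ B0) (hs' : ‖s'‖ ≤ B0) :
    ‖a + (s + s') / 2‖ ≤ 2 * B0 := by
  refine (norm_add_le _ _).trans ?_
  rw [norm_div, Complex.norm_ofNat]
  have := norm_add_le s s'
  linarith

lemma QQ_norm (hB0 : 1 ≤ B0) (hw : LW w wa wb) {a b s s' : ℂ} (ha : ‖a‖ ≤ B0) (hb : ‖b‖ ≤ B0) (hs : ‖s‖ ≤ B0)
    (hs' : ‖s'‖ ≤ B0) : ‖QQ wa wb a b s s'‖ ≤ 8 * B0 ^ 2 := by
  have h1 := half_norm ha hs hs'
  have h2 := half_norm hb hs hs'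
  unfold QQ
  refine (norm_add_le _ _).trans ?_
  have n1 := norm_add_le ((a + (s + s') / 2) * (b + (s + s') / 2)) (wa * (a + (s + s') / 2))
  rw [norm_mul, norm_mul, Complex.norm_real, Real.norm_of_nonneg hw.a0] at n1
  rw [norm_mul (wb:ℂ), Complex.norm_real, Real.norm_of_nonneg hw.b0]
  have n2 : ‖a + (s + s') / 2‖ * ‖b + (s + s') / 2‖ ≤ (2 * B0) * (2 * B0) :=
    mul_le_mul h1 h2 (norm_nonneg _) (by linarith)
  have n3 : wa * ‖a + (s + s') / 2‖ ≤ 1 * (2 * B0) := mul_le_mul hw.a1 h1 (norm_nonneg _) zero_le_one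
  have n4 : wb * ‖b + (s + s') / 2‖ ≤ 1 * (2 * B0) := mul_le_mul hw.b1 h2 (norm_nonneg _) zero_le_one
  nlinarith

/-- the average over one block -/
theorem XB_main (hw : PW w wa wb) (hB0 : 1 ≤ B0) (hc : 0 ≤ c) (hP : BP B0 c P) (hu : uI P ≤ c) {K : ℕ}
    (hK : C1 B0 c * Real.exp (-(K:ℝ)) ≤ 1)
    {a b s s' : ℂ} (ha : ‖a‖ ≤ B0) (hb : ‖b‖ ≤ B0) (hs : ‖s‖ ≤ B0) (hs' : ‖s'‖ ≤ B0) :
    ∃ e : ℂ, ‖e‖ ≤ CB (30 * B0) * uI P + C1 B0 c * Real.exp (-(K:ℝ)) ∧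
      lamC w (XB K a b s s' P) = Complex.exp (QQ wa wb a b s s' * (vI P : ℝ) + e) := by
  have hB : 1 ≤ 30 * B0 := by linarith
  have hCB := CB_pos hB
  obtain ⟨ν, hν⟩ := gl_exists hw hB P hP.pr
  have := hν.prob
  obtain ⟨M, hM⟩ := hν.bdd
  have h1 := half_norm ha hs hs'
  have h2 := half_norm hb hs hs'
  obtain ⟨e0, he0, hE⟩ := hν.cx (a + (s + s') / 2) (b + (s + s') / 2) (by linarith) (by linarith)
  have hv0 := vI_nonneg P
  have hE' : ∫ z, XE a b s s' z.1 * z.2 ∂ν = Complex.exp (QQ wa wb a b s s' * (vI P : ℝ) + e0) := by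
    rw [QQ, ← hE]
    refine integral_congr_ae (Filter.Eventually.of_forall fun z => ?_)
    simp only
    rw [XE_eq]
  have hd : ‖lamC w (XB K a b s s' P) - Complex.exp (QQ wa wb a b s s' * (vI P : ℝ) + e0)‖ ≤
      16 * Real.exp (-(K:ℝ)) * Real.exp (CB (30 * B0) * c) := by
    rw [hν.XB_eq, ← hE', ← integral_sub]
    · refine (norm_integral_le_integral_norm _).trans ?_
      have g1 : ∫ z, ‖XV K a b s s' z.1 * z.2 - XE a b s s' z.1 * z.2‖ ∂ν ≤
          ∫ z : ℂ × ℂ, (4 * Real.exp (-(K:ℝ))) * (Real.exp (6 * B0 * ‖z.1‖) * ‖z.2‖) ∂ν := by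
        refine integral_mono ?_ ?_ fun z => ?_
        · exact (integrable_of_bdd2 hM ((((XV_cont K a b s s').comp continuous_fst).mul continuous_snd).sub
            (((XE_cont a b s s').comp continuous_fst).mul continuous_snd))).norm
        · exact (integrable_of_bdd2 hM (by fun_prop)).const_mul _
        · simp only
          rw [← sub_mul, norm_mul]
          have := mul_le_mul_of_nonneg_right (XV_sub_le (by linarith) K ha hb hs hs' z.1) (norm_nonneg z.2)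
          linarith
      refine g1.trans ?_
      rw [integral_const_mul]
      have g2 := hν.normexp (c := 6 * B0) (by positivity) (by linarith)
      have g3 : Real.exp (CB (30 * B0) * vI P) ≤ Real.exp (CB (30 * B0) * c) :=
        Real.exp_le_exp.mpr (mul_le_mul_of_nonneg_left hP.v hCB.le)
      calc _ ≤ (4 * Real.exp (-(K:ℝ))) * (4 * Real.exp (CB (30 * B0) * c)) :=
            mul_le_mul_of_nonneg_left (g2.trans (by linarith)) (by positivity)
        _ = _ := by ring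
    · exact integrable_of_bdd2 hM (((XV_cont K a b s s').comp continuous_fst).mul continuous_snd)
    · exact integrable_of_bdd2 hM (((XE_cont a b s s').comp continuous_fst).mul continuous_snd)
  set m := Complex.exp (QQ wa wb a b s s' * (vI P : ℝ) + e0) with hm
  have hm0 : m ≠ 0 := Complex.exp_ne_zero _
  have hml : Real.exp (-(8 * B0 ^ 2 * c + CB (30 * B0) * c)) ≤ ‖m‖ := by
    rw [hm, Complex.norm_exp]
    refine Real.exp_le_exp.mpr ?_
    have k1 := Complex.abs_re_le_norm (QQ wa wb a b s s' * (vI P : ℝ) + e0)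
    have k2 : ‖QQ wa wb a b s s' * (vI P : ℝ) + e0‖ ≤ 8 * B0 ^ 2 * c + CB (30 * B0) * c := by
      refine (norm_add_le _ _).trans (add_le_add ?_ (he0.trans (mul_le_mul_of_nonneg_left hu hCB.le)))
      rw [norm_mul, Complex.norm_real, Real.norm_of_nonneg hv0]
      exact mul_le_mul (QQ_norm hB0 hw.lw ha hb hs hs') hP.v hv0 (by positivity)
    have := (abs_le.mp (k1.trans k2)).1
    linarith
  set δ := (lamC w (XB K a b s s' P) - m) / m with hδ
  have hδn : ‖δ‖ ≤ C1 B0 c * Real.exp (-(K:ℝ)) / 2 := by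
    rw [hδ, norm_div, div_le_iff₀ (norm_pos_iff.mpr hm0)]
    refine hd.trans ?_
    have k1 : C1 B0 c * Real.exp (-(K:ℝ)) / 2 * Real.exp (-(8 * B0 ^ 2 * c + CB (30 * B0) * c)) =
        16 * Real.exp (-(K:ℝ)) * Real.exp (CB (30 * B0) * c) := by
      unfold C1
      rw [show 2 * CB (30 * B0) * c + 8 * B0 ^ 2 * c = (8 * B0 ^ 2 * c + CB (30 * B0) * c) + CB (30 * B0) * c by ring,
        Real.exp_add, Real.exp_neg (8 * B0 ^ 2 * c + CB (30 * B0) * c)]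
      have := Real.exp_ne_zero (8 * B0 ^ 2 * c + CB (30 * B0) * c)
      field_simp
      ring
    rw [← k1]
    exact mul_le_mul_of_nonneg_left hml (by have := C1_pos B0 c; positivity)
  have hδ2 : ‖δ‖ ≤ 1 / 2 := by linarith
  have h1δ : (1:ℂ) + δ ≠ 0 := by
    intro h0
    have : δ = -1 := by linear_combination h0
    rw [this, norm_neg, norm_one] at hδ2
    norm_num at hδ2
  refine ⟨e0 + Complex.log (1 + δ), ?_, ?_⟩
  · refine (norm_add_le _ _).trans (add_le_add he0 ?_)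
    refine (Complex.norm_log_one_add_half_le_self hδ2).trans ?_
    have := mul_nonneg (C1_pos B0 c).le (Real.exp_pos (-(K:ℝ))).le
    linarith
  · rw [← add_assoc, Complex.exp_add, Complex.exp_log h1δ, ← hm, hδ]
    field_simp
    ring

/-- real part of the sum over the primes -/
noncomputable def pR (P : Finset ℕ) : DA := (1 / 2 : ℝ) • (xI P + yI P)

/-- majorant -/
noncomputable def XR (q : Bool) (K R : ℕ) (B0 : ℝ) (P : Finset ℕ) : DA :=
  NK K B0 (xI P) * NK K B0 (yI P) * NK K B0 (pR P) * NK K B0 (pR P) *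
    (if q then ((1 / (R:ℝ)) ^ (2 * R)) • (xI P ^ R * yI P ^ R) else 1)

lemma Dm_x (P : Finset ℕ) : Dm (xC P) (xI P) := Dm.sum fun p _ => Dm.single _ (by simp)

lemma Dm_y (P : Finset ℕ) : Dm (yC P) (yI P) := Dm.sum fun p _ => Dm.single _ (by simp)

lemma Dm_p (P : Finset ℕ) : Dm (pC P) (pR P) := ((Dm_x P).add (Dm_y P)).smul (by simp)

lemma Dm_EC {F : DC} {f : DA} (h : Dm F f) (K : ℕ) {a : ℂ} (ha : ‖a‖ ≤ B0) : Dm (EC K a F) (NK K B0 f) := by
  refine Dm.sum fun k _ => (h.pow k).smul ?_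
  rw [norm_div, norm_pow, Complex.norm_natCast]
  have := pow_le_pow_left₀ (norm_nonneg _) ha k
  gcongr

lemma Dm_XQ (q : Bool) (K R : ℕ) {a b s s' : ℂ} (ha : ‖a‖ ≤ B0) (hb : ‖b‖ ≤ B0) (hs : ‖s‖ ≤ B0) (hs' : ‖s'‖ ≤ B0) :
    Dm (XQ q K R a b s s' P) (XR q K R B0 P) := by
  unfold XQ XR XB
  refine ((((Dm_EC (Dm_x P) K ha).mul (Dm_EC (Dm_y P) K hb)).mul (Dm_EC (Dm_p P) K hs)).mul
    (Dm_EC (Dm_p P) K hs')).mul ?_
  split_ifs
  · refine (((Dm_x P).pow R).mul ((Dm_y P).pow R)).smul ?_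
    rw [norm_pow, norm_div, norm_one, Complex.norm_natCast]
  · exact Dm.one

lemma io_NK (K : ℕ) (a : ℝ) (f : DA) : io (NK K a f) = EC K (a:ℂ) (io f) := by
  rw [NK_map]
  unfold NK EC
  refine sum_congr rfl fun k _ => ?_
  rw [← Complex.coe_smul]
  push_cast
  rfl

lemma io_pR (P : Finset ℕ) : io (pR P) = pC P := by
  unfold pR pC
  rw [map_smul, map_add, io_xI, io_yI, ← Complex.coe_smul]
  push_cast
  rfl

lemma io_XR (q : Bool) (K R : ℕ) : io (XR q K R B0 P) = XQ q K R B0 B0 B0 B0 P := by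
  unfold XR XQ XB
  rw [map_mul, map_mul, map_mul, map_mul, io_NK, io_NK, io_NK, io_pR, io_xI, io_yI]
  congr 1
  split_ifs
  · rw [map_smul, map_mul, map_pow, map_pow, io_xI, io_yI, ← Complex.coe_smul]
    unfold QC
    push_cast
    rfl
  · rw [map_one]

lemma XR_lam (hw : PW w wa wb) (hB0 : 1 ≤ B0) (hP : BP B0 c P) (q : Bool) (K : ℕ) {R : ℕ} (hR : 1 ≤ R) :
    lam w (XR q K R B0 P) ≤ 4 * dq q R * Real.exp (CB (30 * B0) * c) := by
  have hn : ‖(B0:ℂ)‖ ≤ B0 := by rw [Complex.norm_real, Real.norm_of_nonneg (by linarith)]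
  have h1 := XQ_crude hw hB0 hP q K hR hn hn hn hn
  rw [← io_XR, lamC_io, Complex.norm_real] at h1
  exact (le_abs_self _).trans h1

variable {b : ℝ}

lemma pR_Bd (hP : ∀ p ∈ P, p.Prime ∧ (p:ℝ) ≤ b) : Bd b (pR P) := ((xI_Bd hP).add (yI_Bd hP)).smul _

lemma pR_l1 (hb : 0 ≤ b) (hP : ∀ p ∈ P, p.Prime ∧ (p:ℝ) ≤ b) : l1 (pR P) ≤ b := by
  refine (l1_smul _ _).trans ?_
  have h1 := l1_add (xI P) (yI P)
  have h2 := xI_l1 hb hP
  have h3 := yI_l1 hb hP
  rw [abs_of_nonneg (by norm_num)]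
  linarith

lemma NK_l1B (hb : 1 ≤ b) {f : DA} (hf : l1 f ≤ b) (K : ℕ) {a : ℝ} (ha : 0 ≤ a) :
    l1 (NK K a f) ≤ Real.exp a * b ^ K := by
  refine (l1_sum _ _).trans ?_
  have h1 : ∀ k ∈ range (K + 1), l1 ((a ^ k / (k.factorial : ℝ)) • f ^ k) ≤ b ^ K * (a ^ k / (k.factorial : ℝ)) := by
    intro k hk
    rw [mem_range] at hk
    refine (l1_smul _ _).trans ?_
    rw [abs_of_nonneg (by positivity)]
    have h3 : l1 (f ^ k) ≤ b ^ K := by
      refine (l1_pow f k).trans ?_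
      refine (pow_le_pow_left₀ (l1_nonneg f) hf k).trans (pow_le_pow_right₀ hb (by omega))
    calc (a ^ k / (k.factorial : ℝ)) * l1 (f ^ k) ≤ (a ^ k / (k.factorial : ℝ)) * b ^ K :=
          mul_le_mul_of_nonneg_left h3 (by positivity)
      _ = _ := mul_comm _ _
  refine (sum_le_sum h1).trans ?_
  rw [← mul_sum, mul_comm]
  exact mul_le_mul_of_nonneg_right (Real.sum_le_exp_of_nonneg ha (K + 1)) (by positivity)

lemma XR_Bd (hb : 1 ≤ b) (hP : ∀ p ∈ P, p.Prime ∧ (p:ℝ) ≤ b) (q : Bool) (K R : ℕ) (a : ℝ) :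
    Bd (b ^ (4 * K + 2 * R)) (XR q K R a P) := by
  have h1 := (((NK_Bd hb (xI_Bd hP) K a).mul (NK_Bd hb (yI_Bd hP) K a)).mul (NK_Bd hb (pR_Bd hP) K a)).mul
    (NK_Bd hb (pR_Bd hP) K a)
  have h2 : Bd (b ^ (2 * R)) (if q then ((1 / (R:ℝ)) ^ (2 * R)) • (xI P ^ R * yI P ^ R) else (1:DA)) := by
    split_ifs
    · refine (((xI_Bd hP).pow R).mul ((yI_Bd hP).pow R)).smul _ |>.mono ?_
      rw [← pow_add]
      exact pow_le_pow_right₀ hb (by omega)
    · exact Bd.one.mono (one_le_pow₀ hb)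
  refine (h1.mul h2).mono (le_of_eq ?_)
  rw [← pow_add, ← pow_add, ← pow_add, ← pow_add]
  congr 1
  ring

lemma XR_l1 (hB0 : 0 ≤ B0) (hb : 1 ≤ b) (hP : ∀ p ∈ P, p.Prime ∧ (p:ℝ) ≤ b) (q : Bool) (K : ℕ) {R : ℕ} (hR : 1 ≤ R) :
    l1 (XR q K R B0 P) ≤ Real.exp (4 * B0) * b ^ (4 * K + 2 * R) := by
  have hb0 : 0 ≤ b := by linarith
  have h1 := NK_l1B hb (xI_l1 hb0 hP) K hB0
  have h2 := NK_l1B hb (yI_l1 hb0 hP) K hB0
  have h3 := NK_l1B hb (pR_l1 hb0 hP) K hB0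
  have h4 : l1 (if q then ((1 / (R:ℝ)) ^ (2 * R)) • (xI P ^ R * yI P ^ R) else (1:DA)) ≤ b ^ (2 * R) := by
    split_ifs
    · refine (l1_smul _ _).trans ?_
      have hR1 : (1:ℝ) ≤ R := by exact_mod_cast hR
      have k1 : |(1 / (R:ℝ)) ^ (2 * R)| ≤ 1 := by
        rw [abs_of_nonneg (by positivity)]
        refine pow_le_one₀ (by positivity) ?_
        rw [div_le_one (by linarith)]; exact hR1
      have k2 : l1 (xI P ^ R * yI P ^ R) ≤ b ^ (2 * R) := by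
        refine (l1_mul _ _).trans ?_
        rw [two_mul, pow_add]
        exact mul_le_mul ((l1_pow _ _).trans (pow_le_pow_left₀ (l1_nonneg _) (xI_l1 hb0 hP) R))
          ((l1_pow _ _).trans (pow_le_pow_left₀ (l1_nonneg _) (yI_l1 hb0 hP) R)) (l1_nonneg _) (by positivity)
      calc _ ≤ 1 * b ^ (2 * R) := mul_le_mul k1 k2 (l1_nonneg _) zero_le_one
        _ = _ := one_mul _
    · rw [l1_one]; exact one_le_pow₀ hb
  unfold XR
  have n1 := l1_nonneg (NK K B0 (xI P))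
  have n2 := l1_nonneg (NK K B0 (yI P))
  have n3 := l1_nonneg (NK K B0 (pR P))
  have g1 : l1 (NK K B0 (xI P) * NK K B0 (yI P)) ≤ (Real.exp B0 * b ^ K) * (Real.exp B0 * b ^ K) :=
    (l1_mul _ _).trans (mul_le_mul h1 h2 n2 (by positivity))
  have g2 : l1 (NK K B0 (xI P) * NK K B0 (yI P) * NK K B0 (pR P)) ≤
      (Real.exp B0 * b ^ K) * (Real.exp B0 * b ^ K) * (Real.exp B0 * b ^ K) :=
    (l1_mul _ _).trans (mul_le_mul g1 h3 n3 (by positivity))
  have g3 : l1 (NK K B0 (xI P) * NK K B0 (yI P) * NK K B0 (pR P) * NK K B0 (pR P)) ≤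
      (Real.exp B0 * b ^ K) * (Real.exp B0 * b ^ K) * (Real.exp B0 * b ^ K) * (Real.exp B0 * b ^ K) :=
    (l1_mul _ _).trans (mul_le_mul g2 h3 n3 (by positivity))
  refine (l1_mul _ _).trans ((mul_le_mul g3 h4 (l1_nonneg _) (by positivity)).trans (le_of_eq ?_))
  rw [show 4 * B0 = B0 + B0 + B0 + B0 by ring, Real.exp_add, Real.exp_add, Real.exp_add, pow_add, show 4 * K = K + K + K + K by ring,
    pow_add, pow_add, pow_add]
  ring

/-- the logarithmic weight over one block -/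
lemma XQ_wl (hB0 : 1 ≤ B0) (hP : BP B0 c P) (hb : 1 ≤ b) (hPb : ∀ p ∈ P, (p:ℝ) ≤ b) (q : Bool) (K : ℕ) {R : ℕ} (hR : 1 ≤ R)
    {a b' s s' : ℂ} (ha : ‖a‖ ≤ B0) (hb' : ‖b'‖ ≤ B0) (hs : ‖s‖ ≤ B0) (hs' : ‖s'‖ ≤ B0) :
    ‖lamC wl (XQ q K R a b' s s' P)‖ ≤
      2 * ((4 * K + 2 * R : ℕ) * Real.log b) * (4 * dq q R * Real.exp (CB (30 * B0) * c)) := by
  have hPb' : ∀ p ∈ P, p.Prime ∧ (p:ℝ) ≤ b := fun p hp => ⟨(hP.pr p hp).1, hPb p hp⟩
  have h1 := (Dm_XQ (P := P) q K R ha hb' hs hs').wl_le (XR_Bd hb hPb' q K R B0)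
  rw [Real.log_pow] at h1
  refine h1.trans (mul_le_mul_of_nonneg_left (XR_lam pw1 hB0 hP q K hR) ?_)
  have := Real.log_nonneg hb
  positivity

/-- membership -/
lemma xC_mem (hP : ∀ p ∈ P, p.Prime) : xC P ∈ SC (MI P) :=
  Subalgebra.sum_mem _ fun p hp => single_mem_SC (prime_mem_MI (hP p hp) hp).1 1

lemma yC_mem (hP : ∀ p ∈ P, p.Prime) : yC P ∈ SC (MI P) :=
  Subalgebra.sum_mem _ fun p hp => single_mem_SC (prime_mem_MI (hP p hp) hp).2 1

lemma pC_mem (hP : ∀ p ∈ P, p.Prime) : pC P ∈ SC (MI P) :=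
  Subalgebra.smul_mem _ (Subalgebra.add_mem _ (xC_mem hP) (yC_mem hP)) _

lemma EC_mem {M : Submonoid (ℕ × ℕ)} {F : DC} (hF : F ∈ SC M) (K : ℕ) (a : ℂ) : EC K a F ∈ SC M :=
  Subalgebra.sum_mem _ fun k _ => Subalgebra.smul_mem _ (Subalgebra.pow_mem _ hF k) _

lemma XQ_mem (hP : ∀ p ∈ P, p.Prime) (q : Bool) (K R : ℕ) (a b s s' : ℂ) : XQ q K R a b s s' P ∈ SC (MI P) := by
  unfold XQ XB
  refine Subalgebra.mul_mem _ (Subalgebra.mul_mem _ (Subalgebra.mul_mem _ (Subalgebra.mul_mem _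
    (EC_mem (xC_mem hP) K a) (EC_mem (yC_mem hP) K b)) (EC_mem (pC_mem hP) K s)) (EC_mem (pC_mem hP) K s')) ?_
  split_ifs
  · exact Subalgebra.smul_mem _ (Subalgebra.mul_mem _ (Subalgebra.pow_mem _ (xC_mem hP) R)
      (Subalgebra.pow_mem _ (yC_mem hP) R)) _
  · exact Subalgebra.one_mem _

end

end Pool.Agent.KS6_29.LD
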