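import Pool.Agent.KS6_29.LD.Ms3
import Pool.Graph.R_seed8.W184.NZ.Ranges

set_option autoImplicit false

/-! Existence of the blocks. -/

namespace Pool.Agent.KS6_29.LD

open Finset MeasureTheory Complex Filter Topology
open Pool.Agent.W184.NZ (bb II vI uI RR bb_pos log_bb bb_anti mem_II II_disj sum_II ranges mem_PF)

lemma tail_small {u0 : ℝ} (hu : 0 < u0) : ∃ n0 : ℕ, ∀ S : Finset ℕ, (∀ p ∈ S, n0 ≤ p) →
    ∑ p ∈ S, (p:ℝ) ^ (-(3 / 2 : ℝ)) ≤ u0 := by
  have hs : Summable (fun n : ℕ => (n:ℝ) ^ (-(3 / 2 : ℝ))) := by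
    rw [Real.summable_nat_rpow]; norm_num
  have h1 := hs.hasSum.tendsto_sum_nat
  obtain ⟨n0, hn0⟩ := ((h1.eventually (lt_mem_nhds (show (∑' n : ℕ, (n:ℝ) ^ (-(3 / 2 : ℝ))) - u0 < _ by linarith))).exists)
  refine ⟨n0, fun S hS => ?_⟩
  have hd : Disjoint (range n0) S := by
    rw [disjoint_left]
    intro p hp hq
    have := hS p hq
    rw [mem_range] at hp
    omega
  have h2 := hs.sum_le_tsum (range n0 ∪ S) (fun i _ => by positivity)
  rw [sum_union hd] at h2
  linarith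

theorem blocks : ∃ c : ℝ, 1 ≤ c ∧ ∀ B0 : ℝ, 1 ≤ B0 → ∀ u0 : ℝ, 0 < u0 → u0 ≤ 1 → ∃ D : ℝ, 0 ≤ D ∧ ∀ y : ℝ, 144 ≤ y →
    ∃ (J : ℕ) (P : ℕ → Finset ℕ), Bl B0 c u0 y J P ∧ |∑ i ∈ range J, vI (P i) - Real.log (Real.log y)| ≤ D ∧
      (4:ℝ) ^ J ≤ Real.log y := by
  obtain ⟨c, hc0, hc⟩ := ranges
  refine ⟨max c 1, le_max_right _ _, fun B0 hB0 u0 hu0 hu1 => ?_⟩
  obtain ⟨n0, hn0⟩ := tail_small hu0
  set n1 : ℕ := ⌈40 * (30 * B0) ^ 3⌉₊ with hn1
  have hn1' : 40 * (30 * B0) ^ 3 ≤ n1 := Nat.le_ceil _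
  have hn1p : 0 < n1 := by
    rw [hn1, Nat.ceil_pos]; positivity
  set z : ℕ := n0 + n1 ^ 2 with hz
  refine ⟨c + z, by positivity, fun y hy => ?_⟩
  obtain ⟨J, hR, h144, _, hV⟩ := hc y hy
  have hy1 : 1 ≤ y := by linarith
  refine ⟨J, fun i => (II y i).filter fun p => z ≤ p, ?_, ?_, ?_⟩
  · refine ⟨?_, ?_, ?_, ?_, ?_, hB0, ?_, ?_, hy1⟩
    · intro i p hp
      rw [mem_filter, mem_II] at hp
      refine ⟨hp.1.1, hp.1.2.1, ?_, hp.1.2.2.2⟩
      have h1 := rp_le (p := p) hn1p (by have := hp.2; omega)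
      have h2 : (0:ℝ) < n1 := by exact_mod_cast hn1p
      calc 40 * (30 * B0) ^ 3 * rp p ≤ 40 * (30 * B0) ^ 3 * (1 / n1) := mul_le_mul_of_nonneg_left h1 (by positivity)
        _ ≤ n1 * (1 / n1) := mul_le_mul_of_nonneg_right hn1' (by positivity)
        _ = 1 := by field_simp
    · intro i j hij
      exact disjoint_filter_filter (II_disj hy1 hij)
    · intro i hi
      have := h144 i hi
      linarith
    · intro i hi
      refine le_trans ?_ ((hR.v i hi).trans (le_max_left _ _))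
      unfold vI
      exact sum_le_sum_of_subset_of_nonneg (filter_subset _ _) fun _ _ _ => by positivity
    · unfold uI
      have e1 : ∀ i ∈ range J, ∑ p ∈ (II y i).filter (fun p => z ≤ p), (p:ℝ) ^ (-(3 / 2 : ℝ)) =
          ∑ p ∈ II y i, if z ≤ p then (p:ℝ) ^ (-(3 / 2 : ℝ)) else 0 := fun i _ => sum_filter _ _
      rw [sum_congr rfl e1, sum_II hy1 (fun p => if z ≤ p then (p:ℝ) ^ (-(3 / 2 : ℝ)) else 0), ← sum_filter]
      refine hn0 _ fun p hp => ?_
      rw [mem_filter] at hp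
      have := hp.2
      omega
    · have := le_max_right c 1
      linarith
    · exact hu1.trans (le_max_right _ _)
  · have e1 : ∑ i ∈ range J, vI (II y i) - ∑ i ∈ range J, vI ((II y i).filter fun p => z ≤ p) =
        ∑ i ∈ range J, ∑ p ∈ II y i, if z ≤ p then 0 else 1 / (p:ℝ) := by
      rw [← sum_sub_distrib]
      refine sum_congr rfl fun i _ => ?_
      unfold vI
      rw [sum_filter, ← sum_sub_distrib]
      exact sum_congr rfl fun p _ => by split_ifs <;> ring
    rw [sum_II hy1 (fun p => if z ≤ p then 0 else 1 / (p:ℝ))] at e1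
    have h0 : 0 ≤ ∑ p ∈ Pool.Agent.W184.NZ.PF y (bb y J), (if z ≤ p then 0 else 1 / (p:ℝ)) :=
      sum_nonneg fun p _ => by split_ifs <;> positivity
    have h1 : ∑ p ∈ Pool.Agent.W184.NZ.PF y (bb y J), (if z ≤ p then 0 else 1 / (p:ℝ)) ≤ z := by
      have e2 : ∑ p ∈ Pool.Agent.W184.NZ.PF y (bb y J), (if z ≤ p then 0 else 1 / (p:ℝ)) =
          ∑ p ∈ (Pool.Agent.W184.NZ.PF y (bb y J)).filter (fun p => ¬ z ≤ p), 1 / (p:ℝ) := by
        rw [sum_filter]
        exact sum_congr rfl fun p _ => by split_ifs <;> simp_all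
      rw [e2]
      have h2 : ∀ p ∈ (Pool.Agent.W184.NZ.PF y (bb y J)).filter (fun p => ¬ z ≤ p), 1 / (p:ℝ) ≤ 1 := by
        intro p hp
        rw [mem_filter, mem_PF (by linarith)] at hp
        have : (1:ℝ) ≤ p := by exact_mod_cast (by omega : 1 ≤ p)
        rw [div_le_one (by linarith)]
        exact this
      refine (sum_le_sum h2).trans ?_
      rw [sum_const, nsmul_eq_mul, mul_one]
      have h3 : (Pool.Agent.W184.NZ.PF y (bb y J)).filter (fun p => ¬ z ≤ p) ⊆ range z := by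
        intro p hp
        rw [mem_filter] at hp
        rw [mem_range]
        omega
      have := card_le_card h3
      rw [card_range] at this
      exact_mod_cast this
    rw [abs_le] at hV ⊢
    constructor <;> linarith [hV.1, hV.2]
  · rcases Nat.eq_zero_or_pos J with hJ | hJ
    · rw [hJ, pow_zero]
      have h1 : Real.log 144 ≤ Real.log y := Real.log_le_log (by norm_num) hy
      have h2 : 1 ≤ Real.log 144 := by
        rw [Real.le_log_iff_exp_le (by norm_num)]
        have := Real.exp_one_lt_d9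
        linarith
      linarith
    · have h1 := h144 (J - 1) (by omega)
      have h2 := Real.log_le_log (by norm_num) h1
      rw [log_bb] at h2
      have h3 : (4:ℝ) ≤ Real.log 144 := by
        rw [Real.le_log_iff_exp_le (by norm_num)]
        have h4 : Real.exp 4 = Real.exp 1 ^ 4 := by rw [← Real.exp_nat_mul]; norm_num
        rw [h4]
        have h5 : Real.exp 1 ≤ 2.72 := by have := Real.exp_one_lt_d9; linarith
        exact (pow_le_pow_left₀ (Real.exp_pos 1).le h5 4).trans (by norm_num)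
      have h6 : (4:ℝ) ^ J = 4 * 4 ^ (J - 1) := by
        rw [← pow_succ', Nat.sub_add_cancel hJ]
      have h7 : Real.log y * (1 / 4) ^ (J - 1) * 4 ^ (J - 1) = Real.log y := by
        rw [mul_assoc, ← mul_pow]; norm_num
      rw [h6, ← h7]
      exact mul_le_mul_of_nonneg_right (h3.trans h2) (by positivity)

end Pool.Agent.KS6_29.LD
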