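import Pool.Agent.KS6_29.LD.Cx1

set_option autoImplicit false

/-! The law of one unimodular variable with a density, complex exponential moments. -/

namespace Pool.Agent.KS6_29.LD

open Finset MeasureTheory Complex
open Pool.Agent.W184.NZ

/-- `p^{-1/2}` -/
noncomputable def rp (p : ℕ) : ℝ := (p:ℝ) ^ (-(1 / 2 : ℝ))

lemma rp_pos {p : ℕ} (hp : 0 < p) : 0 < rp p := by
  have : (0:ℝ) < p := by exact_mod_cast hp
  unfold rp; positivity

lemma rp_sq {p : ℕ} (hp : 0 < p) : rp p ^ 2 = 1 / (p:ℝ) := by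
  have hp0 : (0:ℝ) < p := by exact_mod_cast hp
  unfold rp
  rw [← Real.rpow_natCast, ← Real.rpow_mul hp0.le]
  norm_num
  rw [Real.rpow_neg hp0.le, Real.rpow_one]

lemma rp_cube {p : ℕ} (hp : 0 < p) : rp p ^ 3 = (p:ℝ) ^ (-(3 / 2 : ℝ)) := by
  have hp0 : (0:ℝ) < p := by exact_mod_cast hp
  unfold rp
  rw [← Real.rpow_natCast, ← Real.rpow_mul hp0.le]
  norm_num

lemma rp_le {p n : ℕ} (hn : 0 < n) (h : n ^ 2 ≤ p) : rp p ≤ 1 / n := by
  have hp : 0 < p := lt_of_lt_of_le (by positivity) h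
  have hn0 : (0:ℝ) < n := by exact_mod_cast hn
  have h1 : rp p ^ 2 ≤ (1 / (n:ℝ)) ^ 2 := by
    rw [rp_sq hp, div_pow, one_pow]
    refine one_div_le_one_div_of_le (by positivity) ?_
    exact_mod_cast h
  exact (sq_le_sq₀ (rp_pos hp).le (by positivity)).mp h1

lemma int6 {α : Type*} [MeasurableSpace α] {μ : Measure α} {f0 f1 f2 f3 f4 f5 : α → ℂ} (h0 : Integrable f0 μ)
    (h1 : Integrable f1 μ) (h2 : Integrable f2 μ) (h3 : Integrable f3 μ) (h4 : Integrable f4 μ)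
    (h5 : Integrable f5 μ) : ∫ q, (f0 q + f1 q + f2 q + f3 q + f4 q + f5 q) ∂μ =
      ∫ q, f0 q ∂μ + ∫ q, f1 q ∂μ + ∫ q, f2 q ∂μ + ∫ q, f3 q ∂μ + ∫ q, f4 q ∂μ + ∫ q, f5 q ∂μ := by
  have k1 : Integrable (fun q => f0 q + f1 q) μ := h0.add h1
  have k2 : Integrable (fun q => f0 q + f1 q + f2 q) μ := k1.add h2
  have k3 : Integrable (fun q => f0 q + f1 q + f2 q + f3 q) μ := k2.add h3
  have k4 : Integrable (fun q => f0 q + f1 q + f2 q + f3 q + f4 q) μ := k3.add h4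
  rw [integral_add k4 h5, integral_add k3 h4, integral_add k2 h3, integral_add k1 h2, integral_add h0 h1]

lemma exp_eighth : Real.exp (1 / 8) ≤ 2 := by
  have h := Real.exp_one_lt_d9
  have h2 : Real.exp (1 / 8) ≤ Real.exp (1 / 2) := Real.exp_le_exp.mpr (by norm_num)
  have h3 : Real.exp (1 / 2) ^ 2 = Real.exp 1 := by rw [← Real.exp_nat_mul]; norm_num
  nlinarith [Real.exp_pos (1 / 2)]

/-- one prime -/
structure PL (w : ℕ × ℕ → ℝ) (wa wb : ℝ) (p : ℕ) (μ : Measure (ℂ × ℂ)) : Prop where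
  prob : IsProbabilityMeasure μ
  n1 : ∀ᵐ q ∂μ, ‖q.1‖ ≤ rp p
  n2 : ∃ s : ℝ, 0 ≤ s ∧ s ≤ 1 ∧ ∀ᵐ q ∂μ, ‖q.2‖ ≤ Real.exp (s * q.1.re + 3 * rp p ^ 2)
  mean : ‖∫ q, q.1 ∂μ‖ ≤ rp p ^ 2
  mom : ∀ k l : ℕ, ∫ q, q.1 ^ k * (starRingEnd ℂ q.1) ^ l * q.2 ∂μ = ((w (p ^ k, p ^ l) : ℝ) : ℂ)

/-- the values at the first powers -/
structure LW (w : ℕ × ℕ → ℝ) (wa wb : ℝ) : Prop where
  a0 : 0 ≤ wa
  a1 : wa ≤ 1
  b0 : 0 ≤ wb
  b1 : wb ≤ 1
  v10 : ∀ p : ℕ, p.Prime → w (p, 1) = wa / p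
  v01 : ∀ p : ℕ, p.Prime → w (1, p) = wb / p
  v11 : ∀ p : ℕ, p.Prime → w (p, p) = 1 / p
  v20 : ∀ p : ℕ, p.Prime → |w (p ^ 2, 1)| ≤ 1 / (p:ℝ) ^ 2
  v02 : ∀ p : ℕ, p.Prime → |w (1, p ^ 2)| ≤ 1 / (p:ℝ) ^ 2

lemma integrable_of_bdd2 {E : Type*} [NormedAddCommGroup E] {ν : Measure (ℂ × ℂ)} [IsFiniteMeasure ν] {M : ℝ}
    (hM : ∀ᵐ q ∂ν, ‖q.1‖ ≤ M ∧ ‖q.2‖ ≤ M) {f : ℂ × ℂ → E} (hf : Continuous f) : Integrable f ν := by
  obtain ⟨C, hC⟩ := (isCompact_closedBall (0:ℂ × ℂ) M).exists_bound_of_continuousOn hf.continuousOn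
  refine Integrable.of_bound hf.aestronglyMeasurable C ?_
  filter_upwards [hM] with q hq
  refine hC q ?_
  rw [mem_closedBall_zero_iff, Prod.norm_def]
  exact max_le hq.1 hq.2

section
variable {w : ℕ × ℕ → ℝ} {wa wb : ℝ} {p : ℕ} {μ : Measure (ℂ × ℂ)}

lemma PL.bdd (h : PL w wa wb p μ) (hr : rp p ≤ 1) (hr0 : 0 ≤ rp p) : ∀ᵐ q ∂μ, ‖q.1‖ ≤ Real.exp 4 ∧ ‖q.2‖ ≤ Real.exp 4 := by
  obtain ⟨s, s0, s1, hs⟩ := h.n2
  filter_upwards [h.n1, hs] with q h1 h2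
  constructor
  · have := Real.add_one_le_exp (4:ℝ)
    linarith
  · refine h2.trans (Real.exp_le_exp.mpr ?_)
    have h3 : q.1.re ≤ 1 := (Complex.re_le_norm _).trans (h1.trans hr)
    have h4 : rp p ^ 2 ≤ 1 := pow_le_one₀ hr0 hr
    have h5 : s * q.1.re ≤ 1 := by
      rcases le_total 0 q.1.re with h6 | h6
      · calc s * q.1.re ≤ 1 * 1 := mul_le_mul s1 h3 h6 zero_le_one
          _ = 1 := by ring
      · have := mul_nonneg s0 (neg_nonneg.mpr h6)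
        linarith
    linarith

/-- the real exponential moments of one prime -/
lemma PL.expb (h : PL w wa wb p μ) (hp : 0 < p) {B : ℝ} (hB : 1 ≤ B) (hr : (B + 1) * rp p ≤ 1)
    {c : ℂ} (hc : ‖c‖ ≤ B) :
    ∫ q, Real.exp ((c * q.1).re) * ‖q.2‖ ∂μ ≤ Real.exp ((3 + (B + 1) + (B + 1) ^ 2) * rp p ^ 2) := by
  have := h.prob
  have r0 := rp_pos hp
  have hr1 : rp p ≤ 1 := by nlinarith
  have hb := h.bdd hr1 r0.le
  obtain ⟨s, s0, s1, hs⟩ := h.n2
  have hcs : ‖c + s‖ ≤ B + 1 := by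
    refine (norm_add_le _ _).trans ?_
    rw [Complex.norm_real, Real.norm_of_nonneg s0]
    linarith
  have i0 : Integrable (fun q : ℂ × ℂ => (c + s) * q.1) μ := integrable_of_bdd2 hb (by fun_prop)
  have i1 : Integrable (fun q : ℂ × ℂ => ((c + s) * q.1).re) μ := i0.re
  have i2 : Integrable (fun q : ℂ × ℂ => 1 + ((c + s) * q.1).re) μ := (integrable_const _).add i1
  have i3 : Integrable (fun q : ℂ × ℂ => 1 + ((c + s) * q.1).re + (B + 1) ^ 2 * rp p ^ 2) μ :=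
    i2.add (integrable_const _)
  have h1 : ∫ q, Real.exp ((c * q.1).re) * ‖q.2‖ ∂μ ≤
      ∫ q : ℂ × ℂ, Real.exp (3 * rp p ^ 2) * (1 + ((c + s) * q.1).re + (B + 1) ^ 2 * rp p ^ 2) ∂μ := by
    refine integral_mono_ae ?_ (i3.const_mul _) ?_
    · exact integrable_of_bdd2 hb (by fun_prop)
    · filter_upwards [h.n1, hs] with q h1 h2
      have h3 : ‖(c + s) * q.1‖ ≤ (B + 1) * rp p := by
        rw [norm_mul]; exact mul_le_mul hcs h1 (norm_nonneg _) (by linarith)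
      have h4 : |((c + s) * q.1).re| ≤ (B + 1) * rp p := (Complex.abs_re_le_norm _).trans h3
      have h5 : Real.exp (((c + s) * q.1).re) ≤ 1 + ((c + s) * q.1).re + (B + 1) ^ 2 * rp p ^ 2 := by
        have h6 := Real.exp_bound' (x := |((c + s) * q.1).re|)
        have h7 : Real.exp (((c + s) * q.1).re) ≤ 1 + ((c + s) * q.1).re + (((c + s) * q.1).re) ^ 2 := by
          have h8 := Real.abs_exp_sub_one_sub_id_le (x := ((c + s) * q.1).re) (h4.trans hr)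
          have := (abs_le.mp h8).2
          linarith
        have h9 : (((c + s) * q.1).re) ^ 2 ≤ ((B + 1) * rp p) ^ 2 := by
          rw [← sq_abs]
          exact pow_le_pow_left₀ (abs_nonneg _) h4 2
        rw [mul_pow] at h9
        linarith
      have e1 : ((c + s) * q.1).re = (c * q.1).re + s * q.1.re := by
        rw [add_mul, Complex.add_re, Complex.re_ofReal_mul]
      calc Real.exp ((c * q.1).re) * ‖q.2‖ ≤ Real.exp ((c * q.1).re) * Real.exp (s * q.1.re + 3 * rp p ^ 2) :=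
            mul_le_mul_of_nonneg_left h2 (Real.exp_pos _).le
        _ = Real.exp (3 * rp p ^ 2) * Real.exp (((c + s) * q.1).re) := by
            rw [e1, ← Real.exp_add, ← Real.exp_add]; congr 1; ring
        _ ≤ _ := mul_le_mul_of_nonneg_left h5 (Real.exp_pos _).le
  refine h1.trans ?_
  rw [integral_const_mul, integral_add i2 (integrable_const _), integral_add (integrable_const _) i1]
  have h2 : ∫ q : ℂ × ℂ, ((c + s) * q.1).re ∂μ ≤ (B + 1) * rp p ^ 2 := by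
    have e1 : ∫ q : ℂ × ℂ, ((c + s) * q.1).re ∂μ = (∫ q : ℂ × ℂ, (c + s) * q.1 ∂μ).re := integral_re i0
    rw [e1, integral_const_mul]
    refine (Complex.re_le_norm _).trans ?_
    rw [norm_mul]
    exact mul_le_mul hcs h.mean (norm_nonneg _) (by linarith)
  simp only [integral_const, probReal_univ, one_smul]
  have h3 : 1 + ∫ q : ℂ × ℂ, ((c + s) * q.1).re ∂μ + (B + 1) ^ 2 * rp p ^ 2 ≤
      Real.exp (((B + 1) + (B + 1) ^ 2) * rp p ^ 2) := by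
    have := Real.add_one_le_exp (((B + 1) + (B + 1) ^ 2) * rp p ^ 2)
    linarith
  calc _ ≤ Real.exp (3 * rp p ^ 2) * Real.exp (((B + 1) + (B + 1) ^ 2) * rp p ^ 2) :=
        mul_le_mul_of_nonneg_left h3 (Real.exp_pos _).le
    _ = _ := by rw [← Real.exp_add]; congr 1; ring

/-- the complex exponential moments of one prime -/
lemma PL.cexp (h : PL w wa wb p μ) (hw : LW w wa wb) (hone : w (1, 1) = 1) (hp : p.Prime) {B : ℝ} (hB : 1 ≤ B)
    (hr : 40 * B ^ 3 * rp p ≤ 1) {a b : ℂ} (ha : ‖a‖ ≤ B) (hb : ‖b‖ ≤ B) :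
    ∃ e : ℂ, ‖e‖ ≤ 2000 * B ^ 6 * rp p ^ 3 ∧
      ∫ q, Complex.exp (a * q.1 + b * starRingEnd ℂ q.1) * q.2 ∂μ =
        Complex.exp ((a * b + wa * a + wb * b) * (1 / (p:ℝ) : ℝ) + e) := by
  have := h.prob
  have r0 := rp_pos hp.pos
  have hB3 : 1 ≤ B ^ 3 := one_le_pow₀ hB
  have hBB3 : B ≤ B ^ 3 := by nlinarith [sq_nonneg B, mul_nonneg (by linarith : (0:ℝ) ≤ B) (by nlinarith : (0:ℝ) ≤ B ^ 2 - 1)]
  have hBr : 40 * B * rp p ≤ 1 := by
    calc 40 * B * rp p ≤ 40 * B ^ 3 * rp p := by gcongr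
      _ ≤ 1 := hr
  have hr1 : rp p ≤ 1 / 40 := by
    have : 40 * 1 * rp p ≤ 40 * B * rp p := by gcongr
    linarith
  have hbd := h.bdd (by linarith) r0.le
  obtain ⟨s, s0, s1, hs⟩ := h.n2
  set r := rp p with hrd
  have hr2 : r ^ 2 = 1 / (p:ℝ) := rp_sq hp.pos
  -- second order expansion
  set E2 : ℂ → ℂ := fun x => 1 + x + x ^ 2 / 2 with hE2
  have i1 : Integrable (fun q : ℂ × ℂ => Complex.exp (a * q.1 + b * starRingEnd ℂ q.1) * q.2) μ :=
    integrable_of_bdd2 hbd (by fun_prop)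
  have i2 : Integrable (fun q : ℂ × ℂ => E2 (a * q.1 + b * starRingEnd ℂ q.1) * q.2) μ :=
    integrable_of_bdd2 hbd (by simp only [hE2]; fun_prop)
  have hD : ‖∫ q, Complex.exp (a * q.1 + b * starRingEnd ℂ q.1) * q.2 ∂μ -
      ∫ q, E2 (a * q.1 + b * starRingEnd ℂ q.1) * q.2 ∂μ‖ ≤ 16 * B ^ 3 * r ^ 3 := by
    rw [← integral_sub i1 i2]
    have h1 : ‖∫ q : ℂ × ℂ, (Complex.exp (a * q.1 + b * starRingEnd ℂ q.1) * q.2 -
        E2 (a * q.1 + b * starRingEnd ℂ q.1) * q.2) ∂μ‖ ≤ (16 * B ^ 3 * r ^ 3) * μ.real Set.univ := by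
      refine norm_integral_le_of_norm_le_const ?_
      filter_upwards [h.n1, hs] with q h1 h2
      set x := a * q.1 + b * starRingEnd ℂ q.1 with hx
      have hxn : ‖x‖ ≤ 2 * B * r := by
        refine (norm_add_le _ _).trans ?_
        rw [norm_mul, norm_mul, Complex.norm_conj]
        have e1 := mul_le_mul ha h1 (norm_nonneg _) (by linarith)
        have e2 := mul_le_mul hb h1 (norm_nonneg _) (by linarith)
        linarith
      have hx1 : ‖x‖ ≤ 1 := by linarith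
      have h3 := Complex.exp_bound hx1 (n := 3) (by norm_num)
      have h4 : ‖Complex.exp x - E2 x‖ ≤ ‖x‖ ^ 3 := by
        have e1 : ∑ m ∈ range 3, x ^ m / (m.factorial : ℂ) = E2 x := by
          simp only [hE2, sum_range_succ, sum_range_zero, Nat.factorial]
          push_cast; ring
        rw [e1] at h3
        refine h3.trans ?_
        have : ((Nat.succ 3 : ℕ) : ℝ) * ((Nat.factorial 3 : ℕ) * (3:ℕ) : ℝ)⁻¹ ≤ 1 := by
          simp only [Nat.factorial]; norm_num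
        calc _ ≤ ‖x‖ ^ 3 * 1 := mul_le_mul_of_nonneg_left this (by positivity)
          _ = _ := mul_one _
      have h5 : ‖x‖ ^ 3 ≤ (2 * B * r) ^ 3 := pow_le_pow_left₀ (norm_nonneg _) hxn 3
      have h6 : ‖q.2‖ ≤ 2 := by
        refine h2.trans ?_
        have h7 : s * q.1.re + 3 * r ^ 2 ≤ 1 / 8 := by
          have h8 : q.1.re ≤ 1 / 40 := (Complex.re_le_norm _).trans (h1.trans hr1)
          have h9 : s * q.1.re ≤ 1 / 40 := by
            rcases le_total 0 q.1.re with h6 | h6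
            · nlinarith
            · have := mul_nonneg s0 (neg_nonneg.mpr h6)
              linarith
          have h10 : r ^ 2 ≤ (1 / 40) ^ 2 := pow_le_pow_left₀ r0.le hr1 2
          linarith
        exact (Real.exp_le_exp.mpr h7).trans exp_eighth
      rw [← sub_mul, norm_mul]
      calc ‖Complex.exp x - E2 x‖ * ‖q.2‖ ≤ (2 * B * r) ^ 3 * 2 :=
            mul_le_mul (h4.trans h5) h6 (norm_nonneg _) (by positivity)
        _ = 16 * B ^ 3 * r ^ 3 := by ring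
    rwa [probReal_univ, mul_one] at h1
  -- the main part
  have hM : ∀ k l : ℕ, Integrable (fun q : ℂ × ℂ => q.1 ^ k * (starRingEnd ℂ q.1) ^ l * q.2) μ :=
    fun k l => integrable_of_bdd2 hbd (by fun_prop)
  have m00 := h.mom 0 0
  have m10 := h.mom 1 0
  have m01 := h.mom 0 1
  have m11 := h.mom 1 1
  have m20 := h.mom 2 0
  have m02 := h.mom 0 2
  have eE : ∀ q : ℂ × ℂ, E2 (a * q.1 + b * starRingEnd ℂ q.1) * q.2 =
      (q.1 ^ 0 * (starRingEnd ℂ q.1) ^ 0 * q.2) + a * (q.1 ^ 1 * (starRingEnd ℂ q.1) ^ 0 * q.2) +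
      b * (q.1 ^ 0 * (starRingEnd ℂ q.1) ^ 1 * q.2) + (a * b) * (q.1 ^ 1 * (starRingEnd ℂ q.1) ^ 1 * q.2) +
      (a ^ 2 / 2) * (q.1 ^ 2 * (starRingEnd ℂ q.1) ^ 0 * q.2) +
      (b ^ 2 / 2) * (q.1 ^ 0 * (starRingEnd ℂ q.1) ^ 2 * q.2) := by
    intro q
    simp only [hE2]
    ring
  have hmain : ∫ q, E2 (a * q.1 + b * starRingEnd ℂ q.1) * q.2 ∂μ =
      1 + a * (wa / p : ℝ) + b * (wb / p : ℝ) + a * b * (1 / p : ℝ) + a ^ 2 / 2 * (w (p ^ 2, 1) : ℝ) +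
      b ^ 2 / 2 * (w (1, p ^ 2) : ℝ) := by
    simp_rw [eE]
    have j0 := hM 0 0
    have j1 := (hM 1 0).const_mul a
    have j2 := (hM 0 1).const_mul b
    have j3 := (hM 1 1).const_mul (a * b)
    have j4 := (hM 2 0).const_mul (a ^ 2 / 2)
    have j5 := (hM 0 2).const_mul (b ^ 2 / 2)
    rw [int6 j0 j1 j2 j3 j4 j5,
      integral_const_mul, integral_const_mul, integral_const_mul, integral_const_mul, integral_const_mul,
      m00, m10, m01, m11, m20, m02]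
    simp only [pow_zero, pow_one]
    rw [hone, hw.v10 p hp, hw.v01 p hp, hw.v11 p hp]
    push_cast
    ring
  set M : ℂ := ∫ q, Complex.exp (a * q.1 + b * starRingEnd ℂ q.1) * q.2 ∂μ with hMd
  set Q : ℂ := (a * b + wa * a + wb * b) * (1 / (p:ℝ) : ℝ) with hQ
  have hp2 : (1 / (p:ℝ)) ^ 2 = r ^ 4 := by rw [← hr2]; ring
  have hr4 : r ^ 4 ≤ r ^ 3 := pow_le_pow_of_le_one r0.le (by linarith) (by norm_num)
  have hB1 : B ^ 2 ≤ B ^ 3 := pow_le_pow_right₀ hB (by norm_num)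
  have hB6 : B ^ 3 ≤ B ^ 6 := pow_le_pow_right₀ hB (by norm_num)
  have hB4 : B ^ 4 ≤ B ^ 6 := pow_le_pow_right₀ hB (by norm_num)
  -- M = 1 + Q + small
  have hδ : ‖M - 1 - Q‖ ≤ 17 * B ^ 3 * r ^ 3 := by
    have e1 : M - 1 - Q = (M - ∫ q, E2 (a * q.1 + b * starRingEnd ℂ q.1) * q.2 ∂μ) +
        (a ^ 2 / 2 * (w (p ^ 2, 1) : ℝ) + b ^ 2 / 2 * (w (1, p ^ 2) : ℝ)) := by
      rw [hmain, hQ]; push_cast; ring
    rw [e1]
    have n1 : ‖a ^ 2 / 2 * ((w (p ^ 2, 1) : ℝ) : ℂ)‖ ≤ B ^ 2 / 2 * r ^ 4 := by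
      rw [norm_mul, norm_div, norm_pow, Complex.norm_real, Real.norm_eq_abs, Complex.norm_ofNat, ← hp2, div_pow, one_pow]
      refine mul_le_mul ?_ (hw.v20 p hp) (abs_nonneg _) (by positivity)
      have := pow_le_pow_left₀ (norm_nonneg _) ha 2
      linarith
    have n2 : ‖b ^ 2 / 2 * ((w (1, p ^ 2) : ℝ) : ℂ)‖ ≤ B ^ 2 / 2 * r ^ 4 := by
      rw [norm_mul, norm_div, norm_pow, Complex.norm_real, Real.norm_eq_abs, Complex.norm_ofNat, ← hp2, div_pow, one_pow]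
      refine mul_le_mul ?_ (hw.v02 p hp) (abs_nonneg _) (by positivity)
      have := pow_le_pow_left₀ (norm_nonneg _) hb 2
      linarith
    have n3 := norm_add_le (M - ∫ q, E2 (a * q.1 + b * starRingEnd ℂ q.1) * q.2 ∂μ)
      (a ^ 2 / 2 * (w (p ^ 2, 1) : ℝ) + b ^ 2 / 2 * (w (1, p ^ 2) : ℝ))
    have n4 := norm_add_le (a ^ 2 / 2 * ((w (p ^ 2, 1) : ℝ) : ℂ)) (b ^ 2 / 2 * (w (1, p ^ 2) : ℝ))
    have n5 : B ^ 2 * r ^ 4 ≤ B ^ 3 * r ^ 3 := mul_le_mul hB1 hr4 (by positivity) (by positivity)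
    linarith
  have hQn : ‖Q‖ ≤ 3 * B ^ 2 * r ^ 2 := by
    rw [hQ, norm_mul, Complex.norm_real, Real.norm_of_nonneg (by positivity), ← hr2]
    refine mul_le_mul_of_nonneg_right ?_ (by positivity)
    have n1 := norm_add_le (a * b + wa * a) (wb * b)
    have n2 := norm_add_le (a * b) (wa * a)
    have n3 : ‖a * b‖ ≤ B * B := by rw [norm_mul]; exact mul_le_mul ha hb (norm_nonneg _) (by linarith)
    have n4 : ‖(wa:ℂ) * a‖ ≤ 1 * B := by
      rw [norm_mul, Complex.norm_real, Real.norm_of_nonneg hw.a0]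
      exact mul_le_mul hw.a1 ha (norm_nonneg _) zero_le_one
    have n5 : ‖(wb:ℂ) * b‖ ≤ 1 * B := by
      rw [norm_mul, Complex.norm_real, Real.norm_of_nonneg hw.b0]
      exact mul_le_mul hw.b1 hb (norm_nonneg _) zero_le_one
    nlinarith
  -- the logarithm
  have hs1 : ‖M - 1‖ ≤ 20 * B ^ 3 * r ^ 2 := by
    have n1 : ‖M - 1‖ ≤ ‖M - 1 - Q‖ + ‖Q‖ := by
      have := norm_add_le (M - 1 - Q) Q
      rwa [sub_add_cancel] at this
    have n2 : 17 * B ^ 3 * r ^ 3 ≤ 17 * B ^ 3 * r ^ 2 := by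
      refine mul_le_mul_of_nonneg_left ?_ (by positivity)
      exact pow_le_pow_of_le_one r0.le (by linarith) (by norm_num)
    have n3 : 3 * B ^ 2 * r ^ 2 ≤ 3 * B ^ 3 * r ^ 2 := by gcongr
    linarith
  have hs2 : ‖M - 1‖ ≤ 1 / 2 := by
    refine hs1.trans ?_
    have : 20 * B ^ 3 * r ^ 2 = (40 * B ^ 3 * r) * (r / 2) := by ring
    rw [this]
    calc (40 * B ^ 3 * r) * (r / 2) ≤ 1 * (r / 2) := mul_le_mul_of_nonneg_right hr (by positivity)
      _ ≤ 1 / 2 := by linarith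
  have hM0 : M ≠ 0 := by
    intro h0
    rw [h0] at hs2
    norm_num at hs2
  refine ⟨Complex.log M - Q, ?_, ?_⟩
  · have h1 : ‖Complex.log (1 + (M - 1)) - (M - 1)‖ ≤ ‖M - 1‖ ^ 2 * (1 - ‖M - 1‖)⁻¹ / 2 :=
      Complex.norm_log_one_add_sub_self_le (by linarith)
    rw [add_sub_cancel] at h1
    have h2 : (1 - ‖M - 1‖)⁻¹ ≤ 2 := by
      rw [inv_le_comm₀ (by linarith) (by norm_num)]; linarith
    have h3 : ‖M - 1‖ ^ 2 * (1 - ‖M - 1‖)⁻¹ / 2 ≤ ‖M - 1‖ ^ 2 := by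
      have := mul_le_mul_of_nonneg_left h2 (sq_nonneg ‖M - 1‖)
      linarith
    have h4 : ‖M - 1‖ ^ 2 ≤ (20 * B ^ 3 * r ^ 2) ^ 2 := pow_le_pow_left₀ (norm_nonneg _) hs1 2
    have e1 : Complex.log M - Q = (Complex.log M - (M - 1)) + (M - 1 - Q) := by ring
    rw [e1]
    refine (norm_add_le _ _).trans ?_
    have h5 : (20 * B ^ 3 * r ^ 2) ^ 2 ≤ 400 * B ^ 6 * r ^ 3 := by
      have : (20 * B ^ 3 * r ^ 2) ^ 2 = 400 * B ^ 6 * r ^ 4 := by ring
      rw [this]; gcongr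
    have h6 : 17 * B ^ 3 * r ^ 3 ≤ 17 * B ^ 6 * r ^ 3 := by gcongr
    have h7 : 0 ≤ B ^ 6 * r ^ 3 := by positivity
    linarith
  · rw [add_sub_cancel, Complex.exp_log hM0]

end

end Pool.Agent.KS6_29.LD
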