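import Pool.Agent.KS6_29.LD.Cl1

set_option autoImplicit false

/-! The three weights at one prime, and the law for a set of primes. -/

namespace Pool.Agent.KS6_29.LD

open Finset MeasureTheory Complex MonoidAlgebra
open Pool.Agent.W184.NZ

lemma lw0 : LW w0 0 0 where
  a0 := le_rfl
  a1 := zero_le_one
  b0 := le_rfl
  b1 := zero_le_one
  v10 p hp := by simp [w0, hp.ne_one]
  v01 p hp := by simp [w0, hp.ne_one.symm]
  v11 p hp := by simp [w0]
  v20 p hp := by
    have h : ¬ p ^ 2 = 1 := by
      intro h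
      exact hp.ne_one (by simpa using h)
    simp only [w0, if_neg h, abs_zero]; positivity
  v02 p hp := by
    have h : ¬ 1 = p ^ 2 := by
      intro h
      exact hp.ne_one (by simpa using h.symm)
    simp only [w0, if_neg h, abs_zero]; positivity

lemma lw1 : LW w1 1 1 where
  a0 := zero_le_one
  a1 := le_rfl
  b0 := zero_le_one
  b1 := le_rfl
  v10 p hp := by simp [w1]
  v01 p hp := by simp [w1]
  v11 p hp := by
    have : (p:ℝ) ≠ 0 := by exact_mod_cast hp.ne_zero
    simp only [w1, Nat.gcd_self]; field_simp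
  v20 p hp := by
    simp only [w1, Nat.gcd_one_right, Nat.cast_one, mul_one, Nat.cast_pow]
    rw [abs_of_nonneg (by positivity)]
  v02 p hp := by
    simp only [w1, Nat.gcd_one_left, Nat.cast_one, one_mul, Nat.cast_pow]
    rw [abs_of_nonneg (by positivity)]

lemma lwf : LW wf 0 1 where
  a0 := le_rfl
  a1 := zero_le_one
  b0 := zero_le_one
  b1 := le_rfl
  v10 p hp := by simp [wf, hp.ne_one]
  v01 p hp := by simp [wf]
  v11 p hp := by simp [wf]
  v20 p hp := by
    have h : ¬ p ^ 2 ∣ 1 := by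
      intro h
      exact hp.ne_one (by simpa using h)
    simp only [wf, if_neg h, abs_zero]; positivity
  v02 p hp := by
    simp only [wf, one_dvd, if_true, Nat.cast_pow]
    rw [abs_of_nonneg (by positivity)]

lemma pl_good {w : ℕ × ℕ → ℝ} {κ : ℝ} (hw : GoodW w κ) {p : ℕ} (hp : p.Prime) (hp1 : 144 ≤ p) :
    ∃ μ : Measure (ℂ × ℂ), PL w κ κ p μ := by
  have hr := rp_pos hp.pos
  have hr1 : rp p ≤ 1 / 12 := by
    have := rp_le (p := p) (n := 12) (by norm_num) (by simpa using hp1)
    simpa using this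
  have hr2 := rp_sq hp.pos
  have ha0 : 0 ≤ κ * rp p := mul_nonneg hw.k0 hr.le
  have ha1 : κ * rp p < 1 := by nlinarith [hw.k1, hw.k0]
  have hra : rp p * (κ * rp p) = κ / p := by
    rw [show rp p * (κ * rp p) = κ * rp p ^ 2 by ring, hr2]; ring
  obtain ⟨μ, hμ, hn, hm⟩ := single_law hr ha0 ha1
  have hc : Continuous fun z : ℂ => (z, (1:ℂ)) := by fun_prop
  have hmp : ∀ {E : Type} [NormedAddCommGroup E] [NormedSpace ℝ E] {f : ℂ × ℂ → E}, Continuous f →
      ∫ q, f q ∂(μ.map fun z : ℂ => (z, (1:ℂ))) = ∫ z, f (z, 1) ∂μ := by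
    intro E _ _ f hf
    rw [integral_map hc.measurable.aemeasurable hf.aestronglyMeasurable]
  refine ⟨μ.map fun z : ℂ => (z, (1:ℂ)), Measure.isProbabilityMeasure_map hc.measurable.aemeasurable, ?_, ?_, ?_, ?_⟩
  · rw [ae_map_iff hc.measurable.aemeasurable (measurableSet_le (by fun_prop) measurable_const)]
    exact hn.mono fun z hz => hz.le
  · refine ⟨0, le_rfl, zero_le_one, ?_⟩
    rw [ae_map_iff hc.measurable.aemeasurable (measurableSet_le (by fun_prop) (by fun_prop))]
    refine Filter.Eventually.of_forall fun z => ?_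
    simp only [norm_one, zero_mul, zero_add]
    exact Real.one_le_exp (by positivity)
  · rw [hmp (by fun_prop)]
    have h1 := hm 1 0
    simp only [pow_one, pow_zero, mul_one] at h1
    rw [h1, Complex.norm_real, Real.norm_eq_abs, hra, hr2]
    simp only [min_eq_right zero_le_one, max_eq_left zero_le_one, Nat.sub_zero, pow_zero, pow_one, one_mul]
    rw [abs_of_nonneg (div_nonneg hw.k0 (Nat.cast_nonneg _))]
    exact div_le_div_of_nonneg_right hw.k1 (Nat.cast_nonneg _)
  · intro k l
    rw [hmp (by fun_prop)]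
    simp only [mul_one]
    rw [hm, hw.loc p hp, hra, hr2]

lemma pl_wf {p : ℕ} (hp : p.Prime) (hp1 : 144 ≤ p) : ∃ μ : Measure (ℂ × ℂ), PL wf 0 1 p μ := by
  have hr := rp_pos hp.pos
  have hr1 : rp p ≤ 1 / 12 := by
    have := rp_le (p := p) (n := 12) (by norm_num) (by simpa using hp1)
    simpa using this
  have hr2 := rp_sq hp.pos
  obtain ⟨μ, hμ, hn, hm⟩ := single_law hr le_rfl (by norm_num : (0:ℝ) < 1)
  set r := rp p with hrd
  have hms : Measurable fun z : ℂ => (z, (1 - z)⁻¹) := by fun_prop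
  have hmp : ∀ {E : Type} [NormedAddCommGroup E] [NormedSpace ℝ E] {f : ℂ × ℂ → E}, Continuous f →
      ∫ q, f q ∂(μ.map fun z : ℂ => (z, (1 - z)⁻¹)) = ∫ z, f (z, (1 - z)⁻¹) ∂μ := by
    intro E _ _ f hf
    rw [integral_map hms.aemeasurable hf.aestronglyMeasurable]
  have hden : ∀ z : ℂ, ‖z‖ = r → 11 / 12 ≤ ‖1 - z‖ := by
    intro z hz
    have := norm_sub_norm_le (1:ℂ) z
    rw [norm_one, hz] at this
    linarith
  have hinv : ∀ z : ℂ, ‖z‖ = r → ‖(1 - z)⁻¹‖ ≤ 2 := by
    intro z hz
    rw [norm_inv, inv_le_comm₀ (by linarith [hden z hz]) (by norm_num)]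
    linarith [hden z hz]
  refine ⟨μ.map fun z : ℂ => (z, (1 - z)⁻¹), Measure.isProbabilityMeasure_map hms.aemeasurable, ?_, ?_, ?_, ?_⟩
  · rw [ae_map_iff hms.aemeasurable (measurableSet_le (by fun_prop) measurable_const)]
    exact hn.mono fun z hz => hz.le
  · refine ⟨1, zero_le_one, le_rfl, ?_⟩
    rw [ae_map_iff hms.aemeasurable (measurableSet_le (by fun_prop) (by fun_prop))]
    refine hn.mono fun z hz => ?_
    simp only [one_mul]
    have hd := hden z hz
    have hz1 : ‖z‖ ≤ 1 := by rw [hz]; linarith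
    -- ‖(1 - z) exp z - 1‖ is small
    have h1 : ‖Complex.exp z - 1 - z‖ ≤ ‖z‖ ^ 2 := Complex.norm_exp_sub_one_sub_id_le hz1
    have h2 : ‖(1 - z) * Complex.exp z - 1‖ ≤ 2.1 * r ^ 2 := by
      have e1 : (1 - z) * Complex.exp z - 1 = (1 - z) * (Complex.exp z - 1 - z) - z ^ 2 := by ring
      rw [e1]
      refine (norm_sub_le _ _).trans ?_
      rw [norm_mul, norm_pow, hz]
      rw [hz] at h1
      have h3 : ‖1 - z‖ ≤ 13 / 12 := by
        have := norm_sub_le (1:ℂ) z
        rw [norm_one, hz] at this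
        linarith
      have h4 := mul_le_mul h3 h1 (norm_nonneg _) (by norm_num)
      nlinarith [sq_nonneg r]
    have h3 : 1 - 2.1 * r ^ 2 ≤ ‖(1 - z) * Complex.exp z‖ := by
      have := norm_sub_norm_le (1:ℂ) ((1 - z) * Complex.exp z)
      rw [norm_one, norm_sub_rev] at this
      linarith
    rw [norm_mul, Complex.norm_exp] at h3
    have hr2' : r ^ 2 ≤ 1 / 144 := by nlinarith
    have h4 : Real.exp (-(3 * r ^ 2)) ≤ 1 - 2.1 * r ^ 2 := by
      have h5 := Real.abs_exp_sub_one_sub_id_le (x := -(3 * r ^ 2)) (by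
        rw [abs_neg, abs_of_nonneg (by positivity)]; linarith)
      have h6 := (abs_le.mp h5).2
      nlinarith [sq_nonneg r]
    rw [norm_inv]
    have h5 : 0 < ‖1 - z‖ := by linarith
    rw [inv_le_iff_one_le_mul₀ h5, Real.exp_add]
    have h6 : Real.exp (-(3 * r ^ 2)) ≤ ‖1 - z‖ * Real.exp z.re := h4.trans h3
    have h7 := mul_le_mul_of_nonneg_right h6 (Real.exp_pos (3 * r ^ 2)).le
    rw [← Real.exp_add, neg_add_cancel, Real.exp_zero] at h7
    calc (1:ℝ) ≤ ‖1 - z‖ * Real.exp z.re * Real.exp (3 * r ^ 2) := h7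
      _ = _ := by ring
  · rw [hmp (by fun_prop)]
    have h1 := hm 1 0
    simp only [pow_one, pow_zero, mul_one] at h1
    rw [h1, Complex.norm_real, Real.norm_eq_abs]
    norm_num
    positivity
  · intro k l
    rw [hmp (by fun_prop)]
    simp only
    have hB : ∀ᵐ z ∂μ, ‖z‖ ≤ r := hn.mono fun z hz => hz.le
    -- compare with the truncated geometric series
    have key : ∀ N : ℕ, ‖∫ z, z ^ k * (starRingEnd ℂ z) ^ l * (1 - z)⁻¹ ∂μ -
        ∑ n ∈ range N, ∫ z, z ^ (k + n) * (starRingEnd ℂ z) ^ l ∂μ‖ ≤ 2 * r ^ N := by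
      intro N
      have i0 : ∀ n : ℕ, Integrable (fun z : ℂ => z ^ (k + n) * (starRingEnd ℂ z) ^ l) μ :=
        fun n => integrable_of_bdd hB (by fun_prop)
      have i1 : Integrable (fun z : ℂ => z ^ k * (starRingEnd ℂ z) ^ l * (1 - z)⁻¹) μ := by
        refine Integrable.mul_bdd (c := 2) (integrable_of_bdd hB (by fun_prop)) (by
          exact (Measurable.aestronglyMeasurable (by fun_prop))) ?_
        exact hn.mono fun z hz => hinv z hz
      rw [← integral_finsetSum _ fun n _ => i0 n, ← integral_sub i1 (integrable_finsetSum _ fun n _ => i0 n)]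
      have h1 : ‖∫ z : ℂ, (z ^ k * (starRingEnd ℂ z) ^ l * (1 - z)⁻¹ -
          ∑ n ∈ range N, z ^ (k + n) * (starRingEnd ℂ z) ^ l) ∂μ‖ ≤ (2 * r ^ N) * μ.real Set.univ := by
        refine norm_integral_le_of_norm_le_const ?_
        refine hn.mono fun z hz => ?_
        have hz0 : (1:ℂ) - z ≠ 0 := by
          intro h
          have := hden z hz
          rw [h, norm_zero] at this
          linarith
        have e1 : z ^ k * (starRingEnd ℂ z) ^ l * (1 - z)⁻¹ -
            ∑ n ∈ range N, z ^ (k + n) * (starRingEnd ℂ z) ^ l =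
            z ^ k * (starRingEnd ℂ z) ^ l * (z ^ N * (1 - z)⁻¹) := by
          have e2 : ∑ n ∈ range N, z ^ (k + n) * (starRingEnd ℂ z) ^ l =
              z ^ k * (starRingEnd ℂ z) ^ l * ∑ n ∈ range N, z ^ n := by
            rw [mul_sum]; exact sum_congr rfl fun n _ => by rw [pow_add]; ring
          have e3 : (∑ n ∈ range N, z ^ n) = (1 - z ^ N) * (1 - z)⁻¹ := by
            have := mul_neg_geom_sum z N
            rw [← this]
            field_simp
          rw [e2, e3]; ring
        rw [e1, norm_mul, norm_mul, norm_mul, norm_pow, norm_pow, norm_pow, Complex.norm_conj, hz]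
        have h2 : r ^ k * r ^ l ≤ 1 := mul_le_one₀ (pow_le_one₀ hr.le (by linarith)) (by positivity)
          (pow_le_one₀ hr.le (by linarith))
        calc r ^ k * r ^ l * (r ^ N * ‖(1 - z)⁻¹‖) ≤ 1 * (r ^ N * 2) := by
              refine mul_le_mul h2 (mul_le_mul_of_nonneg_left (hinv z hz) (by positivity)) (by positivity) zero_le_one
          _ = 2 * r ^ N := by ring
      rwa [probReal_univ, mul_one] at h1
    have hsum : ∀ N : ℕ, l < N → ∑ n ∈ range N, ∫ z, z ^ (k + n) * (starRingEnd ℂ z) ^ l ∂μ =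
        ((wf (p ^ k, p ^ l) : ℝ) : ℂ) := by
      intro N hN
      have e1 : ∀ n : ℕ, ∫ z, z ^ (k + n) * (starRingEnd ℂ z) ^ l ∂μ =
          if n + k = l then (((r ^ 2) ^ l : ℝ) : ℂ) else 0 := by
        intro n
        rw [hm]
        by_cases h : n + k = l
        · rw [if_pos h, show k + n = l by omega, min_self, max_self, Nat.sub_self, pow_zero, mul_one]
        · rw [if_neg h, mul_zero, zero_pow, mul_zero, Complex.ofReal_zero]
          rcases lt_or_gt_of_ne (show k + n ≠ l by omega) with h1 | h1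
          · rw [max_eq_right h1.le, min_eq_left h1.le]; omega
          · rw [max_eq_left h1.le, min_eq_right h1.le]; omega
      simp_rw [e1]
      unfold wf
      simp only
      by_cases hkl : k ≤ l
      · rw [if_pos (pow_dvd_pow p hkl), sum_eq_single (l - k)]
        · rw [if_pos (by omega), hr2]
          push_cast
          rw [one_div, one_div, inv_pow]
        · intro n _ hn
          rw [if_neg (by omega)]
        · intro h
          exact absurd (mem_range.mpr (by omega)) h
      · rw [if_neg, sum_eq_zero, Complex.ofReal_zero]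
        · intro n _
          rw [if_neg (by omega)]
        · intro h
          exact hkl ((Nat.pow_dvd_pow_iff_le_right hp.one_lt).mp h)
    have hlim : Filter.Tendsto (fun N : ℕ => 2 * r ^ N) Filter.atTop (nhds (2 * 0)) :=
      (tendsto_pow_atTop_nhds_zero_of_lt_one hr.le (by linarith)).const_mul 2
    rw [mul_zero] at hlim
    have h0 : ‖∫ z, z ^ k * (starRingEnd ℂ z) ^ l * (1 - z)⁻¹ ∂μ - ((wf (p ^ k, p ^ l) : ℝ) : ℂ)‖ ≤ 0 := by
      refine ge_of_tendsto hlim ?_
      filter_upwards [Filter.eventually_gt_atTop l] with N hN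
      have := key N
      rwa [hsum N hN] at this
    exact sub_eq_zero.mp (norm_le_zero_iff.mp h0)

end Pool.Agent.KS6_29.LD
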