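import Pool.Agent.KS6_29.LD.Cl2

set_option autoImplicit false

/-! The law for a set of primes. -/

namespace Pool.Agent.KS6_29.LD

open Finset MeasureTheory Complex MonoidAlgebra
open Pool.Agent.W184.NZ

/-- the weights which occur -/
structure PW (w : ℕ × ℕ → ℝ) (wa wb : ℝ) : Prop where
  mw : MW w
  lw : LW w wa wb
  ex : ∀ p : ℕ, p.Prime → 144 ≤ p → ∃ μ : Measure (ℂ × ℂ), PL w wa wb p μ

lemma pw0 : PW w0 0 0 := ⟨mw0, lw0, fun _ hp h => pl_good goodW0 hp h⟩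
lemma pw1 : PW w1 1 1 := ⟨mw1, lw1, fun _ hp h => pl_good goodW1 hp h⟩
lemma pwf : PW wf 0 1 := ⟨mwf, lwf, fun _ hp h => pl_wf hp h⟩

/-- the constant -/
noncomputable def CB (B : ℝ) : ℝ := 2000 * B ^ 6 + (3 + (B + 1) + (B + 1) ^ 2)

lemma CB_pos {B : ℝ} (hB : 1 ≤ B) : 0 < CB B := by unfold CB; positivity

/-- the law of the sum over the primes of `I`, with a density -/
structure GLw (w : ℕ × ℕ → ℝ) (wa wb B : ℝ) (I : Finset ℕ) (ν : Measure (ℂ × ℂ)) : Prop where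
  prob : IsProbabilityMeasure ν
  bdd : ∃ M : ℝ, ∀ᵐ q ∂ν, ‖q.1‖ ≤ M ∧ ‖q.2‖ ≤ M
  mom : ∀ k l : ℕ, ∫ q, q.1 ^ k * (starRingEnd ℂ q.1) ^ l * q.2 ∂ν = ((lam w (xI I ^ k * yI I ^ l) : ℝ) : ℂ)
  expb : ∀ c : ℂ, ‖c‖ ≤ B → ∫ q, Real.exp ((c * q.1).re) * ‖q.2‖ ∂ν ≤ Real.exp (CB B * vI I)
  cx : ∀ a b : ℂ, ‖a‖ ≤ B → ‖b‖ ≤ B → ∃ e : ℂ, ‖e‖ ≤ CB B * uI I ∧
    ∫ q, Complex.exp (a * q.1 + b * starRingEnd ℂ q.1) * q.2 ∂ν =
      Complex.exp ((a * b + wa * a + wb * b) * (vI I : ℝ) + e)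

lemma ms_bdd (M : ℝ) : MeasurableSet {q : ℂ × ℂ | ‖q.1‖ ≤ M ∧ ‖q.2‖ ≤ M} := by
  have h1 : MeasurableSet {q : ℂ × ℂ | ‖q.1‖ ≤ M} := measurableSet_le (by fun_prop) measurable_const
  have h2 : MeasurableSet {q : ℂ × ℂ | ‖q.2‖ ≤ M} := measurableSet_le (by fun_prop) measurable_const
  exact h1.inter h2

lemma xI_pow_mem {I : Finset ℕ} (hI : ∀ p ∈ I, p.Prime) (k l : ℕ) : xI I ^ k * yI I ^ l ∈ SA (MI I) :=
  Subalgebra.mul_mem _ (Subalgebra.pow_mem _ (xI_mem hI) k) (Subalgebra.pow_mem _ (yI_mem hI) l)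

theorem gl_exists {w : ℕ × ℕ → ℝ} {wa wb : ℝ} (hw : PW w wa wb) {B : ℝ} (hB : 1 ≤ B) (I : Finset ℕ) :
    (∀ p ∈ I, p.Prime ∧ 144 ≤ p ∧ 40 * B ^ 3 * rp p ≤ 1) → ∃ ν : Measure (ℂ × ℂ), GLw w wa wb B I ν := by
  induction I using Finset.induction_on with
  | empty =>
    intro _
    refine ⟨Measure.dirac (0, 1), inferInstance, ⟨1, ?_⟩, ?_, ?_, ?_⟩
    · rw [ae_dirac_iff (ms_bdd 1)]
      simp
    · intro k l
      rw [integral_dirac]
      have h1 : xI ∅ = 0 := by simp [xI]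
      have h2 : yI ∅ = 0 := by simp [yI]
      rw [h1, h2, map_zero]
      rcases Nat.eq_zero_or_pos k with hk | hk
      · rcases Nat.eq_zero_or_pos l with hl | hl
        · subst hk; subst hl
          simp [lamR_one hw.mw]
        · rw [zero_pow hl.ne', zero_pow hl.ne']; simp
      · rw [zero_pow hk.ne', zero_pow hk.ne']; simp
    · intro c _
      rw [integral_dirac]
      simp [vI]
    · intro a b _ _
      refine ⟨0, by simp [uI], ?_⟩
      rw [integral_dirac]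
      simp [vI]
  | insert p I hpI ih =>
    intro hI
    obtain ⟨ν, hν⟩ := ih fun q hq => hI q (mem_insert_of_mem hq)
    obtain ⟨hp, hp144, hpr⟩ := hI p (mem_insert_self _ _)
    obtain ⟨μ, hμ⟩ := hw.ex p hp hp144
    have := hν.prob
    have := hμ.prob
    have r0 := rp_pos hp.pos
    have hB3 : 1 ≤ B ^ 3 := one_le_pow₀ hB
    have hBB3 : B ≤ B ^ 3 := by
      nlinarith [sq_nonneg B, mul_nonneg (by linarith : (0:ℝ) ≤ B) (by nlinarith : (0:ℝ) ≤ B ^ 2 - 1)]
    have hr' : (B + 1) * rp p ≤ 1 := by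
      refine le_trans ?_ hpr
      refine mul_le_mul_of_nonneg_right ?_ r0.le
      linarith
    have hr1 : rp p ≤ 1 := by nlinarith
    obtain ⟨M, hM⟩ := hν.bdd
    have hM' := hμ.bdd hr1 r0.le
    have hIp : ∀ q ∈ I, q.Prime := fun q hq => (hI q (mem_insert_of_mem hq)).1
    have hx : xI (insert p I) = single (p, 1) 1 + xI I := by
      unfold xI; rw [sum_insert hpI]
    have hy : yI (insert p I) = single (1, p) 1 + yI I := by
      unfold yI; rw [sum_insert hpI]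
    have hv : vI (insert p I) = 1 / (p:ℝ) + vI I := by
      unfold vI; rw [sum_insert hpI]
    have hu : uI (insert p I) = (p:ℝ) ^ (-(3 / 2 : ℝ)) + uI I := by
      unfold uI; rw [sum_insert hpI]
    have hdisj : Disjoint {p} I := Finset.disjoint_singleton_left.mpr hpI
    have hxp : single ((p, 1) : ℕ × ℕ) (1:ℝ) ∈ SA (MI {p}) :=
      single_mem_SA (prime_mem_MI hp (mem_singleton_self p)).1 1
    have hyp : single ((1, p) : ℕ × ℕ) (1:ℝ) ∈ SA (MI {p}) :=
      single_mem_SA (prime_mem_MI hp (mem_singleton_self p)).2 1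
    set T : (ℂ × ℂ) × (ℂ × ℂ) → ℂ × ℂ := fun Q => (Q.1.1 + Q.2.1, Q.1.2 * Q.2.2) with hT
    have hTm : Measurable T := by simp only [hT]; fun_prop
    have ib : ∀ {f : ℂ × ℂ → ℂ}, Continuous f → Integrable f ν := fun hf => integrable_of_bdd2 hM hf
    have ib' : ∀ {f : ℂ × ℂ → ℂ}, Continuous f → Integrable f μ := fun hf => integrable_of_bdd2 hM' hf
    have himap : ∀ {E : Type} [NormedAddCommGroup E] [NormedSpace ℝ E] {f : ℂ × ℂ → E}, Continuous f →
        ∫ q, f q ∂((μ.prod ν).map T) = ∫ Q : (ℂ × ℂ) × (ℂ × ℂ), f (Q.1.1 + Q.2.1, Q.1.2 * Q.2.2) ∂(μ.prod ν) := by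
      intro E _ _ f hf
      rw [integral_map hTm.aemeasurable hf.aestronglyMeasurable]
    refine ⟨(μ.prod ν).map T, Measure.isProbabilityMeasure_map hTm.aemeasurable,
      ⟨max (Real.exp 4 + M) (Real.exp 4 * M), ?_⟩, ?_, ?_, ?_⟩
    · rw [ae_map_iff hTm.aemeasurable (ms_bdd _)]
      have h1 : ∀ᵐ Q ∂(μ.prod ν), ‖Q.1.1‖ ≤ Real.exp 4 ∧ ‖Q.1.2‖ ≤ Real.exp 4 :=
        Measure.quasiMeasurePreserving_fst.ae hM'
      have h2 : ∀ᵐ Q ∂(μ.prod ν), ‖Q.2.1‖ ≤ M ∧ ‖Q.2.2‖ ≤ M := Measure.quasiMeasurePreserving_snd.ae hM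
      filter_upwards [h1, h2] with Q hq1 hq2
      constructor
      · exact ((norm_add_le _ _).trans (add_le_add hq1.1 hq2.1)).trans (le_max_left _ _)
      · simp only [hT]
        rw [norm_mul]
        exact (mul_le_mul hq1.2 hq2.2 (norm_nonneg _) (Real.exp_pos _).le).trans (le_max_right _ _)
    · intro k l
      rw [himap (by fun_prop), hx, hy]
      simp only
      have e1 : ∀ Q : (ℂ × ℂ) × (ℂ × ℂ), (Q.1.1 + Q.2.1) ^ k * (starRingEnd ℂ (Q.1.1 + Q.2.1)) ^ l *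
          (Q.1.2 * Q.2.2) =
          ∑ i ∈ range (k + 1), ∑ j ∈ range (l + 1), ((k.choose i : ℂ) * (l.choose j : ℂ)) *
            ((Q.1.1 ^ i * (starRingEnd ℂ Q.1.1) ^ j * Q.1.2) *
              (Q.2.1 ^ (k - i) * (starRingEnd ℂ Q.2.1) ^ (l - j) * Q.2.2)) := by
        intro Q
        rw [map_add, add_pow, add_pow, sum_mul_sum, sum_mul]
        refine sum_congr rfl fun i _ => ?_
        rw [sum_mul]
        refine sum_congr rfl fun j _ => ?_
        ring
      simp_rw [e1]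
      have hi : ∀ i j : ℕ, Integrable (fun Q : (ℂ × ℂ) × (ℂ × ℂ) => ((k.choose i : ℂ) * (l.choose j : ℂ)) *
            ((Q.1.1 ^ i * (starRingEnd ℂ Q.1.1) ^ j * Q.1.2) *
              (Q.2.1 ^ (k - i) * (starRingEnd ℂ Q.2.1) ^ (l - j) * Q.2.2)))
            (μ.prod ν) := by
        intro i j
        refine Integrable.const_mul ?_ _
        exact Integrable.mul_prod (f := fun q : ℂ × ℂ => q.1 ^ i * (starRingEnd ℂ q.1) ^ j * q.2)
          (g := fun q : ℂ × ℂ => q.1 ^ (k - i) * (starRingEnd ℂ q.1) ^ (l - j) * q.2)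
          (ib' (by fun_prop)) (ib (by fun_prop))
      rw [integral_finsetSum _ fun i _ => integrable_finsetSum _ fun j _ => hi i j]
      have e2 : (single ((p, 1) : ℕ × ℕ) (1:ℝ) + xI I) ^ k * (single ((1, p) : ℕ × ℕ) (1:ℝ) + yI I) ^ l =
          ∑ i ∈ range (k + 1), ∑ j ∈ range (l + 1), ((k.choose i : ℝ) * (l.choose j : ℝ)) •
            ((single ((p, 1) : ℕ × ℕ) (1:ℝ) ^ i * single ((1, p) : ℕ × ℕ) (1:ℝ) ^ j) *
              (xI I ^ (k - i) * yI I ^ (l - j))) := by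
        rw [add_pow, add_pow, sum_mul_sum]
        refine sum_congr rfl fun i _ => sum_congr rfl fun j _ => ?_
        rw [Algebra.smul_def, map_mul, map_natCast, map_natCast]
        ring
      rw [e2, map_sum]
      push_cast
      refine sum_congr rfl fun i _ => ?_
      rw [integral_finsetSum _ fun j _ => hi i j, map_sum]
      push_cast
      refine sum_congr rfl fun j _ => ?_
      rw [integral_const_mul, integral_prod_mul (fun q : ℂ × ℂ => q.1 ^ i * (starRingEnd ℂ q.1) ^ j * q.2)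
        (fun q : ℂ × ℂ => q.1 ^ (k - i) * (starRingEnd ℂ q.1) ^ (l - j) * q.2), hμ.mom, hν.mom, map_smul,
        smul_eq_mul,
        hw.mw.lamR hdisj (Subalgebra.mul_mem _ (Subalgebra.pow_mem _ hxp i) (Subalgebra.pow_mem _ hyp j))
          (xI_pow_mem hIp _ _),
        xp_pow, lam_single, one_mul]
      push_cast
      ring
    · intro c hc
      rw [himap (by fun_prop)]
      simp only
      have e1 : ∀ Q : (ℂ × ℂ) × (ℂ × ℂ), Real.exp ((c * (Q.1.1 + Q.2.1)).re) * ‖Q.1.2 * Q.2.2‖ =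
          (Real.exp ((c * Q.1.1).re) * ‖Q.1.2‖) * (Real.exp ((c * Q.2.1).re) * ‖Q.2.2‖) := by
        intro Q
        rw [mul_add, Complex.add_re, Real.exp_add, norm_mul]
        ring
      simp_rw [e1]
      rw [integral_prod_mul (fun q : ℂ × ℂ => Real.exp ((c * q.1).re) * ‖q.2‖)
        (fun q : ℂ × ℂ => Real.exp ((c * q.1).re) * ‖q.2‖)]
      have h1 := hμ.expb hp.pos hB hr' hc
      have h2 := hν.expb c hc
      have h3 : (3 + (B + 1) + (B + 1) ^ 2) * rp p ^ 2 ≤ CB B * (1 / (p:ℝ)) := by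
        rw [rp_sq hp.pos]
        refine mul_le_mul_of_nonneg_right ?_ (by positivity)
        unfold CB
        have : 0 ≤ 2000 * B ^ 6 := by positivity
        linarith
      calc (∫ q, Real.exp ((c * q.1).re) * ‖q.2‖ ∂μ) * (∫ q, Real.exp ((c * q.1).re) * ‖q.2‖ ∂ν) ≤
            Real.exp (CB B * (1 / (p:ℝ))) * Real.exp (CB B * vI I) :=
            mul_le_mul (h1.trans (Real.exp_le_exp.mpr h3)) h2
              (integral_nonneg fun q => mul_nonneg (Real.exp_pos _).le (norm_nonneg _)) (Real.exp_pos _).le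
        _ = _ := by
            rw [← Real.exp_add, hv]
            congr 1
            ring
    · intro a b ha hb
      obtain ⟨e, he, h1⟩ := hμ.cexp hw.lw hw.mw.one hp hB hpr ha hb
      obtain ⟨e', he', h2⟩ := hν.cx a b ha hb
      refine ⟨e + e', ?_, ?_⟩
      · refine (norm_add_le _ _).trans ?_
        rw [hu, mul_add]
        refine add_le_add ?_ he'
        rw [← rp_cube hp.pos]
        refine he.trans (mul_le_mul_of_nonneg_right ?_ (by positivity))
        unfold CB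
        have : 0 ≤ 3 + (B + 1) + (B + 1) ^ 2 := by positivity
        linarith
      · rw [himap (by fun_prop)]
        simp only
        have e1 : ∀ Q : (ℂ × ℂ) × (ℂ × ℂ), Complex.exp (a * (Q.1.1 + Q.2.1) + b * starRingEnd ℂ (Q.1.1 + Q.2.1)) *
            (Q.1.2 * Q.2.2) =
            (Complex.exp (a * Q.1.1 + b * starRingEnd ℂ Q.1.1) * Q.1.2) *
              (Complex.exp (a * Q.2.1 + b * starRingEnd ℂ Q.2.1) * Q.2.2) := by
          intro Q
          rw [map_add, show a * (Q.1.1 + Q.2.1) + b * (starRingEnd ℂ Q.1.1 + starRingEnd ℂ Q.2.1) =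
            (a * Q.1.1 + b * starRingEnd ℂ Q.1.1) + (a * Q.2.1 + b * starRingEnd ℂ Q.2.1) by ring, Complex.exp_add]
          ring
        simp_rw [e1]
        rw [integral_prod_mul (fun q : ℂ × ℂ => Complex.exp (a * q.1 + b * starRingEnd ℂ q.1) * q.2)
          (fun q : ℂ × ℂ => Complex.exp (a * q.1 + b * starRingEnd ℂ q.1) * q.2), h1, h2, ← Complex.exp_add, hv]
        congr 1
        push_cast
        ring

end Pool.Agent.KS6_29.LD
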