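import Pool.Graph.R_seed8.W184.NZ.Avg0
import Pool.Graph.R_seed8.Y755.OnL

set_option autoImplicit false

/-! Formal Dirichlet polynomials with complex coefficients. -/

namespace Pool.Agent.KS6_29.LD

open Finset MonoidAlgebra MeasureTheory
open Pool.Agent.W184.NZ

/-- formal complex combinations of the monomials `(m, n)` -/
abbrev DC := MonoidAlgebra ℂ (ℕ × ℕ)

/-- the linear functional with the values `w` on the monomials -/
noncomputable def lamC (w : ℕ × ℕ → ℝ) : DC →ₗ[ℂ] ℂ where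
  toFun f := f.coeff.sum fun x c => c * w x
  map_add' f g := by
    rw [coeff_add, Finsupp.sum_add_index']
    · intro x; simp
    · intro x a b; ring
  map_smul' a f := by
    rw [coeff_smul, Finsupp.sum_smul_index (by intro x; simp), Finsupp.smul_sum]
    refine Finsupp.sum_congr fun x _ => ?_
    simp only [smul_eq_mul, RingHom.id_apply]
    ring

lemma lamC_apply (w : ℕ × ℕ → ℝ) (f : DC) : lamC w f = f.coeff.sum fun x c => c * w x := rfl

lemma lamC_single (w : ℕ × ℕ → ℝ) (x : ℕ × ℕ) (c : ℂ) : lamC w (single x c) = c * w x := by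
  rw [lamC_apply, coeff_single, Finsupp.sum_single_index (by simp)]

lemma lamC_mul_gen (w : ℕ × ℕ → ℝ) (f g : DC) : lamC w (f * g) =
    ∑ x ∈ f.coeff.support, ∑ y ∈ g.coeff.support, f.coeff x * g.coeff y * w (x * y) := by
  rw [MonoidAlgebra.mul_def, Finsupp.sum, map_sum]
  refine sum_congr rfl fun x _ => ?_
  rw [Finsupp.sum, map_sum]
  refine sum_congr rfl fun y _ => ?_
  rw [lamC_single]

lemma lamC_mul {w : ℕ × ℕ → ℝ} {f g : DC}
    (h : ∀ x ∈ f.coeff.support, ∀ y ∈ g.coeff.support, w (x * y) = w x * w y) :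
    lamC w (f * g) = lamC w f * lamC w g := by
  rw [lamC_mul_gen, lamC_apply, lamC_apply, Finsupp.sum, Finsupp.sum, sum_mul_sum]
  refine sum_congr rfl fun x hx => sum_congr rfl fun y hy => ?_
  rw [h x hx y hy]; push_cast; ring

lemma lamC_mul_add {w v : ℕ × ℕ → ℝ} {f g : DC}
    (h : ∀ x ∈ f.coeff.support, ∀ y ∈ g.coeff.support, w (x * y) = w x * v y + v x * w y) :
    lamC w (f * g) = lamC w f * lamC v g + lamC v f * lamC w g := by
  rw [lamC_mul_gen, lamC_apply, lamC_apply, lamC_apply, lamC_apply, Finsupp.sum, Finsupp.sum, Finsupp.sum,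
    Finsupp.sum, sum_mul_sum, sum_mul_sum, ← sum_add_distrib]
  refine sum_congr rfl fun x hx => ?_
  rw [← sum_add_distrib]
  refine sum_congr rfl fun y hy => ?_
  rw [h x hx y hy]; push_cast; ring

/-- the elements supported in a submonoid -/
def SC (M : Submonoid (ℕ × ℕ)) : Subalgebra ℂ DC where
  carrier := {f | ∀ x ∈ f.coeff.support, x ∈ M}
  mul_mem' {f g} hf hg := by
    classical
    intro x hx
    have := support_coeff_mul_subset f g hx
    rw [Finset.mem_mul] at this
    obtain ⟨y, hy, z, hz, rfl⟩ := this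
    exact M.mul_mem (hf y hy) (hg z hz)
  add_mem' {f g} hf hg := by
    classical
    intro x hx
    rw [coeff_add] at hx
    have := Finsupp.support_add hx
    rw [Finset.mem_union] at this
    exact this.elim (hf x) (hg x)
  algebraMap_mem' r := by
    intro x hx
    rw [Algebra.algebraMap_eq_smul_one, MonoidAlgebra.one_def, MonoidAlgebra.smul_single,
      coeff_single] at hx
    have := Finsupp.support_single_subset hx
    rw [Finset.mem_singleton] at this
    rw [this]; exact M.one_mem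

lemma mem_SC {M : Submonoid (ℕ × ℕ)} {f : DC} : f ∈ SC M ↔ ∀ x ∈ f.coeff.support, x ∈ M := Iff.rfl

lemma single_mem_SC {M : Submonoid (ℕ × ℕ)} {x : ℕ × ℕ} (hx : x ∈ M) (c : ℂ) : single x c ∈ SC M := by
  intro y hy
  rw [coeff_single] at hy
  have := Finsupp.support_single_subset hy
  rw [Finset.mem_singleton] at this
  rw [this]; exact hx

lemma SC_mono {I J : Finset ℕ} (h : I ⊆ J) {f : DC} (hf : f ∈ SC (MI I)) : f ∈ SC (MI J) :=
  fun x hx => MI_mono h (hf x hx)

/-- weight of the twisted first moment -/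
noncomputable def wf (x : ℕ × ℕ) : ℝ := if x.1 ∣ x.2 then 1 / (x.2 : ℝ) else 0

lemma wf_nonneg (x : ℕ × ℕ) : 0 ≤ wf x := by unfold wf; split_ifs <;> positivity

/-- multiplicative weights -/
structure MW (w : ℕ × ℕ → ℝ) : Prop where
  nn : ∀ x, 0 ≤ w x
  one : w (1, 1) = 1
  mul : ∀ {I J : Finset ℕ}, Disjoint I J → ∀ {x y : ℕ × ℕ}, x ∈ MI I → y ∈ MI J → w (x * y) = w x * w y

lemma mw0 : MW w0 where
  nn := w0_nonneg
  one := by simp [w0]
  mul := by
    intro I J hIJ x y hx hy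
    have h := MI_coprime hIJ hx hy
    exact w0_mul h.2.1 h.2.2.1 hx.1

lemma mw1 : MW w1 where
  nn := w1_nonneg
  one := by simp [w1]
  mul := by
    intro I J hIJ x y hx hy
    have h := MI_coprime hIJ hx hy
    exact w1_mul h.2.1 h.2.2.1 h.2.2.2

lemma mwf : MW wf where
  nn := wf_nonneg
  one := by simp [wf]
  mul := by
    intro I J hIJ x y hx hy
    have h := MI_coprime hIJ hx hy
    have hiff : x.1 * y.1 ∣ x.2 * y.2 ↔ x.1 ∣ x.2 ∧ y.1 ∣ y.2 := by
      constructor
      · intro h1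
        refine ⟨?_, ?_⟩
        · exact h.2.1.dvd_of_dvd_mul_right ((dvd_mul_right _ _).trans h1)
        · exact h.2.2.1.symm.dvd_of_dvd_mul_left ((dvd_mul_left _ _).trans h1)
      · rintro ⟨h1, h2⟩
        exact mul_dvd_mul h1 h2
    unfold wf
    simp only [Prod.fst_mul, Prod.snd_mul]
    by_cases h1 : x.1 ∣ x.2
    · by_cases h2 : y.1 ∣ y.2
      · rw [if_pos (hiff.mpr ⟨h1, h2⟩), if_pos h1, if_pos h2]
        push_cast; rw [one_div_mul_one_div]
      · rw [if_neg (fun h => h2 (hiff.mp h).2), if_neg h2, mul_zero]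
    · rw [if_neg (fun h => h1 (hiff.mp h).1), if_neg h1, zero_mul]

lemma MW.lamR {w : ℕ × ℕ → ℝ} (hw : MW w) {I J : Finset ℕ} (hIJ : Disjoint I J) {f g : DA}
    (hf : f ∈ SA (MI I)) (hg : g ∈ SA (MI J)) : lam w (f * g) = lam w f * lam w g :=
  lam_mul fun x hx y hy => hw.mul hIJ (hf x hx) (hg y hy)

lemma MW.lamC {w : ℕ × ℕ → ℝ} (hw : MW w) {I J : Finset ℕ} (hIJ : Disjoint I J) {f g : DC}
    (hf : f ∈ SC (MI I)) (hg : g ∈ SC (MI J)) : lamC w (f * g) = lamC w f * lamC w g :=
  lamC_mul fun x hx y hy => hw.mul hIJ (hf x hx) (hg y hy)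

lemma lamCl_mul {I J : Finset ℕ} (hIJ : Disjoint I J) {f g : DC} (hf : f ∈ SC (MI I)) (hg : g ∈ SC (MI J)) :
    lamC wl (f * g) = lamC wl f * lamC w1 g + lamC w1 f * lamC wl g := by
  refine lamC_mul_add fun x hx y hy => ?_
  have h := MI_coprime hIJ (hf x hx) (hg y hy)
  exact wl_mul h.2.1 h.2.2.1 h.2.2.2 (hf x hx).1 (hf x hx).2.1 (hg y hy).1 (hg y hy).2.1

lemma lamC_one {w : ℕ × ℕ → ℝ} (hw : MW w) : lamC w 1 = 1 := by
  have h : w 1 = 1 := hw.one
  rw [MonoidAlgebra.one_def, lamC_single, h]; simp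

lemma lamR_one {w : ℕ × ℕ → ℝ} (hw : MW w) : lam w 1 = 1 := by
  have h : w 1 = 1 := hw.one
  rw [MonoidAlgebra.one_def, lam_single, h, one_mul]

section prod
variable {I : ℕ → Finset ℕ} {f : ℕ → DC}

lemma prod_memC (J : ℕ) (hf : ∀ i < J, f i ∈ SC (MI (I i))) :
    ∏ i ∈ range J, f i ∈ SC (MI ((range J).biUnion I)) := by
  refine Subalgebra.prod_mem _ fun i hi => ?_
  exact SC_mono (subset_biUnion_of_mem I hi) (hf i (mem_range.mp hi))

lemma lamC_prod {w : ℕ × ℕ → ℝ} (hw : MW w) (J : ℕ)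
    (hd : ∀ i j, i < j → Disjoint (I i) (I j)) (hf : ∀ i, f i ∈ SC (MI (I i))) :
    lamC w (∏ i ∈ range J, f i) = ∏ i ∈ range J, lamC w (f i) := by
  induction J with
  | zero => rw [range_zero, prod_empty, prod_empty, lamC_one hw]
  | succ J ih =>
    rw [prod_range_succ, prod_range_succ, hw.lamC (disj_union J hd) (prod_memC J fun i _ => hf i) (hf J), ih]

lemma lamCl_prod (J : ℕ) (hd : ∀ i j, i < j → Disjoint (I i) (I j)) (hf : ∀ i, f i ∈ SC (MI (I i)))
    {C a : ℕ → ℝ} (ha : ∀ i < J, ‖lamC w1 (f i)‖ ≤ a i) (hC : ∀ i < J, ‖lamC wl (f i)‖ ≤ C i * a i) :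
    ‖lamC wl (∏ i ∈ range J, f i)‖ ≤ (∑ i ∈ range J, C i) * ∏ i ∈ range J, a i := by
  induction J with
  | zero =>
    rw [range_zero, prod_empty, sum_empty, zero_mul, MonoidAlgebra.one_def, lamC_single]
    unfold wl
    simp
  | succ J ih =>
    have ih' := ih (fun i hi => ha i (by omega)) (fun i hi => hC i (by omega))
    have h1 : ‖lamC w1 (∏ i ∈ range J, f i)‖ ≤ ∏ i ∈ range J, a i := by
      rw [lamC_prod mw1 J hd hf, norm_prod]
      exact prod_le_prod (fun i _ => norm_nonneg _) fun i hi => ha i (by have := mem_range.mp hi; omega)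
    have h2 : 0 ≤ ∏ i ∈ range J, a i := (norm_nonneg _).trans h1
    have h3 : 0 ≤ (∑ i ∈ range J, C i) * ∏ i ∈ range J, a i := (norm_nonneg _).trans ih'
    rw [prod_range_succ, lamCl_mul (disj_union J hd) (prod_memC J fun i _ => hf i) (hf J), prod_range_succ,
      sum_range_succ]
    refine (norm_add_le _ _).trans ?_
    rw [norm_mul, norm_mul]
    have e1 := mul_le_mul ih' (ha J (by omega)) (norm_nonneg _) h3
    have e2 := mul_le_mul h1 (hC J (by omega)) (norm_nonneg _) h2
    calc _ ≤ (∑ i ∈ range J, C i) * (∏ i ∈ range J, a i) * a J +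
        (∏ i ∈ range J, a i) * (C J * a J) := add_le_add e1 e2
      _ = _ := by ring

end prod

/-- domination by an element with real coefficients -/
def Dm (F : DC) (f : DA) : Prop := ∀ x, ‖F.coeff x‖ ≤ f.coeff x

lemma Dm.nn {F : DC} {f : DA} (h : Dm F f) : Nn f := fun x => (norm_nonneg _).trans (h x)

lemma Dm.zero : Dm 0 0 := fun x => by simp

lemma Dm.add {F G : DC} {f g : DA} (hf : Dm F f) (hg : Dm G g) : Dm (F + G) (f + g) := fun x => by
  rw [coeff_add, coeff_add, Finsupp.add_apply, Finsupp.add_apply]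
  exact (norm_add_le _ _).trans (add_le_add (hf x) (hg x))

lemma Dm.sum {ι : Type*} {s : Finset ι} {F : ι → DC} {f : ι → DA} (h : ∀ i ∈ s, Dm (F i) (f i)) :
    Dm (∑ i ∈ s, F i) (∑ i ∈ s, f i) := by
  classical
  induction s using Finset.induction_on with
  | empty => rw [sum_empty, sum_empty]; exact Dm.zero
  | insert a s ha ih =>
    rw [sum_insert ha, sum_insert ha]
    exact (h a (mem_insert_self _ _)).add (ih fun i hi => h i (mem_insert_of_mem hi))

lemma Dm.single (x : ℕ × ℕ) {c : ℂ} {d : ℝ} (h : ‖c‖ ≤ d) : Dm (single x c) (single x d) := by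
  classical
  intro y
  rw [coeff_single, coeff_single, Finsupp.single_apply, Finsupp.single_apply]
  split_ifs
  · exact h
  · simp

lemma Dm.smul {F : DC} {f : DA} (hf : Dm F f) {c : ℂ} {d : ℝ} (h : ‖c‖ ≤ d) : Dm (c • F) (d • f) := fun x => by
  rw [coeff_smul, coeff_smul, Finsupp.smul_apply, Finsupp.smul_apply, smul_eq_mul, smul_eq_mul, norm_mul]
  exact mul_le_mul h (hf x) (norm_nonneg _) ((norm_nonneg _).trans h)

lemma Dm.mono {F : DC} {f g : DA} (hf : Dm F f) (h : ∀ x, f.coeff x ≤ g.coeff x) : Dm F g :=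
  fun x => (hf x).trans (h x)

lemma mul_eq_sum {R : Type*} [Semiring R] (f g : MonoidAlgebra R (ℕ × ℕ)) {s t : Finset (ℕ × ℕ)}
    (hs : f.coeff.support ⊆ s) (ht : g.coeff.support ⊆ t) :
    f * g = ∑ x ∈ s, ∑ y ∈ t, single (x * y) (f.coeff x * g.coeff y) := by
  rw [MonoidAlgebra.mul_def, Finsupp.sum_of_support_subset _ hs _ (by simp)]
  refine sum_congr rfl fun x _ => ?_
  rw [Finsupp.sum_of_support_subset _ ht _ (by simp)]

lemma Dm.supp {F : DC} {f : DA} (hf : Dm F f) : F.coeff.support ⊆ f.coeff.support := by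
  intro x hx
  rw [Finsupp.mem_support_iff] at hx ⊢
  intro h0
  have := hf x
  rw [h0] at this
  exact hx (norm_le_zero_iff.mp this)

lemma Dm.mul {F G : DC} {f g : DA} (hf : Dm F f) (hg : Dm G g) : Dm (F * G) (f * g) := by
  rw [mul_eq_sum F G hf.supp hg.supp, mul_eq_sum f g (subset_refl _) (subset_refl _)]
  refine Dm.sum fun x _ => Dm.sum fun y _ => Dm.single _ ?_
  rw [norm_mul]
  exact mul_le_mul (hf x) (hg y) (norm_nonneg _) ((norm_nonneg _).trans (hf x))

lemma Dm.one : Dm 1 1 := by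
  rw [MonoidAlgebra.one_def, MonoidAlgebra.one_def]
  exact Dm.single _ (by simp)

lemma Dm.pow {F : DC} {f : DA} (hf : Dm F f) (k : ℕ) : Dm (F ^ k) (f ^ k) := by
  induction k with
  | zero => rw [pow_zero, pow_zero]; exact Dm.one
  | succ k ih => rw [pow_succ, pow_succ]; exact ih.mul hf

lemma Dm.prod (J : ℕ) {F : ℕ → DC} {f : ℕ → DA} (h : ∀ i < J, Dm (F i) (f i)) :
    Dm (∏ i ∈ range J, F i) (∏ i ∈ range J, f i) := by
  induction J with
  | zero => rw [range_zero, prod_empty, prod_empty]; exact Dm.one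
  | succ J ih =>
    rw [prod_range_succ, prod_range_succ]
    exact (ih fun i hi => h i (by omega)).mul (h J (by omega))

lemma Dm.lam_le {w : ℕ × ℕ → ℝ} {F : DC} {f : DA} (hf : Dm F f) (hw : ∀ x ∈ f.coeff.support, 0 ≤ w x) :
    ‖lamC w F‖ ≤ lam w f := by
  rw [lamC_apply, lam_apply, Finsupp.sum_of_support_subset _ hf.supp _ (by simp), Finsupp.sum]
  refine (norm_sum_le _ _).trans (sum_le_sum fun x hx => ?_)
  rw [norm_mul, Complex.norm_real, Real.norm_of_nonneg (hw x hx)]
  exact mul_le_mul_of_nonneg_right (hf x) (hw x hx)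

lemma Dm.wl_le {N : ℝ} {F : DC} {f : DA} (hf : Dm F f) (hB : Bd N f) :
    ‖lamC wl F‖ ≤ 2 * Real.log N * lam w1 f := by
  refine (hf.lam_le fun x hx => wl_nonneg (hB x hx).1.1 (hB x hx).1.2).trans ?_
  exact (le_abs_self _).trans (wl_bound hf.nn hB)

/-- comparison of two functionals -/
lemma Dm.sub_le {w : ℕ × ℕ → ℝ} {v : ℕ × ℕ → ℂ} {F : DC} {f : DA} (hf : Dm F f) {e : ℝ} (he : 0 ≤ e)
    (h : ∀ x ∈ f.coeff.support, ‖v x - w x‖ ≤ e) :
    ‖∑ x ∈ f.coeff.support, F.coeff x * v x - lamC w F‖ ≤ e * l1 f := by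
  rw [lamC_apply, Finsupp.sum_of_support_subset _ hf.supp _ (by simp), ← sum_sub_distrib, l1, mul_sum]
  refine (norm_sum_le _ _).trans (sum_le_sum fun x hx => ?_)
  rw [← mul_sub, norm_mul, mul_comm]
  exact mul_le_mul (h x hx) ((hf x).trans (le_abs_self _)) (norm_nonneg _) he

/-- evaluation -/
noncomputable def evC (t : ℝ) : DC →ₐ[ℂ] ℂ := MonoidAlgebra.lift ℂ ℂ (ℕ × ℕ) (mh t)

lemma evC_single (t : ℝ) (x : ℕ × ℕ) (c : ℂ) : evC t (single x c) = c * mh t x := by
  unfold evC
  rw [MonoidAlgebra.lift_single, smul_eq_mul]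

lemma evC_eq (t : ℝ) {F : DC} {s : Finset (ℕ × ℕ)} (hs : F.coeff.support ⊆ s) :
    evC t F = ∑ x ∈ s, F.coeff x * mh t x := by
  have h1 : F = ∑ x ∈ s, single x (F.coeff x) := by
    have := MonoidAlgebra.sum_coeff_single F
    conv_lhs => rw [← this]
    rw [Finsupp.sum]
    refine sum_subset hs fun x _ hx => ?_
    rw [Finsupp.notMem_support_iff.mp hx, single_zero]
  conv_lhs => rw [h1]
  rw [map_sum]
  exact sum_congr rfl fun x _ => evC_single t x _

/-- the exchange of the variables -/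
noncomputable def swp : DC →ₐ[ℂ] DC := MonoidAlgebra.lift ℂ DC (ℕ × ℕ)
  { toFun := fun x => single x.swap 1
    map_one' := rfl
    map_mul' := fun x y => by rw [single_mul_single, one_mul, Prod.swap_mul] }

lemma swp_single (x : ℕ × ℕ) (c : ℂ) : swp (single x c) = single x.swap c := by
  unfold swp
  rw [MonoidAlgebra.lift_single]
  show c • single x.swap (1:ℂ) = _
  rw [MonoidAlgebra.smul_single, smul_eq_mul, mul_one]

lemma swp_coeff (F : DC) (x : ℕ × ℕ) : (swp F).coeff x = F.coeff x.swap := by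
  classical
  have h1 : F = ∑ x ∈ F.coeff.support, single x (F.coeff x) := by
    have := MonoidAlgebra.sum_coeff_single F
    exact this.symm
  have h2 : (swp F).coeff x = ∑ y ∈ F.coeff.support, if y.swap = x then F.coeff y else 0 := by
    conv_lhs => rw [h1]
    rw [map_sum, MonoidAlgebra.coeff_sum, Finsupp.finsetSum_apply]
    refine sum_congr rfl fun y _ => ?_
    rw [swp_single, coeff_single, Finsupp.single_apply]
  rw [h2]
  by_cases hx : x.swap ∈ F.coeff.support
  · rw [sum_eq_single x.swap]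
    · simp
    · intro y _ hy
      rw [if_neg]
      rintro rfl
      simp at hy
    · intro h; exact absurd hx h
  · rw [Finsupp.notMem_support_iff.mp hx]
    refine sum_eq_zero fun y hy => ?_
    rw [if_neg]
    rintro rfl
    rw [Prod.swap_swap] at hx
    exact hx hy

end Pool.Agent.KS6_29.LD
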