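import Pool.Agent.KS6_29.LD.Bs

set_option autoImplicit false

/-! The large deviations on the line: choice of the parameters. -/

namespace Pool.Agent.KS6_29.LD

open Finset MeasureTheory Complex Filter Topology
open Pool.Agent.W184.NZ
open Pool.Agent.H306R2.SM (om cl Yf)
open Pool.Agent.H262R4.TM (Rng Ck)

lemma rs_ex (C : ℝ) (hC : 0 ≤ C) : ∃ Rs : ℕ, 4 ≤ Rs ∧ C * (((Rs:ℝ) + 1) ^ 2 * Real.exp (-(Rs:ℝ))) ≤ 1 / 32 := by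
  have h1 := Real.tendsto_pow_mul_exp_neg_atTop_nhds_zero 2
  have h2 : Tendsto (fun n : ℕ => C * Real.exp 1 * (((n:ℝ) + 1) ^ 2 * Real.exp (-((n:ℝ) + 1)))) atTop (𝓝 (C * Real.exp 1 * 0)) := by
    refine Tendsto.const_mul _ ?_
    have h3 : Tendsto (fun n : ℕ => (n:ℝ) + 1) atTop atTop :=
      tendsto_natCast_atTop_atTop.atTop_add tendsto_const_nhds
    exact h1.comp h3
  rw [mul_zero] at h2
  obtain ⟨n, hn1, hn2⟩ := ((h2.eventually (gt_mem_nhds (show (0:ℝ) < 1 / 32 by norm_num))).and (eventually_ge_atTop 4)).exists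
  refine ⟨n, hn2, ?_⟩
  have e1 : C * (((n:ℝ) + 1) ^ 2 * Real.exp (-(n:ℝ))) = C * Real.exp 1 * (((n:ℝ) + 1) ^ 2 * Real.exp (-((n:ℝ) + 1))) := by
    have : Real.exp (-(n:ℝ)) = Real.exp 1 * Real.exp (-((n:ℝ) + 1)) := by rw [← Real.exp_add]; congr 1; ring
    rw [this]; ring
  rw [e1]
  exact hn1.le

lemma sum_dm {B0 c : ℝ} (hB0 : 1 ≤ B0) (hc : 0 ≤ c) (J Rs : ℕ) : ∑ m ∈ range J, dm B0 c J Rs m ≤ 2 * C2 B0 c * Real.exp (-(Rs:ℝ)) := by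
  have hC2 := C2_ge hB0 hc
  have h1 : ∀ m ∈ range J, dm B0 c J Rs m ≤ C2 B0 c * Real.exp (-(RR Rs m : ℝ)) := by
    intro m hm
    rw [dm_eq B0 c (mem_range.mp hm)]
    refine mul_le_mul_of_nonneg_left (Real.exp_le_exp.mpr ?_) (by linarith)
    have : (0:ℝ) ≤ RR Rs m := Nat.cast_nonneg _
    linarith
  refine (sum_le_sum h1).trans ?_
  rw [← mul_sum]
  have h2 := sum_exp_le J Rs (R := fun i => RR Rs i) fun i => by unfold RR; omega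
  have := mul_le_mul_of_nonneg_left h2 (by linarith : 0 ≤ C2 B0 c)
  linarith

/-- the choice of the parameters -/
theorem params (B0 : ℝ) (hB0 : 1 ≤ B0) : ∃ (c u q η D : ℝ) (N0 Rs : ℕ) (ηm : ℝ), 0 < ηm ∧
    (∀ᶠ Y : ℝ in atTop, ∀ k : ℕ, Rng Y k → ∀ x : ℕ × ℕ,
      x.1 ≠ 0 → x.2 ≠ 0 → (x.1 : ℝ) ≤ Y ^ ((1:ℝ) / 4) → (x.2 : ℝ) ≤ Y ^ ((1:ℝ) / 4) →
      |Zm k Y x - Mn k Y x| ≤ 2 * Y ^ (-ηm)) ∧ Pm B0 c N0 Rs η q ∧ q ≤ ηm ∧ 4 * B0 + 1 ≤ N0 ∧ 4 ≤ N0 ∧ 4 ≤ Rs ∧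
    eps B0 c u Rs ≤ 1 / 4 ∧ 0 ≤ D ∧ η ≤ 1 ∧
    (∀ y : ℝ, 144 ≤ y → ∃ (J : ℕ) (P : ℕ → Finset ℕ), Bl B0 c u y J P ∧
      |∑ i ∈ range J, vI (P i) - Real.log (Real.log y)| ≤ D ∧ (4:ℝ) ^ J ≤ Real.log y) ∧
    2 * C2 B0 c * Real.exp (-(Rs:ℝ)) * (2 * CE B0 c N0 Rs * (Real.exp D / η) + 2) ≤ 1 / 32 := by
  obtain ⟨c, hc1, hbl⟩ := blocks
  have hCB := CB_pos (B := 30 * B0) (by linarith)
  set u : ℝ := min 1 (1 / (8 * CB (30 * B0))) with hu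
  have hu0 : 0 < u := lt_min one_pos (by positivity)
  have hu1 : u ≤ 1 := min_le_left _ _
  have hu2 : CB (30 * B0) * u ≤ 1 / 8 := by
    have : u ≤ 1 / (8 * CB (30 * B0)) := min_le_right _ _
    calc CB (30 * B0) * u ≤ CB (30 * B0) * (1 / (8 * CB (30 * B0))) := mul_le_mul_of_nonneg_left this hCB.le
      _ = 1 / 8 := by field_simp
  obtain ⟨D, hD0, hbl⟩ := hbl B0 hB0 u hu0 hu1
  obtain ⟨ηm, hηm, hmono⟩ := mono_moment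
  set q : ℝ := min ηm (1 / 4) with hq
  have hq0 : 0 < q := lt_min hηm (by norm_num)
  have hq1 : q ≤ 1 / 4 := min_le_right _ _
  have hq2 : q ≤ ηm := min_le_left _ _
  set N0 : ℕ := ⌈4 * B0 + 1⌉₊ with hN0
  have hN : 4 * B0 + 1 ≤ N0 := Nat.le_ceil _
  have hN4 : 4 ≤ N0 := by
    have : (4:ℝ) ≤ N0 := by linarith
    exact_mod_cast this
  have hC1 := C1_pos B0 c
  have hC2 := C2_ge hB0 (by linarith : 0 ≤ c)
  set k1 : ℝ := 16 * (8 + 8 * (4 * N0 + 2) * C2 B0 c) with hk1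
  set k2 : ℝ := Real.exp D * (400 * (5 * N0 + 2)) / q with hk2
  have hk10 : 0 ≤ k1 := by positivity
  have hk20 : 0 ≤ k2 := by positivity
  obtain ⟨Rs, hR4, hRs⟩ := rs_ex (2 * C2 B0 c * (2 * k1 * k2 + 2) + C1 B0 c) (by positivity)
  have hR1 : (1:ℝ) ≤ ((Rs:ℝ) + 1) ^ 2 := one_le_pow₀ (by have : (0:ℝ) ≤ Rs := Nat.cast_nonneg _; linarith)
  have hx0 : 0 ≤ ((Rs:ℝ) + 1) ^ 2 * Real.exp (-(Rs:ℝ)) := by positivity
  have hC1' : C1 B0 c * Real.exp (-(Rs:ℝ)) ≤ 1 / 32 := by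
    have h1 : C1 B0 c * Real.exp (-(Rs:ℝ)) ≤ C1 B0 c * (((Rs:ℝ) + 1) ^ 2 * Real.exp (-(Rs:ℝ))) := by
      refine mul_le_mul_of_nonneg_left ?_ hC1.le
      exact le_mul_of_one_le_left (Real.exp_pos _).le hR1
    have h2 : 0 ≤ 2 * C2 B0 c * (2 * k1 * k2 + 2) * (((Rs:ℝ) + 1) ^ 2 * Real.exp (-(Rs:ℝ))) := by positivity
    linarith
  have hC2' : 2 * C2 B0 c * (2 * k1 * k2 + 2) * (((Rs:ℝ) + 1) ^ 2 * Real.exp (-(Rs:ℝ))) ≤ 1 / 32 := by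
    have h2 : 0 ≤ C1 B0 c * (((Rs:ℝ) + 1) ^ 2 * Real.exp (-(Rs:ℝ))) := by positivity
    linarith
  set η : ℝ := q / (400 * (5 * N0 + 2) * ((Rs:ℝ) + 1)) with hη
  have hη0 : 0 < η := by positivity
  have hpm : Pm B0 c N0 Rs η q := by
    refine ⟨⟨by omega, by omega, by linarith⟩, by linarith, hq0, hq1, hη0, le_of_eq ?_⟩
    rw [hη]
    field_simp
    norm_num
  refine ⟨c, u, q, η, D, N0, Rs, ηm, hηm, hmono, hpm, hq2, hN, hN4, hR4, ?_, hD0, hpm.hh, hbl, ?_⟩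
  · unfold eps
    linarith
  · have h1 : CE B0 c N0 Rs ≤ k1 * ((Rs:ℝ) + 1) := by
      unfold CE
      rw [hk1]
      have : (0:ℝ) ≤ Rs := Nat.cast_nonneg _
      nlinarith
    have h2 : Real.exp D / η = k2 * ((Rs:ℝ) + 1) := by
      rw [hη, hk2]
      field_simp
    have hCE0 : 0 ≤ CE B0 c N0 Rs := by unfold CE; positivity
    have h3 : 2 * CE B0 c N0 Rs * (Real.exp D / η) + 2 ≤ (2 * k1 * k2 + 2) * ((Rs:ℝ) + 1) ^ 2 := by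
      rw [h2]
      have h4 : 2 * CE B0 c N0 Rs * (k2 * ((Rs:ℝ) + 1)) ≤ 2 * (k1 * ((Rs:ℝ) + 1)) * (k2 * ((Rs:ℝ) + 1)) := by gcongr
      nlinarith
    have h4 := mul_le_mul_of_nonneg_left h3 (by positivity : 0 ≤ 2 * C2 B0 c * Real.exp (-(Rs:ℝ)))
    refine h4.trans (le_trans (le_of_eq ?_) hC2')
    ring

end Pool.Agent.KS6_29.LD
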