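import Pool.Agent.KS6_29.LD.Fin1

set_option autoImplicit false

/-! The large deviations on the line. -/

namespace Pool.Agent.KS6_29.LD

open Finset MeasureTheory Complex Filter Topology
open Pool.Agent.W184.NZ
open Pool.Agent.H306R2.SM (om cl Yf)
open Pool.Agent.H262R4.TM (Rng Ck)

lemma pt_bound {J Rs : ℕ} {P : ℕ → Finset ℕ} {t L : ℝ} (h : gd J Rs P t) (hJ : (4:ℝ) ^ J ≤ L) (hRs : (Rs:ℝ) ^ 2 ≤ L) :
    |Pt J P t| ≤ 4 * L := by
  have h1 : |Pt J P t| ≤ ∑ i ∈ range J, (RR Rs i : ℝ) := by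
    unfold Pt
    refine (abs_sum_le_sum_abs _ _).trans (sum_le_sum fun i hi => ?_)
    exact (Complex.abs_re_le_norm _).trans (h i (mem_range.mp hi))
  have h2 : ∀ i ∈ range J, (RR Rs i : ℝ) ≤ 2 * ((Rs:ℝ) + J) := by
    intro i hi
    unfold RR
    push_cast
    have : (i:ℝ) ≤ J := by exact_mod_cast (mem_range.mp hi).le
    linarith
  have h3 := sum_le_sum h2
  rw [sum_const, card_range, nsmul_eq_mul] at h3
  have h4 : (J:ℝ) ≤ 2 ^ J := by exact_mod_cast (Nat.lt_two_pow_self (n := J)).le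
  have h5 : (J:ℝ) ^ 2 ≤ L := by
    calc (J:ℝ) ^ 2 ≤ (2 ^ J) ^ 2 := pow_le_pow_left₀ (Nat.cast_nonneg _) h4 2
      _ = 4 ^ J := by rw [← pow_mul, mul_comm, pow_mul]; norm_num
      _ ≤ L := hJ
  have h6 : (Rs:ℝ) * J ≤ L := by nlinarith [sq_nonneg ((Rs:ℝ) - J)]
  nlinarith

lemma subset_dev {J Rs : ℕ} {P : ℕ → Finset ℕ} {yc K w W : ℝ} (hw : 0 < w) (hW : 0 < W) {t : ℝ}
    (h : t ∈ SS J Rs yc K w W P) : |Real.log ‖riemannZeta (cl t)‖ - yc| ≤ K + |Real.log w| + |Real.log W| := by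
  obtain ⟨_, h2, h3, h4⟩ := h
  have he := Real.exp_pos (Pt J P t)
  have hz : 0 < ‖riemannZeta (cl t)‖ := lt_of_lt_of_le (by positivity) h3
  have h5 := Real.log_le_log (by positivity) h3
  rw [Real.log_mul hw.ne' he.ne', Real.log_exp] at h5
  have h6 := Real.log_le_log hz h4
  rw [Real.log_mul hW.ne' he.ne', Real.log_exp] at h6
  have h7 := abs_le.mp h2
  have h8 := neg_abs_le (Real.log w)
  have h9 := le_abs_self (Real.log W)
  have h10 := abs_nonneg (Real.log w)
  have h11 := abs_nonneg (Real.log W)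
  rw [abs_le]
  constructor <;> linarith [h7.1, h7.2]

theorem main_line (A : ℝ) (hA : 0 ≤ A) : ∃ K c : ℝ, 0 < K ∧ 0 < c ∧ ∀ᶠ T : ℝ in atTop, ∀ v : ℝ,
    |v| ≤ A * Real.log (Real.log T) →
    c * (T * Real.exp (-(v ^ 2 / Real.log (Real.log T))) / Real.sqrt (Real.log (Real.log T))) ≤
      (volume {t ∈ Set.Ioc (T / 2) T | |Real.log ‖riemannZeta (cl t)‖ - v| ≤ K}).toReal := by
  set B0 : ℝ := A + 3 with hB0
  obtain ⟨c, u, q, η, D, N0, Rs, ηm, hηm, hmono, hp, hqm, hN, hN4, hR4, he, hD0, hη1, hbl, hdm⟩ := params B0 (by linarith)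
  have hη0 := hp.e0
  have hq0 := hp.q0
  set G : ℝ := CE B0 c N0 Rs * (Real.exp D / η) with hG
  have hcore := core hηm hmono hp hqm hN hN4 hR4 he
  have hcn : 0 ≤ C2 B0 c := by unfold C2; positivity
  have hCE0 : 0 ≤ CE B0 c N0 Rs := by unfold CE; positivity
  have hG0 : 0 ≤ G := by positivity
  set ε : ℝ := 1 / (64 * (G + 1)) with hε
  have hε0 : 0 < ε := by positivity
  have hε1 : ε ≤ 1 := by
    rw [hε, div_le_one (by positivity)]; linarith
  set K0 : ℕ := ⌈802816 / ε⌉₊ with hK0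
  have hK0' : 802816 / ε ≤ K0 := Nat.le_ceil _
  have hK1 : 1 ≤ K0 := by
    have : (0:ℝ) < K0 := lt_of_lt_of_le (by positivity) hK0'
    exact_mod_cast this
  have hK1' : (1:ℝ) ≤ K0 := by exact_mod_cast hK1
  set w : ℝ := 1 / 256 with hw
  set W : ℝ := 256 * (G + 1) with hW
  have hw0 : 0 < w := by norm_num
  have hW0 : 0 < W := by positivity
  set D' : ℝ := D - Real.log η with hD'
  have hlη : Real.log η ≤ 0 := Real.log_nonpos hη0.le hη1
  have hD'0 : 0 ≤ D' := by linarith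
  set K : ℝ := K0 + |Real.log w| + |Real.log W| with hK
  set c1 : ℝ := 1 / (1024 * W * Real.exp (2 * B0 * K0)) * Real.exp (-(2 * A ^ 2 * D')) with hc1
  refine ⟨K, c1, by positivity, by positivity, ?_⟩
  have hlog := Real.tendsto_log_atTop
  have hll := hlog.comp hlog
  have evd : ∀ᶠ T : ℝ in atTop, B0 * (Real.log (Real.log T) + D') ≤ Real.log T := by
    have h1 : Tendsto (fun L : ℝ => L - B0 * (Real.log L + D')) atTop atTop := by
      have h2 := (Real.isLittleO_log_id_atTop).def (show (0:ℝ) < 1 / (2 * B0) by positivity)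
      have h3 : ∀ᶠ L : ℝ in atTop, L / 2 - B0 * D' ≤ L - B0 * (Real.log L + D') := by
        filter_upwards [h2, eventually_ge_atTop 1] with L h4 h5
        simp only [id, Real.norm_eq_abs] at h4
        rw [abs_of_nonneg (Real.log_nonneg h5), abs_of_pos (by linarith : (0:ℝ) < L)] at h4
        have h6 := mul_le_mul_of_nonneg_left h4 (by positivity : (0:ℝ) ≤ B0)
        have h7 : B0 * (1 / (2 * B0) * L) = L / 2 := by
          have : B0 ≠ 0 := by rw [hB0]; positivity
          field_simp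
        rw [h7] at h6
        linarith
      refine tendsto_atTop_mono' _ h3 ?_
      exact (tendsto_id.atTop_div_const (by norm_num)).atTop_add tendsto_const_nhds
    filter_upwards [(h1.comp hlog).eventually_ge_atTop 0] with T hT
    simp only [Function.comp] at hT
    linarith
  have evf : ∀ᶠ T : ℝ in atTop, (2 * Real.log T + 5) * (64 * Real.log T) ≤ Real.exp (q / 8 * Real.log T) := by
    have h1 : Tendsto (fun L : ℝ => Real.exp (q / 8 * L) / L ^ 2) atTop atTop := by
      have := tendsto_exp_mul_div_rpow_atTop 2 (q / 8) (by positivity)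
      refine this.congr fun L => ?_
      rw [Real.rpow_ofNat]
    filter_upwards [(h1.comp hlog).eventually_ge_atTop 448, hlog.eventually_ge_atTop 1] with T h2 h3
    simp only [Function.comp] at h2
    rw [le_div_iff₀ (by positivity)] at h2
    nlinarith only [h2, h3]
  filter_upwards [hcore, hlog.eventually_ge_atTop 10, hlog.eventually_ge_atTop (5 / η), eventually_ge_atTop 1,
    hll.eventually_ge_atTop ((A + 2) * (D' + 4)), evd, evf, hlog.eventually_ge_atTop ((Rs:ℝ) ^ 2)]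
    with T hT hL10 hL5 hT1 hLL hB hf hRs v hv
  simp only [Function.comp] at hLL
  set L := Real.log T with hLd
  set LL := Real.log L with hLLd
  have hT0 : 0 < T := by linarith
  have hL0 : 0 < L := by linarith
  have hAD : 0 ≤ A * D' := mul_nonneg hA hD'0
  have hLLe : (A + 2) * (D' + 4) = A * D' + 4 * A + 2 * D' + 8 := by ring
  rw [hLLe] at hLL
  have hLL8 : 8 ≤ LL := by linarith only [hLL, hAD, hA, hD'0]
  have hLL1 : (A + 1) * D' ≤ LL := by
    have : (A + 1) * D' = A * D' + D' := by ring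
    linarith only [hLL, hA, hD'0, this]
  have hLL2 : 2 * D' ≤ LL := by linarith only [hLL, hAD, hA]
  have hLL3 : D' + 4 ≤ LL := by linarith only [hLL, hAD, hA, hD'0]
  -- the blocks
  have hy : 144 ≤ Real.exp (η * L) := by
    have h1 : 5 ≤ η * L := by
      have := mul_le_mul_of_nonneg_left hL5 hη0.le
      rwa [mul_div_cancel₀ _ hη0.ne'] at this
    have h2 : Real.exp 5 ≤ Real.exp (η * L) := Real.exp_le_exp.mpr h1
    have h3 : (144:ℝ) ≤ Real.exp 5 := by
      have h4 : Real.exp 5 = Real.exp 1 ^ 5 := by rw [← Real.exp_nat_mul]; norm_num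
      rw [h4]
      have h5 : (2.71:ℝ) ≤ Real.exp 1 := by have := Real.exp_one_gt_d9; linarith
      exact le_trans (by norm_num) (pow_le_pow_left₀ (by norm_num) h5 5)
    linarith
  obtain ⟨J, P, hJ, hV, hJL⟩ := hbl _ hy
  rw [Real.log_exp] at hV hJL
  set V := ∑ i ∈ range J, vI (P i) with hVd
  have hlηL : Real.log (η * L) = Real.log η + LL := Real.log_mul hη0.ne' hL0.ne'
  rw [hlηL] at hV
  have hV' := abs_le.mp hV
  have hV1 : LL - D' ≤ V := by linarith [hV'.1]
  have hV2 : V ≤ LL + D' := by linarith [hV'.2]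
  have hV4 : 4 ≤ V := by linarith
  have hV0 : 0 < V := by linarith
  have hVL2 : LL / 2 ≤ V := by linarith
  have hBV : B0 * V ≤ L := (mul_le_mul_of_nonneg_left hV2 (by positivity)).trans hB
  have hVL : V ≤ L := by
    have := mul_le_mul_of_nonneg_right (show (1:ℝ) ≤ B0 by linarith only [hB0, hA]) hV0.le
    linarith only [this, hBV]
  -- the parameters
  set κ := v / V with hκ
  have hκV : κ * V = v := div_mul_cancel₀ _ hV0.ne'
  have hκA : |κ| ≤ A + 1 := by
    rw [hκ, abs_div, abs_of_pos hV0, div_le_iff₀ hV0]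
    refine hv.trans ?_
    have h1 := mul_le_mul_of_nonneg_left hV1 (by linarith only [hA] : (0:ℝ) ≤ A + 1)
    have h2 : (A + 1) * (LL - D') = A * LL + (LL - (A + 1) * D') := by ring
    linarith only [h1, h2, hLL1]
  have hκB : |κ| ≤ B0 := by linarith
  have hκ1B : |κ - 1| ≤ B0 := by
    have := abs_sub κ 1
    rw [abs_one] at this
    linarith
  set M : ℕ := ⌈L⌉₊ with hM
  have hML : L ≤ M := Nat.le_ceil _
  have hM1 : 1 ≤ M := by
    have : (0:ℝ) < M := by linarith
    exact_mod_cast this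
  have hJL' : (4:ℝ) ^ J ≤ L := by
    refine hJL.trans ?_
    have := mul_le_mul_of_nonneg_right hη1 hL0.le
    linarith
  have hv2 : |v| ≤ L := by
    rw [← hκV, abs_mul, abs_of_pos hV0]
    exact (mul_le_mul_of_nonneg_right hκB hV0.le).trans hBV
  have hx : ∀ t, gd J Rs P t → |Pt J P t - v| ≤ 5 * L := by
    intro t ht
    have h1 := pt_bound ht hJL' hRs
    have h2 := abs_sub (Pt J P t) v
    linarith
  have hfin := hT J P hJ M hM1 κ hκB hκ1B v V rfl hκV.symm ε w W K0 (6 * M) hε0 hw0 hW0 hK1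
    (fun t ht => (hx t ht).trans (by linarith)) (fun t ht => (hx t ht).trans (by push_cast; linarith))
    (T * Real.exp (κ ^ 2 * V) * SG M V) (L * Real.exp (-V)) (T ^ (1 - q / 8)) rfl rfl rfl
  set X := T * Real.exp (κ ^ 2 * V) * SG M V with hX
  set ρ := L * Real.exp (-V) with hρ
  set Er := T ^ (1 - q / 8) with hEr
  set m1 := (volume (SS J Rs v K0 w W P ∩ Set.Ioc (T / 2) T)).toReal with hm1
  have hSGe := SG_ge hM1 hV4
  have hsV : Real.sqrt V ≤ L := by
    rw [Real.sqrt_le_left hL0.le]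
    nlinarith only [hVL, hL10]
  have hsV0 : 0 < Real.sqrt V := Real.sqrt_pos.mpr hV0
  have hX0 : 0 ≤ X := by
    have := SG_nonneg M V
    positivity
  have hXge : T / (2 * L) ≤ X := by
    have h1 : 1 / (2 * L) ≤ SG M V := by
      refine le_trans ?_ hSGe
      exact one_div_le_one_div_of_le (by positivity) (by linarith)
    have h2 : 1 ≤ Real.exp (κ ^ 2 * V) := Real.one_le_exp (by positivity)
    calc T / (2 * L) = T * 1 * (1 / (2 * L)) := by ring
      _ ≤ X := by
        rw [hX]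
        exact mul_le_mul (mul_le_mul_of_nonneg_left h2 hT0.le) h1 (by positivity) (by positivity)
  -- the size of rho
  have hρ1 : ρ ≤ Real.exp D / η := by
    have h1 : Real.exp (-V) ≤ Real.exp (D - Real.log η - LL) := Real.exp_le_exp.mpr (by linarith [hV'.1])
    have h2 : Real.exp (D - Real.log η - LL) = Real.exp D / η / L := by
      rw [Real.exp_sub, Real.exp_sub, Real.exp_log hη0, Real.exp_log hL0]
    rw [h2] at h1
    have h3 := mul_le_mul_of_nonneg_left h1 hL0.le
    rwa [mul_div_cancel₀ _ hL0.ne'] at h3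
  have hρG : CE B0 c N0 Rs * ρ ≤ G := mul_le_mul_of_nonneg_left hρ1 hCE0
  have hρ0 : 0 ≤ ρ := by positivity
  have hCEρ0 : 0 ≤ CE B0 c N0 Rs * ρ := by positivity
  -- the error terms
  have hErX : (2 * L + 5) * Er ≤ X / 32 := by
    have h1 : Er * Real.exp (q / 8 * L) = T := by
      rw [hEr, Real.rpow_def_of_pos hT0, ← Real.exp_add, ← hLd]
      have : L * (1 - q / 8) + q / 8 * L = L := by ring
      rw [this]
      exact Real.exp_log hT0
    have hEr0 : 0 ≤ Er := by positivity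
    have h2 := mul_le_mul_of_nonneg_left hf hEr0
    rw [h1] at h2
    have h3 : (2 * L + 5) * Er ≤ T / (64 * L) := by
      rw [le_div_iff₀ (by positivity)]
      linarith
    have h4 : T / (64 * L) = T / (2 * L) / 32 := by field_simp; norm_num
    rw [h4] at h3
    linarith
  have hEr0 : 0 ≤ Er := by positivity
  -- the terms
  have t1 : (∑ m ∈ range J, dm B0 c J Rs m) * (2 * CE B0 c N0 Rs * ρ + 2) * X ≤ 1 / 32 * X := by
    refine mul_le_mul_of_nonneg_right ?_ hX0
    refine le_trans ?_ hdm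
    have h1 := sum_dm hJ.B1 hJ.c0 J Rs
    have h2 : 2 * CE B0 c N0 Rs * ρ + 2 ≤ 2 * CE B0 c N0 Rs * (Real.exp D / η) + 2 := by
      have := mul_le_mul_of_nonneg_left hρ1 (by positivity : 0 ≤ 2 * CE B0 c N0 Rs)
      linarith
    exact mul_le_mul h1 h2 (by positivity) (by positivity)
  have hJL2 : (J:ℝ) ≤ L := by
    have h4 : (J:ℝ) ≤ 4 ^ J := by
      have : J < 4 ^ J := Nat.lt_pow_self (by norm_num)
      exact_mod_cast this.le
    linarith
  have t2 : 2 * J * Er ≤ 2 * L * Er := by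
    have := mul_le_mul_of_nonneg_right hJL2 hEr0
    linarith
  have t3 : ε * (2 * CE B0 c N0 Rs * ρ * X + Er) ≤ 1 / 32 * X + Er := by
    have h1 : ε * (2 * CE B0 c N0 Rs * ρ) ≤ 1 / 32 := by
      calc ε * (2 * CE B0 c N0 Rs * ρ) = 2 * (ε * (CE B0 c N0 Rs * ρ)) := by ring
        _ ≤ 2 * (ε * (G + 1)) := by
          have := mul_le_mul_of_nonneg_left (hρG.trans (by linarith : G ≤ G + 1)) hε0.le
          linarith
        _ = 1 / 32 := by rw [hε]; field_simp; norm_num
    have h2 := mul_le_mul_of_nonneg_right h1 hX0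
    have h3 := mul_le_mul_of_nonneg_right hε1 hEr0
    linarith
  have t4 : 1 / ε * (12544 / K0 * (2 * X + Er)) ≤ 1 / 32 * X + Er := by
    have h1 : 1 / ε * (12544 / K0) ≤ 1 / 64 := by
      have hK00 : (0:ℝ) < K0 := by linarith
      rw [one_div, ← div_eq_inv_mul, div_div, div_le_div_iff₀ (by positivity) (by norm_num)]
      rw [div_le_iff₀ hε0] at hK0'
      linarith
    have h2 := mul_le_mul_of_nonneg_right h1 (by positivity : 0 ≤ 2 * X + Er)
    have h3 : 1 / ε * (12544 / K0 * (2 * X + Er)) = 1 / ε * (12544 / K0) * (2 * X + Er) := by ring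
    rw [h3]
    linarith
  have t5 : 4 * w * (2 * X + Er) ≤ 1 / 32 * X + Er := by
    rw [hw]
    linarith
  have t6 : 4 / W * (2 * CE B0 c N0 Rs * ρ * X + Er) ≤ 1 / 32 * X + Er := by
    have h1 : 4 / W * (2 * CE B0 c N0 Rs * ρ) ≤ 1 / 32 := by
      calc 4 / W * (2 * CE B0 c N0 Rs * ρ) = 8 / W * (CE B0 c N0 Rs * ρ) := by ring
        _ ≤ 8 / W * (G + 1) := mul_le_mul_of_nonneg_left (hρG.trans (by linarith)) (by positivity)
        _ = 1 / 32 := by rw [hW]; field_simp; norm_num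
    have h2 := mul_le_mul_of_nonneg_right h1 hX0
    have h3 : 4 / W ≤ 1 := by
      rw [div_le_one hW0, hW]; linarith
    have h4 := mul_le_mul_of_nonneg_right h3 hEr0
    linarith
  have hmain : X / 16 ≤ 16 * W * Real.exp (2 * κ * v + 2 * B0 * K0) * m1 := by
    have : (2 * L + 5) * Er = 2 * L * Er + 5 * Er := by ring
    linarith
  -- the conclusion
  have hsub : SS J Rs v K0 w W P ∩ Set.Ioc (T / 2) T ⊆ {t ∈ Set.Ioc (T / 2) T | |Real.log ‖riemannZeta (cl t)‖ - v| ≤ K} :=
    fun t ht => ⟨ht.2, subset_dev hw0 hW0 ht.1⟩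
  have hfinv : volume {t ∈ Set.Ioc (T / 2) T | |Real.log ‖riemannZeta (cl t)‖ - v| ≤ K} ≠ ⊤ := by
    refine ne_top_of_le_ne_top ?_ (measure_mono (Set.sep_subset _ _))
    rw [Real.volume_Ioc]
    exact ENNReal.ofReal_ne_top
  have hm1le : m1 ≤ (volume {t ∈ Set.Ioc (T / 2) T | |Real.log ‖riemannZeta (cl t)‖ - v| ≤ K}).toReal :=
    ENNReal.toReal_mono hfinv (measure_mono hsub)
  refine le_trans ?_ hm1le
  have h2κ : 2 * κ * v = 2 * (κ ^ 2 * V) := by rw [← hκV]; ring
  have hm2 : X / (256 * W * Real.exp (2 * (κ ^ 2 * V) + 2 * B0 * K0)) ≤ m1 := by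
    rw [div_le_iff₀ (by positivity), ← h2κ]
    linarith
  refine le_trans ?_ hm2
  have hkv : κ ^ 2 * V ≤ v ^ 2 / LL + 2 * A ^ 2 * D' := by
    have h1 : κ ^ 2 * V = v ^ 2 / V := by rw [hκ]; field_simp
    rw [h1]
    have h2 : v ^ 2 / V - v ^ 2 / LL = v ^ 2 * (LL - V) / (V * LL) := by field_simp
    have h3 : v ^ 2 ≤ (A * LL) ^ 2 := by
      rw [← sq_abs]
      exact pow_le_pow_left₀ (abs_nonneg _) hv 2
    have h4 : v ^ 2 * (LL - V) / (V * LL) ≤ 2 * A ^ 2 * D' := by
      rw [div_le_iff₀ (by positivity)]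
      have h5 : v ^ 2 * (LL - V) ≤ (A * LL) ^ 2 * D' := by
        calc v ^ 2 * (LL - V) ≤ v ^ 2 * D' := mul_le_mul_of_nonneg_left (by linarith) (sq_nonneg _)
          _ ≤ (A * LL) ^ 2 * D' := mul_le_mul_of_nonneg_right h3 hD'0
      refine h5.trans ?_
      have h6 : 2 * A ^ 2 * D' * (V * LL) - (A * LL) ^ 2 * D' = A ^ 2 * D' * LL * (2 * V - LL) := by ring
      have h7 : 0 ≤ A ^ 2 * D' * LL * (2 * V - LL) := by
        refine mul_nonneg (by positivity) (by linarith)
      linarith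
    linarith
  have hsVL : Real.sqrt V ≤ 2 * Real.sqrt LL := by
    rw [Real.sqrt_le_left (by positivity), mul_pow, Real.sq_sqrt (by linarith)]
    linarith
  have hsLL : 0 < Real.sqrt LL := Real.sqrt_pos.mpr (by linarith)
  have hX2 : T * Real.exp (κ ^ 2 * V) * (1 / (4 * Real.sqrt LL)) ≤ X := by
    rw [hX]
    refine mul_le_mul_of_nonneg_left (le_trans ?_ hSGe) (by positivity)
    exact one_div_le_one_div_of_le (by positivity) (by linarith)
  have h9 : T * Real.exp (κ ^ 2 * V) * (1 / (4 * Real.sqrt LL)) / (256 * W * Real.exp (2 * (κ ^ 2 * V) + 2 * B0 * K0)) ≤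
      X / (256 * W * Real.exp (2 * (κ ^ 2 * V) + 2 * B0 * K0)) := div_le_div_of_nonneg_right hX2 (by positivity)
  refine le_trans ?_ h9
  have h10 : T * Real.exp (κ ^ 2 * V) * (1 / (4 * Real.sqrt LL)) / (256 * W * Real.exp (2 * (κ ^ 2 * V) + 2 * B0 * K0)) =
      1 / (1024 * W * Real.exp (2 * B0 * K0)) * (T * Real.exp (-(κ ^ 2 * V)) / Real.sqrt LL) := by
    rw [Real.exp_add, Real.exp_neg, two_mul (κ ^ 2 * V), Real.exp_add]
    field_simp
    norm_num
  rw [h10, hc1]
  have h11 : Real.exp (-(2 * A ^ 2 * D')) * Real.exp (-(v ^ 2 / LL)) ≤ Real.exp (-(κ ^ 2 * V)) := by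
    rw [← Real.exp_add]
    exact Real.exp_le_exp.mpr (by linarith)
  calc 1 / (1024 * W * Real.exp (2 * B0 * K0)) * Real.exp (-(2 * A ^ 2 * D')) *
      (T * Real.exp (-(v ^ 2 / LL)) / Real.sqrt LL) =
      1 / (1024 * W * Real.exp (2 * B0 * K0)) * (T * (Real.exp (-(2 * A ^ 2 * D')) * Real.exp (-(v ^ 2 / LL))) / Real.sqrt LL) := by
        ring
    _ ≤ _ := by
      refine mul_le_mul_of_nonneg_left (div_le_div_of_nonneg_right (mul_le_mul_of_nonneg_left h11 hT0.le) hsLL.le) (by positivity)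

end Pool.Agent.KS6_29.LD
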