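import Pool.Agent.KS6_29.LD.Fin2

set_option autoImplicit false

/-! The large deviations on the line, for the randomly shifted zeta function. -/

namespace Pool.Agent.KS6_29.LD

open MeasureTheory Filter Topology
open Pool.Agent.H306R2.SM (cl)

theorem local_lower (A : ℝ) : ∃ K c : ℝ, 0 < K ∧ 0 < c ∧ ∀ x : ℝ, ∀ᶠ T : ℝ in atTop, ∀ V : ℝ,
    |V| ≤ A * Real.log (Real.log T) →
    c * Real.exp (-(V ^ 2 / Real.log (Real.log T))) / Real.sqrt (Real.log (Real.log T)) ≤
      (volume {u : ℝ | 0 ≤ u ∧ u ≤ 1 ∧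
        |Real.log ‖riemannZeta (1 / 2 + x * Complex.I + (u * T) * Complex.I)‖ - V| ≤ K}).toReal := by
  obtain ⟨K, c, hK, hc, hmain⟩ := main_line (2 * |A|) (by positivity)
  refine ⟨K, c / 2 * Real.exp (-(2 * A ^ 2)), hK, by positivity, fun x => ?_⟩
  have h2 : Tendsto (fun T : ℝ => T / 2) atTop atTop := tendsto_id.atTop_div_const (by norm_num)
  have hlog := Real.tendsto_log_atTop
  filter_upwards [h2.eventually hmain, hlog.eventually_ge_atTop 10, eventually_gt_atTop 0,
    eventually_ge_atTop (4 * |x|)] with T hT hL hT0 hTx V hV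
  have hlog2 := Real.log_two_lt_d9
  have hlog2' := Real.log_two_gt_d9
  have hl : Real.log (T / 2) = Real.log T - Real.log 2 := Real.log_div hT0.ne' (by norm_num)
  set L := Real.log T with hLd
  set LL := Real.log L with hLLd
  set LL' := Real.log (Real.log (T / 2)) with hLLd'
  have hL0 : 0 < L := by linarith
  have hL' : 9 ≤ Real.log (T / 2) := by rw [hl]; linarith
  have hLL1 : LL' ≤ LL := Real.log_le_log (by linarith) (by rw [hl]; linarith)
  have hLL2 : LL ≤ LL' + 1 := by
    have h1 : L ≤ Real.log (T / 2) * Real.exp 1 := by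
      have := Real.exp_one_gt_d9
      rw [hl] at hL' ⊢
      nlinarith
    have h2 := Real.log_le_log hL0 h1
    rwa [Real.log_mul (by linarith) (Real.exp_pos 1).ne', Real.log_exp] at h2
  have hLL3 : 1 ≤ LL' := by
    rw [hLLd', Real.le_log_iff_exp_le (by linarith)]
    have := Real.exp_one_lt_d9
    linarith
  have hLL4 : LL ≤ 2 * LL' := by linarith
  have hA := abs_nonneg A
  have hAA := le_abs_self A
  have hV1 : |V| ≤ |A| * LL := hV.trans (mul_le_mul_of_nonneg_right hAA (by linarith))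
  have hV2 : |V| ≤ 2 * |A| * LL' := by
    refine hV1.trans ?_
    have := mul_le_mul_of_nonneg_left hLL4 hA
    linarith
  have h3 := hT V hV2
  -- the size
  have hVV : V ^ 2 / LL' ≤ V ^ 2 / LL + 2 * A ^ 2 := by
    have h4 : V ^ 2 / LL' - V ^ 2 / LL = V ^ 2 * (LL - LL') / (LL' * LL) := by
      have n1 : LL ≠ 0 := by linarith
      have n2 : LL' ≠ 0 := by linarith
      rw [div_sub_div _ _ n2 n1]
      ring
    have h5 : V ^ 2 ≤ A ^ 2 * LL ^ 2 := by
      rw [← sq_abs, ← mul_pow, ← sq_abs (A * LL), abs_mul, abs_of_nonneg (by linarith : 0 ≤ LL)]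
      exact pow_le_pow_left₀ (abs_nonneg _) hV1 2
    have h6 : V ^ 2 * (LL - LL') / (LL' * LL) ≤ 2 * A ^ 2 := by
      rw [div_le_iff₀ (mul_pos (by linarith) (by linarith))]
      calc V ^ 2 * (LL - LL') ≤ (A ^ 2 * LL ^ 2) * 1 := mul_le_mul h5 (by linarith) (by linarith) (by positivity)
        _ = A ^ 2 * LL * LL := by ring
        _ ≤ A ^ 2 * LL * (2 * LL') := mul_le_mul_of_nonneg_left hLL4 (mul_nonneg (sq_nonneg _) (by linarith))
        _ = _ := by ring
    linarith
  have hs1 : Real.sqrt LL' ≤ Real.sqrt LL := Real.sqrt_le_sqrt hLL1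
  have hs0 : 0 < Real.sqrt LL' := Real.sqrt_pos.mpr (by linarith)
  have hexp : Real.exp (-(2 * A ^ 2)) * Real.exp (-(V ^ 2 / LL)) ≤ Real.exp (-(V ^ 2 / LL')) := by
    rw [← Real.exp_add]
    exact Real.exp_le_exp.mpr (by linarith)
  have h7 : c / 2 * Real.exp (-(2 * A ^ 2)) * Real.exp (-(V ^ 2 / LL)) / Real.sqrt LL ≤
      1 / T * (c * (T / 2 * Real.exp (-(V ^ 2 / LL')) / Real.sqrt LL')) := by
    have e1 : 1 / T * (c * (T / 2 * Real.exp (-(V ^ 2 / LL')) / Real.sqrt LL')) = c / 2 * Real.exp (-(V ^ 2 / LL')) / Real.sqrt LL' := by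
      field_simp
    rw [e1]
    refine div_le_div₀ (by positivity) ?_ hs0 hs1
    rw [mul_assoc]
    exact mul_le_mul_of_nonneg_left hexp (by positivity)
  refine h7.trans ?_
  have h8 := mul_le_mul_of_nonneg_left h3 (by positivity : (0:ℝ) ≤ 1 / T)
  refine h8.trans ?_
  -- the change of variables
  set S : Set ℝ := {t ∈ Set.Ioc (T / 2 / 2) (T / 2) | |Real.log ‖riemannZeta (cl t)‖ - V| ≤ K} with hS
  set U : Set ℝ := {u : ℝ | 0 ≤ u ∧ u ≤ 1 ∧
        |Real.log ‖riemannZeta (1 / 2 + x * Complex.I + (u * T) * Complex.I)‖ - V| ≤ K} with hU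
  have hsub : (fun u => T * u) ⁻¹' ((fun t => x + t) ⁻¹' S) ⊆ U := by
    intro u hu
    simp only [Set.mem_preimage, hS, Set.mem_ofPred_eq, Set.mem_Ioc] at hu
    obtain ⟨⟨a1, a2⟩, a3⟩ := hu
    have hx1 := neg_abs_le x
    have hx2 := le_abs_self x
    refine ⟨?_, ?_, ?_⟩
    · by_contra h
      push Not at h
      have : T * u < 0 := mul_neg_of_pos_of_neg hT0 h
      linarith
    · by_contra h
      push Not at h
      have : T * 1 < T * u := mul_lt_mul_of_pos_left h hT0
      linarith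
    · have e1 : cl (x + T * u) = 1 / 2 + x * Complex.I + (u * T) * Complex.I := by
        unfold cl; push_cast; ring
      rwa [e1] at a3
  have hvol : volume ((fun u => T * u) ⁻¹' ((fun t => x + t) ⁻¹' S)) = ENNReal.ofReal (1 / T) * volume S := by
    rw [Real.volume_preimage_mul_left hT0.ne', measure_preimage_add, abs_of_pos (inv_pos.mpr hT0), one_div]
  have hUfin : volume U ≠ ⊤ := by
    refine ne_top_of_le_ne_top (b := volume (Set.Icc (0:ℝ) 1)) ?_ (measure_mono fun u hu => ⟨hu.1, hu.2.1⟩)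
    rw [Real.volume_Icc]
    exact ENNReal.ofReal_ne_top
  have h9 := ENNReal.toReal_mono hUfin (measure_mono hsub)
  rw [hvol, ENNReal.toReal_mul, ENNReal.toReal_ofReal (by positivity)] at h9
  exact h9

end Pool.Agent.KS6_29.LD
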