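import Pool.Agent.KS6_29.LD.Pd

set_option autoImplicit false

/-! The localising kernel. -/

namespace Pool.Agent.KS6_29.LD

open Finset MeasureTheory Complex
open Pool.Agent.W184.NZ

/-- the frequencies -/
noncomputable def xi (M k : ℕ) : ℝ := (k:ℝ) / (2 * M)

/-- the Gaussian double sum -/
noncomputable def SG (M : ℕ) (V : ℝ) : ℝ :=
  ∑ k ∈ range M, ∑ l ∈ range M, (1 / (M:ℝ) ^ 2) * Real.exp (-((xi M k - xi M l) ^ 2 * V / 4))

lemma xi_nonneg (M k : ℕ) : 0 ≤ xi M k := by unfold xi; positivity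

lemma xi_le {M k : ℕ} (h : k < M) : xi M k ≤ 1 / 2 := by
  have hM : (0:ℝ) < M := by exact_mod_cast (by omega : 0 < M)
  have hk : (k:ℝ) ≤ M := by exact_mod_cast h.le
  unfold xi
  rw [div_le_div_iff₀ (by positivity) (by norm_num)]
  linarith

lemma gauss_sum {τ : ℝ} (hτ : 0 < τ) (n : ℕ) :
    ∑ d ∈ range n, Real.exp (-(τ * ((d:ℝ) + 1) ^ 2)) ≤ Real.sqrt (Real.pi / τ) / 2 := by
  have h1 : AntitoneOn (fun x : ℝ => Real.exp (-τ * x ^ 2)) (Set.Icc 0 (0 + (n:ℝ))) := by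
    intro a ha b hb hab
    refine Real.exp_le_exp.mpr ?_
    have h1 : a ^ 2 ≤ b ^ 2 := pow_le_pow_left₀ ha.1 hab 2
    have := mul_le_mul_of_nonneg_left h1 hτ.le
    linarith
  have h2 := h1.sum_le_integral
  have h3 : ∫ x in (0:ℝ)..0 + (n:ℝ), Real.exp (-τ * x ^ 2) ≤ ∫ x in Set.Ioi (0:ℝ), Real.exp (-τ * x ^ 2) := by
    rw [intervalIntegral.integral_of_le (by positivity)]
    refine setIntegral_mono_set ?_ (Filter.Eventually.of_forall fun x => (Real.exp_pos _).le) ?_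
    · exact (integrable_exp_neg_mul_sq hτ).integrableOn
    · exact (Set.Ioc_subset_Ioi_self).eventuallyLE
  rw [integral_gaussian_Ioi] at h3
  refine le_trans (le_of_eq ?_) (h2.trans h3)
  refine sum_congr rfl fun d _ => ?_
  congr 1
  push_cast
  ring

lemma inner_sum {τ : ℝ} (hτ : 0 < τ) (M k : ℕ) :
    ∑ l ∈ range M, Real.exp (-(τ * ((k:ℝ) - l) ^ 2)) ≤ 1 + Real.sqrt (Real.pi / τ) := by
  set f : ℕ → ℝ := fun l => Real.exp (-(τ * ((k:ℝ) - l) ^ 2)) with hf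
  have hf0 : ∀ l, 0 ≤ f l := fun l => (Real.exp_pos _).le
  have h1 : ∑ l ∈ range M, f l ≤ ∑ l ∈ range (k + 1), f l + ∑ l ∈ Ico (k + 1) (k + 1 + M), f l := by
    rw [sum_range_add_sum_Ico _ (by omega)]
    exact sum_le_sum_of_subset_of_nonneg (range_mono (by omega)) fun l _ _ => hf0 l
  have h2 : ∑ l ∈ range (k + 1), f l ≤ 1 + Real.sqrt (Real.pi / τ) / 2 := by
    rw [← sum_range_reflect, sum_range_succ']
    have e1 : f (k + 1 - 1 - 0) = 1 := by simp [hf]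
    rw [e1, add_comm]
    refine add_le_add le_rfl (le_trans (le_of_eq ?_) (gauss_sum hτ k))
    refine sum_congr rfl fun d hd => ?_
    rw [mem_range] at hd
    simp only [hf]
    congr 3
    rw [show k + 1 - 1 - (d + 1) = k - (d + 1) by omega, Nat.cast_sub (by omega)]
    push_cast
    ring
  have h3 : ∑ l ∈ Ico (k + 1) (k + 1 + M), f l ≤ Real.sqrt (Real.pi / τ) / 2 := by
    rw [sum_Ico_eq_sum_range, Nat.add_sub_cancel_left]
    refine le_trans (le_of_eq ?_) (gauss_sum hτ M)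
    refine sum_congr rfl fun d hd => ?_
    simp only [hf]
    congr 2
    push_cast
    ring
  linarith

lemma SG_le {M : ℕ} (hM : 1 ≤ M) {V : ℝ} (hV : 0 < V) (hVM : V ≤ (M:ℝ) ^ 2) : SG M V ≤ 9 / Real.sqrt V := by
  have hM0 : (0:ℝ) < M := by exact_mod_cast hM
  have hq0 : 0 < Real.sqrt V := Real.sqrt_pos.mpr hV
  have hqM : Real.sqrt V ≤ M := by
    rw [← Real.sqrt_sq hM0.le]; exact Real.sqrt_le_sqrt hVM
  set τ := V / (16 * (M:ℝ) ^ 2) with hτ
  have hτ0 : 0 < τ := by positivity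
  have h1 : ∀ k l : ℕ, Real.exp (-((xi M k - xi M l) ^ 2 * V / 4)) = Real.exp (-(τ * ((k:ℝ) - l) ^ 2)) := by
    intro k l
    congr 1
    unfold xi
    rw [hτ]
    field_simp
    ring
  have h2 : Real.sqrt (Real.pi / τ) ≤ 8 * M / Real.sqrt V := by
    apply Real.sqrt_le_iff.2
    refine ⟨by positivity, ?_⟩
    rw [div_pow, Real.sq_sqrt hV.le, hτ, mul_pow]
    have := Real.pi_lt_four
    rw [div_div_eq_mul_div, div_le_div_iff₀ hV hV]
    nlinarith [mul_pos (pow_pos hM0 2) hV]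
  unfold SG
  have h3 : ∀ k ∈ range M, ∑ l ∈ range M, (1 / (M:ℝ) ^ 2) * Real.exp (-((xi M k - xi M l) ^ 2 * V / 4)) ≤
      (1 / (M:ℝ) ^ 2) * (9 * M / Real.sqrt V) := by
    intro k _
    rw [← mul_sum]
    refine mul_le_mul_of_nonneg_left ?_ (by positivity)
    simp_rw [h1]
    refine (inner_sum hτ0 M k).trans ?_
    have h4 : 1 ≤ M / Real.sqrt V := by rw [le_div_iff₀ hq0]; linarith
    calc 1 + Real.sqrt (Real.pi / τ) ≤ M / Real.sqrt V + 8 * M / Real.sqrt V := add_le_add h4 h2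
      _ = _ := by ring
  refine (sum_le_sum h3).trans (le_of_eq ?_)
  rw [sum_const, card_range, nsmul_eq_mul]
  field_simp

lemma SG_ge {M : ℕ} (hM : 1 ≤ M) {V : ℝ} (hV : 4 ≤ V) : 1 / (2 * Real.sqrt V) ≤ SG M V := by
  have hM0 : (0:ℝ) < M := by exact_mod_cast hM
  have hV0 : 0 < V := by linarith
  have hq0 : 0 < Real.sqrt V := Real.sqrt_pos.mpr hV0
  have hq2 : 2 ≤ Real.sqrt V := by
    rw [show (2:ℝ) = Real.sqrt 4 by rw [show (4:ℝ) = 2 ^ 2 by norm_num, Real.sqrt_sq (by norm_num)]]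
    exact Real.sqrt_le_sqrt hV
  have hqq : Real.sqrt V ^ 2 = V := Real.sq_sqrt hV0.le
  set h : ℕ := ⌊(M:ℝ) / Real.sqrt V⌋₊ with hh
  have hh1 : (h:ℝ) ≤ M / Real.sqrt V := Nat.floor_le (by positivity)
  have hh2 : (M:ℝ) / Real.sqrt V ≤ h + 1 := (Nat.lt_floor_add_one _).le
  have hh3 : 2 * h ≤ M := by
    have : (2:ℝ) * h ≤ M := by
      calc (2:ℝ) * h ≤ Real.sqrt V * (M / Real.sqrt V) := mul_le_mul hq2 hh1 (by positivity) (by positivity)
        _ = M := by field_simp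
    exact_mod_cast this
  have key : ∀ k ∈ range M, (M:ℝ) / Real.sqrt V * (1 / 2) ≤ ∑ l ∈ range M, Real.exp (-((xi M k - xi M l) ^ 2 * V / 4)) := by
    intro k hk
    rw [mem_range] at hk
    have hval : ∀ l : ℕ, |(k:ℝ) - l| ≤ h → (1:ℝ) / 2 ≤ Real.exp (-((xi M k - xi M l) ^ 2 * V / 4)) := by
      intro l hl
      have h1 : (xi M k - xi M l) ^ 2 * V / 4 ≤ 1 / 16 := by
        have e1 : (xi M k - xi M l) ^ 2 * V / 4 = ((k:ℝ) - l) ^ 2 * V / (16 * (M:ℝ) ^ 2) := by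
          unfold xi; field_simp; ring
        rw [e1, div_le_div_iff₀ (by positivity) (by norm_num)]
        have h2 : ((k:ℝ) - l) ^ 2 ≤ (M / Real.sqrt V) ^ 2 := by
          rw [← sq_abs]; exact pow_le_pow_left₀ (abs_nonneg _) (hl.trans hh1) 2
        rw [div_pow, hqq, le_div_iff₀ hV0] at h2
        linarith
      have h2 := Real.add_one_le_exp (-((xi M k - xi M l) ^ 2 * V / 4))
      linarith
    have hsub : ∃ S : Finset ℕ, S ⊆ range M ∧ h + 1 ≤ S.card ∧ ∀ l ∈ S, |(k:ℝ) - l| ≤ h := by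
      by_cases hkh : h ≤ k
      · refine ⟨Icc (k - h) k, ?_, ?_, ?_⟩
        · intro l hl
          rw [mem_Icc] at hl
          exact mem_range.mpr (by omega)
        · rw [Nat.card_Icc]; omega
        · intro l hl
          rw [mem_Icc] at hl
          have a1 : (l:ℝ) ≤ k := by exact_mod_cast hl.2
          have a2 : (k:ℝ) ≤ l + h := by exact_mod_cast (by omega : k ≤ l + h)
          rw [abs_le]; constructor <;> linarith
      · refine ⟨Icc k (k + h), ?_, ?_, ?_⟩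
        · intro l hl
          rw [mem_Icc] at hl
          exact mem_range.mpr (by omega)
        · rw [Nat.card_Icc]; omega
        · intro l hl
          rw [mem_Icc] at hl
          have a1 : (k:ℝ) ≤ l := by exact_mod_cast hl.1
          have a2 : (l:ℝ) ≤ k + h := by exact_mod_cast (by omega : l ≤ k + h)
          rw [abs_le]; constructor <;> linarith
    obtain ⟨S, hS1, hS2, hS3⟩ := hsub
    have h3 : ∑ l ∈ S, Real.exp (-((xi M k - xi M l) ^ 2 * V / 4)) ≤ ∑ l ∈ range M, Real.exp (-((xi M k - xi M l) ^ 2 * V / 4)) :=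
      sum_le_sum_of_subset_of_nonneg hS1 fun _ _ _ => (Real.exp_pos _).le
    refine le_trans ?_ h3
    have h4 : (S.card : ℝ) * (1 / 2) ≤ ∑ l ∈ S, Real.exp (-((xi M k - xi M l) ^ 2 * V / 4)) := by
      rw [← nsmul_eq_mul, ← sum_const]
      exact sum_le_sum fun l hl => hval l (hS3 l hl)
    have h5 : (h:ℝ) + 1 ≤ S.card := by exact_mod_cast hS2
    nlinarith
  unfold SG
  have h6 : ∀ k ∈ range M, (1 / (M:ℝ) ^ 2) * ((M:ℝ) / Real.sqrt V * (1 / 2)) ≤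
      ∑ l ∈ range M, (1 / (M:ℝ) ^ 2) * Real.exp (-((xi M k - xi M l) ^ 2 * V / 4)) := by
    intro k hk
    rw [← mul_sum]
    exact mul_le_mul_of_nonneg_left (key k hk) (by positivity)
  refine le_trans (le_of_eq ?_) (sum_le_sum h6)
  rw [sum_const, card_range, nsmul_eq_mul]
  field_simp

/-- summation by parts -/
lemma abel_bd {M : ℕ} {f g : ℕ → ℂ} {A : ℝ} (hA : ∀ n, ‖∑ j ∈ range n, g j‖ ≤ A) :
    ‖∑ k ∈ range M, f k * g k‖ ≤ (‖f (M - 1)‖ + ∑ k ∈ range (M - 1), ‖f (k + 1) - f k‖) * A := by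
  have h1 := Finset.sum_range_by_parts f g M
  simp only [smul_eq_mul] at h1
  rw [h1]
  refine (norm_sub_le _ _).trans ?_
  rw [add_mul, sum_mul]
  refine add_le_add ?_ ?_
  · rw [norm_mul]
    exact mul_le_mul_of_nonneg_left (hA M) (norm_nonneg _)
  · refine (norm_sum_le _ _).trans (sum_le_sum fun k _ => ?_)
    rw [norm_mul]
    exact mul_le_mul_of_nonneg_left (hA (k + 1)) (norm_nonneg _)

lemma one_sub_exp {θ : ℝ} (h : |θ| ≤ Real.pi) : 2 / Real.pi * |θ| ≤ ‖Complex.exp (I * θ) - 1‖ := by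
  rw [Complex.norm_exp_I_mul_ofReal_sub_one, Real.norm_eq_abs, abs_mul]
  have hpi := Real.pi_pos
  have h1 : 2 / Real.pi * (|θ| / 2) ≤ Real.sin (|θ| / 2) :=
    Real.mul_le_sin (by positivity) (by linarith)
  have h2 : |Real.sin (θ / 2)| = |Real.sin (|θ| / 2)| := by
    rcases abs_cases θ with ⟨ha, _⟩ | ⟨ha, _⟩
    · rw [ha]
    · rw [ha, neg_div, Real.sin_neg, abs_neg]
  rw [h2, abs_of_pos (by norm_num : (0:ℝ) < 2)]
  have h3 := le_abs_self (Real.sin (|θ| / 2))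
  have e1 : 2 / Real.pi * |θ| = 2 * (2 / Real.pi * (|θ| / 2)) := by ring
  rw [e1]
  linarith

lemma geo_bd {θ : ℝ} (h0 : θ ≠ 0) (h : |θ| ≤ Real.pi) (n : ℕ) :
    ‖∑ j ∈ range n, Complex.exp (I * θ) ^ j‖ ≤ Real.pi / |θ| := by
  have hθ : 0 < |θ| := abs_pos.mpr h0
  have h1 := one_sub_exp h
  have hpi := Real.pi_pos
  have h2 : 0 < ‖Complex.exp (I * θ) - 1‖ := lt_of_lt_of_le (by positivity) h1
  have h3 : Complex.exp (I * θ) - 1 ≠ 0 := norm_pos_iff.mp h2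
  have h4 := geom_sum_mul (Complex.exp (I * θ)) n
  have h5 : ‖∑ j ∈ range n, Complex.exp (I * θ) ^ j‖ * ‖Complex.exp (I * θ) - 1‖ ≤ 2 := by
    rw [← norm_mul, h4]
    refine (norm_sub_le _ _).trans ?_
    rw [norm_pow, mul_comm I, Complex.norm_exp_ofReal_mul_I, one_pow, norm_one]
    norm_num
  have h6 : ‖∑ j ∈ range n, Complex.exp (I * θ) ^ j‖ * (2 / Real.pi * |θ|) ≤ 2 :=
    (mul_le_mul_of_nonneg_left h1 (norm_nonneg _)).trans h5
  rw [le_div_iff₀ hθ]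
  have h7 : ‖∑ j ∈ range n, Complex.exp (I * θ) ^ j‖ * (2 / Real.pi * |θ|) =
      2 / Real.pi * (‖∑ j ∈ range n, Complex.exp (I * θ) ^ j‖ * |θ|) := by ring
  rw [h7] at h6
  have h8 : 2 / Real.pi * (‖∑ j ∈ range n, Complex.exp (I * θ) ^ j‖ * |θ|) ≤ 2 / Real.pi * Real.pi := by
    rw [div_mul_cancel₀ _ hpi.ne']; exact h6
  exact le_of_mul_le_mul_left h8 (by positivity)

/-- the ratio of the truncated and the exact exponential -/
noncomputable def hK (K : ℕ) (x ξ : ℝ) : ℂ := EC K (I * ξ) (x:ℂ) * Complex.exp (-(I * ξ * x))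

lemma EC_hK (K : ℕ) (x ξ : ℝ) : EC K (I * ξ) (x:ℂ) = Complex.exp (I * ξ * x) * hK K x ξ := by
  unfold hK
  rw [mul_comm (EC K (I * ξ) (x:ℂ)), ← mul_assoc, ← Complex.exp_add, add_neg_cancel, Complex.exp_zero, one_mul]

lemma nrm_ix (ξ x : ℝ) : ‖Complex.exp (-(I * ξ * x))‖ = 1 := by
  rw [show -(I * (ξ:ℂ) * x) = ((-(ξ * x) : ℝ) : ℂ) * I by push_cast; ring, Complex.norm_exp_ofReal_mul_I]

lemma hK_one (K : ℕ) (x ξ : ℝ) : ‖hK K x ξ - 1‖ ≤ Real.exp (-(K:ℝ)) * Real.exp (3 * (|ξ| * |x|)) := by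
  have h1 := EC_tail K (I * ξ) (x:ℂ)
  have e1 : hK K x ξ - 1 = (EC K (I * ξ) (x:ℂ) - Complex.exp (I * ξ * x)) * Complex.exp (-(I * ξ * x)) := by
    unfold hK
    rw [sub_mul, ← Complex.exp_add, add_neg_cancel, Complex.exp_zero]
  rw [e1, norm_mul, nrm_ix, mul_one]
  refine h1.trans (le_of_eq ?_)
  rw [norm_mul, Complex.norm_I, one_mul, Complex.norm_real, Complex.norm_real, Real.norm_eq_abs, Real.norm_eq_abs]

lemma deriv_trunc (n : ℕ) (z : ℂ) : HasDerivAt (fun z : ℂ => ∑ m ∈ range (n + 1), z ^ m / (m.factorial : ℂ))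
    (∑ m ∈ range n, z ^ m / (m.factorial : ℂ)) z := by
  induction n with
  | zero =>
    simp only [zero_add, sum_range_one, pow_zero, Nat.factorial_zero, Nat.cast_one, div_one, range_zero, sum_empty]
    exact hasDerivAt_const z 1
  | succ n ih =>
    have h1 := (hasDerivAt_pow (n + 1) z).div_const (((n + 1).factorial : ℕ) : ℂ)
    have h0 : (((n + 1 : ℕ) : ℂ) * z ^ (n + 1 - 1)) / (((n + 1).factorial : ℕ) : ℂ) = z ^ n / ((n.factorial : ℕ) : ℂ) := by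
      rw [Nat.factorial_succ]
      push_cast
      have : ((n:ℂ) + 1) ≠ 0 := by exact_mod_cast Nat.succ_ne_zero n
      have h2 : ((n.factorial : ℕ) : ℂ) ≠ 0 := by exact_mod_cast Nat.factorial_ne_zero n
      field_simp
    have h2 := ih.add h1
    rw [h0, ← sum_range_succ (fun m => z ^ m / ((m.factorial : ℕ) : ℂ))] at h2
    refine h2.congr_of_eventuallyEq (Filter.Eventually.of_forall fun x => ?_)
    exact sum_range_succ (fun m => x ^ m / ((m.factorial : ℕ) : ℂ)) (n + 1)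

lemma pow_fac_le {r : ℝ} (hr : 0 ≤ r) (K : ℕ) : r ^ K / (K.factorial : ℝ) ≤ Real.exp (-(K:ℝ)) * Real.exp (3 * r) := by
  have h1 : (3 * r) ^ K / (K.factorial : ℝ) ≤ Real.exp (3 * r) :=
    Real.pow_div_factorial_le_exp _ (by positivity) _
  have h4 : Real.exp 1 ≤ 3 := by have := Real.exp_one_lt_d9; linarith
  have h3 : Real.exp K ≤ 3 ^ K := by
    calc Real.exp K = Real.exp 1 ^ K := by rw [← Real.exp_nat_mul, mul_one]
      _ ≤ 3 ^ K := pow_le_pow_left₀ (Real.exp_pos 1).le h4 K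
  rw [mul_pow] at h1
  have h5 : 0 ≤ r ^ K / (K.factorial : ℝ) := by positivity
  have h6 : Real.exp K * (r ^ K / (K.factorial : ℝ)) ≤ Real.exp (3 * r) := by
    calc _ ≤ 3 ^ K * (r ^ K / (K.factorial : ℝ)) := mul_le_mul_of_nonneg_right h3 h5
      _ = 3 ^ K * r ^ K / (K.factorial : ℝ) := by ring
      _ ≤ _ := h1
  calc r ^ K / (K.factorial : ℝ) = Real.exp (-(K:ℝ)) * (Real.exp K * (r ^ K / (K.factorial : ℝ))) := by
        rw [← mul_assoc, ← Real.exp_add, neg_add_cancel, Real.exp_zero, one_mul]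
    _ ≤ _ := mul_le_mul_of_nonneg_left h6 (Real.exp_pos _).le

lemma hK_lip (K : ℕ) (x : ℝ) {ξ ξ' : ℝ} (h : |ξ| ≤ 1 / 2) (h' : |ξ'| ≤ 1 / 2) :
    ‖hK K x ξ' - hK K x ξ‖ ≤ |x| * (Real.exp (-(K:ℝ)) * Real.exp (3 / 2 * |x|)) * |ξ' - ξ| := by
  have hder : ∀ v ∈ Set.Icc (-(1 / 2 : ℝ)) (1 / 2), HasDerivWithinAt (hK K x)
      (-(I * x) * ((I * v * x) ^ K / (K.factorial : ℂ)) * Complex.exp (-(I * v * x))) (Set.Icc (-(1 / 2 : ℝ)) (1 / 2)) v := by
    intro v _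
    refine HasDerivAt.hasDerivWithinAt ?_
    have e1 : hK K x = fun ξ : ℝ => (∑ m ∈ range (K + 1), (I * ξ * x) ^ m / (m.factorial : ℂ)) *
        Complex.exp (-(I * ξ * x)) := by
      funext ξ
      unfold hK
      rw [EC_eq]
    rw [e1]
    have hl : HasDerivAt (fun ξ : ℝ => I * (ξ:ℂ) * x) (I * x) v := by
      have := ((Complex.ofRealCLM.hasDerivAt (x := v)).const_mul I).mul_const (x:ℂ)
      simpa using this
    have h1 : HasDerivAt (fun ξ : ℝ => ∑ m ∈ range (K + 1), (I * (ξ:ℂ) * x) ^ m / (m.factorial : ℂ))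
        ((∑ m ∈ range K, (I * (v:ℂ) * x) ^ m / (m.factorial : ℂ)) * (I * x)) v :=
      HasDerivAt.comp (h₂ := fun z : ℂ => ∑ m ∈ range (K + 1), z ^ m / (m.factorial : ℂ)) v
        (deriv_trunc K (I * (v:ℂ) * x)) hl
    have h2 : HasDerivAt (fun ξ : ℝ => Complex.exp (-(I * (ξ:ℂ) * x))) (Complex.exp (-(I * v * x)) * (-(I * x))) v :=
      (Complex.hasDerivAt_exp _).comp v hl.neg
    have h3 := h1.mul h2
    refine HasDerivAt.congr_deriv (h3.congr_of_eventuallyEq (Filter.Eventually.of_forall fun _ => rfl)) ?_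
    rw [sum_range_succ]
    ring
  have hb : ∀ v ∈ Set.Icc (-(1 / 2 : ℝ)) (1 / 2),
      ‖-(I * x) * ((I * v * x) ^ K / (K.factorial : ℂ)) * Complex.exp (-(I * v * x))‖ ≤
        |x| * (Real.exp (-(K:ℝ)) * Real.exp (3 / 2 * |x|)) := by
    intro v hv
    have hv' : |v| ≤ 1 / 2 := abs_le.mpr ⟨hv.1, hv.2⟩
    rw [norm_mul, nrm_ix, mul_one, norm_mul, norm_neg, norm_mul, Complex.norm_I, one_mul, Complex.norm_real,
      Real.norm_eq_abs, norm_div, norm_pow, norm_mul, norm_mul, Complex.norm_I, one_mul, Complex.norm_real,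
      Complex.norm_real, Real.norm_eq_abs, Real.norm_eq_abs, Complex.norm_natCast]
    refine mul_le_mul_of_nonneg_left ?_ (abs_nonneg _)
    refine (pow_fac_le (by positivity) K).trans ?_
    refine mul_le_mul_of_nonneg_left (Real.exp_le_exp.mpr ?_) (Real.exp_pos _).le
    have := mul_le_mul_of_nonneg_right hv' (abs_nonneg x)
    linarith
  have hm := Convex.norm_image_sub_le_of_norm_hasDerivWithin_le hder hb (convex_Icc _ _)
    (x := ξ) (y := ξ') (abs_le.mp h) (abs_le.mp h')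
  rwa [Real.norm_eq_abs] at hm

lemma prod_diff (J : ℕ) {a b : ℕ → ℂ} {δ : ℕ → ℝ} (hδ : ∀ i < J, 0 ≤ δ i) (ha : ∀ i < J, ‖a i‖ ≤ 1 + δ i)
    (hb : ∀ i < J, ‖b i‖ ≤ 1 + δ i) : ‖∏ i ∈ range J, a i - ∏ i ∈ range J, b i‖ ≤
      (∑ i ∈ range J, ‖a i - b i‖) * ∏ i ∈ range J, (1 + δ i) := by
  induction J with
  | zero => simp
  | succ J ih =>
    have ih' := ih (fun i hi => hδ i (by omega)) (fun i hi => ha i (by omega)) (fun i hi => hb i (by omega))
    rw [prod_range_succ, prod_range_succ, sum_range_succ, prod_range_succ]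
    have e1 : (∏ i ∈ range J, a i) * a J - (∏ i ∈ range J, b i) * b J =
        (∏ i ∈ range J, a i - ∏ i ∈ range J, b i) * a J + (∏ i ∈ range J, b i) * (a J - b J) := by ring
    rw [e1]
    refine (norm_add_le _ _).trans ?_
    rw [norm_mul, norm_mul]
    have hp : ‖∏ i ∈ range J, b i‖ ≤ ∏ i ∈ range J, (1 + δ i) := by
      rw [norm_prod]
      exact prod_le_prod (fun i _ => norm_nonneg _) fun i hi => hb i (by have := mem_range.mp hi; omega)
    have hp0 : 0 ≤ ∏ i ∈ range J, (1 + δ i) := (norm_nonneg _).trans hp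
    have hs0 : 0 ≤ ∑ i ∈ range J, ‖a i - b i‖ := sum_nonneg fun i _ => norm_nonneg _
    have h1 := mul_le_mul ih' (ha J (by omega)) (norm_nonneg _) (mul_nonneg hs0 hp0)
    have h2 := mul_le_mul_of_nonneg_right hp (norm_nonneg (a J - b J))
    have h3 : (∏ i ∈ range J, (1 + δ i)) * ‖a J - b J‖ ≤ (∏ i ∈ range J, (1 + δ i)) * ‖a J - b J‖ * (1 + δ J) := by
      refine le_mul_of_one_le_right (mul_nonneg hp0 (norm_nonneg _)) ?_
      linarith [hδ J (by omega)]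
    calc _ ≤ (∑ i ∈ range J, ‖a i - b i‖) * (∏ i ∈ range J, (1 + δ i)) * (1 + δ J) +
        (∏ i ∈ range J, (1 + δ i)) * ‖a J - b J‖ * (1 + δ J) := add_le_add h1 (h2.trans h3)
      _ = _ := by ring

/-- the kernel -/
noncomputable def PH (M J N0 Rs : ℕ) (y : ℝ) (p : ℕ → ℝ) : ℂ :=
  ∑ k ∈ range M, (1 / (M:ℂ)) *
    (Complex.exp (-(I * xi M k * y)) * ∏ i ∈ range J, EC (N0 * RR Rs i) (I * xi M k) ((p i : ℝ) : ℂ))

section
variable {M J N0 Rs : ℕ} {y : ℝ} {p : ℕ → ℝ}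

lemma PH_eq (M J N0 Rs : ℕ) (y : ℝ) (p : ℕ → ℝ) : PH M J N0 Rs y p = (1 / (M:ℂ)) * ∑ k ∈ range M,
    (∏ i ∈ range J, hK (N0 * RR Rs i) (p i) (xi M k)) *
      Complex.exp (I * (((∑ i ∈ range J, p i - y) / (2 * M) : ℝ) : ℂ)) ^ k := by
  unfold PH
  rw [← mul_sum]
  congr 1
  refine sum_congr rfl fun k _ => ?_
  simp_rw [EC_hK]
  rw [prod_mul_distrib, ← Complex.exp_sum, ← Complex.exp_nat_mul, ← mul_assoc, ← Complex.exp_add, mul_comm]
  congr 2
  unfold xi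
  push_cast
  rw [← mul_sum]
  ring

lemma e4 : Real.exp (-4) ≤ 1 / 50 := by
  rw [Real.exp_neg, ← one_div]
  refine one_div_le_one_div_of_le (by norm_num) ?_
  have h1 : (2.7:ℝ) ≤ Real.exp 1 := by have := Real.exp_one_gt_d9; linarith
  have h2 : Real.exp 4 = Real.exp 1 ^ 4 := by rw [← Real.exp_nat_mul]; norm_num
  rw [h2]
  refine le_trans ?_ (pow_le_pow_left₀ (by norm_num) h1 4)
  norm_num

lemma sumR (hR : 4 ≤ Rs) (J : ℕ) : ∑ i ∈ range J, Real.exp (-(RR Rs i : ℝ)) ≤ 1 / 25 := by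
  have h1 := sum_exp_le J Rs (R := fun i => RR Rs i) fun i => by
    unfold RR; omega
  refine h1.trans ?_
  have h2 : Real.exp (-(Rs:ℝ)) ≤ Real.exp (-4) := Real.exp_le_exp.mpr (by
    have : (4:ℝ) ≤ Rs := by exact_mod_cast hR
    linarith)
  have := e4
  linarith

lemma prodR (hR : 4 ≤ Rs) (J : ℕ) : ∏ i ∈ range J, (1 + Real.exp (-(RR Rs i : ℝ))) ≤ 21 / 20 := by
  have h1 : ∏ i ∈ range J, (1 + Real.exp (-(RR Rs i : ℝ))) ≤ Real.exp (∑ i ∈ range J, Real.exp (-(RR Rs i : ℝ))) := by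
    rw [Real.exp_sum]
    refine prod_le_prod (fun i _ => by positivity) fun i _ => ?_
    rw [add_comm]; exact Real.add_one_le_exp _
  refine h1.trans ((Real.exp_le_exp.mpr (sumR hR J)).trans ?_)
  have h2 := Real.add_one_le_exp (-(1 / 25 : ℝ))
  have h3 : Real.exp (1 / 25) * Real.exp (-(1 / 25)) = 1 := by rw [← Real.exp_add]; norm_num
  nlinarith [Real.exp_pos (1 / 25 : ℝ)]

lemma hK_one' (hN : 4 ≤ N0) {i : ℕ} (hp : |p i| ≤ RR Rs i) {ξ : ℝ} (hξ : |ξ| ≤ 1 / 2) :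
    ‖hK (N0 * RR Rs i) (p i) ξ - 1‖ ≤ Real.exp (-(RR Rs i : ℝ)) := by
  refine (hK_one _ _ _).trans ?_
  rw [← Real.exp_add]
  refine Real.exp_le_exp.mpr ?_
  have h1 : |ξ| * |p i| ≤ 1 / 2 * RR Rs i := mul_le_mul hξ hp (abs_nonneg _) (by norm_num)
  have h2 : (4:ℝ) * RR Rs i ≤ ((N0 * RR Rs i : ℕ) : ℝ) := by
    push_cast
    exact mul_le_mul_of_nonneg_right (by exact_mod_cast hN) (Nat.cast_nonneg _)
  have h3 : (0:ℝ) ≤ RR Rs i := Nat.cast_nonneg _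
  linarith

lemma hK_lip' (hN : 4 ≤ N0) {i : ℕ} (hp : |p i| ≤ RR Rs i) {ξ ξ' : ℝ} (hξ : |ξ| ≤ 1 / 2) (hξ' : |ξ'| ≤ 1 / 2) :
    ‖hK (N0 * RR Rs i) (p i) ξ' - hK (N0 * RR Rs i) (p i) ξ‖ ≤ Real.exp (-(RR Rs i : ℝ)) * |ξ' - ξ| := by
  refine (hK_lip _ _ hξ hξ').trans ?_
  refine mul_le_mul_of_nonneg_right ?_ (abs_nonneg _)
  have h2 : (4:ℝ) * RR Rs i ≤ ((N0 * RR Rs i : ℕ) : ℝ) := by
    push_cast
    exact mul_le_mul_of_nonneg_right (by exact_mod_cast hN) (Nat.cast_nonneg _)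
  have h3 : (0:ℝ) ≤ RR Rs i := Nat.cast_nonneg _
  have h4 : |p i| ≤ Real.exp (RR Rs i) := hp.trans (by have := Real.add_one_le_exp (RR Rs i : ℝ); linarith)
  rw [← Real.exp_add]
  calc |p i| * Real.exp (-((N0 * RR Rs i : ℕ) : ℝ) + 3 / 2 * |p i|) ≤
      Real.exp (RR Rs i) * Real.exp (-((N0 * RR Rs i : ℕ) : ℝ) + 3 / 2 * |p i|) :=
        mul_le_mul_of_nonneg_right h4 (Real.exp_pos _).le
    _ ≤ _ := by
        rw [← Real.exp_add]
        exact Real.exp_le_exp.mpr (by linarith)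

lemma hK_nrm (hN : 4 ≤ N0) {i : ℕ} (hp : |p i| ≤ RR Rs i) {ξ : ℝ} (hξ : |ξ| ≤ 1 / 2) :
    ‖hK (N0 * RR Rs i) (p i) ξ‖ ≤ 1 + Real.exp (-(RR Rs i : ℝ)) := by
  have h1 := hK_one' hN hp hξ
  have h2 := norm_add_le (hK (N0 * RR Rs i) (p i) ξ - 1) 1
  rw [sub_add_cancel, norm_one] at h2
  linarith

lemma xi_abs {k : ℕ} (h : k < M) : |xi M k| ≤ 1 / 2 := by
  rw [abs_of_nonneg (xi_nonneg M k)]; exact xi_le h

lemma g_one (hN : 4 ≤ N0) (hR : 4 ≤ Rs) (hp : ∀ i < J, |p i| ≤ RR Rs i) {ξ : ℝ} (hξ : |ξ| ≤ 1 / 2) :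
    ‖∏ i ∈ range J, hK (N0 * RR Rs i) (p i) ξ - 1‖ ≤ 1 / 20 := by
  have h1 := prod_diff J (a := fun i => hK (N0 * RR Rs i) (p i) ξ) (b := fun _ => 1)
    (δ := fun i => Real.exp (-(RR Rs i : ℝ))) (fun i _ => (Real.exp_pos _).le) (fun i hi => hK_nrm hN (hp i hi) hξ)
    (fun i _ => by rw [norm_one]; have := Real.exp_pos (-(RR Rs i : ℝ)); linarith)
  rw [prod_const_one] at h1
  refine h1.trans ?_
  have h2 : ∑ i ∈ range J, ‖hK (N0 * RR Rs i) (p i) ξ - 1‖ ≤ 1 / 25 :=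
    (sum_le_sum fun i hi => hK_one' hN (hp i (mem_range.mp hi)) hξ).trans (sumR hR J)
  have h3 := prodR hR J
  have h4 : 0 ≤ ∏ i ∈ range J, (1 + Real.exp (-(RR Rs i : ℝ))) := prod_nonneg fun i _ => by positivity
  calc _ ≤ (1 / 25 : ℝ) * (21 / 20) := mul_le_mul h2 h3 h4 (by norm_num)
    _ ≤ _ := by norm_num

lemma g_lip (hN : 4 ≤ N0) (hR : 4 ≤ Rs) (hp : ∀ i < J, |p i| ≤ RR Rs i) {ξ ξ' : ℝ} (hξ : |ξ| ≤ 1 / 2)
    (hξ' : |ξ'| ≤ 1 / 2) : ‖∏ i ∈ range J, hK (N0 * RR Rs i) (p i) ξ' - ∏ i ∈ range J, hK (N0 * RR Rs i) (p i) ξ‖ ≤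
      1 / 20 * |ξ' - ξ| := by
  have h1 := prod_diff J (a := fun i => hK (N0 * RR Rs i) (p i) ξ') (b := fun i => hK (N0 * RR Rs i) (p i) ξ)
    (δ := fun i => Real.exp (-(RR Rs i : ℝ))) (fun i _ => (Real.exp_pos _).le) (fun i hi => hK_nrm hN (hp i hi) hξ')
    (fun i hi => hK_nrm hN (hp i hi) hξ)
  refine h1.trans ?_
  have h2 : ∑ i ∈ range J, ‖hK (N0 * RR Rs i) (p i) ξ' - hK (N0 * RR Rs i) (p i) ξ‖ ≤ 1 / 25 * |ξ' - ξ| := by
    refine (sum_le_sum fun i hi => hK_lip' hN (hp i (mem_range.mp hi)) hξ hξ').trans ?_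
    rw [← sum_mul]
    exact mul_le_mul_of_nonneg_right (sumR hR J) (abs_nonneg _)
  have h3 := prodR hR J
  have h4 : 0 ≤ ∏ i ∈ range J, (1 + Real.exp (-(RR Rs i : ℝ))) := prod_nonneg fun i _ => by positivity
  calc _ ≤ (1 / 25 * |ξ' - ξ| : ℝ) * (21 / 20) := mul_le_mul h2 h3 h4 (by positivity)
    _ ≤ _ := by nlinarith [abs_nonneg (ξ' - ξ)]

/-- the kernel is bounded -/
lemma PH_le (hM : 1 ≤ M) (hN : 4 ≤ N0) (hR : 4 ≤ Rs) (hp : ∀ i < J, |p i| ≤ RR Rs i) : ‖PH M J N0 Rs y p‖ ≤ 2 := by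
  have hM0 : (0:ℝ) < M := by exact_mod_cast hM
  rw [PH_eq, norm_mul, norm_div, norm_one, Complex.norm_natCast]
  have h1 : ‖∑ k ∈ range M, (∏ i ∈ range J, hK (N0 * RR Rs i) (p i) (xi M k)) *
      Complex.exp (I * (((∑ i ∈ range J, p i - y) / (2 * M) : ℝ) : ℂ)) ^ k‖ ≤ M * 2 := by
    refine (norm_sum_le _ _).trans ?_
    have h2 : ∀ k ∈ range M, ‖(∏ i ∈ range J, hK (N0 * RR Rs i) (p i) (xi M k)) *
        Complex.exp (I * (((∑ i ∈ range J, p i - y) / (2 * M) : ℝ) : ℂ)) ^ k‖ ≤ 2 := by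
      intro k hk
      rw [norm_mul, norm_pow, mul_comm I, Complex.norm_exp_ofReal_mul_I, one_pow, mul_one]
      have h3 := g_one hN hR hp (xi_abs (mem_range.mp hk))
      have h4 := norm_add_le (∏ i ∈ range J, hK (N0 * RR Rs i) (p i) (xi M k) - 1) 1
      rw [sub_add_cancel, norm_one] at h4
      linarith
    refine (sum_le_sum h2).trans (le_of_eq ?_)
    rw [sum_const, card_range, nsmul_eq_mul]
  calc 1 / (M:ℝ) * _ ≤ 1 / (M:ℝ) * (M * 2) := mul_le_mul_of_nonneg_left h1 (by positivity)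
    _ = 2 := by field_simp

/-- the kernel decays -/
lemma PH_decay (hM : 1 ≤ M) (hN : 4 ≤ N0) (hR : 4 ≤ Rs) (hp : ∀ i < J, |p i| ≤ RR Rs i)
    (h0 : ∑ i ∈ range J, p i - y ≠ 0) (h : |∑ i ∈ range J, p i - y| ≤ 6 * M) :
    ‖PH M J N0 Rs y p‖ ≤ 7 / |∑ i ∈ range J, p i - y| := by
  have hM0 : (0:ℝ) < M := by exact_mod_cast hM
  set x := ∑ i ∈ range J, p i - y with hx
  have hpi := Real.pi_gt_three
  have hx0 : 0 < |x| := abs_pos.mpr h0
  have h1 := geo_bd (θ := x / (2 * M)) (div_ne_zero h0 (by positivity)) (by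
    rw [abs_div, abs_of_pos (by positivity : (0:ℝ) < 2 * M), div_le_iff₀ (by positivity)]
    nlinarith)
  have h2 := abel_bd (M := M) (f := fun k => ∏ i ∈ range J, hK (N0 * RR Rs i) (p i) (xi M k)) h1
  have h3 : ‖∏ i ∈ range J, hK (N0 * RR Rs i) (p i) (xi M (M - 1))‖ ≤ 21 / 20 := by
    have h3 := g_one hN hR hp (xi_abs (show M - 1 < M by omega))
    have h4 := norm_add_le (∏ i ∈ range J, hK (N0 * RR Rs i) (p i) (xi M (M - 1)) - 1) 1
    rw [sub_add_cancel, norm_one] at h4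
    linarith
  have h4 : ∑ k ∈ range (M - 1), ‖∏ i ∈ range J, hK (N0 * RR Rs i) (p i) (xi M (k + 1)) -
      ∏ i ∈ range J, hK (N0 * RR Rs i) (p i) (xi M k)‖ ≤ 1 / 40 := by
    have h5 : ∀ k ∈ range (M - 1), ‖∏ i ∈ range J, hK (N0 * RR Rs i) (p i) (xi M (k + 1)) -
      ∏ i ∈ range J, hK (N0 * RR Rs i) (p i) (xi M k)‖ ≤ 1 / 20 * (1 / (2 * M)) := by
      intro k hk
      rw [mem_range] at hk
      refine (g_lip hN hR hp (xi_abs (by omega)) (xi_abs (by omega))).trans (le_of_eq ?_)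
      congr 1
      unfold xi
      rw [← sub_div]
      push_cast
      rw [add_sub_cancel_left, abs_of_nonneg (by positivity)]
    refine (sum_le_sum h5).trans ?_
    rw [sum_const, card_range, nsmul_eq_mul]
    have h6 : ((M - 1 : ℕ) : ℝ) ≤ M := by exact_mod_cast Nat.sub_le M 1
    calc ((M - 1 : ℕ) : ℝ) * (1 / 20 * (1 / (2 * M))) ≤ M * (1 / 20 * (1 / (2 * M))) :=
          mul_le_mul_of_nonneg_right h6 (by positivity)
      _ = 1 / 40 := by field_simp; norm_num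
  rw [PH_eq, norm_mul, norm_div, norm_one, Complex.norm_natCast]
  have h5 : Real.pi / |x / (2 * M)| = Real.pi * (2 * M) / |x| := by
    rw [abs_div, abs_of_pos (by positivity : (0:ℝ) < 2 * M), div_div_eq_mul_div]
  rw [h5] at h2
  have h6 : ‖∏ i ∈ range J, hK (N0 * RR Rs i) (p i) (xi M (M - 1))‖ +
      ∑ k ∈ range (M - 1), ‖∏ i ∈ range J, hK (N0 * RR Rs i) (p i) (xi M (k + 1)) -
      ∏ i ∈ range J, hK (N0 * RR Rs i) (p i) (xi M k)‖ ≤ 11 / 10 := by linarith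
  have h7 := h2.trans (mul_le_mul_of_nonneg_right h6 (by positivity))
  have h8 := mul_le_mul_of_nonneg_left h7 (by positivity : (0:ℝ) ≤ 1 / M)
  refine h8.trans ?_
  have h9 : 1 / (M:ℝ) * (11 / 10 * (Real.pi * (2 * M) / |x|)) = (11 / 5 * Real.pi) / |x| := by
    field_simp; ring
  rw [h9]
  refine div_le_div_of_nonneg_right ?_ hx0.le
  have := Real.pi_lt_d2
  linarith

/-- the kernel is large at the centre -/
lemma PH_ge (hM : 1 ≤ M) (hN : 4 ≤ N0) (hR : 4 ≤ Rs) (hp : ∀ i < J, |p i| ≤ RR Rs i)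
    (h : |∑ i ∈ range J, p i - y| ≤ 1) : 1 / 4 ≤ ‖PH M J N0 Rs y p‖ := by
  have hM0 : (0:ℝ) < M := by exact_mod_cast hM
  set x := ∑ i ∈ range J, p i - y with hx
  have h1 : ‖PH M J N0 Rs y p - 1‖ ≤ 3 / 4 := by
    have e1 : PH M J N0 Rs y p - 1 = (1 / (M:ℂ)) * ∑ k ∈ range M,
      ((∏ i ∈ range J, hK (N0 * RR Rs i) (p i) (xi M k)) * Complex.exp (I * ((x / (2 * M) : ℝ) : ℂ)) ^ k - 1) := by
      rw [PH_eq, ← hx, sum_sub_distrib, mul_sub, sum_const, card_range, nsmul_eq_mul, mul_one]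
      have : (M:ℂ) ≠ 0 := by exact_mod_cast hM0.ne'
      congr 1
      field_simp
    rw [e1, norm_mul, norm_div, norm_one, Complex.norm_natCast]
    have h2 : ‖∑ k ∈ range M, ((∏ i ∈ range J, hK (N0 * RR Rs i) (p i) (xi M k)) *
        Complex.exp (I * ((x / (2 * M) : ℝ) : ℂ)) ^ k - 1)‖ ≤ M * (3 / 4) := by
      refine (norm_sum_le _ _).trans ?_
      have h3 : ∀ k ∈ range M, ‖(∏ i ∈ range J, hK (N0 * RR Rs i) (p i) (xi M k)) *
        Complex.exp (I * ((x / (2 * M) : ℝ) : ℂ)) ^ k - 1‖ ≤ 3 / 4 := by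
        intro k hk
        rw [mem_range] at hk
        have e2 : Complex.exp (I * ((x / (2 * M) : ℝ) : ℂ)) ^ k = Complex.exp (I * ((xi M k * x : ℝ) : ℂ)) := by
          rw [← Complex.exp_nat_mul]
          congr 1
          unfold xi
          push_cast
          ring
        rw [e2]
        set g := ∏ i ∈ range J, hK (N0 * RR Rs i) (p i) (xi M k) with hg
        have h3 := g_one hN hR hp (xi_abs hk)
        rw [← hg] at h3
        have e3 : g * Complex.exp (I * ((xi M k * x : ℝ) : ℂ)) - 1 =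
          (g - 1) * Complex.exp (I * ((xi M k * x : ℝ) : ℂ)) + (Complex.exp (I * ((xi M k * x : ℝ) : ℂ)) - 1) := by ring
        rw [e3]
        refine (norm_add_le _ _).trans ?_
        rw [norm_mul, mul_comm I, Complex.norm_exp_ofReal_mul_I, mul_one, mul_comm (_ : ℂ) I]
        have h4 : ‖Complex.exp (I * ((xi M k * x : ℝ) : ℂ)) - 1‖ ≤ ‖xi M k * x‖ :=
          Real.norm_exp_I_mul_ofReal_sub_one_le
        have h5 : ‖xi M k * x‖ ≤ 1 / 2 := by
          rw [norm_mul, Real.norm_eq_abs, Real.norm_eq_abs]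
          calc |xi M k| * |x| ≤ 1 / 2 * 1 := mul_le_mul (xi_abs hk) h (abs_nonneg _) (by norm_num)
            _ = _ := by norm_num
        linarith
      refine (sum_le_sum h3).trans (le_of_eq ?_)
      rw [sum_const, card_range, nsmul_eq_mul]
    calc 1 / (M:ℝ) * _ ≤ 1 / (M:ℝ) * (M * (3 / 4)) := mul_le_mul_of_nonneg_left h2 (by positivity)
      _ = 3 / 4 := by field_simp
  have h2 : ‖(1:ℂ)‖ ≤ ‖PH M J N0 Rs y p‖ + ‖PH M J N0 Rs y p - 1‖ := by
    have := norm_sub_le (PH M J N0 Rs y p) (PH M J N0 Rs y p - 1)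
    rwa [sub_sub_cancel] at this
  rw [norm_one] at h2
  linarith

end

end Pool.Agent.KS6_29.LD
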