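import Pool.Agent.KS6_29.LD.Vl4

set_option autoImplicit false

/-! Pointwise estimates. -/

namespace Pool.Agent.KS6_29.LD

open Finset MeasureTheory Complex Filter
open Pool.Agent.W184.NZ
open Pool.Agent.H306R2.SM (om cl Yf)

section
variable {B0 yc κ : ℝ} {M J N0 Rs : ℕ} {P : ℕ → Finset ℕ} {t : ℝ}

/-- no block is large -/
def gd (J Rs : ℕ) (P : ℕ → Finset ℕ) (t : ℝ) : Prop := ∀ i < J, ‖Dv P i t‖ ≤ RR Rs i

/-- the sum over the blocks -/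
noncomputable def Pt (J : ℕ) (P : ℕ → Finset ℕ) (t : ℝ) : ℝ := ∑ i ∈ range J, (Dv P i t).re

lemma gd_re (h : gd J Rs P t) : ∀ i < J, |(fun i => (Dv P i t).re) i| ≤ RR Rs i := fun i hi =>
  (Complex.abs_re_le_norm _).trans (h i hi)

lemma ec_rel (hN : 4 * B0 + 1 ≤ N0) {κ : ℝ} (hκ : |κ| ≤ B0) {i : ℕ} {z : ℂ} (hz : ‖z‖ ≤ RR Rs i) :
    ‖EC (N0 * RR Rs i) (κ:ℂ) z * Complex.exp (-(κ * z)) - 1‖ ≤ Real.exp (-(RR Rs i : ℝ)) := by
  have e1 : EC (N0 * RR Rs i) (κ:ℂ) z * Complex.exp (-(κ * z)) - 1 =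
      (EC (N0 * RR Rs i) (κ:ℂ) z - Complex.exp (κ * z)) * Complex.exp (-(κ * z)) := by
    rw [sub_mul, ← Complex.exp_add, add_neg_cancel, Complex.exp_zero]
  have h1 := EC_tail (N0 * RR Rs i) (κ:ℂ) z
  have h2 : ‖(κ:ℂ)‖ * ‖z‖ ≤ B0 * RR Rs i := by
    rw [Complex.norm_real]
    exact mul_le_mul hκ hz (norm_nonneg _) ((abs_nonneg _).trans hκ)
  have h3 : ‖Complex.exp (-(κ * z))‖ ≤ Real.exp (‖(κ:ℂ)‖ * ‖z‖) := by
    rw [Complex.norm_exp]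
    refine Real.exp_le_exp.mpr ((Complex.re_le_norm _).trans ?_)
    rw [norm_neg, norm_mul]
  rw [e1, norm_mul]
  refine (mul_le_mul h1 h3 (norm_nonneg _) (by positivity)).trans ?_
  rw [← Real.exp_add, ← Real.exp_add]
  refine Real.exp_le_exp.mpr ?_
  have h4 : (4 * B0 + 1) * RR Rs i ≤ ((N0 * RR Rs i : ℕ) : ℝ) := by
    push_cast
    exact mul_le_mul_of_nonneg_right hN (Nat.cast_nonneg _)
  linarith

lemma AA_rel (hN : 4 * B0 + 1 ≤ N0) (hR : 4 ≤ Rs) (hκ : |κ| ≤ B0) (h : gd J Rs P t) :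
    ‖AA J N0 Rs (fun _ => (κ:ℂ)) P t * Complex.exp (-(κ * ∑ i ∈ range J, Dv P i t)) - 1‖ ≤ 1 / 20 := by
  have e1 : AA J N0 Rs (fun _ => (κ:ℂ)) P t * Complex.exp (-(κ * ∑ i ∈ range J, Dv P i t)) =
      ∏ i ∈ range J, (EC (N0 * RR Rs i) (κ:ℂ) (Dv P i t) * Complex.exp (-(κ * Dv P i t))) := by
    unfold AA
    rw [prod_mul_distrib, ← Complex.exp_sum, mul_sum, sum_neg_distrib]
  rw [e1]
  have hb : ∀ i < J, ‖EC (N0 * RR Rs i) (κ:ℂ) (Dv P i t) * Complex.exp (-(κ * Dv P i t))‖ ≤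
      1 + Real.exp (-(RR Rs i : ℝ)) := by
    intro i hi
    have h1 := ec_rel hN hκ (h i hi)
    have h2 := norm_add_le (EC (N0 * RR Rs i) (κ:ℂ) (Dv P i t) * Complex.exp (-(κ * Dv P i t)) - 1) 1
    rw [sub_add_cancel, norm_one] at h2
    linarith
  have h1 := prod_diff J (a := fun i => EC (N0 * RR Rs i) (κ:ℂ) (Dv P i t) * Complex.exp (-(κ * Dv P i t))) (b := fun _ => 1)
    (δ := fun i => Real.exp (-(RR Rs i : ℝ))) (fun i _ => (Real.exp_pos _).le) hb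
    (fun i _ => by rw [norm_one]; have := Real.exp_pos (-(RR Rs i : ℝ)); linarith)
  rw [prod_const_one] at h1
  refine h1.trans ?_
  have h2 : ∑ i ∈ range J, ‖EC (N0 * RR Rs i) (κ:ℂ) (Dv P i t) * Complex.exp (-(κ * Dv P i t)) - 1‖ ≤ 1 / 25 :=
    (sum_le_sum fun i hi => ec_rel hN hκ (h i (mem_range.mp hi))).trans (sumR hR J)
  have h3 := prodR hR J
  have h4 : 0 ≤ ∏ i ∈ range J, (1 + Real.exp (-(RR Rs i : ℝ))) := prod_nonneg fun i _ => by positivity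
  calc _ ≤ (1 / 25 : ℝ) * (21 / 20) := mul_le_mul h2 h3 h4 (by norm_num)
    _ ≤ _ := by norm_num

lemma AA_nrm (J N0 Rs : ℕ) (P : ℕ → Finset ℕ) (t κ : ℝ) :
    ‖AA J N0 Rs (fun _ => (κ:ℂ)) P t * Complex.exp (-(κ * ∑ i ∈ range J, Dv P i t))‖ =
      ‖AA J N0 Rs (fun _ => (κ:ℂ)) P t‖ * Real.exp (-(κ * Pt J P t)) := by
  rw [norm_mul, Complex.norm_exp]
  congr 2
  rw [Complex.neg_re, Complex.re_ofReal_mul, Complex.re_sum]
  rfl

lemma AA_up (hN : 4 * B0 + 1 ≤ N0) (hR : 4 ≤ Rs) (hκ : |κ| ≤ B0) (h : gd J Rs P t) :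
    ‖AA J N0 Rs (fun _ => (κ:ℂ)) P t‖ ≤ 2 * Real.exp (κ * Pt J P t) := by
  have h1 := AA_rel hN hR hκ h
  have h2 := norm_add_le (AA J N0 Rs (fun _ => (κ:ℂ)) P t * Complex.exp (-(κ * ∑ i ∈ range J, Dv P i t)) - 1) 1
  rw [sub_add_cancel, norm_one, AA_nrm] at h2
  have h3 : ‖AA J N0 Rs (fun _ => (κ:ℂ)) P t‖ * Real.exp (-(κ * Pt J P t)) ≤ 2 := by linarith
  have h4 := mul_le_mul_of_nonneg_right h3 (Real.exp_pos (κ * Pt J P t)).le
  rwa [mul_assoc, ← Real.exp_add, neg_add_cancel, Real.exp_zero, mul_one] at h4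

lemma AA_lo (hN : 4 * B0 + 1 ≤ N0) (hR : 4 ≤ Rs) (hκ : |κ| ≤ B0) (h : gd J Rs P t) :
    Real.exp (κ * Pt J P t) ≤ 2 * ‖AA J N0 Rs (fun _ => (κ:ℂ)) P t‖ := by
  have h1 := AA_rel hN hR hκ h
  have h2 := norm_sub_le (AA J N0 Rs (fun _ => (κ:ℂ)) P t * Complex.exp (-(κ * ∑ i ∈ range J, Dv P i t)))
    (AA J N0 Rs (fun _ => (κ:ℂ)) P t * Complex.exp (-(κ * ∑ i ∈ range J, Dv P i t)) - 1)
  rw [sub_sub_cancel, norm_one, AA_nrm] at h2
  have h3 : 1 ≤ 2 * ‖AA J N0 Rs (fun _ => (κ:ℂ)) P t‖ * Real.exp (-(κ * Pt J P t)) := by linarith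
  have h4 := mul_le_mul_of_nonneg_right h3 (Real.exp_pos (κ * Pt J P t)).le
  rwa [mul_assoc, ← Real.exp_add, neg_add_cancel, Real.exp_zero, mul_one, one_mul] at h4

/-- the square of the kernel -/
noncomputable def ph (M J N0 Rs : ℕ) (yc : ℝ) (P : ℕ → Finset ℕ) (t : ℝ) : ℝ := ‖PHt M J N0 Rs yc P t‖ ^ 2

lemma ph_nonneg (M J N0 Rs : ℕ) (yc : ℝ) (P : ℕ → Finset ℕ) (t : ℝ) : 0 ≤ ph M J N0 Rs yc P t := by
  unfold ph; positivity

lemma ph_le (hM : 1 ≤ M) (hN : 4 ≤ N0) (hR : 4 ≤ Rs) (h : gd J Rs P t) : ph M J N0 Rs yc P t ≤ 4 := by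
  unfold ph PHt
  have h1 := PH_le (y := yc) hM hN hR (gd_re h)
  have h2 := norm_nonneg (PH M J N0 Rs yc fun i => (Dv P i t).re)
  nlinarith

/-- comparison of the kernels -/
lemma ph_shift (hM : 1 ≤ M) (hN : 4 ≤ N0) (hR : 4 ≤ Rs) (h : gd J Rs P t) {n : ℝ} (hn0 : 1 ≤ |n|)
    (hn : |Pt J P t - yc - n| ≤ 1 / 2) (hx : |Pt J P t - yc| ≤ 6 * M) :
    ph M J N0 Rs yc P t ≤ 3136 / n ^ 2 * ph M J N0 Rs (yc + n) P t := by
  have h1 : 1 / 4 ≤ ‖PHt M J N0 Rs (yc + n) P t‖ := by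
    unfold PHt
    refine PH_ge hM hN hR (gd_re h) ?_
    have : ∑ i ∈ range J, (Dv P i t).re - (yc + n) = Pt J P t - yc - n := by unfold Pt; ring
    rw [this]
    linarith
  have hxn : |n| / 2 ≤ |Pt J P t - yc| := by
    have h5 := abs_sub_abs_le_abs_sub n (Pt J P t - yc)
    rw [abs_sub_comm n] at h5
    linarith
  have h0 : Pt J P t - yc ≠ 0 := by
    intro h0
    rw [h0, abs_zero] at hxn
    linarith
  have h2 : ‖PHt M J N0 Rs yc P t‖ ≤ 7 / |Pt J P t - yc| := by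
    unfold PHt
    exact PH_decay hM hN hR (gd_re h) h0 hx
  have h3 : ‖PHt M J N0 Rs yc P t‖ ≤ 14 / |n| := by
    refine h2.trans ?_
    rw [div_le_div_iff₀ (by linarith) (by linarith)]
    linarith
  have hn2 : 0 < n ^ 2 := by
    rw [← sq_abs]
    have : 0 < |n| := by linarith
    positivity
  unfold ph
  calc ‖PHt M J N0 Rs yc P t‖ ^ 2 ≤ (14 / |n|) ^ 2 := pow_le_pow_left₀ (norm_nonneg _) h3 2
    _ = 3136 / n ^ 2 * (1 / 4) ^ 2 := by rw [div_pow, sq_abs]; ring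
    _ ≤ _ := mul_le_mul_of_nonneg_left (pow_le_pow_left₀ (by norm_num) h1 2) (by positivity)

/-- the bad set -/
lemma bdm_ge (hR : 1 ≤ Rs) {m : ℕ} (hm : m < J) (h : (RR Rs m : ℝ) < ‖Dv P m t‖) : 1 ≤ bdm J Rs m P t := by
  unfold bdm
  rw [prod_eq_single m]
  · simp only [decide_true, if_true]
    refine one_le_pow₀ ?_
    have hR0 : (0:ℝ) < RR Rs m := by
      have : 0 < RR Rs m := by unfold RR; omega
      exact_mod_cast this
    rw [le_div_iff₀ hR0]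
    linarith
  · intro i _ hi
    simp [hi]
  · intro h0
    exact absurd (mem_range.mpr hm) h0

lemma bdm_none (J Rs : ℕ) (P : ℕ → Finset ℕ) (t : ℝ) : bdm J Rs J P t = 1 := by
  unfold bdm
  refine prod_eq_one fun i hi => ?_
  rw [mem_range] at hi
  rw [if_neg (by simp; omega)]

end

end Pool.Agent.KS6_29.LD
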