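import Pool.Agent.KS6_29.LD.Ms1

set_option autoImplicit false

/-! The pointwise inequality. -/

namespace Pool.Agent.KS6_29.LD

open Finset MeasureTheory Complex Filter
open Pool.Agent.W184.NZ
open Pool.Agent.H306R2.SM (om cl Yf)

/-- the set which remains -/
def SS (J Rs : ℕ) (yc K w W : ℝ) (P : ℕ → Finset ℕ) : Set ℝ :=
  {t | gd J Rs P t ∧ |Pt J P t - yc| ≤ K ∧ w * Real.exp (Pt J P t) ≤ ‖riemannZeta (cl t)‖ ∧
    ‖riemannZeta (cl t)‖ ≤ W * Real.exp (Pt J P t)}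

section
variable {B0 yc κ : ℝ} {M J N0 Rs : ℕ} {P : ℕ → Finset ℕ} {t : ℝ}

/-- the right side -/
noncomputable def RS (M J N0 Rs : ℕ) (yc κ ε w W : ℝ) (K N' : ℕ) (P : ℕ → Finset ℕ) (t : ℝ) : ℝ :=
  ∑ m ∈ range J, (‖riemannZeta (cl t)‖ ^ 2 * FF M J N0 Rs m yc (fun _ => κ - 1) P t + FF M J N0 Rs m yc (fun _ => κ) P t) +
  ε * (‖riemannZeta (cl t)‖ ^ 2 * FF M J N0 Rs J yc (fun _ => κ - 1) P t) +
  1 / ε * ∑ n ∈ Icc K N', 3136 / (n:ℝ) ^ 2 * (FF M J N0 Rs J (yc + n) (fun _ => κ) P t + FF M J N0 Rs J (yc - n) (fun _ => κ) P t) +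
  4 * w * FF M J N0 Rs J yc (fun _ => κ) P t +
  4 / W * (‖riemannZeta (cl t)‖ ^ 2 * FF M J N0 Rs J yc (fun _ => κ - 1) P t)

lemma FF_J (M J N0 Rs : ℕ) (yc κ : ℝ) (P : ℕ → Finset ℕ) (t : ℝ) : FF M J N0 Rs J yc (fun _ => κ) P t =
    ‖AA J N0 Rs (fun _ => (κ : ℂ)) P t‖ ^ 2 * ph M J N0 Rs yc P t := by
  unfold FF ph
  rw [bdm_none, mul_one]

lemma pw (hM : 1 ≤ M) (hN : 4 * B0 + 1 ≤ N0) (hN4 : 4 ≤ N0) (hR : 4 ≤ Rs) (hκ : |κ| ≤ B0) (hκ1 : |κ - 1| ≤ B0)
    {ε w W : ℝ} (hε : 0 < ε) (hw : 0 < w) (hW : 0 < W) {K N' : ℕ} (hK : 1 ≤ K)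
    (hx : gd J Rs P t → |Pt J P t - yc| ≤ 6 * M) (hx' : gd J Rs P t → |Pt J P t - yc| ≤ N') :
    ‖riemannZeta (cl t)‖ * ‖AA J N0 Rs (fun _ => ((κ - 1 : ℝ) : ℂ)) P t‖ * ‖AA J N0 Rs (fun _ => (κ : ℂ)) P t‖ *
      ph M J N0 Rs yc P t ≤ RS M J N0 Rs yc κ ε w W K N' P t +
      (SS J Rs yc K w W P).indicator (fun _ => 16 * W * Real.exp (2 * κ * yc + 2 * B0 * K)) t := by
  set z := ‖riemannZeta (cl t)‖ with hz
  set x1 := ‖AA J N0 Rs (fun _ => ((κ - 1 : ℝ) : ℂ)) P t‖ with hx1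
  set x2 := ‖AA J N0 Rs (fun _ => (κ : ℂ)) P t‖ with hx2
  have hz0 : 0 ≤ z := norm_nonneg _
  have hx10 : 0 ≤ x1 := norm_nonneg _
  have hx20 : 0 ≤ x2 := norm_nonneg _
  have hph := ph_nonneg M J N0 Rs yc P t
  have hF : ∀ m y' κ', 0 ≤ FF M J N0 Rs m y' (fun _ => κ') P t := fun m y' κ' => FF_nonneg _ _ _ _ _ _ _ _ _
  have p1 : 0 ≤ ∑ m ∈ range J, (z ^ 2 * FF M J N0 Rs m yc (fun _ => κ - 1) P t + FF M J N0 Rs m yc (fun _ => κ) P t) :=
    sum_nonneg fun m _ => add_nonneg (mul_nonneg (by positivity) (hF _ _ _)) (hF _ _ _)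
  have p2 : 0 ≤ ε * (z ^ 2 * FF M J N0 Rs J yc (fun _ => κ - 1) P t) := mul_nonneg hε.le (mul_nonneg (by positivity) (hF _ _ _))
  have p3' : ∀ n ∈ Icc K N', 0 ≤ 3136 / (n:ℝ) ^ 2 * (FF M J N0 Rs J (yc + n) (fun _ => κ) P t + FF M J N0 Rs J (yc - n) (fun _ => κ) P t) :=
    fun n _ => mul_nonneg (by positivity) (add_nonneg (hF _ _ _) (hF _ _ _))
  have p3 : 0 ≤ 1 / ε * ∑ n ∈ Icc K N', 3136 / (n:ℝ) ^ 2 * (FF M J N0 Rs J (yc + n) (fun _ => κ) P t + FF M J N0 Rs J (yc - n) (fun _ => κ) P t) :=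
    mul_nonneg (by positivity) (sum_nonneg p3')
  have p4 : 0 ≤ 4 * w * FF M J N0 Rs J yc (fun _ => κ) P t := mul_nonneg (by positivity) (hF _ _ _)
  have p5 : 0 ≤ 4 / W * (z ^ 2 * FF M J N0 Rs J yc (fun _ => κ - 1) P t) :=
    mul_nonneg (by positivity) (mul_nonneg (by positivity) (hF _ _ _))
  have p6 : 0 ≤ (SS J Rs yc K w W P).indicator (fun _ => 16 * W * Real.exp (2 * κ * yc + 2 * B0 * K)) t :=
    Set.indicator_nonneg (fun _ _ => by positivity) t
  have eRS : RS M J N0 Rs yc κ ε w W K N' P t =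
    ∑ m ∈ range J, (z ^ 2 * FF M J N0 Rs m yc (fun _ => κ - 1) P t + FF M J N0 Rs m yc (fun _ => κ) P t) +
    ε * (z ^ 2 * FF M J N0 Rs J yc (fun _ => κ - 1) P t) +
    1 / ε * ∑ n ∈ Icc K N', 3136 / (n:ℝ) ^ 2 * (FF M J N0 Rs J (yc + n) (fun _ => κ) P t + FF M J N0 Rs J (yc - n) (fun _ => κ) P t) +
    4 * w * FF M J N0 Rs J yc (fun _ => κ) P t +
    4 / W * (z ^ 2 * FF M J N0 Rs J yc (fun _ => κ - 1) P t) := rfl
  by_cases hg : gd J Rs P t
  swap
  · -- a bad block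
    unfold gd at hg
    push Not at hg
    obtain ⟨m, hm, hm2⟩ := hg
    have hb := bdm_ge (by omega : 1 ≤ Rs) hm hm2
    have h1 : z * x1 * x2 * ph M J N0 Rs yc P t ≤
        z ^ 2 * FF M J N0 Rs m yc (fun _ => κ - 1) P t + FF M J N0 Rs m yc (fun _ => κ) P t := by
      unfold FF
      have h2 : z * x1 * x2 ≤ z ^ 2 * x1 ^ 2 + x2 ^ 2 := by nlinarith [sq_nonneg (z * x1 - x2), sq_nonneg (z * x1), sq_nonneg x2]
      have h3 : ph M J N0 Rs yc P t ≤ ph M J N0 Rs yc P t * bdm J Rs m P t := le_mul_of_one_le_right hph hb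
      calc z * x1 * x2 * ph M J N0 Rs yc P t ≤ (z ^ 2 * x1 ^ 2 + x2 ^ 2) * (ph M J N0 Rs yc P t * bdm J Rs m P t) :=
            mul_le_mul h2 h3 hph (by positivity)
        _ = _ := by unfold ph; ring
    have h2 := single_le_sum (f := fun m => z ^ 2 * FF M J N0 Rs m yc (fun _ => κ - 1) P t + FF M J N0 Rs m yc (fun _ => κ) P t)
      (fun m _ => add_nonneg (mul_nonneg (by positivity) (hF _ _ _)) (hF _ _ _)) (mem_range.mpr hm)
    rw [eRS]
    linarith
  have hup1 := AA_up hN hR hκ1 hg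
  have hlo1 := AA_lo hN hR hκ1 hg
  have hup2 := AA_up hN hR hκ hg
  have hlo2 := AA_lo hN hR hκ hg
  rw [← hx1] at hup1 hlo1
  rw [← hx2] at hup2 hlo2
  set p := Pt J P t with hp
  by_cases hK2 : |p - yc| ≤ K
  swap
  · -- far
    push Not at hK2
    set n0 : ℤ := round (p - yc) with hn0
    have hr : |p - yc - n0| ≤ 1 / 2 := abs_sub_round (p - yc)
    have hpm := hx hg
    have hpn := hx' hg
    have hK1 : (1:ℝ) ≤ K := by exact_mod_cast hK
    have hnK : (K:ℝ) < |(n0:ℝ)| + 1 := by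
      have h5 := abs_sub_abs_le_abs_sub (p - yc) n0
      linarith
    have hnK' : K ≤ n0.natAbs := by
      have h6 : ((n0.natAbs : ℕ) : ℝ) = |(n0:ℝ)| := by rw [Nat.cast_natAbs, Int.cast_abs]
      rw [← h6] at hnK
      have : K < n0.natAbs + 1 := by exact_mod_cast hnK
      omega
    have hnN' : n0.natAbs ≤ N' := by
      have h6 : ((n0.natAbs : ℕ) : ℝ) = |(n0:ℝ)| := by rw [Nat.cast_natAbs, Int.cast_abs]
      have h5 := abs_sub_abs_le_abs_sub (n0:ℝ) (p - yc)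
      rw [abs_sub_comm (n0:ℝ)] at h5
      have h7 : ((n0.natAbs : ℕ) : ℝ) < N' + 1 := by rw [h6]; linarith
      have : n0.natAbs < N' + 1 := by exact_mod_cast h7
      omega
    have hn1 : (1:ℝ) ≤ |(n0:ℝ)| := by
      have h6 : ((n0.natAbs : ℕ) : ℝ) = |(n0:ℝ)| := by rw [Nat.cast_natAbs, Int.cast_abs]
      rw [← h6]
      exact_mod_cast hK.trans hnK'
    have hsh := ph_shift (N0 := N0) hM hN4 hR hg hn1 hr hpm
    have h1 : z * x1 * x2 * ph M J N0 Rs yc P t ≤ ε * (z ^ 2 * FF M J N0 Rs J yc (fun _ => κ - 1) P t) +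
        1 / ε * (x2 ^ 2 * ph M J N0 Rs yc P t) := by
      rw [FF_J]
      have h2 : z * x1 * x2 ≤ ε * (z ^ 2 * x1 ^ 2) + 1 / ε * x2 ^ 2 := by
        have h3 : ε * (z ^ 2 * x1 ^ 2) + 1 / ε * x2 ^ 2 - 2 * (z * x1 * x2) = 1 / ε * (ε * (z * x1) - x2) ^ 2 := by
          field_simp; ring
        have h4 : 0 ≤ 1 / ε * (ε * (z * x1) - x2) ^ 2 := by positivity
        have h5 : 0 ≤ z * x1 * x2 := by positivity
        linarith
      have h3 := mul_le_mul_of_nonneg_right h2 hph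
      rw [← hx1]
      linarith
    have h2 : x2 ^ 2 * ph M J N0 Rs yc P t ≤ ∑ n ∈ Icc K N', 3136 / (n:ℝ) ^ 2 *
        (FF M J N0 Rs J (yc + n) (fun _ => κ) P t + FF M J N0 Rs J (yc - n) (fun _ => κ) P t) := by
      have h3 : x2 ^ 2 * ph M J N0 Rs yc P t ≤ 3136 / ((n0.natAbs : ℕ) : ℝ) ^ 2 *
          (FF M J N0 Rs J (yc + (n0.natAbs : ℕ)) (fun _ => κ) P t + FF M J N0 Rs J (yc - (n0.natAbs : ℕ)) (fun _ => κ) P t) := by
        have h6 : ((n0.natAbs : ℕ) : ℝ) = |(n0:ℝ)| := by rw [Nat.cast_natAbs, Int.cast_abs]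
        rw [h6, sq_abs]
        have h7 : x2 ^ 2 * ph M J N0 Rs yc P t ≤ 3136 / (n0:ℝ) ^ 2 * FF M J N0 Rs J (yc + n0) (fun _ => κ) P t := by
          rw [FF_J, ← hx2]
          have := mul_le_mul_of_nonneg_left hsh (sq_nonneg x2)
          linarith
        refine h7.trans (mul_le_mul_of_nonneg_left ?_ (by positivity))
        rcases abs_cases (n0:ℝ) with ⟨ha, _⟩ | ⟨ha, _⟩
        · rw [ha]
          have := hF J (yc - n0) κ
          linarith
        · rw [ha, sub_neg_eq_add]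
          have := hF J (yc + -n0) κ
          linarith
      exact h3.trans (single_le_sum (f := fun n : ℕ => 3136 / (n:ℝ) ^ 2 *
        (FF M J N0 Rs J (yc + n) (fun _ => κ) P t + FF M J N0 Rs J (yc - n) (fun _ => κ) P t)) p3' (mem_Icc.mpr ⟨hnK', hnN'⟩))
    have h3 := mul_le_mul_of_nonneg_left h2 (by positivity : (0:ℝ) ≤ 1 / ε)
    rw [eRS]
    linarith
  by_cases hw2 : w * Real.exp p ≤ z
  swap
  · -- small
    push Not at hw2
    have h1 : z * x1 * x2 ≤ 4 * w * x2 ^ 2 := by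
      have h2 : z * x1 ≤ w * Real.exp p * (2 * Real.exp ((κ - 1) * p)) :=
        mul_le_mul hw2.le hup1 hx10 (by positivity)
      have h3 : w * Real.exp p * (2 * Real.exp ((κ - 1) * p)) = 2 * w * Real.exp (κ * p) := by
        have : Real.exp (κ * p) = Real.exp p * Real.exp ((κ - 1) * p) := by rw [← Real.exp_add]; congr 1; ring
        rw [this]; ring
      rw [h3] at h2
      have h4 := mul_le_mul_of_nonneg_left hlo2 (by positivity : (0:ℝ) ≤ 2 * w)
      have h5 : z * x1 ≤ 4 * w * x2 := by linarith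
      have := mul_le_mul_of_nonneg_right h5 hx20
      linarith
    have h2 : z * x1 * x2 * ph M J N0 Rs yc P t ≤ 4 * w * FF M J N0 Rs J yc (fun _ => κ) P t := by
      rw [FF_J, ← hx2]
      have := mul_le_mul_of_nonneg_right h1 hph
      linarith
    rw [eRS]
    linarith
  by_cases hW2 : z ≤ W * Real.exp p
  swap
  · -- large
    push Not at hW2
    have h1 : z * x1 * x2 ≤ 4 / W * (z ^ 2 * x1 ^ 2) := by
      have h2 : x2 ≤ 4 / W * (z * x1) := by
        have h3 : Real.exp (κ * p) = Real.exp p * Real.exp ((κ - 1) * p) := by rw [← Real.exp_add]; congr 1; ring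
        have h4 : Real.exp p ≤ z / W := by rw [le_div_iff₀ hW]; linarith
        calc x2 ≤ 2 * (Real.exp p * Real.exp ((κ - 1) * p)) := by rw [← h3]; exact hup2
          _ ≤ 2 * (z / W * (2 * x1)) := by
            refine mul_le_mul_of_nonneg_left (mul_le_mul h4 hlo1 (Real.exp_pos _).le (by positivity)) (by norm_num)
          _ = _ := by ring
      have := mul_le_mul_of_nonneg_left h2 (by positivity : 0 ≤ z * x1)
      calc z * x1 * x2 ≤ z * x1 * (4 / W * (z * x1)) := this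
        _ = _ := by ring
    have h2 : z * x1 * x2 * ph M J N0 Rs yc P t ≤ 4 / W * (z ^ 2 * FF M J N0 Rs J yc (fun _ => κ - 1) P t) := by
      rw [FF_J, ← hx1]
      have := mul_le_mul_of_nonneg_right h1 hph
      linarith
    rw [eRS]
    linarith
  · -- the main set
    have hS : t ∈ SS J Rs yc K w W P := ⟨hg, hK2, hw2, hW2⟩
    rw [Set.indicator_of_mem hS]
    have h4 := ph_le (yc := yc) hM hN4 hR hg
    have h1 : z * x1 * x2 * ph M J N0 Rs yc P t ≤ 16 * W * Real.exp (2 * κ * yc + 2 * B0 * K) := by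
      calc z * x1 * x2 * ph M J N0 Rs yc P t ≤ W * Real.exp p * (2 * Real.exp ((κ - 1) * p)) * (2 * Real.exp (κ * p)) * 4 := by
            refine mul_le_mul (mul_le_mul (mul_le_mul hW2 hup1 hx10 (by positivity)) hup2 hx20 (by positivity)) h4 hph (by positivity)
        _ = 16 * W * Real.exp (2 * κ * p) := by
            have : Real.exp (2 * κ * p) = Real.exp p * Real.exp ((κ - 1) * p) * Real.exp (κ * p) := by
              rw [← Real.exp_add, ← Real.exp_add]; congr 1; ring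
            rw [this]; ring
        _ ≤ _ := by
            refine mul_le_mul_of_nonneg_left (Real.exp_le_exp.mpr ?_) (by positivity)
            have h5 : κ * (p - yc) ≤ B0 * K := by
              calc κ * (p - yc) ≤ |κ * (p - yc)| := le_abs_self _
                _ = |κ| * |p - yc| := abs_mul _ _
                _ ≤ _ := mul_le_mul hκ hK2 (abs_nonneg _) ((abs_nonneg _).trans hκ)
            linarith
    rw [eRS]
    linarith

end

end Pool.Agent.KS6_29.LD
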