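import Pool.Agent.KS6_29.LD.Ms2

set_option autoImplicit false

/-! The integrated inequality. -/

namespace Pool.Agent.KS6_29.LD

open Finset MeasureTheory Complex Filter
open Pool.Agent.W184.NZ
open Pool.Agent.H306R2.SM (om cl Yf)
open Pool.Agent.H262R4.TM (Rng Ck)

/-- continuous functions with a bound for the integral -/
def Ib (A B : ℝ) (f : ℝ → ℝ) (b : ℝ) : Prop := Continuous f ∧ ∫ t in A..B, f t ≤ b

section
variable {A B : ℝ} {f g : ℝ → ℝ} {b b' : ℝ}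

lemma Ib.add (hf : Ib A B f b) (hg : Ib A B g b') : Ib A B (fun t => f t + g t) (b + b') := by
  refine ⟨hf.1.add hg.1, ?_⟩
  rw [intervalIntegral.integral_add (hf.1.intervalIntegrable _ _) (hg.1.intervalIntegrable _ _)]
  exact add_le_add hf.2 hg.2

lemma Ib.mul {c : ℝ} (hc : 0 ≤ c) (hf : Ib A B f b) : Ib A B (fun t => c * f t) (c * b) := by
  refine ⟨continuous_const.mul hf.1, ?_⟩
  rw [intervalIntegral.integral_const_mul]
  exact mul_le_mul_of_nonneg_left hf.2 hc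

lemma Ib.sum {ι : Type*} {s : Finset ι} {f : ι → ℝ → ℝ} {b : ι → ℝ} (h : ∀ i ∈ s, Ib A B (f i) (b i)) :
    Ib A B (fun t => ∑ i ∈ s, f i t) (∑ i ∈ s, b i) := by
  refine ⟨continuous_finsetSum _ fun i hi => (h i hi).1, ?_⟩
  rw [intervalIntegral.integral_finsetSum fun i hi => (h i hi).1.intervalIntegrable _ _]
  exact sum_le_sum fun i hi => (h i hi).2

end

lemma zc : Continuous fun t : ℝ => riemannZeta (cl t) := by
  rw [continuous_iff_continuousAt]
  intro t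
  have h1 : cl t ≠ 1 := by
    intro h
    have := congrArg Complex.re h
    simp [cl] at this
  exact ContinuousAt.comp (g := riemannZeta) (f := cl) (differentiableAt_riemannZeta h1).continuousAt
    (by unfold cl; fun_prop)

lemma Dv_cont {P : ℕ → Finset ℕ} (hP : ∀ i, ∀ p ∈ P i, p.Prime) (i : ℕ) : Continuous fun t => Dv P i t := by
  unfold Dv PI
  refine continuous_finsetSum _ fun p hp => ?_
  have h0 : (p:ℂ) ≠ 0 := by exact_mod_cast (hP i p hp).ne_zero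
  refine Continuous.const_cpow (f := fun t : ℝ => -cl t) (by unfold cl; fun_prop) (Or.inl h0)

lemma Pt_cont {P : ℕ → Finset ℕ} (hP : ∀ i, ∀ p ∈ P i, p.Prime) (J : ℕ) : Continuous fun t => Pt J P t := by
  unfold Pt
  exact continuous_finsetSum _ fun i _ => Complex.continuous_re.comp (Dv_cont hP i)

lemma SS_closed {P : ℕ → Finset ℕ} (hP : ∀ i, ∀ p ∈ P i, p.Prime) (J Rs : ℕ) (yc K w W : ℝ) :
    IsClosed (SS J Rs yc K w W P) := by
  have h1 : IsClosed {t | gd J Rs P t} := by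
    have : {t | gd J Rs P t} = ⋂ i, ⋂ (_ : i < J), {t | ‖Dv P i t‖ ≤ RR Rs i} := by
      ext t; simp [gd]
    rw [this]
    exact isClosed_iInter fun i => isClosed_iInter fun _ => isClosed_le (Dv_cont hP i).norm continuous_const
  have hp := Pt_cont hP J
  have hz := zc.norm
  have h2 : IsClosed {t | |Pt J P t - yc| ≤ K} := isClosed_le (hp.sub continuous_const).abs continuous_const
  have h3 : IsClosed {t | w * Real.exp (Pt J P t) ≤ ‖riemannZeta (cl t)‖} :=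
    isClosed_le (continuous_const.mul (Real.continuous_exp.comp hp)) hz
  have h4 : IsClosed {t | ‖riemannZeta (cl t)‖ ≤ W * Real.exp (Pt J P t)} :=
    isClosed_le hz (continuous_const.mul (Real.continuous_exp.comp hp))
  have : SS J Rs yc K w W P = {t | gd J Rs P t} ∩ ({t | |Pt J P t - yc| ≤ K} ∩
    ({t | w * Real.exp (Pt J P t) ≤ ‖riemannZeta (cl t)‖} ∩ {t | ‖riemannZeta (cl t)‖ ≤ W * Real.exp (Pt J P t)})) := by
    ext t; simp [SS]
  rw [this]
  exact h1.inter (h2.inter (h3.inter h4))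

section
variable {B0 c u η q ηm : ℝ} {N0 Rs : ℕ}

/-- the constant of the second moment -/
noncomputable def CE (B0 c : ℝ) (N0 Rs : ℕ) : ℝ := 16 * (8 + 8 * (4 * N0 + 2) * C2 B0 c * ((Rs:ℝ) + 1))

theorem core (hηm : 0 < ηm)
    (hmono : ∀ᶠ Y : ℝ in atTop, ∀ k : ℕ, Rng Y k → ∀ x : ℕ × ℕ,
      x.1 ≠ 0 → x.2 ≠ 0 → (x.1 : ℝ) ≤ Y ^ ((1:ℝ) / 4) → (x.2 : ℝ) ≤ Y ^ ((1:ℝ) / 4) →
      |Zm k Y x - Mn k Y x| ≤ 2 * Y ^ (-ηm)) (hp : Pm B0 c N0 Rs η q) (hqm : q ≤ ηm)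
    (hN : 4 * B0 + 1 ≤ N0) (hN4 : 4 ≤ N0) (hR : 4 ≤ Rs) (he : eps B0 c u Rs ≤ 1 / 4) :
    ∀ᶠ T : ℝ in atTop, ∀ (J : ℕ) (P : ℕ → Finset ℕ), Bl B0 c u (Real.exp (η * Real.log T)) J P →
      ∀ M : ℕ, 1 ≤ M → ∀ κ : ℝ, |κ| ≤ B0 → |κ - 1| ≤ B0 → ∀ (yc V : ℝ), V = ∑ i ∈ range J, vI (P i) → yc = κ * V →
      ∀ (ε w W : ℝ) (K N' : ℕ), 0 < ε → 0 < w → 0 < W → 1 ≤ K →
      (∀ t, gd J Rs P t → |Pt J P t - yc| ≤ 6 * M) → (∀ t, gd J Rs P t → |Pt J P t - yc| ≤ N') →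
      ∀ X ρ Er : ℝ, X = T * Real.exp (κ ^ 2 * V) * SG M V → ρ = Real.log T * Real.exp (-V) → Er = T ^ (1 - q / 8) →
      X / 4 - Er ≤ (∑ m ∈ range J, dm B0 c J Rs m) * (2 * CE B0 c N0 Rs * ρ + 2) * X + 2 * J * Er +
        ε * (2 * CE B0 c N0 Rs * ρ * X + Er) + 1 / ε * (12544 / K * (2 * X + Er)) +
        4 * w * (2 * X + Er) + 4 / W * (2 * CE B0 c N0 Rs * ρ * X + Er) +
        16 * W * Real.exp (2 * κ * yc + 2 * B0 * K) *
          (volume (SS J Rs yc K w W P ∩ Set.Ioc (T / 2) T)).toReal := by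
  filter_upwards [E2 hηm hmono hp hqm (u := u), Real.tendsto_log_atTop.eventually_ge_atTop 10, eventually_ge_atTop 1]
    with T hE2 hL hT1 J P hJ M hM κ hκ hκ1 yc V hV hyc ε w W K N' hε hw hW hK hx hx' X ρ Er hX hρ hEr
  have hT0 : 0 < T := by linarith
  have hTT : T / 2 ≤ T := by linarith
  have hC2 := C2_ge hJ.B1 hJ.c0
  have hCE0 : 0 ≤ CE B0 c N0 Rs := by unfold CE; positivity
  have hSG := SG_nonneg M V
  have hX0 : 0 ≤ X := by rw [hX]; positivity
  have hρ0 : 0 ≤ ρ := by rw [hρ]; positivity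
  have hEr0 : 0 ≤ Er := by rw [hEr]; positivity
  have hep : Real.exp (eps B0 c u Rs) ≤ 2 := by
    have h1 : Real.exp (eps B0 c u Rs) ≤ Real.exp (1 / 4) := Real.exp_le_exp.mpr he
    have h2 := Real.add_one_le_exp (-(1 / 4 : ℝ))
    have h3 : Real.exp (1 / 4) * Real.exp (-(1 / 4)) = 1 := by rw [← Real.exp_add]; norm_num
    nlinarith [Real.exp_pos (1 / 4 : ℝ)]
  have hdm0 : ∀ m, 0 ≤ dm B0 c J Rs m := fun m => dm_nonneg hJ.B1 hJ.c0 J Rs m
  -- the two averages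
  have i1 : ∀ (m : ℕ) (y' : ℝ), Ib (T / 2) T (fun t => FF M J N0 Rs m y' (fun _ => κ) P t) (2 * X * dm B0 c J Rs m + Er) := by
    intro m y'
    refine ⟨FF_cont (N0 := N0) (Rs := Rs) hJ hM (fun _ => hκ) m, ?_⟩
    have h1 := E1 hp hT1 hL hJ hM (a := fun _ => κ) (fun _ => hκ) y' m
    refine h1.trans ?_
    rw [← hV, ← hEr, ← mul_sum, ← hV, Real.exp_add, hX]
    refine add_le_add ?_ le_rfl
    have h2 : 0 ≤ T * Real.exp (κ ^ 2 * V) * SG M V * dm B0 c J Rs m := by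
      have := hdm0 m
      positivity
    have := mul_le_mul_of_nonneg_right hep h2
    linarith
  have i2 : ∀ (m : ℕ), Ib (T / 2) T (fun t => ‖riemannZeta (cl t)‖ ^ 2 * FF M J N0 Rs m yc (fun _ => κ - 1) P t)
      (2 * CE B0 c N0 Rs * ρ * X * dm B0 c J Rs m + Er) := by
    intro m
    refine ⟨(zc.norm.pow 2).mul (FF_cont (N0 := N0) (Rs := Rs) hJ hM (fun _ => hκ1) m), ?_⟩
    have h1 := hE2 J P hJ M hM (fun _ => κ - 1) (fun _ => hκ1) yc m
    refine h1.trans ?_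
    rw [← hV, ← hEr, ← mul_sum, ← hV, Real.exp_add]
    refine add_le_add ?_ le_rfl
    have e1 : Real.exp (((κ - 1) ^ 2 + 2 * (κ - 1)) * V) = Real.exp (κ ^ 2 * V) * Real.exp (-V) := by
      rw [← Real.exp_add]; congr 1; ring
    rw [e1, hX, hρ]
    have h2 : 0 ≤ CE B0 c N0 Rs * (T * Real.log T) * (Real.exp (κ ^ 2 * V) * Real.exp (-V)) * SG M V * dm B0 c J Rs m := by
      have := hdm0 m
      have : 0 ≤ Real.log T := by linarith
      positivity
    have := mul_le_mul_of_nonneg_right hep h2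
    unfold CE at this ⊢
    linarith
  have i1J : ∀ y', Ib (T / 2) T (fun t => FF M J N0 Rs J y' (fun _ => κ) P t) (2 * X + Er) := by
    intro y'
    have := i1 J y'
    rwa [dm_none B0 c le_rfl, mul_one] at this
  have i2J : Ib (T / 2) T (fun t => ‖riemannZeta (cl t)‖ ^ 2 * FF M J N0 Rs J yc (fun _ => κ - 1) P t)
      (2 * CE B0 c N0 Rs * ρ * X + Er) := by
    have := i2 J
    rwa [dm_none B0 c le_rfl, mul_one] at this
  have iRS : Ib (T / 2) T (fun t => RS M J N0 Rs yc κ ε w W K N' P t)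
      (∑ m ∈ range J, ((2 * CE B0 c N0 Rs * ρ * X * dm B0 c J Rs m + Er) + (2 * X * dm B0 c J Rs m + Er)) +
        ε * (2 * CE B0 c N0 Rs * ρ * X + Er) +
        1 / ε * (∑ n ∈ Icc K N', 3136 / (n:ℝ) ^ 2 * ((2 * X + Er) + (2 * X + Er))) +
        4 * w * (2 * X + Er) + 4 / W * (2 * CE B0 c N0 Rs * ρ * X + Er)) := by
    unfold RS
    refine ((((Ib.sum fun m _ => (i2 m).add (i1 m yc)).add (i2J.mul hε.le)).add ?_).add ((i1J yc).mul (by positivity))).add
      (i2J.mul (by positivity))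
    refine Ib.mul (by positivity) (Ib.sum fun n _ => ?_)
    exact Ib.mul (by positivity) ((i1J _).add (i1J _))
  -- the lower bound
  have h3 := E3 hp he hT1 hL hJ hM (a := fun _ => κ) (fun _ => hκ) (fun _ => hκ1) (yc := yc) (by
    rw [hyc, hV, mul_sum])
  rw [← mul_sum, ← hV, ← hEr] at h3
  set h : ℝ → ℂ := fun t => riemannZeta (cl t) * (AA J N0 Rs (fun _ => ((κ - 1 : ℝ) : ℂ)) P t *
      starRingEnd ℂ (AA J N0 Rs (fun _ => (κ : ℂ)) P t) * ((‖PHt M J N0 Rs yc P t‖ ^ 2 : ℝ) : ℂ)) with hh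
  have hc : Continuous h := by
    have h1 := evC_cont (GG_dm (N0 := N0) (Rs := Rs) (P := P) (J := J) (yc := yc) hM hJ.B1 (α := fun _ => ((κ - 1 : ℝ) : ℂ))
      (β := fun _ => (κ : ℂ)) (fun i => by rw [Complex.norm_real]; exact hκ1) (fun i => by rw [Complex.norm_real]; exact hκ) J)
      (PR_Bd (N0 := N0) (Rs := Rs) hJ J)
    refine (zc.mul h1).congr fun t => ?_
    show riemannZeta (cl t) * evC t (GG M J N0 Rs J yc (fun _ => ((κ - 1 : ℝ) : ℂ)) (fun _ => (κ : ℂ)) P) = h t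
    rw [evC_GG t hJ.pp, bdm_none, mul_one, hh]
    have e1 : (fun _ : ℕ => starRingEnd ℂ ((κ : ℝ) : ℂ)) = fun _ => ((κ : ℝ) : ℂ) := by
      funext i; exact Complex.conj_ofReal _
    rw [e1]
  have hn : ∀ t, ‖h t‖ = ‖riemannZeta (cl t)‖ * ‖AA J N0 Rs (fun _ => ((κ - 1 : ℝ) : ℂ)) P t‖ *
      ‖AA J N0 Rs (fun _ => (κ : ℂ)) P t‖ * ph M J N0 Rs yc P t := by
    intro t
    rw [hh]
    simp only []
    rw [norm_mul, norm_mul, norm_mul, RCLike.norm_conj, Complex.norm_real, Real.norm_eq_abs, abs_of_nonneg (by positivity)]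
    unfold ph
    ring
  set CS := 16 * W * Real.exp (2 * κ * yc + 2 * B0 * K) with hCS
  have hSm := (SS_closed hJ.pp J Rs yc K w W).measurableSet
  have hind : IntegrableOn ((SS J Rs yc K w W P).indicator fun _ => CS) (Set.Ioc (T / 2) T) :=
    Integrable.indicator (integrable_const CS) hSm
  have h4 : ‖∫ t in (T / 2)..T, h t‖ ≤ ∫ t in Set.Ioc (T / 2) T, (RS M J N0 Rs yc κ ε w W K N' P t +
      (SS J Rs yc K w W P).indicator (fun _ => CS) t) := by
    rw [intervalIntegral.integral_of_le hTT]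
    refine (norm_integral_le_integral_norm _).trans ?_
    refine setIntegral_mono_on ?_ ?_ measurableSet_Ioc fun t _ => ?_
    · exact (hc.norm.integrableOn_Ioc)
    · exact (iRS.1.integrableOn_Ioc).add hind
    · rw [hn]
      exact pw hM hN hN4 hR hκ hκ1 hε hw hW hK (hx t) (hx' t)
  have h5 : ∫ t in Set.Ioc (T / 2) T, (RS M J N0 Rs yc κ ε w W K N' P t +
      (SS J Rs yc K w W P).indicator (fun _ => CS) t) =
      (∫ t in (T / 2)..T, RS M J N0 Rs yc κ ε w W K N' P t) + CS * (volume (SS J Rs yc K w W P ∩ Set.Ioc (T / 2) T)).toReal := by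
    rw [integral_add iRS.1.integrableOn_Ioc hind, intervalIntegral.integral_of_le hTT]
    congr 1
    rw [integral_indicator hSm, Measure.restrict_restrict hSm, setIntegral_const, smul_eq_mul, mul_comm]
    rfl
  rw [h5] at h4
  have h6 := iRS.2
  have h7 : ∑ n ∈ Icc K N', 3136 / (n:ℝ) ^ 2 * ((2 * X + Er) + (2 * X + Er)) ≤ 12544 / K * (2 * X + Er) := by
    have h8 : ∑ n ∈ Icc K N', ((n:ℝ) ^ 2)⁻¹ ≤ 2 / K := by
      have h9 := sum_Ioo_inv_sq_le (α := ℝ) (K - 1) (N' + 1)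
      have e1 : Ioo (K - 1) (N' + 1) = Icc K N' := by
        ext n; rw [mem_Ioo, mem_Icc]; omega
      rw [e1] at h9
      have e2 : (((K - 1 : ℕ) : ℝ) + 1) = K := by
        rw [Nat.cast_sub hK]; push_cast; ring
      rwa [e2] at h9
    have e3 : ∑ n ∈ Icc K N', 3136 / (n:ℝ) ^ 2 * ((2 * X + Er) + (2 * X + Er)) =
        (∑ n ∈ Icc K N', ((n:ℝ) ^ 2)⁻¹) * (6272 * (2 * X + Er)) := by
      rw [sum_mul]
      exact sum_congr rfl fun n _ => by ring
    rw [e3]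
    have := mul_le_mul_of_nonneg_right h8 (by positivity : 0 ≤ 6272 * (2 * X + Er))
    refine this.trans (le_of_eq ?_)
    ring
  have h8 := mul_le_mul_of_nonneg_left h7 (by positivity : (0:ℝ) ≤ 1 / ε)
  have h9 : ∑ m ∈ range J, ((2 * CE B0 c N0 Rs * ρ * X * dm B0 c J Rs m + Er) + (2 * X * dm B0 c J Rs m + Er)) =
      (∑ m ∈ range J, dm B0 c J Rs m) * (2 * CE B0 c N0 Rs * ρ + 2) * X + 2 * J * Er := by
    have e1 : ∀ m ∈ range J, ((2 * CE B0 c N0 Rs * ρ * X * dm B0 c J Rs m + Er) + (2 * X * dm B0 c J Rs m + Er)) =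
        dm B0 c J Rs m * ((2 * CE B0 c N0 Rs * ρ + 2) * X) + 2 * Er := fun m _ => by ring
    rw [sum_congr rfl e1, sum_add_distrib, ← sum_mul, sum_const, card_range, nsmul_eq_mul]
    ring
  rw [h9] at h6
  have h10 : T / 4 * (Real.exp (κ ^ 2 * V) * SG M V) = X / 4 := by rw [hX]; ring
  rw [h10] at h3
  linarith

end

end Pool.Agent.KS6_29.LD
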