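import Pool.Agent.KS6_29.LD.Bk3

set_option autoImplicit false

/-! Products over the blocks. -/

namespace Pool.Agent.KS6_29.LD

open Finset MeasureTheory Complex MonoidAlgebra
open Pool.Agent.W184.NZ

/-- the blocks -/
structure Bl (B0 c u y : ℝ) (J : ℕ) (P : ℕ → Finset ℕ) : Prop where
  pr : ∀ i, ∀ p ∈ P i, p.Prime ∧ 144 ≤ p ∧ 40 * (30 * B0) ^ 3 * rp p ≤ 1 ∧ (p:ℝ) ≤ bb y i
  dj : ∀ i j, i < j → Disjoint (P i) (P j)
  b10 : ∀ i < J, 10 ≤ bb y i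
  v : ∀ i < J, vI (P i) ≤ c
  U : ∑ i ∈ range J, uI (P i) ≤ u
  B1 : 1 ≤ B0
  c0 : 0 ≤ c
  uc : u ≤ c
  y1 : 1 ≤ y

/-- the second constant -/
noncomputable def C2 (B0 c : ℝ) : ℝ := 4 * Real.exp (CB (30 * B0) * c + 8 * B0 ^ 2 * c)

lemma C2_ge {B0 c : ℝ} (hB0 : 1 ≤ B0) (hc : 0 ≤ c) : 1 ≤ C2 B0 c := by
  unfold C2
  have hCB := CB_pos (B := 30 * B0) (by linarith)
  have : 1 ≤ Real.exp (CB (30 * B0) * c + 8 * B0 ^ 2 * c) := Real.one_le_exp (by positivity)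
  linarith

/-- the degrees are large -/
structure Dg (B0 c : ℝ) (N0 Rs : ℕ) : Prop where
  n1 : 1 ≤ N0
  r1 : 1 ≤ Rs
  k : C1 B0 c * Real.exp (-(Rs:ℝ)) ≤ 1

section
variable {B0 c u y : ℝ} {J N0 Rs : ℕ} {P : ℕ → Finset ℕ} {α β : ℕ → ℂ} {s s' : ℂ} {w : ℕ × ℕ → ℝ} {wa wb : ℝ}

lemma Bl.bp (h : Bl B0 c u y J P) {i : ℕ} (hi : i < J) : BP B0 c (P i) :=
  ⟨fun p hp => ⟨(h.pr i p hp).1, (h.pr i p hp).2.1, (h.pr i p hp).2.2.1⟩, h.v i hi⟩

lemma Bl.u1 (h : Bl B0 c u y J P) {i : ℕ} (hi : i < J) : uI (P i) ≤ c := by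
  refine le_trans ?_ (h.U.trans h.uc)
  exact single_le_sum (f := fun i => uI (P i)) (fun j _ => uI_nonneg _) (mem_range.mpr hi)

lemma Bl.pp (h : Bl B0 c u y J P) (i : ℕ) : ∀ p ∈ P i, p.Prime := fun p hp => (h.pr i p hp).1

lemma Kge (h : Dg B0 c N0 Rs) (i : ℕ) : (Rs:ℝ) + i ≤ ((N0 * RR Rs i : ℕ) : ℝ) := by
  have h1 := RR_ge Rs i
  have h2 : Rs + i ≤ N0 * RR Rs i := h1.trans (Nat.le_mul_of_pos_left _ h.n1)
  exact_mod_cast h2

lemma Dg.ki (h : Dg B0 c N0 Rs) (i : ℕ) : C1 B0 c * Real.exp (-((N0 * RR Rs i : ℕ) : ℝ)) ≤ 1 := by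
  refine le_trans ?_ h.k
  refine mul_le_mul_of_nonneg_left (Real.exp_le_exp.mpr ?_) (C1_pos B0 c).le
  have := Kge h i
  have h0 : (0:ℝ) ≤ i := Nat.cast_nonneg i
  linarith

/-- the product -/
noncomputable def PF (J N0 Rs m : ℕ) (α β : ℕ → ℂ) (s s' : ℂ) (P : ℕ → Finset ℕ) : DC :=
  ∏ i ∈ range J, XQ (decide (i = m)) (N0 * RR Rs i) (RR Rs i) (α i) (β i) s s' (P i)

/-- the error in the exponent -/
noncomputable def eps (B0 c u : ℝ) (Rs : ℕ) : ℝ := CB (30 * B0) * u + 2 * C1 B0 c * Real.exp (-(Rs:ℝ))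

lemma sum_eps (h : Bl B0 c u y J P) (hd : Dg B0 c N0 Rs) :
    ∑ i ∈ range J, (CB (30 * B0) * uI (P i) + C1 B0 c * Real.exp (-((N0 * RR Rs i : ℕ) : ℝ))) ≤ eps B0 c u Rs := by
  rw [sum_add_distrib, ← mul_sum, ← mul_sum]
  have hCB := CB_pos (B := 30 * B0) (by linarith [h.B1])
  have h1 := mul_le_mul_of_nonneg_left h.U hCB.le
  have h2 : ∑ i ∈ range J, Real.exp (-((N0 * RR Rs i : ℕ) : ℝ)) ≤ 2 * Real.exp (-(Rs:ℝ)) := by
    refine sum_exp_le J Rs (R := fun i => N0 * RR Rs i) fun i => ?_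
    exact (RR_ge Rs i).trans (Nat.le_mul_of_pos_left _ hd.n1)
  have h3 := mul_le_mul_of_nonneg_left h2 (C1_pos B0 c).le
  unfold eps
  linarith

lemma XQ_false {q : Bool} (hq : q = false) (K R : ℕ) (a b s s' : ℂ) (Q : Finset ℕ) : XQ q K R a b s s' Q = XB K a b s s' Q := by
  subst hq
  simp [XQ]

/-- the average of the product -/
theorem PF_main (hw : PW w wa wb) (h : Bl B0 c u y J P) (hd : Dg B0 c N0 Rs) {m : ℕ} (hm : J ≤ m)
    (ha : ∀ i, ‖α i‖ ≤ B0) (hb : ∀ i, ‖β i‖ ≤ B0) (hs : ‖s‖ ≤ B0) (hs' : ‖s'‖ ≤ B0) :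
    ∃ E : ℂ, ‖E‖ ≤ eps B0 c u Rs ∧ lamC w (PF J N0 Rs m α β s s' P) =
      Complex.exp (∑ i ∈ range J, QQ wa wb (α i) (β i) s s' * (vI (P i) : ℝ) + E) := by
  have h1 : ∀ i, ∃ e : ℂ, i < J → ‖e‖ ≤ CB (30 * B0) * uI (P i) + C1 B0 c * Real.exp (-((N0 * RR Rs i : ℕ) : ℝ)) ∧
      lamC w (XQ (decide (i = m)) (N0 * RR Rs i) (RR Rs i) (α i) (β i) s s' (P i)) =
        Complex.exp (QQ wa wb (α i) (β i) s s' * (vI (P i) : ℝ) + e) := by
    intro i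
    by_cases hi : i < J
    · obtain ⟨e, he⟩ := XB_main hw h.B1 h.c0 (h.bp hi) (h.u1 hi) (hd.ki i) (ha i) (hb i) hs hs'
      refine ⟨e, fun _ => ?_⟩
      rw [XQ_false (decide_eq_false (by omega))]
      exact he
    · exact ⟨0, fun h => absurd h hi⟩
  choose e he using h1
  refine ⟨∑ i ∈ range J, e i, ?_, ?_⟩
  · refine (norm_sum_le _ _).trans (le_trans (sum_le_sum fun i hi => (he i (mem_range.mp hi)).1) (sum_eps h hd))
  · unfold PF
    rw [lamC_prod hw.mw J h.dj fun i => XQ_mem (h.pp i) _ _ _ _ _ _ _, prod_congr rfl fun i hi => (he i (mem_range.mp hi)).2,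
      ← Complex.exp_sum, sum_add_distrib]

/-- the saving of the product -/
noncomputable def dm (B0 c : ℝ) (J Rs m : ℕ) : ℝ :=
  ∏ i ∈ range J, (if decide (i = m) then C2 B0 c * dq true (RR Rs i) else 1)

lemma dm_eq (B0 c : ℝ) {J Rs m : ℕ} (hm : m < J) : dm B0 c J Rs m = C2 B0 c * Real.exp (-(2 * (RR Rs m : ℝ))) := by
  unfold dm
  rw [prod_eq_single m]
  · simp [dq]
  · intro i _ hi
    simp [hi]
  · intro h; exact absurd (mem_range.mpr hm) h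

lemma dm_none (B0 c : ℝ) {J Rs m : ℕ} (hm : J ≤ m) : dm B0 c J Rs m = 1 := by
  unfold dm
  refine prod_eq_one fun i hi => ?_
  rw [mem_range] at hi
  simp [show i ≠ m by omega]

/-- bound of one factor -/
noncomputable def ai (B0 c wa wb : ℝ) (N0 Rs m : ℕ) (α β : ℕ → ℂ) (s s' : ℂ) (P : ℕ → Finset ℕ) (i : ℕ) : ℝ :=
  Real.exp ((QQ wa wb (α i) (β i) s s').re * vI (P i) +
    (CB (30 * B0) * uI (P i) + C1 B0 c * Real.exp (-((N0 * RR Rs i : ℕ) : ℝ)))) *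
    (if decide (i = m) then C2 B0 c * dq true (RR Rs i) else 1)

lemma RR1 (hd : Dg B0 c N0 Rs) (i : ℕ) : 1 ≤ RR Rs i := by
  have := hd.r1
  unfold RR; omega

lemma Qre_ge (hw : LW w wa wb) (h : Bl B0 c u y J P) {i : ℕ} (hi : i < J)
    (ha : ∀ i, ‖α i‖ ≤ B0) (hb : ∀ i, ‖β i‖ ≤ B0) (hs : ‖s‖ ≤ B0) (hs' : ‖s'‖ ≤ B0) :
    -(8 * B0 ^ 2 * c) ≤ (QQ wa wb (α i) (β i) s s').re * vI (P i) := by
  have h1 := QQ_norm h.B1 hw (ha i) (hb i) hs hs'
  have h2 := (Complex.abs_re_le_norm (QQ wa wb (α i) (β i) s s')).trans h1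
  have h3 := vI_nonneg (P i)
  have h4 := h.v i hi
  have h5 : |(QQ wa wb (α i) (β i) s s').re * vI (P i)| ≤ 8 * B0 ^ 2 * c := by
    rw [abs_mul, abs_of_nonneg h3]
    exact mul_le_mul h2 h4 h3 (by positivity)
  linarith [(abs_le.mp h5).1]

lemma ai_ge (hw : LW w wa wb) (h : Bl B0 c u y J P) {i : ℕ} (hi : i < J)
    (ha : ∀ i, ‖α i‖ ≤ B0) (hb : ∀ i, ‖β i‖ ≤ B0) (hs : ‖s‖ ≤ B0) (hs' : ‖s'‖ ≤ B0) (m : ℕ) :
    4 * dq (decide (i = m)) (RR Rs i) * Real.exp (CB (30 * B0) * c) ≤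
      C2 B0 c * ai B0 c wa wb N0 Rs m α β s s' P i := by
  have hCB := CB_pos (B := 30 * B0) (by linarith [h.B1])
  have h1 := Qre_ge (u := u) hw h hi ha hb hs hs'
  have h2 : 0 ≤ CB (30 * B0) * uI (P i) + C1 B0 c * Real.exp (-((N0 * RR Rs i : ℕ) : ℝ)) := by
    have := uI_nonneg (P i)
    have := (C1_pos B0 c).le
    positivity
  have h3 : Real.exp (-(8 * B0 ^ 2 * c)) ≤ Real.exp ((QQ wa wb (α i) (β i) s s').re * vI (P i) +
    (CB (30 * B0) * uI (P i) + C1 B0 c * Real.exp (-((N0 * RR Rs i : ℕ) : ℝ)))) :=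
    Real.exp_le_exp.mpr (by linarith)
  have hC := C2_ge h.B1 h.c0
  have e1 : C2 B0 c * Real.exp (-(8 * B0 ^ 2 * c)) = 4 * Real.exp (CB (30 * B0) * c) := by
    unfold C2
    rw [Real.exp_add, Real.exp_neg]
    have := Real.exp_ne_zero (8 * B0 ^ 2 * c)
    field_simp
  have h4 : 4 * Real.exp (CB (30 * B0) * c) ≤ C2 B0 c * Real.exp ((QQ wa wb (α i) (β i) s s').re * vI (P i) +
    (CB (30 * B0) * uI (P i) + C1 B0 c * Real.exp (-((N0 * RR Rs i : ℕ) : ℝ)))) := by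
    rw [← e1]; exact mul_le_mul_of_nonneg_left h3 (by linarith)
  unfold ai
  by_cases hq : i = m
  · simp only [hq, decide_true, if_true]
    rw [hq] at h4
    have hd := dq_pos true (RR Rs m)
    calc 4 * dq true (RR Rs m) * Real.exp (CB (30 * B0) * c) =
        (4 * Real.exp (CB (30 * B0) * c)) * (1 * dq true (RR Rs m)) := by ring
      _ ≤ (C2 B0 c * Real.exp ((QQ wa wb (α m) (β m) s s').re * vI (P m) +
          (CB (30 * B0) * uI (P m) + C1 B0 c * Real.exp (-((N0 * RR Rs m : ℕ) : ℝ))))) *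
          (C2 B0 c * dq true (RR Rs m)) := by
        refine mul_le_mul h4 (mul_le_mul_of_nonneg_right hC hd.le) (by positivity) ?_
        exact mul_nonneg (by linarith) (Real.exp_pos _).le
      _ = _ := by ring
  · simp only [hq, decide_false, Bool.false_eq_true, if_false, mul_one]
    unfold dq
    simp only [Bool.false_eq_true, if_false, mul_one]
    exact h4

lemma fac_le (hw : PW w wa wb) (h : Bl B0 c u y J P) (hd : Dg B0 c N0 Rs) {i : ℕ} (hi : i < J)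
    (ha : ∀ i, ‖α i‖ ≤ B0) (hb : ∀ i, ‖β i‖ ≤ B0) (hs : ‖s‖ ≤ B0) (hs' : ‖s'‖ ≤ B0) (m : ℕ) :
    ‖lamC w (XQ (decide (i = m)) (N0 * RR Rs i) (RR Rs i) (α i) (β i) s s' (P i))‖ ≤
      ai B0 c wa wb N0 Rs m α β s s' P i := by
  by_cases hq : i = m
  · have h1 := XQ_crude (w := w) hw h.B1 (h.bp hi) true (N0 * RR Rs i) (RR1 hd i) (ha i) (hb i) hs hs'
    simp only [hq, decide_true] at h1 ⊢
    refine h1.trans ?_
    unfold ai
    simp only [decide_true, if_true]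
    have h2 := Qre_ge (u := u) hw.lw h hi ha hb hs hs'
    have h3 : 0 ≤ CB (30 * B0) * uI (P i) + C1 B0 c * Real.exp (-((N0 * RR Rs i : ℕ) : ℝ)) := by
      have hCB := CB_pos (B := 30 * B0) (by linarith [h.B1])
      have := uI_nonneg (P i)
      have := (C1_pos B0 c).le
      positivity
    rw [hq] at h2 h3
    have hdq := dq_pos true (RR Rs m)
    have e1 : 4 * dq true (RR Rs m) * Real.exp (CB (30 * B0) * c) =
        Real.exp (-(8 * B0 ^ 2 * c)) * (C2 B0 c * dq true (RR Rs m)) := by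
      unfold C2
      rw [Real.exp_add, Real.exp_neg]
      have := Real.exp_ne_zero (8 * B0 ^ 2 * c)
      field_simp
    rw [e1]
    refine mul_le_mul_of_nonneg_right (Real.exp_le_exp.mpr (by linarith)) ?_
    have := C2_ge h.B1 h.c0
    positivity
  · rw [XQ_false (decide_eq_false hq)]
    obtain ⟨e, he, h1⟩ := XB_main hw h.B1 h.c0 (h.bp hi) (h.u1 hi) (hd.ki i) (ha i) (hb i) hs hs'
    rw [h1, Complex.norm_exp]
    unfold ai
    simp only [hq, decide_false, Bool.false_eq_true, if_false, mul_one]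
    refine Real.exp_le_exp.mpr ?_
    rw [Complex.add_re, Complex.re_mul_ofReal]
    have := (Complex.re_le_norm e).trans he
    linarith

lemma prod_ai (h : Bl B0 c u y J P) (hd : Dg B0 c N0 Rs) (m : ℕ) :
    ∏ i ∈ range J, ai B0 c wa wb N0 Rs m α β s s' P i ≤
      Real.exp (∑ i ∈ range J, (QQ wa wb (α i) (β i) s s').re * vI (P i) + eps B0 c u Rs) * dm B0 c J Rs m := by
  unfold ai
  rw [prod_mul_distrib, ← Real.exp_sum, sum_add_distrib]
  refine mul_le_mul_of_nonneg_right (Real.exp_le_exp.mpr ?_) ?_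
  · have := sum_eps h hd
    linarith
  · refine prod_nonneg fun i _ => ?_
    split_ifs
    · exact mul_nonneg (by linarith [C2_ge h.B1 h.c0]) (dq_pos _ _).le
    · exact zero_le_one

theorem PF_le (hw : PW w wa wb) (h : Bl B0 c u y J P) (hd : Dg B0 c N0 Rs)
    (ha : ∀ i, ‖α i‖ ≤ B0) (hb : ∀ i, ‖β i‖ ≤ B0) (hs : ‖s‖ ≤ B0) (hs' : ‖s'‖ ≤ B0) (m : ℕ) :
    ‖lamC w (PF J N0 Rs m α β s s' P)‖ ≤
      Real.exp (∑ i ∈ range J, (QQ wa wb (α i) (β i) s s').re * vI (P i) + eps B0 c u Rs) * dm B0 c J Rs m := by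
  refine le_trans ?_ (prod_ai h hd m)
  unfold PF
  rw [lamC_prod hw.mw J h.dj fun i => XQ_mem (h.pp i) _ _ _ _ _ _ _, norm_prod]
  exact prod_le_prod (fun i _ => norm_nonneg _) fun i hi => fac_le hw h hd (mem_range.mp hi) ha hb hs hs' m

theorem PF_wl (h : Bl B0 c u y J P) (hd : Dg B0 c N0 Rs)
    (ha : ∀ i, ‖α i‖ ≤ B0) (hb : ∀ i, ‖β i‖ ≤ B0) (hs : ‖s‖ ≤ B0) (hs' : ‖s'‖ ≤ B0) (m : ℕ) :
    ‖lamC wl (PF J N0 Rs m α β s s' P)‖ ≤ (8 * (4 * N0 + 2) * C2 B0 c * ((Rs:ℝ) + 1) * Real.log y) *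
      (Real.exp (∑ i ∈ range J, (QQ 1 1 (α i) (β i) s s').re * vI (P i) + eps B0 c u Rs) * dm B0 c J Rs m) := by
  set Cc : ℕ → ℝ := fun i => 2 * ((4 * (N0 * RR Rs i) + 2 * RR Rs i : ℕ) * Real.log (bb y i)) * C2 B0 c with hCc
  have hlb : ∀ i < J, 0 ≤ Real.log (bb y i) := fun i hi => Real.log_nonneg (by have := h.b10 i hi; linarith)
  have hC2 := C2_ge h.B1 h.c0
  have h1 := lamCl_prod (I := P) (f := fun i => XQ (decide (i = m)) (N0 * RR Rs i) (RR Rs i) (α i) (β i) s s' (P i))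
    (C := Cc) (a := ai B0 c 1 1 N0 Rs m α β s s' P) J h.dj (fun i => XQ_mem (h.pp i) _ _ _ _ _ _ _)
    (fun i hi => fac_le pw1 h hd hi ha hb hs hs' m) (fun i hi => by
      have g1 := XQ_wl h.B1 (h.bp hi) (b := bb y i) (by have := h.b10 i hi; linarith)
        (fun p hp => (h.pr i p hp).2.2.2) (decide (i = m)) (N0 * RR Rs i) (RR1 hd i) (ha i) (hb i) hs hs'
      refine g1.trans ?_
      have g2 := ai_ge (N0 := N0) (Rs := Rs) pw1.lw h hi ha hb hs hs' m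
      have g3 := mul_le_mul_of_nonneg_left g2 (a := 2 * ((4 * (N0 * RR Rs i) + 2 * RR Rs i : ℕ) * Real.log (bb y i)))
        (by have := hlb i hi; positivity)
      rw [hCc]
      linarith)
  refine h1.trans ?_
  have h2 := prod_ai (wa := 1) (wb := 1) (α := α) (β := β) (s := s) (s' := s') h hd m
  have h3 : ∑ i ∈ range J, Cc i ≤ 8 * (4 * N0 + 2) * C2 B0 c * ((Rs:ℝ) + 1) * Real.log y := by
    have g1 : ∀ i ∈ range J, Cc i = (4 * (4 * N0 + 2) * C2 B0 c * Real.log y) * (((Rs:ℝ) + i) * (1 / 4) ^ i) := by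
      intro i _
      simp only [hCc]
      rw [log_bb]
      unfold RR
      push_cast
      ring
    rw [sum_congr rfl g1, ← mul_sum]
    have g2 := geo_sum Rs J
    have g3 := Real.log_nonneg h.y1
    calc _ ≤ (4 * (4 * N0 + 2) * C2 B0 c * Real.log y) * (2 * ((Rs:ℝ) + 1)) :=
          mul_le_mul_of_nonneg_left g2 (by positivity)
      _ = _ := by ring
  have h4 : 0 ≤ ∏ i ∈ range J, ai B0 c 1 1 N0 Rs m α β s s' P i :=
    prod_nonneg fun i hi => (norm_nonneg _).trans (fac_le pw1 h hd (mem_range.mp hi) ha hb hs hs' m)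
  have h5 := Real.log_nonneg h.y1
  exact mul_le_mul h3 h2 h4 (by positivity)

/-- the majorant of the product -/
noncomputable def PR (J N0 Rs m : ℕ) (B0 : ℝ) (P : ℕ → Finset ℕ) : DA :=
  ∏ i ∈ range J, XR (decide (i = m)) (N0 * RR Rs i) (RR Rs i) B0 (P i)

lemma PF_dm (ha : ∀ i, ‖α i‖ ≤ B0) (hb : ∀ i, ‖β i‖ ≤ B0) (hs : ‖s‖ ≤ B0) (hs' : ‖s'‖ ≤ B0) (m : ℕ) :
    Dm (PF J N0 Rs m α β s s' P) (PR J N0 Rs m B0 P) :=
  Dm.prod J fun i _ => Dm_XQ _ _ _ (ha i) (hb i) hs hs'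

lemma PR_Bd (h : Bl B0 c u y J P) (m : ℕ) :
    Bd (Real.exp (Real.log y * (4 * (4 * N0 + 2) * ((Rs:ℝ) + 1)))) (PR J N0 Rs m B0 P) := by
  have h1 : Bd (∏ i ∈ range J, (bb y i) ^ ((2 * (4 * N0 + 2)) * (Rs + i))) (PR J N0 Rs m B0 P) := by
    unfold PR
    refine Bd_prod J (fun i _ => (pow_pos (bb_pos y i) _).le) fun i hi => ?_
    have h2 := XR_Bd (b := bb y i) (by have := h.b10 i hi; linarith)
      (fun p hp => ⟨(h.pr i p hp).1, (h.pr i p hp).2.2.2⟩) (decide (i = m)) (N0 * RR Rs i) (RR Rs i) B0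
    rwa [show 4 * (N0 * RR Rs i) + 2 * RR Rs i = (2 * (4 * N0 + 2)) * (Rs + i) by unfold RR; ring] at h2
  refine h1.mono ((len h.y1 Rs J (2 * (4 * N0 + 2))).trans (le_of_eq ?_))
  push_cast
  ring_nf

lemma PR_l1 (h : Bl B0 c u y J P) (hd : Dg B0 c N0 Rs) (hN : 4 * B0 ≤ N0) (m : ℕ) :
    l1 (PR J N0 Rs m B0 P) ≤ Real.exp (Real.log y * (4 * (5 * N0 + 2) * ((Rs:ℝ) + 1))) := by
  have h1 : l1 (PR J N0 Rs m B0 P) ≤ ∏ i ∈ range J, (bb y i) ^ ((2 * (5 * N0 + 2)) * (Rs + i)) := by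
    unfold PR
    refine l1_prod J (fun i _ => (pow_pos (bb_pos y i) _).le) fun i hi => ?_
    have hb10 := h.b10 i hi
    have h2 := XR_l1 (B0 := B0) (b := bb y i) (by linarith [h.B1]) (by linarith)
      (fun p hp => ⟨(h.pr i p hp).1, (h.pr i p hp).2.2.2⟩) (decide (i = m)) (N0 * RR Rs i) (RR1 hd i)
    refine h2.trans ?_
    have h3 : Real.exp (4 * B0) ≤ (bb y i) ^ (N0 * RR Rs i) := by
      have h4 : Real.exp (4 * B0) ≤ Real.exp 1 ^ (N0 * RR Rs i) := by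
        rw [← Real.exp_nat_mul, mul_one]
        refine Real.exp_le_exp.mpr (hN.trans ?_)
        have : N0 ≤ N0 * RR Rs i := Nat.le_mul_of_pos_right _ (RR1 hd i)
        exact_mod_cast this
      refine h4.trans (pow_le_pow_left₀ (Real.exp_pos 1).le ?_ _)
      have := Real.exp_one_lt_d9
      linarith
    calc Real.exp (4 * B0) * bb y i ^ (4 * (N0 * RR Rs i) + 2 * RR Rs i) ≤
        bb y i ^ (N0 * RR Rs i) * bb y i ^ (4 * (N0 * RR Rs i) + 2 * RR Rs i) := by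
          refine mul_le_mul_of_nonneg_right h3 (by have := bb_pos y i; positivity)
      _ = _ := by
        rw [← pow_add]; congr 1; unfold RR; ring
  refine h1.trans ((len h.y1 Rs J (2 * (5 * N0 + 2))).trans (le_of_eq ?_))
  push_cast
  ring_nf

end

end Pool.Agent.KS6_29.LD
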