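import Pool.Agent.KS6_29.LD.Ker
import Pool.Agent.KS6_29.LD.Av2

set_option autoImplicit false

/-! Values of the products. -/

namespace Pool.Agent.KS6_29.LD

open Finset MeasureTheory Complex MonoidAlgebra
open Pool.Agent.W184.NZ
open Pool.Agent.H306R2.SM (om cl Yf)
open Pool.Agent.H262R4.TM (Rng Ck)

/-- the sum over the primes of a block on the critical line -/
noncomputable def Dv (P : ℕ → Finset ℕ) (i : ℕ) (t : ℝ) : ℂ := PI (P i) (cl t)

/-- the product of truncated exponentials -/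
noncomputable def AA (J N0 Rs : ℕ) (a : ℕ → ℂ) (P : ℕ → Finset ℕ) (t : ℝ) : ℂ :=
  ∏ i ∈ range J, EC (N0 * RR Rs i) (a i) (Dv P i t)

/-- the kernel -/
noncomputable def PHt (M J N0 Rs : ℕ) (yc : ℝ) (P : ℕ → Finset ℕ) (t : ℝ) : ℂ :=
  PH M J N0 Rs yc fun i => (Dv P i t).re

/-- the detector of large values -/
noncomputable def bdm (J Rs m : ℕ) (P : ℕ → Finset ℕ) (t : ℝ) : ℝ :=
  ∏ i ∈ range J, (if decide (i = m) then (‖Dv P i t‖ / RR Rs i) ^ (2 * RR Rs i) else 1)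

lemma bdm_nonneg (J Rs m : ℕ) (P : ℕ → Finset ℕ) (t : ℝ) : 0 ≤ bdm J Rs m P t := by
  unfold bdm
  refine prod_nonneg fun i _ => ?_
  split_ifs <;> positivity

lemma evC_xC (t : ℝ) (Q : Finset ℕ) : evC t (xC Q) = PI Q (cl t) := by
  unfold xC PI
  rw [map_sum]
  refine sum_congr rfl fun p _ => ?_
  rw [evC_single]
  simp [mh, cl]

lemma evC_yC (t : ℝ) {Q : Finset ℕ} (hQ : ∀ p ∈ Q, p.Prime) : evC t (yC Q) = starRingEnd ℂ (PI Q (cl t)) := by
  unfold yC PI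
  rw [map_sum, map_sum]
  refine sum_congr rfl fun p hp => ?_
  rw [evC_single, ← natCast_cpow_conj p (hQ p hp).ne_zero]
  have e : (starRingEnd ℂ) (-(cl t)) = -(1 / 2 - (t:ℂ) * Complex.I) := by
    unfold cl
    rw [map_neg, map_add, map_mul, Complex.conj_ofReal, Complex.conj_I, map_div₀, map_one, map_ofNat]
    ring
  rw [e]
  simp [mh]

lemma evC_pC (t : ℝ) {Q : Finset ℕ} (hQ : ∀ p ∈ Q, p.Prime) : evC t (pC Q) = (((PI Q (cl t)).re : ℝ) : ℂ) := by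
  unfold pC
  rw [map_smul, map_add, evC_xC, evC_yC t hQ, Complex.add_conj, smul_eq_mul]
  push_cast
  ring

lemma evC_QC (t : ℝ) {Q : Finset ℕ} (hQ : ∀ p ∈ Q, p.Prime) (R : ℕ) :
    evC t (QC R Q) = (((‖PI Q (cl t)‖ / R) ^ (2 * R) : ℝ) : ℂ) := by
  unfold QC
  rw [map_smul, map_mul, map_pow, map_pow, evC_xC, evC_yC t hQ, smul_eq_mul, ← mul_pow, Complex.mul_conj,
    Complex.normSq_eq_norm_sq]
  push_cast
  rw [div_pow, ← pow_mul, div_pow, one_pow]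
  ring

lemma evC_XQ (t : ℝ) {Q : Finset ℕ} (hQ : ∀ p ∈ Q, p.Prime) (q : Bool) (K R : ℕ) (a b s s' : ℂ) :
    evC t (XQ q K R a b s s' Q) = XW q K R a b s s' (PI Q (cl t)) := by
  unfold XQ XW XB XV
  rw [map_mul, map_mul, map_mul, map_mul, EC_map, EC_map, EC_map, EC_map, evC_xC, evC_yC t hQ, evC_pC t hQ]
  congr 1
  split_ifs
  · exact evC_QC t hQ R
  · exact map_one _

lemma conj_ec (K : ℕ) (b z : ℂ) : EC K b (starRingEnd ℂ z) = starRingEnd ℂ (EC K (starRingEnd ℂ b) z) := by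
  rw [EC_conj, Complex.conj_conj]

lemma evC_PF (t : ℝ) {P : ℕ → Finset ℕ} (hP : ∀ i, ∀ p ∈ P i, p.Prime) (J N0 Rs m : ℕ) (α β : ℕ → ℂ) (s s' : ℂ) :
    evC t (PF J N0 Rs m α β s s' P) =
      AA J N0 Rs α P t * starRingEnd ℂ (AA J N0 Rs (fun i => starRingEnd ℂ (β i)) P t) *
      (∏ i ∈ range J, EC (N0 * RR Rs i) s (((Dv P i t).re : ℝ) : ℂ)) *
      (∏ i ∈ range J, EC (N0 * RR Rs i) s' (((Dv P i t).re : ℝ) : ℂ)) * (bdm J Rs m P t : ℝ) := by
  unfold PF AA bdm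
  rw [map_prod, map_prod, Complex.ofReal_prod, ← prod_mul_distrib, ← prod_mul_distrib, ← prod_mul_distrib,
    ← prod_mul_distrib]
  refine prod_congr rfl fun i _ => ?_
  rw [evC_XQ t (hP i)]
  unfold XW XV
  rw [conj_ec]
  show _ = EC (N0 * RR Rs i) (α i) (Dv P i t) * _ * _ * _ * _
  congr 1
  split_ifs
  · rfl
  · simp

/-- the double sum -/
noncomputable def GG (M J N0 Rs m : ℕ) (yc : ℝ) (α β : ℕ → ℂ) (P : ℕ → Finset ℕ) : DC :=
  ∑ k ∈ range M, ∑ l ∈ range M, (1 / (M:ℂ) ^ 2 * Complex.exp (-(I * (xi M k - xi M l) * yc))) •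
    PF J N0 Rs m α β (I * xi M k) (-(I * xi M l)) P

lemma PH_conj (M J N0 Rs : ℕ) (y : ℝ) (p : ℕ → ℝ) : starRingEnd ℂ (PH M J N0 Rs y p) =
    ∑ l ∈ range M, (1 / (M:ℂ)) *
      (Complex.exp (I * xi M l * y) * ∏ i ∈ range J, EC (N0 * RR Rs i) (-(I * xi M l)) ((p i : ℝ) : ℂ)) := by
  unfold PH
  rw [map_sum]
  refine sum_congr rfl fun l _ => ?_
  rw [map_mul, map_mul, map_prod, ← Complex.exp_conj]
  congr 1
  · rw [map_div₀, map_one, Complex.conj_natCast]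
  · congr 1
    · congr 1
      rw [map_neg, map_mul, map_mul, Complex.conj_I, Complex.conj_ofReal, Complex.conj_ofReal]
      ring
    · refine prod_congr rfl fun i _ => ?_
      rw [EC_conj, Complex.conj_ofReal, map_mul, Complex.conj_I, Complex.conj_ofReal]
      congr 1
      ring

lemma evC_GG (t : ℝ) {P : ℕ → Finset ℕ} (hP : ∀ i, ∀ p ∈ P i, p.Prime) (M J N0 Rs m : ℕ) (yc : ℝ) (α β : ℕ → ℂ) :
    evC t (GG M J N0 Rs m yc α β P) =
      AA J N0 Rs α P t * starRingEnd ℂ (AA J N0 Rs (fun i => starRingEnd ℂ (β i)) P t) *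
      ((‖PHt M J N0 Rs yc P t‖ ^ 2 * bdm J Rs m P t : ℝ) : ℂ) := by
  have h1 : ((‖PHt M J N0 Rs yc P t‖ ^ 2 : ℝ) : ℂ) = ∑ k ∈ range M, ∑ l ∈ range M,
      (1 / (M:ℂ) ^ 2 * Complex.exp (-(I * (xi M k - xi M l) * yc))) *
      ((∏ i ∈ range J, EC (N0 * RR Rs i) (I * xi M k) (((Dv P i t).re : ℝ) : ℂ)) *
      (∏ i ∈ range J, EC (N0 * RR Rs i) (-(I * xi M l)) (((Dv P i t).re : ℝ) : ℂ))) := by
    rw [← Complex.normSq_eq_norm_sq, ← Complex.mul_conj]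
    unfold PHt
    rw [PH_conj]
    unfold PH
    rw [sum_mul_sum]
    refine sum_congr rfl fun k _ => sum_congr rfl fun l _ => ?_
    have e1 : Complex.exp (-(I * (xi M k - xi M l) * yc)) =
        Complex.exp (-(I * xi M k * yc)) * Complex.exp (I * xi M l * yc) := by
      rw [← Complex.exp_add]; congr 1; ring
    rw [e1]
    ring
  unfold GG
  rw [map_sum, Complex.ofReal_mul, h1, sum_mul, mul_sum]
  refine sum_congr rfl fun k _ => ?_
  rw [map_sum, sum_mul, mul_sum]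
  refine sum_congr rfl fun l _ => ?_
  rw [map_smul, evC_PF t hP, smul_eq_mul]
  ring

end Pool.Agent.KS6_29.LD
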