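import Pool.Agent.KS6_29.LD.Vl1

set_option autoImplicit false

/-! Bounds for the double sum. -/

namespace Pool.Agent.KS6_29.LD

open Finset MeasureTheory Complex MonoidAlgebra
open Pool.Agent.W184.NZ
open Pool.Agent.H306R2.SM (om cl Yf)
open Pool.Agent.H262R4.TM (Rng Ck)

lemma swp_xC (Q : Finset ℕ) : swp (xC Q) = yC Q := by
  unfold xC yC
  rw [map_sum]
  exact sum_congr rfl fun p _ => by rw [swp_single]; rfl

lemma swp_yC (Q : Finset ℕ) : swp (yC Q) = xC Q := by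
  unfold xC yC
  rw [map_sum]
  exact sum_congr rfl fun p _ => by rw [swp_single]; rfl

lemma swp_pC (Q : Finset ℕ) : swp (pC Q) = pC Q := by
  unfold pC
  rw [map_smul, map_add, swp_xC, swp_yC, add_comm]

lemma swp_XQ (q : Bool) (K R : ℕ) (a s s' : ℂ) (Q : Finset ℕ) : swp (XQ q K R a a s s' Q) = XQ q K R a a s s' Q := by
  unfold XQ XB
  rw [map_mul, map_mul, map_mul, map_mul, EC_map, EC_map, EC_map, EC_map, swp_xC, swp_yC, swp_pC,
    mul_comm (EC K a (yC Q))]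
  congr 1
  split_ifs
  · unfold QC
    rw [map_smul, map_mul, map_pow, map_pow, swp_xC, swp_yC, mul_comm (yC Q ^ R)]
  · exact map_one _

section
variable {B0 c u y yc : ℝ} {M J N0 Rs : ℕ} {P : ℕ → Finset ℕ} {α β : ℕ → ℂ} {w : ℕ × ℕ → ℝ} {wa wb : ℝ}

lemma swp_GG (m : ℕ) : swp (GG M J N0 Rs m yc α α P) = GG M J N0 Rs m yc α α P := by
  unfold GG
  rw [map_sum]
  refine sum_congr rfl fun k _ => ?_
  rw [map_sum]
  refine sum_congr rfl fun l _ => ?_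
  rw [map_smul]
  congr 1
  unfold PF
  rw [map_prod]
  exact prod_congr rfl fun i _ => swp_XQ _ _ _ _ _ _ _

lemma xi_nm (hB0 : 1 ≤ B0) {k : ℕ} (hk : k < M) : ‖I * (xi M k : ℂ)‖ ≤ B0 := by
  rw [norm_mul, Complex.norm_I, one_mul, Complex.norm_real, Real.norm_eq_abs]
  exact (xi_abs hk).trans (by linarith)

lemma xi_nm' (hB0 : 1 ≤ B0) {k : ℕ} (hk : k < M) : ‖-(I * (xi M k : ℂ))‖ ≤ B0 := by
  rw [norm_neg]; exact xi_nm hB0 hk

lemma ckl (yc a b : ℝ) : ‖(1 / (M:ℂ) ^ 2 * Complex.exp (-(I * (a - b) * yc)))‖ = 1 / (M:ℝ) ^ 2 := by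
  rw [norm_mul, norm_div, norm_one, norm_pow, Complex.norm_natCast,
    show -(I * ((a:ℂ) - b) * yc) = ((-((a - b) * yc) : ℝ) : ℂ) * I by push_cast; ring, Complex.norm_exp_ofReal_mul_I,
    mul_one]

lemma GG_dm (hM : 1 ≤ M) (hB0 : 1 ≤ B0) (ha : ∀ i, ‖α i‖ ≤ B0) (hb : ∀ i, ‖β i‖ ≤ B0) (m : ℕ) :
    Dm (GG M J N0 Rs m yc α β P) (PR J N0 Rs m B0 P) := by
  have h1 : Dm (GG M J N0 Rs m yc α β P) (∑ k ∈ range M, ∑ l ∈ range M, (1 / (M:ℝ) ^ 2) • PR J N0 Rs m B0 P) := by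
    unfold GG
    refine Dm.sum fun k hk => Dm.sum fun l hl => ?_
    refine (PF_dm ha hb (xi_nm hB0 (mem_range.mp hk)) (xi_nm' hB0 (mem_range.mp hl)) m).smul (le_of_eq ?_)
    exact ckl yc _ _
  have h2 : (∑ k ∈ range M, ∑ l ∈ range M, (1 / (M:ℝ) ^ 2) • PR J N0 Rs m B0 P) = PR J N0 Rs m B0 P := by
    rw [sum_const, sum_const, card_range, ← Nat.cast_smul_eq_nsmul ℝ, ← Nat.cast_smul_eq_nsmul ℝ, smul_smul, smul_smul]
    have hM0 : (M:ℝ) ≠ 0 := by exact_mod_cast (by omega : M ≠ 0)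
    have : (M:ℝ) * M * (1 / (M:ℝ) ^ 2) = 1 := by field_simp
    rw [this, one_smul]
  rwa [h2] at h1

lemma QQ_re (wa wb a b ξ ξ' : ℝ) : (QQ wa wb (a:ℂ) (b:ℂ) (I * ξ) (-(I * ξ'))).re =
    (a * b + wa * a + wb * b) - (ξ - ξ') ^ 2 / 4 := by
  have e1 : QQ wa wb (a:ℂ) (b:ℂ) (I * ξ) (-(I * ξ')) =
      (((a * b + wa * a + wb * b) - (ξ - ξ') ^ 2 / 4 : ℝ) : ℂ) + (((a + b + wa + wb) * (ξ - ξ') / 2 : ℝ) : ℂ) * I := by
    unfold QQ
    push_cast
    linear_combination (((ξ:ℂ) - ξ') ^ 2 / 4) * I_mul_I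
  rw [e1, Complex.add_re, Complex.ofReal_re, Complex.re_ofReal_mul, Complex.I_re, mul_zero, add_zero]

lemma GG_lam {a b : ℕ → ℝ} (hw : PW w wa wb) (h : Bl B0 c u y J P) (hd : Dg B0 c N0 Rs)
    (ha : ∀ i, |a i| ≤ B0) (hb : ∀ i, |b i| ≤ B0) (m : ℕ) :
    ‖lamC w (GG M J N0 Rs m yc (fun i => (a i : ℂ)) (fun i => (b i : ℂ)) P)‖ ≤
      Real.exp (∑ i ∈ range J, (a i * b i + wa * a i + wb * b i) * vI (P i) + eps B0 c u Rs) * dm B0 c J Rs m *
        SG M (∑ i ∈ range J, vI (P i)) := by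
  unfold GG SG
  rw [map_sum, mul_sum]
  refine (norm_sum_le _ _).trans (sum_le_sum fun k hk => ?_)
  rw [map_sum, mul_sum]
  refine (norm_sum_le _ _).trans (sum_le_sum fun l hl => ?_)
  rw [map_smul, smul_eq_mul, norm_mul, ckl]
  have h1 := PF_le hw h hd (α := fun i => (a i : ℂ)) (β := fun i => (b i : ℂ))
    (fun i => by rw [Complex.norm_real]; exact ha i) (fun i => by rw [Complex.norm_real]; exact hb i)
    (xi_nm h.B1 (mem_range.mp hk)) (xi_nm' h.B1 (mem_range.mp hl)) m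
  refine (mul_le_mul_of_nonneg_left h1 (by positivity)).trans (le_of_eq ?_)
  have e1 : ∑ i ∈ range J, (QQ wa wb (a i : ℂ) (b i : ℂ) (I * xi M k) (-(I * xi M l))).re * vI (P i) =
      ∑ i ∈ range J, (a i * b i + wa * a i + wb * b i) * vI (P i) +
        -((xi M k - xi M l) ^ 2 * (∑ i ∈ range J, vI (P i)) / 4) := by
    simp_rw [QQ_re]
    rw [mul_sum, sum_div, ← sum_neg_distrib, ← sum_add_distrib]
    exact sum_congr rfl fun i _ => by ring
  rw [e1, show ∑ i ∈ range J, (a i * b i + wa * a i + wb * b i) * vI (P i) +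
        -((xi M k - xi M l) ^ 2 * (∑ i ∈ range J, vI (P i)) / 4) + eps B0 c u Rs =
        (∑ i ∈ range J, (a i * b i + wa * a i + wb * b i) * vI (P i) + eps B0 c u Rs) +
        -((xi M k - xi M l) ^ 2 * (∑ i ∈ range J, vI (P i)) / 4) by ring, Real.exp_add _ (-_)]
  ring

lemma GG_wl {a b : ℕ → ℝ} (h : Bl B0 c u y J P) (hd : Dg B0 c N0 Rs)
    (ha : ∀ i, |a i| ≤ B0) (hb : ∀ i, |b i| ≤ B0) (m : ℕ) :
    ‖lamC wl (GG M J N0 Rs m yc (fun i => (a i : ℂ)) (fun i => (b i : ℂ)) P)‖ ≤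
      (8 * (4 * N0 + 2) * C2 B0 c * ((Rs:ℝ) + 1) * Real.log y) *
      (Real.exp (∑ i ∈ range J, (a i * b i + a i + b i) * vI (P i) + eps B0 c u Rs) * dm B0 c J Rs m *
        SG M (∑ i ∈ range J, vI (P i))) := by
  unfold GG SG
  rw [map_sum, mul_sum, mul_sum]
  refine (norm_sum_le _ _).trans (sum_le_sum fun k hk => ?_)
  rw [map_sum, mul_sum, mul_sum]
  refine (norm_sum_le _ _).trans (sum_le_sum fun l hl => ?_)
  rw [map_smul, smul_eq_mul, norm_mul, ckl]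
  have h1 := PF_wl h hd (α := fun i => (a i : ℂ)) (β := fun i => (b i : ℂ))
    (fun i => by rw [Complex.norm_real]; exact ha i) (fun i => by rw [Complex.norm_real]; exact hb i)
    (xi_nm h.B1 (mem_range.mp hk)) (xi_nm' h.B1 (mem_range.mp hl)) m
  refine (mul_le_mul_of_nonneg_left h1 (by positivity)).trans (le_of_eq ?_)
  have e1 : ∑ i ∈ range J, (QQ 1 1 (a i : ℂ) (b i : ℂ) (I * xi M k) (-(I * xi M l))).re * vI (P i) =
      ∑ i ∈ range J, (a i * b i + a i + b i) * vI (P i) +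
        -((xi M k - xi M l) ^ 2 * (∑ i ∈ range J, vI (P i)) / 4) := by
    simp_rw [QQ_re]
    rw [mul_sum, sum_div, ← sum_neg_distrib, ← sum_add_distrib]
    exact sum_congr rfl fun i _ => by ring
  rw [e1, show ∑ i ∈ range J, (a i * b i + a i + b i) * vI (P i) +
        -((xi M k - xi M l) ^ 2 * (∑ i ∈ range J, vI (P i)) / 4) + eps B0 c u Rs =
        (∑ i ∈ range J, (a i * b i + a i + b i) * vI (P i) + eps B0 c u Rs) +
        -((xi M k - xi M l) ^ 2 * (∑ i ∈ range J, vI (P i)) / 4) by ring, Real.exp_add _ (-_)]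
  ring

/-- the lower bound -/
lemma GG_ge {a : ℕ → ℝ} (h : Bl B0 c u y J P) (hd : Dg B0 c N0 Rs)
    (ha : ∀ i, |a i| ≤ B0) (ha' : ∀ i, |a i - 1| ≤ B0) (he : eps B0 c u Rs ≤ 1 / 4)
    (hy : yc = ∑ i ∈ range J, a i * vI (P i)) {m : ℕ} (hm : J ≤ m) :
    1 / 2 * (Real.exp (∑ i ∈ range J, a i ^ 2 * vI (P i)) * SG M (∑ i ∈ range J, vI (P i))) ≤
    ‖lamC wf (GG M J N0 Rs m yc (fun i => ((a i - 1 : ℝ) : ℂ)) (fun i => (a i : ℂ)) P)‖ := by
  refine le_trans ?_ (Complex.re_le_norm _)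
  unfold GG SG
  rw [map_sum, mul_sum, mul_sum, Complex.re_sum]
  refine sum_le_sum fun k hk => ?_
  rw [map_sum, mul_sum, mul_sum, Complex.re_sum]
  refine sum_le_sum fun l hl => ?_
  rw [map_smul, smul_eq_mul]
  obtain ⟨E, hE1, hE2⟩ := PF_main pwf h hd hm (α := fun i => ((a i - 1 : ℝ) : ℂ)) (β := fun i => (a i : ℂ))
    (fun i => by rw [Complex.norm_real]; exact ha' i) (fun i => by rw [Complex.norm_real]; exact ha i)
    (xi_nm h.B1 (mem_range.mp hk)) (xi_nm' h.B1 (mem_range.mp hl))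
  rw [hE2]
  have e1 : (1 / (M:ℂ) ^ 2 * Complex.exp (-(I * (xi M k - xi M l) * yc))) *
      Complex.exp (∑ i ∈ range J, QQ 0 1 ((a i - 1 : ℝ) : ℂ) (a i : ℂ) (I * xi M k) (-(I * xi M l)) * (vI (P i) : ℝ) + E) =
      ((1 / (M:ℝ) ^ 2 * Real.exp (∑ i ∈ range J, a i ^ 2 * vI (P i) +
        -((xi M k - xi M l) ^ 2 * (∑ i ∈ range J, vI (P i)) / 4)) : ℝ) : ℂ) * Complex.exp E := by
    push_cast
    rw [mul_assoc, ← Complex.exp_add, mul_assoc (_ : ℂ) _ (Complex.exp E), ← Complex.exp_add]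
    congr 2
    rw [hy]
    push_cast
    rw [mul_sum, mul_sum, sum_div, ← sum_neg_distrib, ← sum_neg_distrib, ← add_assoc, ← sum_add_distrib, ← sum_add_distrib]
    congr 1
    refine sum_congr rfl fun i _ => ?_
    unfold QQ
    push_cast
    linear_combination (((xi M k:ℂ) - xi M l) ^ 2 / 4 * (vI (P i) : ℂ)) * I_mul_I
  rw [e1, Complex.re_ofReal_mul]
  have h2 : 1 / 2 ≤ (Complex.exp E).re := by
    have h3 : ‖Complex.exp E - 1‖ ≤ 2 * ‖E‖ := Complex.norm_exp_sub_one_le (by linarith)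
    have h4 := Complex.abs_re_le_norm (Complex.exp E - 1)
    rw [Complex.sub_re, Complex.one_re] at h4
    have h5 := (abs_le.mp h4).1
    linarith
  rw [Real.exp_add]
  have h3 : 0 ≤ 1 / (M:ℝ) ^ 2 * (Real.exp (∑ i ∈ range J, a i ^ 2 * vI (P i)) *
      Real.exp (-((xi M k - xi M l) ^ 2 * (∑ i ∈ range J, vI (P i)) / 4))) := by positivity
  have h4 := mul_le_mul_of_nonneg_left h2 h3
  refine le_trans (le_of_eq ?_) h4
  ring

end

end Pool.Agent.KS6_29.LD
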