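import Pool.Agent.KS6_29.LD.Vl2

set_option autoImplicit false

/-! The averages of the double sum. -/

namespace Pool.Agent.KS6_29.LD

open Finset MeasureTheory Complex MonoidAlgebra Filter
open Pool.Agent.W184.NZ
open Pool.Agent.H306R2.SM (om cl Yf)
open Pool.Agent.H262R4.TM (Rng Ck)

/-- the localised square of the product -/
noncomputable def FF (M J N0 Rs m : ℕ) (yc : ℝ) (a : ℕ → ℝ) (P : ℕ → Finset ℕ) (t : ℝ) : ℝ :=
  ‖AA J N0 Rs (fun i => (a i : ℂ)) P t‖ ^ 2 * (‖PHt M J N0 Rs yc P t‖ ^ 2 * bdm J Rs m P t)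

lemma FF_nonneg (M J N0 Rs m : ℕ) (yc : ℝ) (a : ℕ → ℝ) (P : ℕ → Finset ℕ) (t : ℝ) : 0 ≤ FF M J N0 Rs m yc a P t := by
  unfold FF
  have := bdm_nonneg J Rs m P t
  positivity

lemma evC_FF (t : ℝ) {P : ℕ → Finset ℕ} (hP : ∀ i, ∀ p ∈ P i, p.Prime) (M J N0 Rs m : ℕ) (yc : ℝ) (a : ℕ → ℝ) :
    evC t (GG M J N0 Rs m yc (fun i => (a i : ℂ)) (fun i => (a i : ℂ)) P) = ((FF M J N0 Rs m yc a P t : ℝ) : ℂ) := by
  rw [evC_GG t hP]
  have e1 : (fun i => starRingEnd ℂ ((a i : ℝ) : ℂ)) = fun i => ((a i : ℝ) : ℂ) := by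
    funext i; exact Complex.conj_ofReal _
  rw [e1, Complex.mul_conj, Complex.normSq_eq_norm_sq]
  unfold FF
  push_cast
  ring

section
variable {B0 c u y yc : ℝ} {M J N0 Rs : ℕ} {P : ℕ → Finset ℕ} {a : ℕ → ℝ}

/-- the lengths -/
noncomputable def Nn (N0 Rs : ℕ) (y : ℝ) : ℝ := Real.exp (Real.log y * (4 * (4 * N0 + 2) * ((Rs:ℝ) + 1)))
/-- the sizes -/
noncomputable def Ll (N0 Rs : ℕ) (y : ℝ) : ℝ := Real.exp (Real.log y * (4 * (5 * N0 + 2) * ((Rs:ℝ) + 1)))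

lemma FF_cont (h : Bl B0 c u y J P) (hM : 1 ≤ M) (ha : ∀ i, |a i| ≤ B0) (m : ℕ) :
    Continuous fun t => FF M J N0 Rs m yc a P t := by
  have h1 := evC_cont (GG_dm (N0 := N0) (Rs := Rs) (P := P) (J := J) (yc := yc) hM h.B1 (α := fun i => (a i : ℂ)) (β := fun i => (a i : ℂ))
    (fun i => by rw [Complex.norm_real]; exact ha i) (fun i => by rw [Complex.norm_real]; exact ha i) m)
    (PR_Bd (N0 := N0) (Rs := Rs) h m)
  have h2 := Complex.continuous_re.comp h1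
  refine h2.congr fun t => ?_
  simp only [Function.comp]
  rw [evC_FF t h.pp, Complex.ofReal_re]

lemma FF_le (h : Bl B0 c u y J P) (hM : 1 ≤ M) (ha : ∀ i, |a i| ≤ B0) (m : ℕ) (t : ℝ) :
    |FF M J N0 Rs m yc a P t| ≤ l1 (PR J N0 Rs m B0 P) := by
  have h1 := evC_le (GG_dm (N0 := N0) (Rs := Rs) (P := P) (J := J) (yc := yc) hM h.B1 (α := fun i => (a i : ℂ)) (β := fun i => (a i : ℂ))
    (fun i => by rw [Complex.norm_real]; exact ha i) (fun i => by rw [Complex.norm_real]; exact ha i) m)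
    (PR_Bd (N0 := N0) (Rs := Rs) h m) t
  rwa [evC_FF t h.pp, Complex.norm_real] at h1

/-- the plain average -/
theorem E1a (h : Bl B0 c u y J P) (hd : Dg B0 c N0 Rs) (hN : 4 * B0 ≤ N0) (hM : 1 ≤ M) (ha : ∀ i, |a i| ≤ B0)
    (m : ℕ) {A B : ℝ} (hAB : A ≤ B) :
    ∫ t in A..B, FF M J N0 Rs m yc a P t ≤
      (B - A) * (Real.exp (∑ i ∈ range J, a i ^ 2 * vI (P i) + eps B0 c u Rs) * dm B0 c J Rs m *
        SG M (∑ i ∈ range J, vI (P i))) + 2 * Nn N0 Rs y * Ll N0 Rs y := by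
  have hD := GG_dm (N0 := N0) (Rs := Rs) (P := P) (J := J) (yc := yc) hM h.B1 (α := fun i => (a i : ℂ)) (β := fun i => (a i : ℂ))
    (fun i => by rw [Complex.norm_real]; exact ha i) (fun i => by rw [Complex.norm_real]; exact ha i) m
  have h1 := avg0C (Real.exp_pos _).le hD (PR_Bd (N0 := N0) (Rs := Rs) h m) A B
  simp_rw [evC_FF _ h.pp] at h1
  rw [intervalIntegral.integral_ofReal] at h1
  have h2 := GG_lam (M := M) (yc := yc) pw0 h hd ha ha m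
  have h3 := PR_l1 h hd hN m
  have h4 := Complex.re_le_norm ((∫ t in A..B, FF M J N0 Rs m yc a P t : ℝ) -
    ((B - A : ℝ) : ℂ) * lamC w0 (GG M J N0 Rs m yc (fun i => (a i : ℂ)) (fun i => (a i : ℂ)) P))
  rw [Complex.sub_re, Complex.ofReal_re, Complex.re_ofReal_mul] at h4
  have h5 := (Complex.re_le_norm (lamC w0 (GG M J N0 Rs m yc (fun i => (a i : ℂ)) (fun i => (a i : ℂ)) P))).trans h2
  have h6 := mul_le_mul_of_nonneg_left h5 (sub_nonneg.mpr hAB)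
  have h7 : 2 * Nn N0 Rs y * l1 (PR J N0 Rs m B0 P) ≤ 2 * Nn N0 Rs y * Ll N0 Rs y :=
    mul_le_mul_of_nonneg_left h3 (by unfold Nn; positivity)
  have e1 : ∑ i ∈ range J, (a i * a i + 0 * a i + 0 * a i) * vI (P i) = ∑ i ∈ range J, a i ^ 2 * vI (P i) :=
    sum_congr rfl fun i _ => by ring
  rw [e1] at h6
  unfold Nn at h7 ⊢
  linarith

/-- the smooth average with the square of zeta -/
theorem E2a (h : Bl B0 c u y J P) (hd : Dg B0 c N0 Rs) (hN : 4 * B0 ≤ N0) (hM : 1 ≤ M) (ha : ∀ i, |a i| ≤ B0)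
    (m : ℕ) {k : ℕ} {Y e : ℝ} (hY : 0 < Y) (hk : 1 ≤ k) (he : 0 ≤ e)
    (hm : ∀ x : ℕ × ℕ, x.1 ≠ 0 → x.2 ≠ 0 → (x.1 : ℝ) ≤ Nn N0 Rs y → (x.2 : ℝ) ≤ Nn N0 Rs y →
      |Zm k Y x - Mn k Y x| ≤ e) :
    ∫ t in Set.Ioi (0:ℝ), wz k Y t * FF M J N0 Rs m yc a P t ≤
      (|Real.log (Yf k Y) + Ck k| + 8 * (4 * N0 + 2) * C2 B0 c * ((Rs:ℝ) + 1) * Real.log y) *
        (Real.exp (∑ i ∈ range J, (a i ^ 2 + 2 * a i) * vI (P i) + eps B0 c u Rs) * dm B0 c J Rs m *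
        SG M (∑ i ∈ range J, vI (P i))) + e * Ll N0 Rs y := by
  have hD := GG_dm (N0 := N0) (Rs := Rs) (P := P) (J := J) (yc := yc) hM h.B1 (α := fun i => (a i : ℂ)) (β := fun i => (a i : ℂ))
    (fun i => by rw [Complex.norm_real]; exact ha i) (fun i => by rw [Complex.norm_real]; exact ha i) m
  have h1 := avg1C hY hk he hm hD (PR_Bd (N0 := N0) (Rs := Rs) h m) (swp_GG m)
  simp_rw [evC_FF _ h.pp, ← Complex.ofReal_mul] at h1
  rw [integral_complex_ofReal] at h1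
  have h2 := GG_lam (M := M) (yc := yc) pw1 h hd ha ha m
  have h3 := PR_l1 h hd hN m
  have h4 := GG_wl (M := M) (yc := yc) h hd ha ha m
  have e1 : ∑ i ∈ range J, (a i * a i + 1 * a i + 1 * a i) * vI (P i) = ∑ i ∈ range J, (a i ^ 2 + 2 * a i) * vI (P i) :=
    sum_congr rfl fun i _ => by ring
  have e2 : ∑ i ∈ range J, (a i * a i + a i + a i) * vI (P i) = ∑ i ∈ range J, (a i ^ 2 + 2 * a i) * vI (P i) :=
    sum_congr rfl fun i _ => by ring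
  rw [e1] at h2
  rw [e2] at h4
  set Z := Real.exp (∑ i ∈ range J, (a i ^ 2 + 2 * a i) * vI (P i) + eps B0 c u Rs) * dm B0 c J Rs m *
        SG M (∑ i ∈ range J, vI (P i)) with hZ
  set X1 := lamC w1 (GG M J N0 Rs m yc (fun i => (a i : ℂ)) (fun i => (a i : ℂ)) P) with hX1
  set Xl := lamC wl (GG M J N0 Rs m yc (fun i => (a i : ℂ)) (fun i => (a i : ℂ)) P) with hXl
  set I1 := ∫ t in Set.Ioi (0:ℝ), wz k Y t * FF M J N0 Rs m yc a P t with hI1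
  have h5 : ‖((I1 : ℝ) : ℂ)‖ ≤ ‖((I1 : ℝ) : ℂ) - (((Real.log (Yf k Y) + Ck k : ℝ) : ℂ) * X1 - Xl)‖ +
      (‖((Real.log (Yf k Y) + Ck k : ℝ) : ℂ) * X1‖ + ‖Xl‖) := by
    have a1 := norm_add_le (((I1 : ℝ) : ℂ) - (((Real.log (Yf k Y) + Ck k : ℝ) : ℂ) * X1 - Xl))
      (((Real.log (Yf k Y) + Ck k : ℝ) : ℂ) * X1 - Xl)
    rw [sub_add_cancel] at a1
    have a2 := norm_sub_le (((Real.log (Yf k Y) + Ck k : ℝ) : ℂ) * X1) Xl
    linarith
  rw [norm_mul, Complex.norm_real, Complex.norm_real, Real.norm_eq_abs, Real.norm_eq_abs] at h5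
  have h6 := mul_le_mul_of_nonneg_left h2 (abs_nonneg (Real.log (Yf k Y) + Ck k))
  have h7 : e * l1 (PR J N0 Rs m B0 P) ≤ e * Ll N0 Rs y := mul_le_mul_of_nonneg_left h3 he
  have h8 := le_abs_self I1
  rw [add_mul]
  linarith

/-- the average with zeta -/
theorem E3a (h : Bl B0 c u y J P) (hd : Dg B0 c N0 Rs) (hN : 4 * B0 ≤ N0) (hM : 1 ≤ M) (ha : ∀ i, |a i| ≤ B0)
    (ha' : ∀ i, |a i - 1| ≤ B0) (he : eps B0 c u Rs ≤ 1 / 4) (hy : yc = ∑ i ∈ range J, a i * vI (P i)) {m : ℕ} (hm : J ≤ m)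
    {T : ℝ} (hT : 1 ≤ T) (hy1 : 1 ≤ y) (hNT : Nn N0 Rs y ≤ T) :
    T / 4 * (Real.exp (∑ i ∈ range J, a i ^ 2 * vI (P i)) * SG M (∑ i ∈ range J, vI (P i))) -
      (30 * Real.sqrt T + 8 * Nn N0 Rs y ^ 3) * Ll N0 Rs y ≤
    ‖∫ t in (T / 2)..T, riemannZeta (cl t) * (AA J N0 Rs (fun i => ((a i - 1 : ℝ) : ℂ)) P t *
      starRingEnd ℂ (AA J N0 Rs (fun i => (a i : ℂ)) P t) * ((‖PHt M J N0 Rs yc P t‖ ^ 2 : ℝ) : ℂ))‖ := by
  have hD := GG_dm (N0 := N0) (Rs := Rs) (P := P) (J := J) (yc := yc) hM h.B1 (α := fun i => ((a i - 1 : ℝ) : ℂ))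
    (β := fun i => (a i : ℂ))
    (fun i => by rw [Complex.norm_real]; exact ha' i) (fun i => by rw [Complex.norm_real]; exact ha i) m
  have hN1 : 1 ≤ Nn N0 Rs y := by
    unfold Nn
    refine Real.one_le_exp ?_
    have := Real.log_nonneg hy1
    positivity
  have h1 := avgF hT hN1 hNT hD (PR_Bd (N0 := N0) (Rs := Rs) h m)
  have h2 := GG_ge (M := M) h hd ha ha' he hy hm
  have h3 := PR_l1 h hd hN m
  have e1 : ∀ t, evC t (GG M J N0 Rs m yc (fun i => ((a i - 1 : ℝ) : ℂ)) (fun i => (a i : ℂ)) P) =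
      AA J N0 Rs (fun i => ((a i - 1 : ℝ) : ℂ)) P t *
      starRingEnd ℂ (AA J N0 Rs (fun i => (a i : ℂ)) P t) * ((‖PHt M J N0 Rs yc P t‖ ^ 2 : ℝ) : ℂ) := by
    intro t
    rw [evC_GG t h.pp]
    have e1 : (fun i => starRingEnd ℂ ((a i : ℝ) : ℂ)) = fun i => ((a i : ℝ) : ℂ) := by
      funext i; exact Complex.conj_ofReal _
    rw [e1]
    congr 2
    have e2 : bdm J Rs m P t = 1 := by
      unfold bdm
      refine prod_eq_one fun i hi => ?_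
      rw [mem_range] at hi
      rw [if_neg (by simp; omega)]
    rw [e2, mul_one]
  simp_rw [e1] at h1
  set Iz := ∫ t in (T / 2)..T, riemannZeta (cl t) * (AA J N0 Rs (fun i => ((a i - 1 : ℝ) : ℂ)) P t *
      starRingEnd ℂ (AA J N0 Rs (fun i => (a i : ℂ)) P t) * ((‖PHt M J N0 Rs yc P t‖ ^ 2 : ℝ) : ℂ)) with hIz
  set X := lamC wf (GG M J N0 Rs m yc (fun i => ((a i - 1 : ℝ) : ℂ)) (fun i => (a i : ℂ)) P) with hX
  have h4 : ‖((T / 2 : ℝ) : ℂ) * X‖ ≤ ‖Iz‖ + ‖Iz - ((T / 2 : ℝ) : ℂ) * X‖ := by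
    have a1 := norm_sub_le Iz (Iz - ((T / 2 : ℝ) : ℂ) * X)
    rwa [sub_sub_cancel] at a1
  rw [norm_mul, Complex.norm_real, Real.norm_eq_abs, abs_of_nonneg (by linarith : (0:ℝ) ≤ T / 2)] at h4
  have h5 := mul_le_mul_of_nonneg_left h2 (by linarith : (0:ℝ) ≤ T / 2)
  have h6 : (30 * Real.sqrt T + 8 * Nn N0 Rs y ^ 3) * l1 (PR J N0 Rs m B0 P) ≤
      (30 * Real.sqrt T + 8 * Nn N0 Rs y ^ 3) * Ll N0 Rs y :=
    mul_le_mul_of_nonneg_left h3 (by unfold Nn; positivity)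
  linarith

end

end Pool.Agent.KS6_29.LD
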