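import Pool.Agent.KS6_29.LD.Vl3

set_option autoImplicit false

/-! The averages for large `T`. -/

namespace Pool.Agent.KS6_29.LD

open Finset MeasureTheory Complex MonoidAlgebra Filter
open Pool.Agent.W184.NZ
open Pool.Agent.H306R2.SM (om cl Yf)
open Pool.Agent.H262R4.TM (Rng Ck)

section
variable {B0 c u η q ηm : ℝ} {N0 Rs : ℕ}

/-- the parameters -/
structure Pm (B0 c : ℝ) (N0 Rs : ℕ) (η q : ℝ) : Prop where
  dg : Dg B0 c N0 Rs
  n4 : 4 * B0 ≤ N0
  q0 : 0 < q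
  q1 : q ≤ 1 / 4
  e0 : 0 < η
  e1 : η * (4 * (5 * N0 + 2) * ((Rs:ℝ) + 1)) ≤ q / 100

lemma Pm.Ll (h : Pm B0 c N0 Rs η q) {T : ℝ} (hT : 0 ≤ Real.log T) :
    Ll N0 Rs (Real.exp (η * Real.log T)) ≤ Real.exp (q / 100 * Real.log T) := by
  unfold LD.Ll
  rw [Real.log_exp]
  refine Real.exp_le_exp.mpr ?_
  have := mul_le_mul_of_nonneg_right h.e1 hT
  linarith

lemma Pm.Nn (h : Pm B0 c N0 Rs η q) {T : ℝ} (hT : 0 ≤ Real.log T) :
    Nn N0 Rs (Real.exp (η * Real.log T)) ≤ Real.exp (q / 100 * Real.log T) := by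
  refine le_trans ?_ (h.Ll hT)
  unfold LD.Nn LD.Ll
  rw [Real.log_exp]
  refine Real.exp_le_exp.mpr ?_
  have h0 := h.e0
  have : (0:ℝ) ≤ η * Real.log T * ((Rs:ℝ) + 1) * N0 := by positivity
  nlinarith

lemma Pm.y1 (h : Pm B0 c N0 Rs η q) {T : ℝ} (hT : 0 ≤ Real.log T) : 1 ≤ Real.exp (η * Real.log T) := by
  have h0 := h.e0
  exact Real.one_le_exp (by positivity)

lemma Pm.hh (h : Pm B0 c N0 Rs η q) : η ≤ 1 := by
  have h1 := h.e1
  have h0 := h.e0
  have hq := h.q1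
  have h2 : (1:ℝ) ≤ 4 * (5 * N0 + 2) * ((Rs:ℝ) + 1) := by
    have : (0:ℝ) ≤ (N0:ℝ) * ((Rs:ℝ) + 1) := by positivity
    have : (0:ℝ) ≤ (Rs:ℝ) := by positivity
    nlinarith
  have := mul_le_mul_of_nonneg_left h2 h0.le
  linarith

lemma SG_nonneg (M : ℕ) (V : ℝ) : 0 ≤ SG M V := by
  unfold SG
  exact sum_nonneg fun _ _ => sum_nonneg fun _ _ => by positivity

lemma dm_nonneg (hB0 : 1 ≤ B0) (hc : 0 ≤ c) (J Rs m : ℕ) : 0 ≤ dm B0 c J Rs m := by
  unfold dm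
  have h2 := C2_ge hB0 hc
  refine prod_nonneg fun i _ => ?_
  split_ifs
  · exact mul_nonneg (by linarith) (dq_pos _ _).le
  · exact zero_le_one

/-- the zeroth averages -/
theorem E1 (hp : Pm B0 c N0 Rs η q) {T : ℝ} (hT : 1 ≤ T) (hL : 10 ≤ Real.log T) {J : ℕ} {P : ℕ → Finset ℕ}
    (h : Bl B0 c u (Real.exp (η * Real.log T)) J P) {M : ℕ} (hM : 1 ≤ M) {a : ℕ → ℝ} (ha : ∀ i, |a i| ≤ B0) (yc : ℝ) (m : ℕ) :
    ∫ t in (T / 2)..T, FF M J N0 Rs m yc a P t ≤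
      T * (Real.exp (∑ i ∈ range J, a i ^ 2 * vI (P i) + eps B0 c u Rs) * dm B0 c J Rs m *
        SG M (∑ i ∈ range J, vI (P i))) + T ^ (1 - q / 8) := by
  have hT0 : 0 < T := by linarith
  have hL0 : 0 ≤ Real.log T := by linarith
  have h1 := E1a (yc := yc) (M := M) h hp.dg hp.n4 hM ha m (by linarith : T / 2 ≤ T)
  refine h1.trans (add_le_add ?_ ?_)
  · refine mul_le_mul_of_nonneg_right (by linarith) ?_
    have := SG_nonneg M (∑ i ∈ range J, vI (P i))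
    have := dm_nonneg h.B1 h.c0 J Rs m
    positivity
  · have h2 := hp.Ll hL0
    have h3 := hp.Nn hL0
    have h4 : 2 * Nn N0 Rs (Real.exp (η * Real.log T)) * Ll N0 Rs (Real.exp (η * Real.log T)) ≤
        2 * Real.exp (q / 100 * Real.log T) * Real.exp (q / 100 * Real.log T) := by
      refine mul_le_mul (by linarith) h2 (by unfold Ll; positivity) (by positivity)
    refine h4.trans ?_
    rw [Real.rpow_def_of_pos hT0, mul_assoc, ← Real.exp_add]
    have h5 : (2:ℝ) ≤ Real.exp 1 := by have := Real.exp_one_gt_d9; linarith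
    have h6 := mul_le_mul_of_nonneg_right h5 (Real.exp_pos (q / 100 * Real.log T + q / 100 * Real.log T)).le
    rw [← Real.exp_add] at h6
    refine h6.trans (Real.exp_le_exp.mpr ?_)
    have hq := hp.q1
    have : q * Real.log T ≤ 1 / 4 * Real.log T := mul_le_mul_of_nonneg_right hq hL0
    nlinarith

/-- the average with zeta -/
theorem E3 (hp : Pm B0 c N0 Rs η q) (he : eps B0 c u Rs ≤ 1 / 4) {T : ℝ} (hT : 1 ≤ T) (hL : 10 ≤ Real.log T)
    {J : ℕ} {P : ℕ → Finset ℕ}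
    (h : Bl B0 c u (Real.exp (η * Real.log T)) J P) {M : ℕ} (hM : 1 ≤ M) {a : ℕ → ℝ} (ha : ∀ i, |a i| ≤ B0)
    (ha' : ∀ i, |a i - 1| ≤ B0) {yc : ℝ} (hy : yc = ∑ i ∈ range J, a i * vI (P i)) :
    T / 4 * (Real.exp (∑ i ∈ range J, a i ^ 2 * vI (P i)) * SG M (∑ i ∈ range J, vI (P i))) - T ^ (1 - q / 8) ≤
    ‖∫ t in (T / 2)..T, riemannZeta (cl t) * (AA J N0 Rs (fun i => ((a i - 1 : ℝ) : ℂ)) P t *
      starRingEnd ℂ (AA J N0 Rs (fun i => (a i : ℂ)) P t) * ((‖PHt M J N0 Rs yc P t‖ ^ 2 : ℝ) : ℂ))‖ := by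
  have hT0 : 0 < T := by linarith
  have hL0 : 0 ≤ Real.log T := by linarith
  have h2 := hp.Ll hL0
  have h3 := hp.Nn hL0
  have hq := hp.q1
  have hqL : q * Real.log T ≤ 1 / 4 * Real.log T := mul_le_mul_of_nonneg_right hq hL0
  have hNT : Nn N0 Rs (Real.exp (η * Real.log T)) ≤ T := by
    refine h3.trans ?_
    nth_rewrite 2 [← Real.exp_log hT0]
    exact Real.exp_le_exp.mpr (by linarith)
  refine le_trans (sub_le_sub_left ?_ _) (E3a h hp.dg hp.n4 hM ha ha' he hy le_rfl hT (hp.y1 hL0) hNT)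
  have h4 : Real.sqrt T = Real.exp (1 / 2 * Real.log T) := by
    rw [Real.sqrt_eq_rpow, Real.rpow_def_of_pos hT0, mul_comm]
  have h5 : Nn N0 Rs (Real.exp (η * Real.log T)) ^ 3 ≤ Real.exp (1 / 2 * Real.log T) := by
    calc _ ≤ Real.exp (q / 100 * Real.log T) ^ 3 := pow_le_pow_left₀ (by unfold Nn; positivity) h3 3
      _ = Real.exp (3 * (q / 100 * Real.log T)) := by rw [← Real.exp_nat_mul]; norm_num
      _ ≤ _ := Real.exp_le_exp.mpr (by linarith)
  have h6 : 30 * Real.sqrt T + 8 * Nn N0 Rs (Real.exp (η * Real.log T)) ^ 3 ≤ Real.exp 4 * Real.exp (1 / 2 * Real.log T) := by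
    have h7 : (50:ℝ) ≤ Real.exp 4 := by
      have a1 : (2.7:ℝ) ≤ Real.exp 1 := by have := Real.exp_one_gt_d9; linarith
      have a2 : Real.exp 4 = Real.exp 1 ^ 4 := by rw [← Real.exp_nat_mul]; norm_num
      rw [a2]
      exact le_trans (by norm_num) (pow_le_pow_left₀ (by norm_num) a1 4)
    rw [h4]
    have := mul_le_mul_of_nonneg_right h7 (Real.exp_pos (1 / 2 * Real.log T)).le
    have := Real.exp_pos (1 / 2 * Real.log T)
    linarith
  have h7 := mul_le_mul h6 h2 (by unfold Ll; positivity) (by positivity)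
  refine h7.trans ?_
  rw [← Real.exp_add, ← Real.exp_add, Real.rpow_def_of_pos hT0]
  exact Real.exp_le_exp.mpr (by nlinarith)

/-- the average with the square of zeta -/
theorem E2 (hηm : 0 < ηm)
    (hmono : ∀ᶠ Y : ℝ in atTop, ∀ k : ℕ, Rng Y k → ∀ x : ℕ × ℕ,
      x.1 ≠ 0 → x.2 ≠ 0 → (x.1 : ℝ) ≤ Y ^ ((1:ℝ) / 4) → (x.2 : ℝ) ≤ Y ^ ((1:ℝ) / 4) →
      |Zm k Y x - Mn k Y x| ≤ 2 * Y ^ (-ηm)) (hp : Pm B0 c N0 Rs η q) (hqm : q ≤ ηm) :
    ∀ᶠ T : ℝ in atTop, ∀ (J : ℕ) (P : ℕ → Finset ℕ), Bl B0 c u (Real.exp (η * Real.log T)) J P →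
      ∀ M : ℕ, 1 ≤ M → ∀ a : ℕ → ℝ, (∀ i, |a i| ≤ B0) → ∀ (yc : ℝ) (m : ℕ),
      ∫ t in (T / 2)..T, ‖riemannZeta (cl t)‖ ^ 2 * FF M J N0 Rs m yc a P t ≤
        16 * (8 + 8 * (4 * N0 + 2) * C2 B0 c * ((Rs:ℝ) + 1)) * (T * Real.log T) *
        (Real.exp (∑ i ∈ range J, (a i ^ 2 + 2 * a i) * vI (P i) + eps B0 c u Rs) * dm B0 c J Rs m *
        SG M (∑ i ∈ range J, vI (P i))) + T ^ (1 - q / 8) := by
  have hq0 := hp.q0
  have hq1 := hp.q1
  have ev1 : ∀ᶠ T : ℝ in atTop, ∀ x : ℝ, T ^ ((3:ℝ)/4) / 2 < x → ∀ k : ℕ, Rng x k → ∀ z : ℕ × ℕ,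
      z.1 ≠ 0 → z.2 ≠ 0 → (z.1 : ℝ) ≤ x ^ ((1:ℝ) / 4) → (z.2 : ℝ) ≤ x ^ ((1:ℝ) / 4) →
      |Zm k x z - Mn k x z| ≤ 2 * x ^ (-ηm) := by
    rw [eventually_atTop] at hmono
    obtain ⟨Y0, hY0⟩ := hmono
    have : Tendsto (fun T : ℝ => T ^ ((3:ℝ)/4) / 2) atTop atTop :=
      (tendsto_rpow_atTop (by norm_num)).atTop_div_const (by norm_num)
    filter_upwards [this.eventually_ge_atTop Y0] with T hT x hx
    exact hY0 x (hT.trans hx.le)
  filter_upwards [ev1, TC_ev ηm q Rs, Real.tendsto_log_atTop.eventually_ge_atTop (24 / q + 10),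
    eventually_ge_atTop 1] with T h1 h4 h6 hT1 J P hJ M hM a ha yc m
  obtain ⟨k, hk⟩ := h4
  have hT0 : 0 < T := by linarith
  set L := Real.log T with hL
  have hq10 : 0 < 24 / q := by positivity
  have hL0 : 0 < L := by linarith
  have hqL : 24 ≤ q * L := by
    have : q * (24 / q) = 24 := by field_simp
    nlinarith
  have hTe : T = Real.exp L := (Real.exp_log hT0).symm
  set y : ℝ := Real.exp (η * L) with hy
  have hly : Real.log y = η * L := Real.log_exp _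
  set V := ∑ i ∈ range J, vI (P i) with hVd
  set A : ℝ := T ^ ((3:ℝ)/4) with hA
  have hA0 : 0 < A := by positivity
  have hAe : A = Real.exp (3 / 4 * L) := by rw [hA, Real.rpow_def_of_pos hT0, mul_comm]
  have hAT2 : A ≤ T / 2 := by
    have h5 : (2:ℝ) ≤ Real.exp 1 := by have := Real.exp_one_gt_d9; linarith
    have h7 := mul_le_mul_of_nonneg_left h5 hA0.le
    rw [hAe, ← Real.exp_add] at h7
    have h8 : Real.exp (3 / 4 * L + 1) ≤ T := by rw [hTe]; exact Real.exp_le_exp.mpr (by linarith)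
    rw [hAe]
    linarith
  have hAT : A ≤ T := by linarith
  set Z := Real.exp (∑ i ∈ range J, (a i ^ 2 + 2 * a i) * vI (P i) + eps B0 c u Rs) * dm B0 c J Rs m * SG M V with hZ
  have hZ0 : 0 ≤ Z := by
    have := SG_nonneg M V
    have := dm_nonneg hJ.B1 hJ.c0 J Rs m
    positivity
  have hC2 := C2_ge hJ.B1 hJ.c0
  set C6 : ℝ := 8 + 8 * (4 * N0 + 2) * C2 B0 c * ((Rs:ℝ) + 1) with hC6
  have hC60 : 0 < C6 := by positivity
  have hη := hp.e0
  have hη1 := hp.hh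
  have hS : ∀ x ∈ Set.Ioc (A / 2) (8 * T), ∫ t in Set.Ioi (0:ℝ), wz k x t * FF M J N0 Rs m yc a P t ≤
      C6 * L * Z + Real.exp (-(q / 4 * L)) := by
    intro x hx
    have hx0 : 0 < x := by have := hx.1; linarith
    have hlx := hk.lg x hx
    have hm := h1 x hx.1 k (hk.rng x hx)
    have hxl : Nn N0 Rs y ≤ x ^ ((1:ℝ)/4) := by
      refine (hp.Nn hL0.le).trans ?_
      rw [Real.rpow_def_of_pos hx0]
      refine Real.exp_le_exp.mpr ?_
      have : q * L ≤ 1 / 4 * L := mul_le_mul_of_nonneg_right hq1 hL0.le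
      linarith
    have hG := E2a (yc := yc) hJ hp.dg hp.n4 hM ha m hx0 (by have := hk.k8; omega) (e := 2 * x ^ (-ηm)) (by positivity)
      (fun z z1 z2 z3 z4 => hm z z1 z2 (z3.trans hxl) (z4.trans hxl))
    refine hG.trans (add_le_add ?_ ?_)
    · refine mul_le_mul_of_nonneg_right ?_ hZ0
      rw [hly]
      have := hk.yf x hx
      have g3 : 8 * (4 * N0 + 2) * C2 B0 c * ((Rs:ℝ) + 1) * (η * L) ≤ 8 * (4 * N0 + 2) * C2 B0 c * ((Rs:ℝ) + 1) * (1 * L) := by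
        gcongr
      rw [hC6]
      linarith
    · have g5 : x ^ (-ηm) * Ll N0 Rs y ≤ Real.exp (-(q / 4 * L) - 1) := by
        rw [Real.rpow_def_of_pos hx0]
        refine (mul_le_mul_of_nonneg_left (hp.Ll hL0.le) (Real.exp_pos _).le).trans ?_
        rw [← Real.exp_add]
        refine Real.exp_le_exp.mpr ?_
        have g6 : ηm * (1 / 2 * L) ≤ ηm * Real.log x := mul_le_mul_of_nonneg_left hlx hηm.le
        have g7 : q * L ≤ ηm * L := mul_le_mul_of_nonneg_right hqm hL0.le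
        rw [← hL]
        linarith
      have g6 : (2:ℝ) ≤ Real.exp 1 := by have := Real.exp_one_gt_d9; linarith
      calc 2 * x ^ (-ηm) * Ll N0 Rs y = 2 * (x ^ (-ηm) * Ll N0 Rs y) := by ring
        _ ≤ Real.exp 1 * Real.exp (-(q / 4 * L) - 1) := mul_le_mul g6 g5 (by unfold Ll; positivity) (Real.exp_pos _).le
        _ = Real.exp (-(q / 4 * L)) := by rw [← Real.exp_add]; congr 1; ring
  have hg0 : ∀ t, 0 ≤ FF M J N0 Rs m yc a P t := fun t => FF_nonneg _ _ _ _ _ _ _ _ _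
  have hgc := FF_cont (N0 := N0) (Rs := Rs) (yc := yc) hJ hM ha m
  have hw := win hgc hg0 (FF_le (N0 := N0) (Rs := Rs) (yc := yc) hJ hM ha m) hk.k8 hA0 hAT (by positivity) hS
  have hzc : Continuous fun t : ℝ => riemannZeta (cl t) := by
    rw [continuous_iff_continuousAt]
    intro t
    have h1 : cl t ≠ 1 := by
      intro h
      have := congrArg Complex.re h
      simp [cl] at this
    exact ContinuousAt.comp (g := riemannZeta) (f := cl) (differentiableAt_riemannZeta h1).continuousAt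
      (by unfold cl; fun_prop)
  have hfc : Continuous fun t => ‖riemannZeta (cl t)‖ ^ 2 * FF M J N0 Rs m yc a P t := (hzc.norm.pow 2).mul hgc
  have hsub : ∫ t in (T / 2)..T, ‖riemannZeta (cl t)‖ ^ 2 * FF M J N0 Rs m yc a P t ≤
      ∫ t in A..T, ‖riemannZeta (cl t)‖ ^ 2 * FF M J N0 Rs m yc a P t := by
    rw [← intervalIntegral.integral_add_adjacent_intervals (hfc.intervalIntegrable A (T / 2)) (hfc.intervalIntegrable (T / 2) T)]
    have : 0 ≤ ∫ t in A..(T / 2), ‖riemannZeta (cl t)‖ ^ 2 * FF M J N0 Rs m yc a P t :=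
      intervalIntegral.integral_nonneg hAT2 fun t _ => mul_nonneg (by positivity) (hg0 t)
    linarith
  refine (hsub.trans hw).trans ?_
  have e1 : 16 * T * (C6 * L * Z + Real.exp (-(q / 4 * L))) = 16 * C6 * (T * L) * Z + 16 * T * Real.exp (-(q / 4 * L)) := by
    ring
  rw [e1]
  refine add_le_add le_rfl ?_
  have h7 : 16 ≤ Real.exp (q / 8 * L) := by
    have a1 : (2.7:ℝ) ≤ Real.exp 1 := by have := Real.exp_one_gt_d9; linarith
    have a2 : Real.exp 3 = Real.exp 1 ^ 3 := by rw [← Real.exp_nat_mul]; norm_num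
    have a3 : Real.exp 3 ≤ Real.exp (q / 8 * L) := Real.exp_le_exp.mpr (by linarith)
    refine le_trans ?_ a3
    rw [a2]
    exact le_trans (by norm_num) (pow_le_pow_left₀ (by norm_num) a1 3)
  rw [Real.rpow_def_of_pos hT0, ← hL]
  have h8 := mul_le_mul_of_nonneg_right h7 (mul_pos hT0 (Real.exp_pos (-(q / 4 * L)))).le
  calc 16 * T * Real.exp (-(q / 4 * L)) = 16 * (T * Real.exp (-(q / 4 * L))) := by ring
    _ ≤ _ := h8
    _ = Real.exp (L * (1 - q / 8)) := by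
      rw [hTe, ← Real.exp_add, ← Real.exp_add]; congr 1
      ring

end

end Pool.Agent.KS6_29.LD
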